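import Pool.Agent.P.MP_27dab6_co.SelfLev

/-!
The case where `a` and `b` have no second common tangent neighbour.
-/

set_option autoImplicit false

namespace Pool.Agent.P.MP_27dab6_co

open Finset Classical IsLocalRing

variable {V K : Type} [Field K]

theorem glue_ne {a b : V} (hab : a ≠ b) (v : V) : glue a b v ≠ b := by
  unfold glue
  split_ifs with h
  · exact hab
  · exact h

theorem glue_col {A : Type} {a b : V} {col : V → A} (h : col a = col b) (v : V) :
    col (glue a b v) = col v := by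
  unfold glue
  split_ifs with e
  · rw [h, e]
  · rfl

theorem glue_mem {a b : V} {S : Finset V} (ha : a ∈ S) {v : V} (hv : v ∈ S) : glue a b v ∈ S := by
  unfold glue
  split_ifs
  · exact ha
  · exact hv

theorem not_diag {B : SimpleGraph V} {U : Finset V} {e : Sym2 V} (he : e ∈ eIn B U) :
    ¬e.IsDiag := by
  rw [← mk_fs_sn e, Sym2.mk_isDiag_iff]
  exact (mem_eIn'.1 he).2.2.ne

theorem adj_fs_sn {G : SimpleGraph V} {i j : V} : G.Adj (fs s(i, j)) (sn s(i, j)) ↔ G.Adj i j := by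
  rcases fs_sn i j with ⟨h1, h2⟩ | ⟨h1, h2⟩ <;> rw [h1, h2]
  exact G.adj_comm _ _

namespace Set3

variable {G B : SimpleGraph V} {U : Finset V} {z w r : V → K} {x a b c : V} {ω : Sym2 V → K}
  (h : Set3 G B U z w r x a b c ω)

include h

theorem node_c {κ : Type} [Field κ] [CharZero κ]
    (hy : ∀ y ∈ U.erase x, G.Adj a y → G.Adj b y → False) {T : Finset (Sym2 V)}
    (hT : ∀ e ∈ T, e ∈ eIn B (U.erase x) ∧ G.Adj (fs e) (sn e)) :
    NodeBd (insertNone T) (fun o => o.elim a fs) (fun o => o.elim b sn)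
      (fun o => o.elim (-1 : κ) fun _ => 1) 2 4 := by
  refine Lev.ext_nodeBd (Lev.nodeBd_ne (κ := κ) (h.pm.nodeBd fun e he =>
    eIn_mono le_rfl (erase_subset _ _) (hT e he).1)) fun F hF S col hc ha hb hab hn => ?_
  have hinj : ∀ e ∈ F, ∀ e' ∈ F, e.map (glue a b) = e'.map (glue a b) → e = e' :=
    glue_inj (fun e => h.nab (mem_eIn.1 (hT _ (hF e)).1).2.2)
      (fun e he => not_diag (hT e (hF he)).1) fun j h1 h2 =>
        hy j (mem_eIn.1 (hT _ (hF h1)).1).2.1 (adj_fs_sn.1 (hT _ (hF h1)).2)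
          (adj_fs_sn.1 (hT _ (hF h2)).2)
  have hc' : ∀ e ∈ F, glue a b (fs e) ∈ S.erase b ∧ glue a b (sn e) ∈ S.erase b ∧
      col (glue a b (fs e)) ≠ col (glue a b (sn e)) := fun e he =>
    ⟨mem_erase.2 ⟨glue_ne h.ab _, glue_mem ha (hc e he).1⟩,
      mem_erase.2 ⟨glue_ne h.ab _, glue_mem ha (hc e he).2.1⟩, by
        rw [glue_col hab, glue_col hab]; exact (hc e he).2.2⟩
  have hS := card_erase_add_one hb
  rcases Nat.lt_or_ge F.card 2 with h1 | h1
  · obtain ⟨f, hf⟩ := card_pos.1 (show 0 < F.card by omega)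
    obtain ⟨m1, m2, e⟩ := hc' f hf
    have : 1 < (S.erase b).card := one_lt_card.2 ⟨_, m1, _, m2, fun e' => e (by rw [e'])⟩
    omega
  · have := h.pm.glued h.hx (mem_of_mem_erase h.ha) (mem_of_mem_erase h.hb) (h.le h.ta) (h.le h.tb)
      (fun e he => (hT e (hF he)).1) hinj (S.erase b) col hc' (three_le' hinj hc' h1)
    omega

variable [CharZero K]

theorem caseC₂ (hy : ∀ y ∈ U.erase x, G.Adj a y → G.Adj b y → False)
    (hz : z x - z a = r x + r a) (hw : w x - w a = r x + r a) {O : ValuationSubring K}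
    (hk : (Subfield.closure (prm G B U z w r x)).toSubring ≤ O.toSubring)
    (ht : O.valuation ((z x - z b) / (r x + r b) - 1) < 1) (hω : ∀ e ∈ eIn B U, ω e ∈ O) :
    ∀ e ∈ eIn B U, res O (ω e) = 0 := by
  have := charZero_res hk
  have aU := mem_of_mem_erase h.ha
  have bU := mem_of_mem_erase h.hb
  have cU := mem_of_mem_erase h.hc
  obtain ⟨ρ, hρ⟩ : ∃ ρ : V → ResidueField O, ρ = fun i => res O (r i) := ⟨_, rfl⟩
  have R : ∀ i ∈ U, Red O (r i) (ρ i) := fun i hi => hρ ▸ h.red_r hk hi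
  have lb : ρ x + ρ b ≠ 0 := hρ ▸ h.res_add_ne hk h.hx bU
  have n0 : ρ b - ρ a ≠ 0 := hρ ▸ h.res_sub_ne hk h.hb h.ha h.ab.symm
  have la : ρ x + ρ a ≠ 0 := hρ ▸ h.res_add_ne hk h.hx aU
  have za : Red O ((z x - z a) * 1⁻¹) (ρ x + ρ a) :=
    ((R x h.hx).add (R a aU)).congr (by rw [hz]; simp) rfl
  have wa : Red O ((w x - w a) * 1) (ρ x + ρ a) :=
    ((R x h.hx).add (R a aU)).congr (by rw [hw]; simp) rfl
  have zb : Red O ((z x - z b) * 1⁻¹) (ρ x + ρ b) :=
    (((red_zero_iff.2 ht).add Red.one).mul ((R x h.hx).add (R b bU))).congr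
      (by have := h.base.ne2 x b; field_simp; ring) (by ring)
  have wb : Red O ((w x - w b) * 1) (ρ x + ρ b) :=
    (Red.of_mul zb lb (((R x h.hx).add (R b bU)).pow 2)
      (by rw [← h.base.tan x b h.tb]; ring)).congr rfl (by field_simp)
  have zab : Red O ((z a - z b) * 1⁻¹) (ρ b - ρ a) := (zb.sub za).congr (by ring) (by ring)
  have wab : Red O ((w a - w b) * 1) (ρ b - ρ a) := (wb.sub wa).congr (by ring) (by ring)
  have v1 : O.valuation (z a - z b) = O.valuation 1 := by simpa using zab.val_eq_one n0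
  have v2 : O.valuation (w a - w b) = (O.valuation 1)⁻¹ := by simpa using wab.val_eq_one n0
  have hL : LD (U.erase x) O O z w (O.valuation 1) 1 :=
    LD.self one_ne_zero ⟨a, h.ha, b, h.hb, Or.inl v1⟩
  have hB := h.lev_bars hk hL
  rw [← hρ] at hB
  have e1 : hL.lev.ζ a - hL.lev.ζ b = ρ b - ρ a := (hL.redz h.ha h.hb v1.le).unique zab
  have e2 : hL.lev.ω a - hL.lev.ω b = ρ b - ρ a := (hL.redw h.ha h.hb v2.le).unique wab
  have hI : hL.lev.Int ρ a a ((eLv B U x O z (O.valuation 1)).filter fun e => G.Adj (fs e) (sn e))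
      fs sn a b :=
    ⟨hL.near h.ha h.hb v1.le v2.le, h.ab, fun e => h.ab (e.2.elim id id).symm,
      by rw [e1, e2]; ring, fun e => (e rfl).elim⟩
  have hN := h.node_c (κ := ResidueField O) hy
    (T := (eLv B U x O z (O.valuation 1)).filter fun e => G.Adj (fs e) (sn e))
    fun e he => ⟨(mem_filter.1 (mem_filter.1 he).1).1, (mem_filter.1 he).2⟩
  obtain ⟨ge, lz, lw⟩ := budget (O := O) (w := w) ⟨a, h.ha⟩ (eIn B (U.erase x)) {O.valuation 1}
    (fun γ => if γ = O.valuation 1 then 1 else 0)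
    (fun γ hγ => by
      rcases mem_union.1 hγ with e | e
      · rw [mem_singleton.1 e]; exact hL.ne
      · obtain ⟨e, he, rfl⟩ := mem_image.1 e
        exact (h.lev_edge he).ne)
    (fun γ hγ => by
      by_cases e : γ = O.valuation 1
      · rw [if_pos e, e]
        exact hB.ext_le hI hN (filter_split _)
      · rw [if_neg e]
        obtain ⟨e, he, rfl⟩ := mem_image.1
          ((mem_union.1 hγ).resolve_left fun e' => e (mem_singleton.1 e'))
        exact h.lev_le hk (h.lev_edge he))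
    (by have := h.card_e; simp; omega)
  have ge : hL.lev.Ge ((eLv B U x O z (O.valuation 1)).card + 1) := by
    have := ge _ (mem_singleton_self _)
    rw [if_pos rfl] at this
    exact this
  have lz : ∀ i ∈ U.erase x, ∀ j ∈ U.erase x, i ≠ j → O.valuation (z i - z j) = O.valuation 1 :=
    fun i hi j hj e => mem_singleton.1 (lz i hi j hj (h.base.nz i j e))
  have lw : ∀ i ∈ U.erase x, ∀ j ∈ U.erase x, i ≠ j →
      O.valuation (w i - w j) = (O.valuation 1)⁻¹ := fun i hi j hj e => by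
    rw [← mem_singleton.1 (lw i hi j hj (h.base.nw i j e)), inv_inv]
  have lz' : ∀ i ∈ U.erase x, ∀ j ∈ U.erase x, O.valuation (z i - z j) ≤ O.valuation 1 :=
    fun i hi j hj => by
      by_cases e : i = j
      · simp [e]
      · exact (lz i hi j hj e).le
  have lw' : ∀ i ∈ U.erase x, ∀ j ∈ U.erase x, O.valuation (w i - w j) ≤ (O.valuation 1)⁻¹ :=
    fun i hi j hj => by
      by_cases e : i = j
      · simp [e]
      · exact (lw i hi j hj e).le
  have all : eLv B U x O z (O.valuation 1) = eIn B (U.erase x) := filter_true_of_mem fun e he =>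
    lz _ (mem_eIn'.1 he).1 _ (mem_eIn'.1 he).2.1 (mem_eIn'.1 he).2.2.ne
  have zc : Red O ((z x - z c) * 1⁻¹) (ρ x + ρ a + (hL.lev.ζ a - hL.lev.ζ c)) :=
    (za.add (hL.redz h.ha h.hc (lz' _ h.ha _ h.hc))).congr (by ring) rfl
  have wc : Red O ((w x - w c) * 1) (ρ x + ρ a + (hL.lev.ω a - hL.lev.ω c)) :=
    (wa.add (hL.redw h.ha h.hc (lw' _ h.ha _ h.hc))).congr (by ring) rfl
  have nc : hL.lev.ζ a - hL.lev.ζ c ≠ hL.lev.ω a - hL.lev.ω c := fun col => by
    have m0 : hL.lev.ζ a - hL.lev.ζ c ≠ 0 := (hL.redz h.ha h.hc (lz' _ h.ha _ h.hc)).ne_zero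
      (by simpa using lz _ h.ha _ h.hc h.ac)
    have mT : ∀ i ∈ U.erase x, ∀ j ∈ U.erase x, G.Adj i j →
        s(i, j) ∈ (eLv B U x O z (O.valuation 1)).filter fun e => G.Adj (fs e) (sn e) :=
      fun i hi j hj e => mem_filter.2 ⟨all ▸ mem_eIn.2 ⟨hi, hj, h.le e⟩, adj_fs_sn.2 e⟩
    have tan : ∀ i ∈ U.erase x, ∀ j ∈ U.erase x, G.Adj i j →
        (hL.lev.ζ i - hL.lev.ζ j) * (hL.lev.ω i - hL.lev.ω j) = (ρ i + ρ j) ^ 2 :=
      fun i hi j hj e => (hL.prod (hL.near hi hj (lz' i hi j hj) (lw' i hi j hj))).eq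
        (((R i (mem_of_mem_erase hi)).add (R j (mem_of_mem_erase hj))).pow 2) (h.base.tan i j e)
    have hY : ({a, b, c} : Finset V) ⊆ U.erase x :=
      insert_subset h.ha (insert_subset h.hb (singleton_subset_iff.2 h.hc))
    obtain ⟨δz, δw, δr, d1, d2⟩ := ext_lemma G hL.lev.ζ hL.lev.ω ρ (U := U.erase x) (Y := {a, b, c})
      (fun i hi j hj e => ⟨tan i hi j hj e,
        hρ ▸ h.res_add_ne hk (mem_of_mem_erase hi) (mem_of_mem_erase hj)⟩)
      (fun v hv _ j hj j' hj' e e' hd => by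
        have := hB.ext_dir hI hN (filter_split _) ge (mT v hv j hj e) (mT v hv j' hj' e')
          ((fs_sn v j).imp id And.symm) ((fs_sn v j').imp id And.symm) hd
        exact (Sym2.congr_right.1 this).symm)
      hY (fun X hX hd hne => by
        obtain ⟨v, hv, h3⟩ := h.sp'.special hX hY hd hne
          (card_eq_three.2 ⟨a, b, c, h.ab, h.ac, h.bc, rfl⟩)
          (card_pos.2 ⟨s(a, b), mem_eIn.2 ⟨by simp, by simp, Or.inr (by
            simp [SimpleGraph.edge_adj, h.ab])⟩⟩)
        exact ⟨v, hv, (nbr_le (h.le.trans le_sup_left) _ _).trans h3⟩)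
      (fun _ => 0) (Pi.single c (hL.lev.ζ c - hL.lev.ζ a)) (Pi.single c (hL.lev.ω a - hL.lev.ω c)) 0
    obtain ⟨a1, a2, a3⟩ := d1 a (by simp)
    obtain ⟨b1, b2, b3⟩ := d1 b (by simp)
    obtain ⟨c1, c2, c3⟩ := d1 c (by simp)
    simp only [Pi.single_eq_of_ne h.ac, Pi.single_eq_of_ne h.bc, Pi.single_eq_same,
      Pi.zero_apply] at a1 a2 a3 b1 b2 b3 c1 c2 c3
    have d3 : ∀ i ∈ U.erase x, ∀ j ∈ U.erase x, G.Adj i j →
        lin hL.lev.ζ hL.lev.ω ρ δz δw δr i j = 0 := fun i hi j hj e => by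
      by_cases hij : i ∈ ({a, b, c} : Finset V) ∧ j ∈ ({a, b, c} : Finset V)
      · obtain ⟨m1, m2⟩ := hij
        simp only [mem_insert, mem_singleton] at m1 m2
        rcases m1 with m1 | m1 | m1 <;> rcases m2 with m2 | m2 | m2 <;> rw [m1, m2] <;>
          simp only [lin, row, a1, a2, a3, b1, b2, b3, c1, c2, c3] <;>
          first
          | ring1
          | linear_combination (hL.lev.ω b - hL.lev.ω a) * col +
              (hL.lev.ω a - hL.lev.ω c) * (e1 - e2)
      · exact d2 i hi j hj e (by tauto)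
    obtain ⟨D, hD, f1, f2⟩ := hB.hder δr
      (fun f => row hL.lev.ζ hL.lev.ω δz δw (fs f) (sn f)) rfl
    obtain ⟨θ, hθ⟩ := hB.ext_rig hI hN (filter_split _) ge (fun i => D (hL.lev.ζ i) - δz i)
      (fun i => D (hL.lev.ω i) - δw i)
      (fun i hi j hj e => by
        by_contra hne
        exact (hL.lz_iff.1 e).ne (lz i hi j hj fun e' => hne (by rw [e'])))
      (fun i hi j hj e => by
        by_contra hne
        exact (hL.lw_iff.1 e).ne (lw i hi j hj fun e' => hne (by rw [e'])))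
      (by
        have := congrArg D hI.tan
        rw [hD.prod, hD.sq, hD.sub, f1 a h.ha, f1 b h.hb, a3, b3] at this
        simp only [Lev.row, a1, a2, b1, b2]
        unfold row at this
        linear_combination this)
      (fun f hf => by
        by_cases e : G.Adj (fs f) (sn f)
        · obtain ⟨m1, m2, -⟩ := mem_eIn'.1 (all ▸ hf)
          have := congrArg D (tan _ m1 _ m2 e)
          rw [hD.prod, hD.sq, hD.add, f1 _ m1, f1 _ m2] at this
          have h3 := d3 _ m1 _ m2 e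
          unfold lin at h3
          unfold row at this h3
          unfold Lev.row
          linear_combination this - h3
        · have := f2 f (mem_filter.2 ⟨hf, e⟩)
          rw [hD.prod] at this
          unfold row at this
          unfold Lev.row
          linear_combination this)
    obtain ⟨p1, p2⟩ := hθ a h.ha b h.hb
    obtain ⟨q1, q2⟩ := hθ a h.ha c h.hc
    have p1 := p1 (hL.bz_iff.2 v1.le)
    have p2 := p2 (hL.bw_iff.2 v2.le)
    have q1 := q1 (hL.bz_iff.2 (lz' _ h.ha _ h.hc))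
    have q2 := q2 (hL.bw_iff.2 (lw' _ h.ha _ h.hc))
    have s1 := congrArg D (e1.trans e2.symm)
    have s2 := congrArg D col
    simp only [hD.sub] at s1 s2
    simp only [a1, a2, b1, b2, c1, c2, e1, e2] at p1 p2 q1 q2
    have θ0 : θ = 0 := by
      apply mul_right_cancel₀ n0
      linear_combination (p2 - p1 + s1) / 2
    apply m0
    rw [θ0] at q1 q2
    linear_combination (q2 - q1 + s2 + col) / 2
  have k1 := h.lead_z hk hω hL (fun _ => 0) (fun _ _ _ => rfl) 1 (by
    rintro j (rfl | rfl | rfl)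
    exacts [Or.inr za.1, Or.inr zb.1, Or.inr zc.1])
  have k2 := h.lead_w hk hω hL (fun _ => 0) (fun _ _ _ => rfl) 1 (by
    rintro j (rfl | rfl | rfl)
    exacts [Or.inr wa.1, Or.inr wb.1, Or.inr wc.1])
  simp only [sub_self, mul_zero, sum_const_zero, za.2, zb.2, zc.2, wa.2, wb.2, wc.2] at k1 k2
  have oc : res O (ω s(x, c)) = 0 := by
    apply mul_right_cancel₀ (sub_ne_zero.2 nc)
    linear_combination k1 - k2
  obtain ⟨g1, g2⟩ := hB.ext_sf hI hN (filter_split _) ge
    (-res O (ω s(x, a)) * (ρ x + ρ a) / (ρ b - ρ a)) (fun e => res O (ω e))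
    (fun φ hφ => by
      have := h.lead_w hk hω hL φ hφ 0 (by
        rintro j (rfl | rfl | rfl)
        exacts [Or.inr wa.1, Or.inr wb.1, Or.inr wc.1])
      rw [wa.2, wb.2, oc] at this
      rw [oc] at k2
      rw [e2, ← mul_assoc, div_mul_cancel₀ _ n0]
      linear_combination this + φ b * k2)
    (fun φ hφ => by
      have := h.lead_z hk hω hL φ hφ 0 (by
        rintro j (rfl | rfl | rfl)
        exacts [Or.inr za.1, Or.inr zb.1, Or.inr zc.1])
      rw [za.2, zb.2, oc] at this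
      rw [oc] at k2
      rw [e1, ← mul_assoc, div_mul_cancel₀ _ n0]
      linear_combination this + φ b * k2)
  have oa : res O (ω s(x, a)) = 0 := by simpa [n0, la] using g1
  intro e he
  rcases h.edge_cases he with he | rfl | rfl | rfl
  · exact g2 e (all ▸ he)
  · exact oa
  · rw [oa, oc] at k2
    simpa [lb] using k2
  · exact oc

theorem caseC₁ (hy : ∀ y ∈ U.erase x, G.Adj a y → G.Adj b y → False)
    (hz : z x - z a = r x + r a) (hw : w x - w a = r x + r a) : False := by
  obtain ⟨D, hD, h1, h2⟩ := h.exists_flex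
  have aU := mem_of_mem_erase h.ha
  have bU := mem_of_mem_erase h.hb
  have rx := h.cn_r h.hx D hD h1
  have ra := h.cn_r aU D hD h1
  have rb := h.cn_r bU D hD h1
  obtain ⟨O, hk, ht⟩ := exists_place _ (trans_of_der hD h1
    (z := (z x - z b) / (r x + r b) - 1) fun e => by
      have l0 := h.base.ne2 x b
      rw [hD.sub, hD.div, hD.add, rx, rb, hD.one] at e
      have e1 : D (z x - z b) = 0 := by simpa [l0] using e
      have e2 := congrArg D (h.base.tan x b h.tb)
      rw [hD.mul, hD.sq, hD.add, rx, rb, e1] at e2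
      have e2 : D (w x - w b) = 0 := by
        simpa [sub_ne_zero.2 (h.base.nz x b h.tb.ne)] using e2
      rw [show z a - z b = z x - z b - (r x + r a) by rw [← hz]; ring,
        show w a - w b = w x - w b - (r x + r a) by rw [← hw]; ring, hD.mul, hD.sub (z x - z b),
        hD.sub (w x - w b), hD.add, e1, e2, rx, ra] at h2
      simp at h2)
  obtain ⟨j, hj, e⟩ := h.nz x h.hx h.card_x
  obtain ⟨μ, h0, m1, f, hf, m2⟩ := exists_norm O (E := eIn B U) (ω := ω)
    ⟨s(x, j), mem_eIn.2 ⟨h.hx, mem_nbr.1 hj⟩, e⟩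
  exact m2 ((h.smul h0).caseC₂ hy hz hw hk ht m1 f hf)

omit [CharZero K] in
theorem frame {i j : V} (e : G.Adj i j) : ∃ u : K, u ≠ 0 ∧ z i / u - z j / u = r i + r j ∧
    w i * u - w j * u = r i + r j := by
  have l0 := h.base.ne2 i j
  have z0 := sub_ne_zero.2 (h.base.nz i j e.ne)
  refine ⟨(z i - z j) / (r i + r j), div_ne_zero z0 l0, by field_simp, ?_⟩
  field_simp
  linear_combination h.base.tan i j e

theorem caseC (hy : ∀ y ∈ U.erase x, G.Adj a y → G.Adj b y → False) : False := by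
  obtain ⟨u, hu, h1, h2⟩ := h.frame h.ta
  exact (h.scale hu).caseC₁ hy h1 h2

end Set3

end Pool.Agent.P.MP_27dab6_co
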