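import Pool.Agent.P.MP_27dab6_co.Rig3

/-!
The case where `a` and `b` have a second common tangent neighbour.
-/

set_option autoImplicit false

namespace Pool.Agent.P.MP_27dab6_co

open Finset Classical IsLocalRing

variable {V K : Type} [Field K]

/-- the parameters without the radius of `a` -/
def prm0 (G B : SimpleGraph V) (U : Finset V) (z w r : V → K) (x a : V) : Set K :=
  pset ((U.erase x).erase a) (fr G B (U.erase x)) r (bt z w)

theorem prm0_swap (G B : SimpleGraph V) (U : Finset V) (z w r : V → K) (x a : V) :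
    prm0 G B U w z r x a = prm0 G B U z w r x a := by
  rw [prm0, show bt w z = bt z w from funext fun e => bt_comm _ _ e, prm0]

theorem prm0_sub {G B : SimpleGraph V} {U : Finset V} {z w r : V → K} {x a : V} :
    prm0 G B U z w r x a ⊆ prm G B U z w r x :=
  Set.union_subset_union_left _ (Set.image_mono (coe_subset.2 (erase_subset _ _)))

namespace Set3

variable {G B : SimpleGraph V} {U : Finset V} {z w r : V → K} {x a b c : V} {ω : Sym2 V → K}
  (h : Set3 G B U z w r x a b c ω) [CharZero K] {O : ValuationSubring K}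

include h

section

variable (hk : (Subfield.closure (prm0 G B U z w r x a)).toSubring ≤ O.toSubring)
  (hA : O.valuation (r b - r a) < 1)

include hk hA

theorem at3 : At3 G B U z w r x a b O := by
  have m : ∀ t ∈ prm0 G B U z w r x a, t ∈ O := fun t ht => hk (Subfield.subset_closure ht)
  have rb : r b ∈ O := m _ (r_mem_pset (mem_erase.2 ⟨h.ab.symm, h.hb⟩))
  have ra : Red O (r a) (res O (r b)) :=
    ((Red.of_mem rb).sub (red_zero_iff.2 hA)).congr (by ring) (sub_zero _)
  refine ⟨charZero_res hk, fun i hi => ?_, fun f hf => m _ (n_mem_pset hf), hA, fun ρ c e => ?_⟩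
  · by_cases e : i = a
    · rw [e]; exact ra.1
    · exact m _ (r_mem_pset (mem_erase.2 ⟨e, hi⟩))
  · obtain ⟨D, a1, a2, a3⟩ := (h.ind'.mono (erase_subset a _) Subset.rfl).res hk ρ c
    refine ⟨D, a1, fun i hi => ?_, a3⟩
    by_cases e' : i = a
    · rw [e', ra.2, e]; exact a2 b (mem_erase.2 ⟨h.ab.symm, h.hb⟩)
    · exact a2 i (mem_erase.2 ⟨e', hi⟩)

theorem kil {d : ResidueField O → ResidueField O} (hd : IsDer d)
    (hS : ∀ t ∈ prm0 G B U z w r x a, d (res O t) = 0) : Kil G B U z w r x O d := by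
  refine ⟨hd, fun i hi => ?_, fun f hf => hS _ (n_mem_pset hf)⟩
  by_cases e : i = a
  · rw [e, ← (h.at3 hk hA).res_ab h.ha h.hb]
    exact hS _ (r_mem_pset (mem_erase.2 ⟨h.ab.symm, h.hb⟩))
  · exact hS _ (r_mem_pset (mem_erase.2 ⟨e, hi⟩))

theorem rho_const (hρ : (r x + r b) / (r x + r a) ∈ O) {d : ResidueField O → ResidueField O}
    (hd : IsDer d) (hS : ∀ t ∈ prm0 G B U z w r x a, d (res O t) = 0) :
    d (res O ((r x + r b) / (r x + r a))) = 0 := by
  refine alg_spec hk (sub_ne_zero.2 (h.r_ne h.hb h.ha h.ab.symm)) hA hρ (fun D hD h1 h2 => ?_) hd hS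
  refine (((h.cn_r h.hx).add (h.cn_r (mem_of_mem_erase h.hb))).div
    ((h.cn_r h.hx).add (h.cn_r (mem_of_mem_erase h.ha)))) D hD
    (kill_pset (fun i hi => ?_) fun f hf => h1 _ (n_mem_pset hf))
  by_cases e : i = a
  · rw [hD.sub, h1 _ (r_mem_pset (mem_erase.2 ⟨h.ab.symm, h.hb⟩))] at h2
    rw [e]; simpa using h2
  · exact h1 _ (r_mem_pset (mem_erase.2 ⟨e, hi⟩))

end

variable {y : V} (hy : y ∈ U.erase x) (ya : G.Adj y a) (yb : G.Adj y b)

include hy ya yb

omit [CharZero K] in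
theorem quad (hz : z y - z a = r y + r a) (hw : w y - w a = r y + r a) :
    Quad (r x + r a) (r x + r b) (r y + r a) (r y + r b) (z b - z a) (w b - w a) (z x - z a)
      (w x - w a) (sig z r x a b y) :=
  h.base.quad (mem_erase.1 hy).1.symm h.ta h.tb ya yb (h.r_ne h.ha h.hb h.ab) hz hw

omit [CharZero K] in
theorem x0 (A : At3 G B U z w r x a b O) (hσ : sig z r x a b y ∈ O)
    {d : ResidueField O → ResidueField O} (hd : Kil G B U z w r x O d)
    (hs : d (res O (sig z r x a b y)) ≠ 0) (hρ : O.valuation ((r x + r b) / (r x + r a)) < 1) :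
    False := by
  obtain ⟨u, hu, h1, h2⟩ := h.frame ya
  have hq := (h.scale hu).quad hy ya yb h1 h2
  rw [sig_scale _ _ _ _ _ _ hu] at hq
  exact (h.scale hu).x0₁ hy (A.scale hu) hq ya yb h1 hσ (hd.scale hu) hs hρ

theorem plus (hk : (Subfield.closure (prm0 G B U z w r x a)).toSubring ≤ O.toSubring)
    (hA : O.valuation (r b - r a) < 1) (hz : z y - z a = r y + r a) {σ : K}
    (hq : Quad (r x + r a) (r x + r b) (r y + r a) (r y + r b) (z b - z a) (w b - w a) (z x - z a)
      (w x - w a) σ) (hσ : σ ∈ O) {d : ResidueField O → ResidueField O} (hd : IsDer d)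
    (hS : ∀ t ∈ prm0 G B U z w r x a, d (res O t) = 0) (hs : d (res O σ) ≠ 0)
    (hρ : (r x + r b) / (r x + r a) ∈ O) {v : V} (hv : v ∈ U.erase x) (hvx : ¬B.Adj x v)
    (h3 : (nbr B U v).card = 3) :
    2 ≤ ((nbr B U v).filter fun j => O.valuation (z v - z j) < 1).card := by
  have A := h.at3 hk hA
  obtain ⟨vZ, vW⟩ := h.vals3 hy A hq (Red.of_mem hρ) (Red.of_mem hσ) hd
    (h.rho_const hk hA hρ hd hS) hs
  have T := h.tight3 hy ya yb A hz (vZ ▸ A.hA) (vW.trans vZ.symm)
  generalize O.valuation (z b - z a) = l at T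
  obtain ⟨F, hF⟩ : ∃ F : Finset K, ∀ t, t ∈ F ↔ t = (r x + r b) / (r x + r a) ∨
      ∃ i ∈ U.erase x, ∃ j ∈ U.erase x, t = qz O z w a b i j ∨ t = qw O z w a b i j :=
    ⟨insert ((r x + r b) / (r x + r a))
      ((U.erase x ×ˢ U.erase x).image (fun p => qz O z w a b p.1 p.2) ∪
        (U.erase x ×ˢ U.erase x).image fun p => qw O z w a b p.1 p.2), fun t => by
      simp only [mem_insert, mem_union, mem_image, mem_product, Prod.exists]
      refine or_congr_right ⟨?_, ?_⟩
      · rintro (⟨i, j, ⟨hi, hj⟩, rfl⟩ | ⟨i, j, ⟨hi, hj⟩, rfl⟩)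
        exacts [⟨i, hi, j, hj, Or.inl rfl⟩, ⟨i, hi, j, hj, Or.inr rfl⟩]
      · rintro ⟨i, hi, j, hj, rfl | rfl⟩
        exacts [Or.inl ⟨i, j, ⟨hi, hj⟩, rfl⟩, Or.inr ⟨i, j, ⟨hi, hj⟩, rfl⟩]⟩
  have cst : ∀ O' : ValuationSubring K,
      (Subfield.closure (prm0 G B U z w r x a)).toSubring ≤ O'.toSubring → (∀ t ∈ F, t ∈ O') →
      O'.valuation (r b - r a) < 1 → O'.valuation (z b - z a) < 1 → O'.valuation (w b - w a) < 1 →
      ∀ t ∈ F, ∀ d, IsDer d → (∀ y ∈ prm0 G B U z w r x a, d (res O' y) = 0) →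
        d (res O' t) = 0 := fun O' hk' hF' hA' hZ hW t ht d hd hS => by
    have R := fun i hi j hj => h.rig3' hy ya yb hz T A (h.at3 hk' hA') hZ hW
      (fun i hi j hj => hF' _ ((hF _).2 (Or.inr ⟨i, hi, j, hj, Or.inl rfl⟩)))
      (fun i hi j hj => hF' _ ((hF _).2 (Or.inr ⟨i, hi, j, hj, Or.inr rfl⟩)))
      (h.kil hk' hA' hd hS) (i := i) (j := j) hi hj
    rcases (hF t).1 ht with rfl | ⟨i, hi, j, hj, rfl | rfl⟩
    exacts [h.rho_const hk' hA' (hF' _ ht) hd hS, (R i hi j hj).1, (R i hi j hj).2]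
  have hT : ∀ t ∈ F, t ∈ O := fun t ht => by
    rcases (hF t).1 ht with rfl | ⟨i, hi, j, hj, rfl | rfl⟩
    exacts [hρ, T.qz_mem hi hj, T.qw_mem hi hj]
  obtain ⟨O', k1, k2, k3⟩ := exists_lift_place hk F (sub_ne_zero.2 (h.r_ne h.hb h.ha h.ab.symm)) hA
    hσ hT ⟨d, hd, hS, hs⟩ (cst O hk hT hA (T.hZ ▸ T.l1) (T.hW ▸ T.l1))
    fun O' hk' hF' hA' hσ' => by
      obtain ⟨e1, e2⟩ := h.small4 hy (h.at3 hk' hA') hq (hF' _ ((hF _).2 (Or.inl rfl))) hσ'
      exact cst O' hk' hF' hA' e1 e2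
  have hk' : (Subfield.closure (prm G B U z w r x)).toSubring ≤ O'.toSubring := by
    refine le_trans (fun t ht => (Subfield.closure_le.2 ?_ : _ ≤ Subfield.closure _) ht) k1
    have m : ∀ t ∈ prm0 G B U z w r x a,
        t ∈ Subfield.closure (insert (r b - r a) (prm0 G B U z w r x a)) := fun t ht =>
      Subfield.subset_closure (Set.mem_insert_of_mem _ ht)
    rintro _ (⟨i, hi, rfl⟩ | ⟨f, hf, rfl⟩)
    · by_cases e : i = a
      · have := Subfield.sub_mem _ (m _ (r_mem_pset (mem_erase.2 ⟨h.ab.symm, h.hb⟩)))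
          (Subfield.subset_closure (Set.mem_insert _ _))
        rw [sub_sub_cancel] at this
        rw [e]
        exact this
      · exact m _ (r_mem_pset (mem_erase.2 ⟨e, hi⟩))
    · exact m _ (n_mem_pset hf)
  refine (h.finalPlus hk' hy hz hq k2 hv hvx h3).trans (card_le_card fun j hj => ?_)
  obtain ⟨m, e⟩ := mem_filter.1 hj
  refine mem_filter.2 ⟨m, ?_⟩
  obtain ⟨m1, m2⟩ := mem_nbr.1 m
  have m1 : j ∈ U.erase x := mem_erase.2 ⟨fun e => hvx (e ▸ m2.symm), m1⟩
  have q := k3 _ ((hF _).2 (Or.inr ⟨v, hv, j, m1, Or.inl rfl⟩)) (T.qz_val hv m1 m2.ne)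
  rcases T.lz v hv j m1 m2.ne with e' | e' | e'
  · rw [e']; exact T.l1
  · rw [qz, e', nm_one, inv_one, mul_one] at q
    exact (e.ne q).elim
  · rw [qz, e', nm_hi T.l0 T.l1, inv_inv, map_mul] at q
    exact (((mul_le_of_le_one_right zero_le
      (h.plus_vals hk' (mem_of_mem_erase hy) hq k2).2.1).trans_lt e).ne q).elim

theorem caseD₁ (hz : z y - z a = r y + r a) (hw : w y - w a = r y + r a) : False := by
  have hq := h.quad hy ya yb hz hw
  have hq' := h.swap.quad hy ya yb hw hz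
  have xy := (mem_erase.1 hy).1.symm
  have s1 := h.base.sig_swap xy h.ta h.tb ya yb
  have s2 := h.base.sig_swap2 xy h.ta h.tb ya yb
  have X1 := fun O => h.x0 (O := O) hy ya yb
  have X2 := fun O => h.swap.symm.x0 (O := O) hy yb ya
  generalize sig z r x a b y = σ at hq s1 s2 X1
  obtain ⟨D, hD, d1, d2⟩ := h.exists_flex
  have yU := mem_of_mem_erase hy
  have aU := mem_of_mem_erase h.ha
  have bU := mem_of_mem_erase h.hb
  have Dσ : D σ ≠ 0 := fun e => by
    have rx := h.cn_r h.hx D hD d1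
    have ry := h.cn_r yU D hD d1
    have ra := h.cn_r aU D hD d1
    have rb := h.cn_r bU D hD d1
    have e1 := congrArg D hq.i1
    have e2 := congrArg D hq.i2
    rw [hD.mul] at e1 e2
    simp only [hD.mul, hD.add, hD.neg, hD.sub (r y + r b), hD.one, e, rx, ry, ra, rb, mul_zero,
      add_zero, sub_zero, neg_zero, zero_add] at e1 e2
    rw [show (z a - z b) * (w a - w b) = (z b - z a) * (w b - w a) by ring, hD.mul,
      (mul_eq_zero.1 e1).resolve_left hq.n1, (mul_eq_zero.1 e2).resolve_left hq.n2] at d2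
    simp at d2
  obtain ⟨D', hD', f1, f2⟩ := h.ind' (Pi.single a 1) 0
  obtain ⟨O, hk, hA⟩ := exists_place _ (trans_of_der (hD'.plus (hD.smul (-D' σ / D σ)))
    (S := insert σ (prm0 G B U z w r x a)) (z := r b - r a) (by
      rintro t (rfl | ht)
      · field_simp; ring
      · rw [d1 t (prm0_sub ht), mul_zero, add_zero]
        refine kill_pset (fun i hi => ?_) f2 t ht
        rw [f1 i (mem_of_mem_erase hi), Pi.single_eq_of_ne (mem_erase.1 hi).1]) (by
      rw [hD.sub, hD'.sub, d1 _ (r_mem_pset h.ha), d1 _ (r_mem_pset h.hb), f1 a h.ha, f1 b h.hb]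
      simp [h.ab.symm]))
  obtain ⟨d, hd, hS, hs⟩ := exists_der_res hk hD (fun t ht => d1 t (prm0_sub ht)) Dσ
  have hσ : σ ∈ O := hk (Subfield.subset_closure (Set.mem_insert _ _))
  have hk : (Subfield.closure (prm0 G B U z w r x a)).toSubring ≤ O.toSubring :=
    le_trans (fun t ht => Subfield.closure_mono (Set.subset_insert _ _) ht) hk
  have hs : d (res O σ) ≠ 0 := hs ▸ one_ne_zero
  have s0 : res O σ ≠ 0 := fun e => hs (by rw [e, hd.zero])
  have A := h.at3 hk hA
  have Kl := h.kil hk hA hd hS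
  have l0 := h.base.ne2 x a
  have l0' := h.base.ne2 x b
  have vρ : O.valuation ((r x + r b) / (r x + r a)) = 1 := by
    rcases lt_trichotomy (O.valuation ((r x + r b) / (r x + r a))) 1 with e | e | e
    · exact (X1 O A hσ Kl hs e).elim
    · exact e
    · have R := Red.of_mul (Red.of_mem hσ) s0 Red.one s2
      refine (X2 O A.swap.symm R.1 Kl.swap ?_ ?_).elim
      · rw [R.2, one_div, hd.inv]
        simp [s0, hs]
      · rw [← inv_div, map_inv₀]
        exact inv_lt_one_of_one_lt₀ e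
  have P := Red.of_le vρ.le
  have P0 := P.ne_zero vρ
  have dP := h.rho_const hk hA P.1 hd hS
  have m := (A.red hy).add (A.red h.ha)
  have m' := (A.red hy).add (A.red h.hb)
  rw [A.res_ab h.ha h.hb] at m'
  have m0 := A.add_ne hy h.ha
  have R := Red.of_mul (x := sig w r x a b y) (((Red.of_mem hσ).mul P).mul m')
    (by simp [s0, P0, m0]) m (by field_simp; linear_combination s1)
  have hs' : d (res O (sig w r x a b y)) ≠ 0 := by
    rw [R.2, div_mul_cancel_right₀ m0, hd.inv, hd.mul, dP]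
    simp [s0, P0, hs]
  have six := six_le h.ti h.deg
  have : (U.filter fun v => (nbr B U v).card = 3) ⊆ {x, a, b, c} := fun v hv => by
    obtain ⟨m, h3⟩ := mem_filter.1 hv
    by_contra hn
    simp only [mem_insert, mem_singleton, not_or] at hn
    have hv : v ∈ U.erase x := mem_erase.2 ⟨hn.1, m⟩
    have hvx : ¬B.Adj x v := fun e => by
      have := h.nbr_iff.1 ⟨m, e⟩
      tauto
    have c1 := h.plus hy ya yb hk hA hz hq hσ hd hS hs P.1 hv hvx h3
    have c2 := h.swap.plus hy ya yb (by rw [prm0_swap]; exact hk) hA hw hq' R.1 hd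
      (by rw [prm0_swap]; exact hS) hs' P.1 hv hvx h3
    have c3 := card_le_card (union_subset (filter_subset (fun j => O.valuation (z v - z j) < 1)
      (nbr B U v)) (filter_subset (fun j => O.valuation (w v - w j) < 1) (nbr B U v)))
    rw [card_union_of_disjoint] at c3
    · omega
    · rw [disjoint_filter]
      intro j hj e1 e2
      obtain ⟨m1, m2⟩ := mem_nbr.1 hj
      have := A.val_n h.base (mem_eIn.2 ⟨hv, mem_erase.2 ⟨fun e => hvx (e ▸ m2.symm), m1⟩, m2⟩)
      rw [lv_mk, ← lv, lv_mk] at this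
      rw [this] at e2
      exact e2.not_gt ((one_lt_inv₀ (zero_lt_iff.2 (by
        simpa [sub_eq_zero] using h.base.nz v j m2.ne))).2 e1)
  have := (card_le_card this).trans card_le_four
  omega

theorem caseD : False := by
  obtain ⟨u, hu, h1, h2⟩ := h.frame ya
  exact (h.scale hu).caseD₁ hy ya yb h1 h2

omit hy ya yb in
theorem elim : False :=
  h.caseC fun _ hy ya yb => h.caseD hy ya.symm yb.symm

end Set3

end Pool.Agent.P.MP_27dab6_co
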