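import Mathlib

/-!
Edge counts of vertex sets, Laman graphs, and the bipartite minor bound.
-/

set_option autoImplicit false

namespace Pool.Agent.P.MP_27dab6_co

open Finset Classical

variable {V : Type}

/-- first end of an unordered pair -/
noncomputable def fs (e : Sym2 V) : V := e.out.1

/-- second end of an unordered pair -/
noncomputable def sn (e : Sym2 V) : V := e.out.2

theorem mk_fs_sn (e : Sym2 V) : s(fs e, sn e) = e := by rw [Sym2.mk]; exact e.out_eq

theorem fs_sn (i j : V) : (fs s(i, j) = i ∧ sn s(i, j) = j) ∨ (fs s(i, j) = j ∧ sn s(i, j) = i) :=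
  Sym2.eq_iff.1 (mk_fs_sn _)

/-- edges of `B` inside `S` -/
noncomputable def eIn (B : SimpleGraph V) (S : Finset V) : Finset (Sym2 V) :=
  S.sym2.filter (· ∈ B.edgeSet)

/-- neighbours of `v` inside `S` -/
noncomputable def nbr (B : SimpleGraph V) (S : Finset V) (v : V) : Finset V := S.filter (B.Adj v)

variable {B : SimpleGraph V}

theorem mem_eIn {S : Finset V} {i j : V} : s(i, j) ∈ eIn B S ↔ i ∈ S ∧ j ∈ S ∧ B.Adj i j := by
  simp [eIn, and_assoc]

theorem mem_eIn' {S : Finset V} {e : Sym2 V} :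
    e ∈ eIn B S ↔ fs e ∈ S ∧ sn e ∈ S ∧ B.Adj (fs e) (sn e) := by
  rw [← mem_eIn, mk_fs_sn]

theorem mem_nbr {S : Finset V} {v j : V} : j ∈ nbr B S v ↔ j ∈ S ∧ B.Adj v j := mem_filter

theorem eIn_mono {B' : SimpleGraph V} {S S' : Finset V} (h : B ≤ B') (hS : S ⊆ S') :
    eIn B S ⊆ eIn B' S' := fun e he => by
  rw [mem_eIn'] at *
  exact ⟨hS he.1, hS he.2.1, h he.2.2⟩

theorem eIn_erase {S : Finset V} {v : V} (hv : v ∈ S) :
    eIn B S = eIn B (S.erase v) ∪ (nbr B S v).image fun j => s(v, j) := by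
  ext e
  induction e using Sym2.ind with
  | _ i j =>
    simp only [mem_union, mem_eIn, mem_erase, mem_image, mem_nbr, Sym2.eq_iff]
    constructor
    · rintro ⟨hi, hj, h⟩
      by_cases e1 : i = v
      · exact Or.inr ⟨j, ⟨hj, e1 ▸ h⟩, Or.inl ⟨e1.symm, rfl⟩⟩
      by_cases e2 : j = v
      · exact Or.inr ⟨i, ⟨hi, e2 ▸ h.symm⟩, Or.inr ⟨e2.symm, rfl⟩⟩
      exact Or.inl ⟨⟨e1, hi⟩, ⟨e2, hj⟩, h⟩
    · rintro (⟨hi, hj, h⟩ | ⟨k, ⟨hk, h⟩, ⟨rfl, rfl⟩ | ⟨rfl, rfl⟩⟩)
      · exact ⟨hi.2, hj.2, h⟩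
      · exact ⟨hv, hk, h⟩
      · exact ⟨hk, hv, h.symm⟩

theorem sum_eIn_erase {M : Type} [AddCommMonoid M] {S : Finset V} {v : V} (hv : v ∈ S)
    (f : Sym2 V → M) :
    ∑ e ∈ eIn B S, f e = ∑ e ∈ eIn B (S.erase v), f e + ∑ j ∈ nbr B S v, f s(v, j) := by
  rw [eIn_erase hv, sum_union, sum_image]
  · intro i _ j _ e
    exact Sym2.congr_right.1 e
  · rw [disjoint_left]
    intro e he he'
    obtain ⟨j, -, rfl⟩ := mem_image.1 he'
    simpa using (mem_eIn.1 he).1

theorem card_eIn_erase {S : Finset V} {v : V} (hv : v ∈ S) :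
    (eIn B S).card = (eIn B (S.erase v)).card + (nbr B S v).card := by
  simp only [card_eq_sum_ones]
  exact sum_eIn_erase hv _

theorem sum_nbr_comm (X Y : Finset V) :
    ∑ v ∈ X, (nbr B Y v).card = ∑ v ∈ Y, (nbr B X v).card := by
  simp only [nbr, card_filter]
  rw [sum_comm]
  simp only [B.adj_comm]

theorem nbr_union {X Y : Finset V} (h : Disjoint X Y) (v : V) :
    (nbr B (X ∪ Y) v).card = (nbr B X v).card + (nbr B Y v).card := by
  rw [nbr, filter_union, card_union_of_disjoint (disjoint_filter_filter h)]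
  rfl

theorem sum_deg (S : Finset V) : ∑ v ∈ S, (nbr B S v).card = 2 * (eIn B S).card := by
  induction S using Finset.induction_on with
  | empty => simp [eIn]
  | insert v S hv ih =>
    rw [card_eIn_erase (mem_insert_self v S), erase_insert hv, sum_insert hv]
    have h1 : ∀ u, (nbr B (insert v S) u).card = (nbr B {v} u).card + (nbr B S u).card :=
      fun u => by rw [insert_eq, nbr_union (disjoint_singleton_left.2 hv)]
    have h2 : (nbr B {v} v).card = 0 := by simp [nbr, filter_singleton]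
    simp only [h1, sum_add_distrib, ih, sum_nbr_comm S {v}, sum_singleton, h2]
    ring

theorem eIn_union {X Y : Finset V} (h : Disjoint X Y) :
    (eIn B (X ∪ Y)).card = (eIn B X).card + (eIn B Y).card + ∑ v ∈ X, (nbr B Y v).card := by
  have h1 := sum_deg (B := B) (X ∪ Y)
  rw [sum_union h] at h1
  simp only [nbr_union h, sum_add_distrib, sum_deg, sum_nbr_comm Y X] at h1
  omega

theorem eIn_submod (X Y : Finset V) :
    (eIn B X).card + (eIn B Y).card ≤ (eIn B (X ∪ Y)).card + (eIn B (X ∩ Y)).card := by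
  rw [← card_union_add_card_inter]
  refine Nat.add_le_add (card_le_card (union_subset (eIn_mono le_rfl subset_union_left)
    (eIn_mono le_rfl subset_union_right))) (card_le_card fun e he => ?_)
  rw [mem_inter, mem_eIn', mem_eIn'] at he
  rw [mem_eIn', mem_inter, mem_inter]
  tauto

theorem eIn_small {S : Finset V} (h : S.card ≤ 1) : (eIn B S).card = 0 := by
  rw [card_eq_zero, eq_empty_iff_forall_notMem]
  intro e he
  rw [mem_eIn'] at he
  exact he.2.2.ne (card_le_one.1 h _ he.1 _ he.2.1)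

/-- every subset with at least two vertices spans at most `2k - 3` edges -/
def Sparse (B : SimpleGraph V) (U : Finset V) : Prop :=
  ∀ S ⊆ U, 2 ≤ S.card → (eIn B S).card + 3 ≤ 2 * S.card

/-- `S` spans exactly `2k - 3` edges -/
def Tight (B : SimpleGraph V) (S : Finset V) : Prop := (eIn B S).card + 3 = 2 * S.card

theorem Sparse.mono {B' : SimpleGraph V} {U U' : Finset V} (h : Sparse B U) (hB : B' ≤ B)
    (hU : U' ⊆ U) : Sparse B' U' := fun S hS h2 =>
  (Nat.add_le_add_right (card_le_card (eIn_mono hB subset_rfl)) _).trans (h S (hS.trans hU) h2)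

theorem Tight.two_le {S : Finset V} (h : Tight B S) : 2 ≤ S.card := by
  unfold Tight at h; omega

theorem Sparse.le' {U : Finset V} (h : Sparse B U) {S : Finset V} (hS : S ⊆ U)
    (hne : S.Nonempty) : (eIn B S).card + 2 ≤ 2 * S.card := by
  have := card_pos.2 hne
  by_cases h2 : 2 ≤ S.card
  · have := h S hS h2; omega
  · rw [eIn_small (by omega)]; omega

theorem Sparse.low {U : Finset V} (h : Sparse B U) {X Y : Finset V} (hX : X ⊆ U) (hY : Y ⊆ U)
    (hd : Disjoint X Y) (hne : X.Nonempty) (hY' : 2 * Y.card ≤ (eIn B Y).card + 3) :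
    ∃ v ∈ X, (nbr B (X ∪ Y) v).card ≤ 3 := by
  by_contra hno
  push Not at hno
  have h1 : ∑ v ∈ X, 4 ≤ ∑ v ∈ X, (nbr B (X ∪ Y) v).card := sum_le_sum hno
  simp only [nbr_union hd, sum_add_distrib, sum_deg, sum_const, smul_eq_mul] at h1
  have h2 := eIn_union (B := B) hd
  have h3 := h.le' hX hne
  have h4 := h.le' (union_subset hX hY) (hne.mono subset_union_left)
  have h5 := card_union_of_disjoint hd
  have h6 := h (X ∪ Y) (union_subset hX hY)
  have h7 := card_pos.2 hne
  by_cases hY0 : Y.card = 0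
  · rw [card_eq_zero] at hY0
    subst hY0
    simp [nbr] at h1
    omega
  · have := h6 (by omega)
    omega

theorem Sparse.special {U : Finset V} (h : Sparse B U) {X Y : Finset V} (hX : X ⊆ U) (hY : Y ⊆ U)
    (hd : Disjoint X Y) (hne : X.Nonempty) (hY3 : Y.card = 3) (hY' : 1 ≤ (eIn B Y).card) :
    ∃ v ∈ X, (nbr B (X ∪ Y) v).card ≤ 3 := by
  by_contra hno
  push Not at hno
  have h1 : ∑ v ∈ X, 4 ≤ ∑ v ∈ X, (nbr B (X ∪ Y) v).card := sum_le_sum hno
  simp only [nbr_union hd, sum_add_distrib, sum_deg, sum_const, smul_eq_mul] at h1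
  have h2 := eIn_union (B := B) hd
  have h5 := card_union_of_disjoint hd
  have h7 := card_pos.2 hne
  have h6 := h (X ∪ Y) (union_subset hX hY) (by omega)
  by_cases hX2 : 2 ≤ X.card
  · have := h X hX hX2
    omega
  · have h8 : ∑ v ∈ X, (nbr B Y v).card ≤ ∑ v ∈ X, 3 :=
      sum_le_sum fun v _ => hY3 ▸ card_filter_le _ _
    rw [sum_const, smul_eq_mul] at h8
    have := eIn_small (B := B) (S := X) (by omega)
    omega

theorem six_le {U : Finset V} (h : Tight B U) (h3 : ∀ v ∈ U, 3 ≤ (nbr B U v).card) :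
    6 ≤ (U.filter fun v => (nbr B U v).card = 3).card := by
  have h1 : ∑ v ∈ U, 4 ≤ ∑ v ∈ U, ((nbr B U v).card + if (nbr B U v).card = 3 then 1 else 0) :=
    sum_le_sum fun v hv => by have := h3 v hv; split_ifs <;> omega
  rw [sum_add_distrib, sum_deg, sum_const, smul_eq_mul, sum_boole] at h1
  unfold Tight at h
  simp only [Nat.cast_id] at h1
  omega

theorem two_le_deg {U : Finset V} (hs : Sparse B U) (h : Tight B U) (h3 : 3 ≤ U.card) {v : V}
    (hv : v ∈ U) : 2 ≤ (nbr B U v).card := by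
  have h1 := card_eIn_erase (B := B) hv
  have h2 := card_erase_of_mem hv
  have h4 := hs _ (erase_subset v U) (by omega)
  unfold Tight at h
  omega

theorem tight_union {U X Y : Finset V} (hs : Sparse B U) (hX : X ⊆ U) (hY : Y ⊆ U)
    (tX : Tight B X) (tY : Tight B Y) (h2 : 2 ≤ (X ∩ Y).card) : Tight B (X ∪ Y) := by
  have h1 := eIn_submod (B := B) X Y
  have h3 := hs _ (inter_subset_left.trans hX) h2
  have h4 := hs _ (union_subset hX hY) (h2.trans (card_le_card inter_subset_union))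
  have h5 := card_union_add_card_inter X Y
  unfold Tight at *
  omega

theorem not_tight_nbr {U X : Finset V} (hs : Sparse B U) {x : V} (hx : x ∈ U)
    (hX : X ⊆ U.erase x) (h3 : 3 ≤ (nbr B X x).card) (h : 2 * X.card ≤ (eIn B X).card + 3) :
    False := by
  have hxX : x ∉ X := fun h => by simpa using hX h
  have h0 : 3 ≤ X.card := h3.trans (card_filter_le _ _)
  have h1 := hs (insert x X) (insert_subset hx (hX.trans (erase_subset _ _)))
    (by rw [card_insert_of_notMem hxX]; omega)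
  rw [card_eIn_erase (mem_insert_self x X), erase_insert hxX, card_insert_of_notMem hxX] at h1
  have h2 : (nbr B X x).card ≤ (nbr B (insert x X) x).card :=
    card_le_card (filter_subset_filter _ (subset_insert _ _))
  omega

theorem exists_admissible {U : Finset V} (hs : Sparse B U) {x : V} (hx : x ∈ U)
    (h3 : (nbr B U x).card = 3) : ∃ a b c, a ≠ b ∧ a ≠ c ∧ b ≠ c ∧ nbr B U x = {a, b, c} ∧
      ∀ S ⊆ U.erase x, a ∈ S → b ∈ S → ¬Tight B S := by
  obtain ⟨a, b, c, hab, hac, hbc, e⟩ := card_eq_three.1 h3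
  by_contra hno
  push Not at hno
  obtain ⟨X, hX, aX, bX, tX⟩ := hno a b c hab hac hbc e
  obtain ⟨Y, hY, bY, cY, tY⟩ := hno b c a hbc hab.symm hac.symm (by rw [e]; ext; simp; tauto)
  obtain ⟨Z, hZ, aZ, cZ, tZ⟩ := hno a c b hac hab hbc.symm (by rw [e]; ext; simp; tauto)
  have hall : ∀ W ⊆ U.erase x, a ∈ W → b ∈ W → c ∈ W → 2 * W.card ≤ (eIn B W).card + 3 →
      False := fun W hW h1 h2 h4 h => not_tight_nbr hs hx hW (by
    rw [← h3, e]
    refine card_le_card fun v hv => mem_nbr.2 ⟨?_, (mem_nbr.1 (e ▸ hv)).2⟩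
    simp only [mem_insert, mem_singleton] at hv
    rcases hv with rfl | rfl | rfl <;> assumption) h
  have sub : ∀ {W}, W ⊆ U.erase x → W ⊆ U := fun h => h.trans (erase_subset _ _)
  have c1 : (X ∩ Y).card ≤ 1 := not_lt.1 fun h => hall _ (union_subset hX hY) (by simp [aX])
    (by simp [bX]) (by simp [cY]) (tight_union hs (sub hX) (sub hY) tX tY h).ge
  have c2 : (X ∩ Z).card ≤ 1 := not_lt.1 fun h => hall _ (union_subset hX hZ) (by simp [aX])
    (by simp [bX]) (by simp [cZ]) (tight_union hs (sub hX) (sub hZ) tX tZ h).ge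
  have c3 : (Y ∩ Z).card ≤ 1 := not_lt.1 fun h => hall _ (union_subset hY hZ) (by simp [aZ])
    (by simp [bY]) (by simp [cZ]) (tight_union hs (sub hY) (sub hZ) tY tZ h).ge
  have dis : ∀ P Q : Finset V, (P ∩ Q).card ≤ 1 → Disjoint (eIn B P) (eIn B Q) := by
    intro P Q h
    rw [disjoint_left]
    intro e h1 h2
    rw [mem_eIn'] at h1 h2
    exact h1.2.2.ne (card_le_one.1 h _ (mem_inter.2 ⟨h1.1, h2.1⟩) _
      (mem_inter.2 ⟨h1.2.1, h2.2.1⟩))
  have d1 : (eIn B X).card + (eIn B Y).card + (eIn B Z).card ≤ (eIn B (X ∪ Y ∪ Z)).card := by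
    rw [← card_union_of_disjoint (dis _ _ c1), ← card_union_of_disjoint
      (disjoint_union_left.2 ⟨dis _ _ c2, dis _ _ c3⟩)]
    exact card_le_card (union_subset (union_subset
      (eIn_mono le_rfl (subset_union_left.trans subset_union_left))
      (eIn_mono le_rfl (subset_union_right.trans subset_union_left)))
      (eIn_mono le_rfl subset_union_right))
  have d2 := card_union_add_card_inter X Y
  have d3 := card_union_add_card_inter (X ∪ Y) Z
  have d4 : 0 < (X ∩ Y).card := card_pos.2 ⟨b, by simp [bX, bY]⟩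
  have d5 : 1 < ((X ∪ Y) ∩ Z).card :=
    one_lt_card.2 ⟨a, by simp [aX, aZ], c, by simp [cY, cZ], hac⟩
  refine hall _ (union_subset (union_subset hX hY) hZ) (by simp [aX]) (by simp [bX])
    (by simp [cY]) ?_
  unfold Tight at *
  omega

theorem eIn_sup_edge {a b : V} (hab : a ≠ b) {S : Finset V} :
    eIn (B ⊔ SimpleGraph.edge a b) S =
      if a ∈ S ∧ b ∈ S then insert s(a, b) (eIn B S) else eIn B S := by
  ext e
  induction e using Sym2.ind with
  | _ i j =>
    split_ifs with h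
    · simp only [mem_eIn, mem_insert, SimpleGraph.sup_adj, SimpleGraph.edge_adj, Sym2.eq_iff]
      constructor
      · tauto
      · rintro ((⟨rfl, rfl⟩ | ⟨rfl, rfl⟩) | h')
        · simp [h.1, h.2, hab]
        · simp [h.1, h.2, hab.symm]
        · tauto
    · simp only [mem_eIn, SimpleGraph.sup_adj, SimpleGraph.edge_adj]
      constructor
      · rintro ⟨hi, hj, h' | ⟨⟨rfl, rfl⟩ | ⟨rfl, rfl⟩, -⟩⟩
        · exact ⟨hi, hj, h'⟩
        · exact (h ⟨hi, hj⟩).elim
        · exact (h ⟨hj, hi⟩).elim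
      · tauto

theorem tight_pair {a b : V} (h : B.Adj a b) : Tight B {a, b} := by
  have : eIn B {a, b} = {s(a, b)} := by
    ext e
    induction e using Sym2.ind with
    | _ i j =>
      simp only [mem_eIn, mem_insert, mem_singleton, Sym2.eq_iff]
      constructor
      · rintro ⟨rfl | rfl, rfl | rfl, h'⟩ <;> simp_all
      · rintro (⟨rfl, rfl⟩ | ⟨rfl, rfl⟩) <;> simp [h, h.symm]
  rw [Tight, this, card_pair h.ne, card_singleton]

theorem sparse_sup_edge {U : Finset V} (hs : Sparse B U) {a b : V} (hab : a ≠ b)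
    (h : ∀ S ⊆ U, a ∈ S → b ∈ S → ¬Tight B S) : Sparse (B ⊔ SimpleGraph.edge a b) U := by
  intro S hS h2
  have h1 := hs S hS h2
  rw [eIn_sup_edge hab]
  split_ifs with hc
  · have h3 := h S hS hc.1 hc.2
    have h4 := card_insert_le s(a, b) (eIn B S)
    unfold Tight at h3
    omega
  · exact h1

/-- `X` induces a connected subgraph -/
def Conn (B : SimpleGraph V) (X : Finset V) : Prop :=
  ∀ u ∈ X, ∀ v ∈ X, Relation.ReflTransGen (fun p q => p ∈ X ∧ q ∈ X ∧ B.Adj p q) u v

/-- the edge bound of planar bipartite graphs for all minors of `B` on `U` -/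
def PM (B : SimpleGraph V) (U : Finset V) : Prop :=
  ∀ (S : Finset V) (Br : V → Finset V) (col : V → Bool) (H : Finset (V × V)),
    (∀ i ∈ S, Br i ⊆ U ∧ Conn B (Br i)) → (∀ i ∈ S, ∀ j ∈ S, i ≠ j → Disjoint (Br i) (Br j)) →
    (∀ p ∈ H, p.1 ∈ S ∧ p.2 ∈ S ∧ col p.1 = true ∧ col p.2 = false ∧
      ∃ u ∈ Br p.1, ∃ v ∈ Br p.2, B.Adj u v) → 3 ≤ S.card → H.card + 4 ≤ 2 * S.card

theorem PM.mono {U U' : Finset V} (h : PM B U) (hU : U' ⊆ U) : PM B U' :=
  fun S Br col H h1 => h S Br col H fun i hi => ⟨(h1 i hi).1.trans hU, (h1 i hi).2⟩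

theorem conn_of_root {X : Finset V} {p : V}
    (h : ∀ v ∈ X, Relation.ReflTransGen (fun p q => p ∈ X ∧ q ∈ X ∧ B.Adj p q) p v) :
    Conn B X := fun u hu v hv => by
  refine Relation.ReflTransGen.trans ?_ (h v hv)
  have := h u hu
  clear hu
  induction this with
  | refl => exact .refl
  | tail _ hab ih => exact .head ⟨hab.2.1, hab.1, hab.2.2.symm⟩ ih

theorem conn_small {X : Finset V} (h : X.card ≤ 1) : Conn B X := fun u hu v hv => by
  rw [card_le_one.1 h u hu v hv]

theorem PM.step {U : Finset V} (h : PM B U) {x a b : V} (hx : x ∈ U) (ha : B.Adj x a)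
    (hb : B.Adj x b) : PM (B ⊔ SimpleGraph.edge a b) (U.erase x) := by
  intro S Br col H h1 h2 h3
  have hxB : ∀ i ∈ S, x ∉ Br i := fun i hi hm => by simpa using (h1 i hi).1 hm
  refine h S (fun i => if a ∈ Br i then insert x (Br i) else Br i) col H (fun i hi => ⟨?_, ?_⟩)
    (fun i hi j hj hij => ?_) fun p hp => ?_
  · split_ifs
    · exact insert_subset hx ((h1 i hi).1.trans (erase_subset _ _))
    · exact (h1 i hi).1.trans (erase_subset _ _)
  · split_ifs with hm
    · refine conn_of_root (p := a) fun v hv => ?_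
      rcases mem_insert.1 hv with rfl | hv'
      · exact .single ⟨mem_insert_of_mem hm, mem_insert_self _ _, ha.symm⟩
      · have := (h1 i hi).2 a hm v hv'
        clear hv hv'
        induction this with
        | refl => exact .refl
        | @tail p q _ hpq ih =>
          obtain ⟨hp, hq, hpq | hpq⟩ := hpq
          · exact ih.tail ⟨mem_insert_of_mem hp, mem_insert_of_mem hq, hpq⟩
          · obtain ⟨⟨rfl, rfl⟩ | ⟨rfl, rfl⟩, -⟩ := (SimpleGraph.edge_adj ..).1 hpq
            · exact (ih.tail ⟨mem_insert_of_mem hp, mem_insert_self _ _, ha.symm⟩).tail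
                ⟨mem_insert_self _ _, mem_insert_of_mem hq, hb⟩
            · exact .refl
    · intro u hu v hv
      refine Relation.ReflTransGen.mono ?_ _ _ ((h1 i hi).2 u hu v hv)
      rintro p q ⟨hp, hq, hpq | hpq⟩
      · exact ⟨hp, hq, hpq⟩
      · obtain ⟨⟨rfl, rfl⟩ | ⟨rfl, rfl⟩, -⟩ := (SimpleGraph.edge_adj ..).1 hpq
        · exact (hm hp).elim
        · exact (hm hq).elim
  · have d := h2 i hi j hj hij
    split_ifs with m1 m2 m2
    · exact (disjoint_left.1 d m1 m2).elim
    · exact disjoint_insert_left.2 ⟨hxB j hj, d⟩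
    · exact disjoint_insert_right.2 ⟨hxB i hi, d⟩
    · exact d
  · obtain ⟨p1, p2, c1, c2, u, hu, v, hv, huv⟩ := h3 p hp
    refine ⟨p1, p2, c1, c2, ?_⟩
    have sub : ∀ i, Br i ⊆ if a ∈ Br i then insert x (Br i) else Br i := fun i => by
      split_ifs
      · exact subset_insert _ _
      · exact subset_rfl
    rcases huv with huv | huv
    · exact ⟨u, sub _ hu, v, sub _ hv, huv⟩
    · obtain ⟨⟨rfl, rfl⟩ | ⟨rfl, rfl⟩, -⟩ := (SimpleGraph.edge_adj ..).1 huv
      · exact ⟨x, by simp [hu], v, sub _ hv, hb⟩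
      · exact ⟨u, sub _ hu, x, by simp [hv], hb.symm⟩

theorem PM.bound {U : Finset V} (h : PM B U) (g : V → V) (Br : V → Finset V)
    (h1 : ∀ i, Br i ⊆ U ∧ Conn B (Br i)) (h2 : ∀ i j, i ≠ j → Disjoint (Br i) (Br j))
    {U' : Finset V} (h3 : ∀ v ∈ U', v ∈ Br (g v)) {F : Finset (Sym2 V)} (hF : F ⊆ eIn B U')
    (hinj : ∀ e ∈ F, ∀ e' ∈ F, e.map g = e'.map g → e = e') (S : Finset V) (col : V → Bool)
    (hc : ∀ e ∈ F, g (fs e) ∈ S ∧ g (sn e) ∈ S ∧ col (g (fs e)) ≠ col (g (sn e)))
    (h3S : 3 ≤ S.card) : F.card + 4 ≤ 2 * S.card := by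
  let o : Sym2 V → V × V := fun e =>
    if col (g (fs e)) = true then (g (fs e), g (sn e)) else (g (sn e), g (fs e))
  have ho : ∀ e, s((o e).1, (o e).2) = e.map g := fun e => by
    conv_rhs => rw [← mk_fs_sn e, Sym2.map_mk]
    simp only [o]
    split_ifs
    · rfl
    · exact Sym2.eq_swap
  rw [← card_image_of_injOn (f := o) fun e he e' he' q => hinj e he e' he' (by
    rw [← ho, ← ho, q])]
  refine h S Br col _ (fun i _ => h1 i) (fun i _ j _ => h2 i j) (fun p hp => ?_) h3S
  obtain ⟨e, he, rfl⟩ := mem_image.1 hp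
  obtain ⟨a1, a2, a3⟩ := hc e he
  obtain ⟨b1, b2, b3⟩ := mem_eIn'.1 (hF he)
  simp only [o]
  split_ifs with q
  · exact ⟨a1, a2, q, by simpa [q] using a3, _, h3 _ b1, _, h3 _ b2, b3⟩
  · exact ⟨a2, a1, by simpa [q] using a3, by simpa using q, _, h3 _ b2, _, h3 _ b1, b3.symm⟩

theorem PM.plain {U : Finset V} (h : PM B U) {F : Finset (Sym2 V)} (hF : F ⊆ eIn B U)
    (S : Finset V) (col : V → Bool)
    (hc : ∀ e ∈ F, fs e ∈ S ∧ sn e ∈ S ∧ col (fs e) ≠ col (sn e)) (h3S : 3 ≤ S.card) :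
    F.card + 4 ≤ 2 * S.card :=
  h.bound id (fun i => {i} ∩ U) (fun i => ⟨inter_subset_right,
    conn_small ((card_le_card inter_subset_left).trans (by simp))⟩)
    (fun i j hij => (disjoint_singleton.2 hij).mono inter_subset_left inter_subset_left)
    (fun v hv => by simp [hv]) hF (fun e _ e' _ q => by simpa using q) S col hc h3S

/-- identification of `b` with `a` -/
noncomputable def glue (a b : V) (v : V) : V := if v = b then a else v

theorem PM.glued {U : Finset V} (h : PM B U) {x a b : V} (hx : x ∈ U) (haU : a ∈ U)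
    (hbU : b ∈ U) (ha : B.Adj x a) (hb : B.Adj x b) {F : Finset (Sym2 V)}
    (hF : F ⊆ eIn B (U.erase x))
    (hinj : ∀ e ∈ F, ∀ e' ∈ F, e.map (glue a b) = e'.map (glue a b) → e = e') (S : Finset V)
    (col : V → Bool) (hc : ∀ e ∈ F, glue a b (fs e) ∈ S ∧ glue a b (sn e) ∈ S ∧
      col (glue a b (fs e)) ≠ col (glue a b (sn e))) (h3S : 3 ≤ S.card) :
    F.card + 4 ≤ 2 * S.card := by
  refine h.bound (glue a b) (fun i => if i = a then {x, a, b} else ({i} ∩ U) \ {x, b})
    (fun i => ?_) (fun i j hij => ?_) (fun v hv => ?_) hF hinj S col hc h3S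
  · split_ifs
    · refine ⟨by simp [insert_subset_iff, hx, haU, hbU], conn_of_root (p := x) fun v hv => ?_⟩
      simp only [mem_insert, mem_singleton] at hv
      rcases hv with rfl | rfl | rfl
      · exact .refl
      · exact .single ⟨by simp, by simp, ha⟩
      · exact .single ⟨by simp, by simp, hb⟩
    · exact ⟨sdiff_subset.trans inter_subset_right,
        conn_small ((card_le_card (sdiff_subset.trans inter_subset_left)).trans (by simp))⟩
  · rw [disjoint_left]
    intro v h1 h2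
    split_ifs at h1 h2 <;> simp only [mem_insert, mem_singleton, mem_sdiff, mem_inter] at h1 h2 <;>
      grind
  · unfold glue
    have := mem_erase.1 hv
    split_ifs <;> simp_all

theorem glue_inj {a b : V} {F : Finset (Sym2 V)} (hab : s(a, b) ∉ F)
    (hd : ∀ e ∈ F, ¬e.IsDiag) (hc : ∀ j, s(a, j) ∈ F → s(b, j) ∈ F → False) :
    ∀ e ∈ F, ∀ e' ∈ F, e.map (glue a b) = e'.map (glue a b) → e = e' := by
  intro e he e' he' q
  induction e using Sym2.ind with
  | _ i j =>
  induction e' using Sym2.ind with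
  | _ k l =>
    have d1 : i ≠ j := by simpa using hd _ he
    have d2 : k ≠ l := by simpa using hd _ he'
    have s1 : s(j, i) ∈ F := Sym2.eq_swap ▸ he
    have s2 : s(l, k) ∈ F := Sym2.eq_swap ▸ he'
    simp only [Sym2.map_mk, Sym2.eq_iff, glue] at q ⊢
    grind

theorem common_unique {U : Finset V} (hs : Sparse B U) (ht : Tight B U) (hp : PM B U)
    (hdeg : ∀ v ∈ U, 3 ≤ (nbr B U v).card) {x a b c y y' : V} (hx : x ∈ U)
    (hn : nbr B U x = {a, b, c}) (hab : a ≠ b) (hac : a ≠ c) (hbc : b ≠ c)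
    (hT : ∀ S ⊆ U, S ≠ U → a ∈ S → b ∈ S → ¬Tight B S) (hy : y ∈ U) (hy' : y' ∈ U)
    (yx : y ≠ x) (yx' : y' ≠ x) (yc : y ≠ c) (yc' : y' ≠ c) (ya : B.Adj a y) (yb : B.Adj b y)
    (ya' : B.Adj a y') (yb' : B.Adj b y') : y = y' := by
  by_contra yy
  have ma : a ∈ nbr B U x := by simp [hn]
  have mb : b ∈ nbr B U x := by simp [hn]
  have mc : c ∈ nbr B U x := by simp [hn]
  obtain ⟨aU, xa⟩ := mem_nbr.1 ma
  obtain ⟨bU, xb⟩ := mem_nbr.1 mb
  obtain ⟨cU, xc⟩ := mem_nbr.1 mc
  have nx : ∀ v ∈ U, B.Adj x v → v = a ∨ v = b ∨ v = c := fun v hv h => by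
    simpa [hn] using (mem_nbr (B := B)).2 ⟨hv, h⟩
  have n1 := xa.ne
  have n2 := xb.ne
  have n3 := xc.ne
  have n4 := ya.ne
  have n5 := yb.ne
  have n6 := ya'.ne
  have n7 := yb'.ne
  let X : Finset V := {a, b, y, y'}
  let R := U \ insert x X
  let rel := fun p q => p ∈ R ∧ q ∈ R ∧ B.Adj p q
  let W₁ := R.filter fun v => Relation.ReflTransGen rel c v
  let W₂ := R \ W₁
  have mR : ∀ v, v ∈ R ↔ v ∈ U ∧ v ≠ x ∧ v ≠ a ∧ v ≠ b ∧ v ≠ y ∧ v ≠ y' := fun v => by
    simp [R, X]
  have cR : c ∈ R := (mR c).2 ⟨cU, n3.symm, hac.symm, hbc.symm, yc.symm, yc'.symm⟩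
  have cW : c ∈ W₁ := mem_filter.2 ⟨cR, .refl⟩
  have XU : X ⊆ U := by simp [X, insert_subset_iff, aU, bU, hy, hy']
  have xX : x ∉ X := by simp [X, n1, n2, yx.symm, yx'.symm]
  have cX : X.card = 4 := by
    rw [card_insert_of_notMem (by simp [hab, n4, n6]), card_insert_of_notMem (by simp [n5, n7]),
      card_pair yy]
  have eX : ∀ F : Finset (Sym2 V), F ⊆ eIn B X → F.card ≤ (eIn B X).card := fun F => card_le_card
  have F4 : ({s(a, y), s(a, y'), s(b, y), s(b, y')} : Finset (Sym2 V)).card = 4 := by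
    rw [card_insert_of_notMem (by simp [yy, hab, n4, n6]),
      card_insert_of_notMem (by simp [hab, n4, n6]), card_pair (by simp [yy, n7])]
  have S4 : ({s(a, y), s(a, y'), s(b, y), s(b, y')} : Finset (Sym2 V)) ⊆ eIn B X := by
    simp [insert_subset_iff, mem_eIn, X, ya, yb, ya', yb']
  have W2e : W₂ = ∅ := by
    by_contra hne
    have hne : W₂.Nonempty := nonempty_iff_ne_empty.2 hne
    have W2R : W₂ ⊆ R := sdiff_subset
    have W2U : W₂ ⊆ U := W2R.trans sdiff_subset
    have dX : Disjoint W₂ X := disjoint_left.2 fun v hv h =>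
      (mem_sdiff.1 (W2R hv)).2 (mem_insert_of_mem h)
    have e1 := eIn_union (B := B) dX
    have e2 := eIn_union (B := B) (disjoint_sdiff (s := W₂) (t := U))
    rw [union_sdiff_of_subset W2U] at e2
    have e3 : ∑ v ∈ W₂, (nbr B (U \ W₂) v).card ≤ ∑ v ∈ W₂, (nbr B X v).card := by
      refine sum_le_sum fun v hv => card_le_card fun u hu => ?_
      obtain ⟨hu, huv⟩ := mem_nbr.1 hu
      obtain ⟨vR, vW⟩ := mem_sdiff.1 hv
      refine mem_nbr.2 ⟨?_, huv⟩
      by_contra uX
      by_cases ux : u = x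
      · subst ux
        obtain ⟨v1, -, v3, v4, -⟩ := (mR v).1 vR
        rcases nx v v1 huv.symm with h | h | h
        · exact v3 h
        · exact v4 h
        · exact vW (h ▸ cW)
      · have uR : u ∈ R := mem_sdiff.2 ⟨(mem_sdiff.1 hu).1, by simp [ux, uX]⟩
        have uW : u ∈ W₁ := by
          by_contra h
          exact (mem_sdiff.1 hu).2 (mem_sdiff.2 ⟨uR, h⟩)
        exact vW (mem_filter.2 ⟨vR, (mem_filter.1 uW).2.tail ⟨uR, vR, huv.symm⟩⟩)
    have e4 := card_union_of_disjoint dX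
    have e5 := hs _ (union_subset W2U XU) (by omega)
    have e6 := hT _ (union_subset W2U XU) (fun h => by
      have : x ∈ W₂ ∪ X := h.symm ▸ hx
      rcases mem_union.1 this with h | h
      · exact ((mR x).1 (W2R h)).2.1 rfl
      · exact xX h) (by simp [X]) (by simp [X])
    have e7 := card_sdiff_add_card_eq_card W2U
    have e8 := F4 ▸ eX _ S4
    have aW : a ∈ U \ W₂ := mem_sdiff.2 ⟨aU, fun h => ((mR a).1 (W2R h)).2.2.1 rfl⟩
    have bW : b ∈ U \ W₂ := mem_sdiff.2 ⟨bU, fun h => ((mR b).1 (W2R h)).2.2.2.1 rfl⟩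
    have e9 := hs (U \ W₂) sdiff_subset (one_lt_card.2 ⟨a, aW, b, bW, hab⟩)
    have e10 := hT (U \ W₂) sdiff_subset (fun h => by
      have := card_pos.2 hne
      rw [h] at e7
      omega) aW bW
    unfold Tight at *
    omega
  have RW : ∀ v ∈ R, v ∈ W₁ := fun v hv => by
    by_contra h
    have : v ∈ W₂ := mem_sdiff.2 ⟨hv, h⟩
    simp [W2e] at this
  have noT : ¬B.Adj y y' := fun h => by
    refine hT X XU (fun e => xX (e.symm ▸ hx)) (by simp [X]) (by simp [X]) ?_
    have e1 := eX (insert s(y, y') _) (insert_subset (by simp [mem_eIn, X, h]) S4)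
    rw [card_insert_of_notMem (by simp [n4.symm, n5.symm, n6.symm, n7.symm]), F4] at e1
    have e2 := hs X XU (by omega)
    unfold Tight
    omega
  have att : ∀ p, p = y ∨ p = y' → ∃ u ∈ W₁, B.Adj u p := fun p hp' => by
    by_contra hno
    push Not at hno
    have pU : p ∈ U := by rcases hp' with rfl | rfl <;> assumption
    have : nbr B U p ⊆ {a, b} := fun u hu => by
      obtain ⟨uU, hpu⟩ := mem_nbr.1 hu
      by_contra hu'
      simp only [mem_insert, mem_singleton, not_or] at hu'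
      refine hno u (RW u ((mR u).2 ⟨uU, ?_, hu'.1, hu'.2, ?_, ?_⟩)) hpu.symm
      · rintro rfl
        rcases nx p pU hpu.symm with h | h | h <;> rcases hp' with rfl | rfl <;> simp_all
      · rintro rfl
        rcases hp' with rfl | rfl
        · exact hpu.ne rfl
        · exact noT hpu.symm
      · rintro rfl
        rcases hp' with rfl | rfl
        · exact noT hpu
        · exact hpu.ne rfl
    have h1 := card_le_card this
    have h2 := hdeg p pU
    have h3 : ({a, b} : Finset V).card ≤ 2 := card_le_two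
    omega
  obtain ⟨u, uW, uy⟩ := att y (Or.inl rfl)
  obtain ⟨u', uW', uy'⟩ := att y' (Or.inr rfl)
  have c3 : ({a, b, c} : Finset V).card = 3 := card_eq_three.2 ⟨_, _, _, hab, hac, hbc, rfl⟩
  have c3' : ({x, y, y'} : Finset V).card = 3 :=
    card_eq_three.2 ⟨_, _, _, yx.symm, yx'.symm, yy, rfl⟩
  have dd : Disjoint ({a, b, c} : Finset V) {x, y, y'} := by
    simp [n1, n2, n3, n4.symm, n5.symm, n6.symm, n7.symm, yc, yc']
  have := hp ({a, b, c} ∪ {x, y, y'}) (fun i => if i = c then W₁ else {i})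
    (fun i => decide (i ∈ ({a, b, c} : Finset V))) ({a, b, c} ×ˢ {x, y, y'}) (fun i hi => ?_)
    (fun i hi j hj hij => ?_) (fun p hp => ?_) (by rw [card_union_of_disjoint dd]; omega)
  · rw [card_union_of_disjoint dd, card_product, c3, c3'] at this
    omega
  · split_ifs
    · refine ⟨(filter_subset _ _).trans sdiff_subset, conn_of_root (p := c) fun v hv => ?_⟩
      refine Relation.ReflTransGen.mono ?_ _ _ (mem_filter.1 hv).2
      exact fun p q h => ⟨RW _ h.1, RW _ h.2.1, h.2.2⟩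
    · refine ⟨?_, conn_small (by simp)⟩
      simp only [mem_union, mem_insert, mem_singleton] at hi
      rcases hi with (rfl | rfl | rfl) | rfl | rfl | rfl <;> simpa
  · have nW : ∀ k ∈ ({a, b, c} ∪ {x, y, y'} : Finset V), k ≠ c → k ∉ W₁ := fun k hk kc h => by
      have := (mR k).1 (mem_filter.1 h).1
      simp only [mem_union, mem_insert, mem_singleton] at hk
      tauto
    split_ifs with h1 h2 h2
    · exact (hij (h1.trans h2.symm)).elim
    · exact disjoint_singleton_right.2 (nW j hj h2)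
    · exact disjoint_singleton_left.2 (nW i hi h1)
    · exact disjoint_singleton.2 hij
  · obtain ⟨p1, p2⟩ := mem_product.1 hp
    refine ⟨mem_union_left _ p1, mem_union_right _ p2, by simpa using p1,
      by simpa using disjoint_right.1 dd p2, ?_⟩
    have p2c : p.2 ≠ c := fun h => disjoint_right.1 dd p2 (by simp [h])
    simp only [mem_insert, mem_singleton] at p1 p2
    simp only [if_neg p2c, mem_singleton, exists_eq_left]
    rcases p1 with h | h | h <;> rw [h]
    · simp only [if_neg hac, mem_singleton, exists_eq_left]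
      rcases p2 with h | h | h <;> rw [h]
      exacts [xa.symm, ya, ya']
    · simp only [if_neg hbc, mem_singleton, exists_eq_left]
      rcases p2 with h | h | h <;> rw [h]
      exacts [xb.symm, yb, yb']
    · simp only [if_true]
      rcases p2 with h | h | h <;> rw [h]
      exacts [⟨c, cW, xc.symm⟩, ⟨u, uW, uy⟩, ⟨u', uW', uy'⟩]

end Pool.Agent.P.MP_27dab6_co
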