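import Pool.Agent.P.MP_27dab6_co.Der

/-!
Residues of valuation subrings, existence of places, and a two-dimensional lifting lemma.
-/

set_option autoImplicit false

namespace Pool.Agent.P.MP_27dab6_co

open Polynomial IsLocalRing

variable {K : Type} [Field K]

open Classical in
/-- the residue of `x` if `x` lies in `O`, and `0` otherwise -/
noncomputable def res (O : ValuationSubring K) (x : K) : ResidueField O :=
  if h : x ∈ O then residue O ⟨x, h⟩ else 0

/-- `x` lies in `O` and has residue `y` -/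
def Red (O : ValuationSubring K) (x : K) (y : ResidueField O) : Prop := x ∈ O ∧ res O x = y

section Basic

variable {O : ValuationSubring K}

theorem res_of_mem {x : K} (h : x ∈ O) : res O x = residue O ⟨x, h⟩ := dif_pos h

theorem Red.of_mem {x : K} (h : x ∈ O) : Red O x (res O x) := ⟨h, rfl⟩

theorem Red.of_le {x : K} (h : O.valuation x ≤ 1) : Red O x (res O x) :=
  ⟨(O.valuation_le_one_iff x).1 h, rfl⟩

theorem Red.le {x : K} {y : ResidueField O} (h : Red O x y) : O.valuation x ≤ 1 :=
  (O.valuation_le_one_iff x).2 h.1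

theorem Red.unique {x : K} {y y' : ResidueField O} (h : Red O x y) (h' : Red O x y') : y = y' :=
  h.2.symm.trans h'.2

theorem Red.eq {x x' : K} {y y' : ResidueField O} (h : Red O x y) (h' : Red O x' y')
    (e : x = x') : y = y' := h.unique (e ▸ h')

theorem Red.congr {x x' : K} {y y' : ResidueField O} (h : Red O x y) (e : x = x') (e' : y = y') :
    Red O x' y' := e ▸ e' ▸ h

theorem Red.add {x x' : K} {y y' : ResidueField O} (h : Red O x y) (h' : Red O x' y') :
    Red O (x + x') (y + y') := by
  refine ⟨O.add_mem _ _ h.1 h'.1, ?_⟩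
  rw [← h.2, ← h'.2, res_of_mem h.1, res_of_mem h'.1, res_of_mem (O.add_mem _ _ h.1 h'.1),
    ← map_add]
  rfl

theorem Red.mul {x x' : K} {y y' : ResidueField O} (h : Red O x y) (h' : Red O x' y') :
    Red O (x * x') (y * y') := by
  refine ⟨O.mul_mem _ _ h.1 h'.1, ?_⟩
  rw [← h.2, ← h'.2, res_of_mem h.1, res_of_mem h'.1, res_of_mem (O.mul_mem _ _ h.1 h'.1),
    ← map_mul]
  rfl

theorem Red.neg {x : K} {y : ResidueField O} (h : Red O x y) : Red O (-x) (-y) := by
  refine ⟨O.neg_mem _ h.1, ?_⟩
  rw [← h.2, res_of_mem h.1, res_of_mem (O.neg_mem _ h.1), ← map_neg]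
  rfl

theorem Red.sub {x x' : K} {y y' : ResidueField O} (h : Red O x y) (h' : Red O x' y') :
    Red O (x - x') (y - y') := by
  rw [sub_eq_add_neg, sub_eq_add_neg]; exact h.add h'.neg

theorem Red.zero : Red O 0 0 := ⟨O.zero_mem, by rw [res_of_mem O.zero_mem]; exact map_zero _⟩

theorem Red.one : Red O 1 1 := ⟨O.one_mem, by rw [res_of_mem O.one_mem]; exact map_one _⟩

theorem Red.two : Red O 2 2 := (Red.one.add Red.one).congr one_add_one_eq_two one_add_one_eq_two

theorem Red.pow {x : K} {y : ResidueField O} (h : Red O x y) (n : ℕ) : Red O (x ^ n) (y ^ n) := by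
  induction n with
  | zero => simpa using Red.one
  | succ n ih => rw [pow_succ, pow_succ]; exact ih.mul h

theorem Red.sum {ι : Type*} (s : Finset ι) {f : ι → K} {g : ι → ResidueField O}
    (h : ∀ i ∈ s, Red O (f i) (g i)) : Red O (∑ i ∈ s, f i) (∑ i ∈ s, g i) := by
  classical
  induction s using Finset.induction_on with
  | empty => simpa using Red.zero
  | insert a s ha ih =>
    rw [Finset.sum_insert ha, Finset.sum_insert ha]
    exact (h a (by simp)).add (ih fun i hi => h i (by simp [hi]))

theorem red_zero_iff {x : K} : Red O x 0 ↔ O.valuation x < 1 := by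
  constructor
  · intro h
    have h2 := h.2
    rw [res_of_mem h.1, residue_eq_zero_iff] at h2
    exact (O.valuation_lt_one_iff _).1 h2
  · intro h
    have hx := (O.valuation_le_one_iff x).1 h.le
    refine ⟨hx, ?_⟩
    rw [res_of_mem hx, residue_eq_zero_iff]
    exact (O.valuation_lt_one_iff ⟨x, hx⟩).2 h

theorem Red.lt {x : K} {y : ResidueField O} (h : Red O x y) (hy : y = 0) : O.valuation x < 1 :=
  red_zero_iff.1 (hy ▸ h)

theorem Red.val_eq_one {x : K} {y : ResidueField O} (h : Red O x y) (hy : y ≠ 0) :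
    O.valuation x = 1 := by
  refine h.le.eq_or_lt.resolve_right fun hlt => hy ?_
  exact h.unique (red_zero_iff.2 hlt)

theorem Red.ne_zero {x : K} {y : ResidueField O} (h : Red O x y) (hx : O.valuation x = 1) :
    y ≠ 0 := fun hy => (h.lt hy).ne hx

theorem Red.inv {x : K} {y : ResidueField O} (h : Red O x y) (hy : y ≠ 0) : Red O x⁻¹ y⁻¹ := by
  have h1 := h.val_eq_one hy
  have hx : x ≠ 0 := by rintro rfl; simp at h1
  have h2 : Red O x⁻¹ (res O x⁻¹) := Red.of_le (by rw [map_inv₀, h1, inv_one])
  have h3 := (h.mul h2).eq Red.one (mul_inv_cancel₀ hx)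
  exact h2.congr rfl (eq_inv_of_mul_eq_one_right h3)

theorem Red.div {x x' : K} {y y' : ResidueField O} (h : Red O x y) (h' : Red O x' y')
    (hy : y' ≠ 0) : Red O (x / x') (y / y') := by
  rw [div_eq_mul_inv, div_eq_mul_inv]; exact h.mul (h'.inv hy)

/-- if `x * u = t` with `u` a unit, `x` has a residue -/
theorem Red.of_mul {x u t : K} {y s : ResidueField O} (hu : Red O u y) (hy : y ≠ 0)
    (ht : Red O t s) (e : x * u = t) : Red O x (s / y) := by
  have h1 := hu.val_eq_one hy
  have hu0 : u ≠ 0 := by rintro rfl; simp at h1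
  exact (ht.div hu hy).congr (by rw [← e]; field_simp) rfl

theorem exists_lift (y : ResidueField O) : ∃ x, Red O x y := by
  obtain ⟨a, rfl⟩ := residue_surjective y
  exact ⟨a, a.2, res_of_mem a.2⟩

theorem val_of_sub {k : Subfield K} (hk : k.toSubring ≤ O.toSubring) {x : K} (hx : x ∈ k)
    (h0 : x ≠ 0) : O.valuation x = 1 := by
  have h1 := (O.valuation_le_one_iff x).2 (hk hx)
  have h2 := (O.valuation_le_one_iff x⁻¹).2 (hk (k.inv_mem hx))
  rw [map_inv₀] at h2
  have h3 : O.valuation x ≠ 0 := by simpa using h0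
  exact le_antisymm h1 ((inv_le_one₀ (zero_lt_iff.2 h3)).1 h2)

/-- the embedding of a subfield of `O` in the residue field -/
noncomputable def subHom {k : Subfield K} (hk : k.toSubring ≤ O.toSubring) :
    k →+* ResidueField O :=
  (residue O).comp (Subring.inclusion hk)

theorem subHom_apply {k : Subfield K} (hk : k.toSubring ≤ O.toSubring) (a : k) :
    subHom hk a = res O a := (res_of_mem (hk a.2)).symm

theorem charZero_res [CharZero K] {k : Subfield K} (hk : k.toSubring ≤ O.toSubring) :
    CharZero (ResidueField O) :=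
  charZero_of_injective_ringHom (subHom hk).injective

theorem Red.aeval {k : Subfield K} (hk : k.toSubring ≤ O.toSubring) {x : K}
    {y : ResidueField O} (h : Red O x y) (p : k[X]) :
    Red O (Polynomial.aeval x p) (p.eval₂ (subHom hk) y) := by
  induction p using Polynomial.induction_on with
  | C a =>
    simp only [aeval_C, eval₂_C]
    exact ⟨hk a.2, (subHom_apply hk a).symm⟩
  | add p q ih ih' => rw [map_add, eval₂_add]; exact ih.add ih'
  | monomial n a _ =>
    rw [map_mul, map_pow, aeval_C, aeval_X, eval₂_mul, eval₂_C, eval₂_X_pow]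
    exact Red.mul ⟨hk a.2, (subHom_apply hk a).symm⟩ (h.pow _)

theorem res_closure {S : Set K} (hk : (Subfield.closure S).toSubring ≤ O.toSubring)
    {d : ResidueField O → ResidueField O} (hd : IsDer d) (hS : ∀ y ∈ S, d (res O y) = 0)
    {y : K} (hy : y ∈ Subfield.closure S) : d (res O y) = 0 := by
  have : Subfield.closure S ≤ (hd.const.comap (subHom hk)).map (Subfield.closure S).subtype := by
    rw [Subfield.closure_le]
    intro a ha
    refine ⟨⟨a, Subfield.subset_closure ha⟩, ?_, rfl⟩
    change d (subHom hk _) = 0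
    rw [subHom_apply]
    exact hS a ha
  obtain ⟨a, ha, rfl⟩ := this hy
  change d (subHom hk a) = 0 at ha
  rwa [subHom_apply] at ha

theorem mem_of_alg {k : Subfield K} (hk : k.toSubring ≤ O.toSubring) {x : K}
    (hx : IsAlgebraic k x) : x ∈ O := by
  have h1 : IsIntegral k x := hx.isIntegral
  obtain ⟨p, hp, hpx⟩ := h1
  have h2 : IsIntegral O x := by
    refine ⟨p.map (Subring.inclusion hk), hp.map _, ?_⟩
    rw [eval₂_map]
    exact hpx
  obtain ⟨y, rfl⟩ := IsIntegrallyClosed.isIntegral_iff.1 h2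
  exact y.2

theorem val_of_alg {k : Subfield K} (hk : k.toSubring ≤ O.toSubring) {x : K}
    (hx : IsAlgebraic k x) (h0 : x ≠ 0) : O.valuation x = 1 := by
  have h1 := (O.valuation_le_one_iff x).2 (mem_of_alg hk hx)
  have h2 := (O.valuation_le_one_iff x⁻¹).2 (mem_of_alg hk hx.inv)
  rw [map_inv₀] at h2
  have h3 : O.valuation x ≠ 0 := by simpa using h0
  exact le_antisymm h1 ((inv_le_one₀ (zero_lt_iff.2 h3)).1 h2)

/-- a transcendental element whose field lies in `O` has transcendental residue -/
theorem exists_der_res [CharZero K] {S : Set K} {t : K}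
    (hk : (Subfield.closure (insert t S)).toSubring ≤ O.toSubring) {D : K → K} (hD : IsDer D)
    (hS : ∀ y ∈ S, D y = 0) (ht : D t ≠ 0) :
    ∃ d : ResidueField O → ResidueField O, IsDer d ∧ (∀ y ∈ S, d (res O y) = 0) ∧
      d (res O t) = 1 := by
  have hle : Subfield.closure S ≤ Subfield.closure (insert t S) :=
    Subfield.closure_mono (Set.subset_insert _ _)
  have hk' : (Subfield.closure S).toSubring ≤ O.toSubring := fun x hx => hk (hle hx)
  have htr := trans_of_der hD hS ht
  have htm : t ∈ Subfield.closure (insert t S) := Subfield.subset_closure (Set.mem_insert _ _)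
  let _ : Algebra (Subfield.closure S) (ResidueField O) := (subHom hk').toAlgebra
  have : Transcendental (Subfield.closure S) (res O t) := by
    rintro ⟨p, hp, hpt⟩
    refine htr ⟨p, hp, ?_⟩
    by_contra hne
    have h1 := (Red.of_mem (hk htm)).aeval hk' p
    have hm : Polynomial.aeval t p ∈ Subfield.closure (insert t S) := by
      rw [aeval_eq_sum_range]
      refine Subfield.sum_mem _ fun i _ => ?_
      exact Subfield.mul_mem _ (hle (p.coeff i).2) (Subfield.pow_mem _ htm _)
    exact h1.ne_zero (val_of_sub hk hm hne) hpt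
  obtain ⟨d, hd, h0, h1⟩ := exists_der_of_transcendental this
  refine ⟨d, hd, fun y hy => ?_, h1⟩
  have := h0 ⟨y, Subfield.subset_closure hy⟩
  change d (subHom hk' _) = 0 at this
  rwa [subHom_apply] at this

theorem Dual.res [CharZero K] {ι : Type} {s : Finset ι} {x : ι → K} (h : Dual s x)
    (hk : (Subfield.closure (x '' s)).toSubring ≤ O.toSubring) :
    Dual s fun i => res O (x i) := by
  classical
  refine Dual.of_single fun i hi => ?_
  obtain ⟨D, hD, hc⟩ := h fun k => if k = i then 1 else 0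
  have hk' : (Subfield.closure (insert (x i) (x '' (s.erase i)))).toSubring ≤ O.toSubring := by
    refine fun y hy => hk (Subfield.closure_mono ?_ hy)
    rintro _ (rfl | ⟨k, hk, rfl⟩)
    · exact ⟨i, hi, rfl⟩
    · exact ⟨k, Finset.mem_of_mem_erase hk, rfl⟩
  obtain ⟨d, hd, h0, h1⟩ := exists_der_res hk' hD (by
    rintro _ ⟨k, hk, rfl⟩
    have hk := Finset.mem_erase.1 hk
    rw [hc k hk.2, if_neg hk.1]) (by rw [hc i hi]; simp)
  exact ⟨d, hd, h1, fun k hk hki => h0 _ ⟨k, Finset.mem_erase.2 ⟨hki, hk⟩, rfl⟩⟩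

end Basic

theorem exists_val_of_prime (R : Subring K) (p : Ideal R) [p.IsPrime] :
    ∃ O : ValuationSubring K, R ≤ O.toSubring ∧ ∀ x : R, x ∈ p ↔ O.valuation x < 1 := by
  obtain ⟨V, hV⟩ := (LocalSubring.ofPrime R p).exists_le_valuationSubring
  refine ⟨V, (LocalSubring.le_ofPrime ..).trans hV.1, fun x => ?_⟩
  have h1 := IsLocalization.AtPrime.to_map_mem_maximal_iff (LocalSubring.ofPrime R p).toSubring p x
  rw [← h1]
  have h2 := hV.2
  have h3 := V.valuation_lt_one_iff
    (Subring.inclusion hV.1 (algebraMap R (LocalSubring.ofPrime R p).toSubring x))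
  refine Iff.trans ?_ h3
  exact not_congr (isUnit_map_iff (Subring.inclusion hV.1) _).symm

theorem exists_place (k : Subfield K) {t : K} (ht : Transcendental k t) :
    ∃ O : ValuationSubring K, k.toSubring ≤ O.toSubring ∧ O.valuation t < 1 := by
  let R := (Algebra.adjoin k {t}).toSubring
  have htR : t ∈ R := Algebra.subset_adjoin rfl
  let I : Ideal R := Ideal.span {⟨t, htR⟩}
  have hI : I ≠ ⊤ := by
    intro h
    have h1 : (1 : R) ∈ I := h ▸ Submodule.mem_top
    obtain ⟨⟨a, ha⟩, hb⟩ := Ideal.mem_span_singleton'.1 h1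
    have ha' : a ∈ Algebra.adjoin k {t} := ha
    rw [Algebra.adjoin_singleton_eq_range_aeval] at ha'
    obtain ⟨p, rfl⟩ := ha'
    have hb' : Polynomial.aeval t p * t = 1 := congrArg Subtype.val hb
    refine ht ⟨p * X - 1, fun h0 => ?_, by simp [hb']⟩
    have := congrArg (fun q => q.coeff 0) h0
    simp at this
  obtain ⟨O, h1, h2⟩ := I.image_subset_nonunits_valuationSubring hI
  refine ⟨O, fun x hx => h1 ((Algebra.adjoin k {t}).algebraMap_mem ⟨x, hx⟩), ?_⟩
  exact O.mem_nonunits_iff.1 (h2 ⟨_, Ideal.subset_span rfl, rfl⟩)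

/-- specialising an algebraic function of one more variable -/
theorem alg_spec [CharZero K] {O : ValuationSubring K} {S : Set K}
    (hk : (Subfield.closure S).toSubring ≤ O.toSubring) {A ρ : K} (hA0 : A ≠ 0)
    (hA : O.valuation A < 1) (hρ : ρ ∈ O)
    (h : ∀ D : K → K, IsDer D → (∀ y ∈ S, D y = 0) → D A = 0 → D ρ = 0)
    {d : ResidueField O → ResidueField O} (hd : IsDer d) (hS : ∀ y ∈ S, d (res O y) = 0) :
    d (res O ρ) = 0 := by
  classical
  set k := Subfield.closure S with hkdef
  have h1 : IsAlgebraic (IntermediateField.adjoin k {A}) ρ := by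
    refine alg_of_killed fun D hD h0 => h D hD (fun y hy => ?_) ?_
    · exact h0 ⟨y, (IntermediateField.adjoin k {A}).algebraMap_mem
        ⟨y, Subfield.subset_closure hy⟩⟩
    · exact h0 ⟨A, IntermediateField.subset_adjoin _ _ rfl⟩
  have h2 : IsAlgebraic (Algebra.adjoin k {A}) ρ := by
    by_contra h2
    exact IntermediateField.transcendental_adjoin_iff.2 h2 h1
  obtain ⟨p, hp, hpρ⟩ := h2
  have hc : ∀ i, ∃ c : k[X], Polynomial.aeval A c = (p.coeff i : K) := by
    intro i
    exact (Algebra.adjoin_singleton_eq_range_aeval k A).le (p.coeff i).2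
  choose c hc using hc
  have key : ∀ (N : ℕ) (n : ℕ) (c : ℕ → k[X]), ∑ i ∈ Finset.range n, (c i).natDegree = N →
      (∃ i ∈ Finset.range n, c i ≠ 0) →
      ∑ i ∈ Finset.range n, Polynomial.aeval A (c i) * ρ ^ i = 0 → d (res O ρ) = 0 := by
    intro N
    induction N using Nat.strong_induction_on with
    | _ N ih =>
      intro n c hN hne hsum
      by_cases h0 : ∀ i ∈ Finset.range n, (c i).coeff 0 = 0
      · obtain ⟨j, hj, hcj⟩ := hne
        have hdiv : ∀ i ∈ Finset.range n, c i = (c i).divX * X := fun i hi => by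
          have := (c i).divX_mul_X_add
          rw [h0 i hi, C_0, add_zero] at this
          exact this.symm
        refine ih _ ?_ n (fun i => (c i).divX) rfl ⟨j, hj, fun h => hcj ?_⟩ ?_
        · rw [← hN]
          refine Finset.sum_lt_sum (fun i _ => natDegree_divX_le) ⟨j, hj, ?_⟩
          rw [natDegree_divX_eq_natDegree_tsub_one]
          have : (c j).natDegree ≠ 0 := fun h => hcj (by
            rw [eq_C_of_natDegree_eq_zero h, h0 j hj, C_0])
          omega
        · rw [hdiv j hj, h, zero_mul]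
        · apply mul_left_cancel₀ hA0
          rw [mul_zero, ← hsum, Finset.mul_sum]
          refine Finset.sum_congr rfl fun i hi => ?_
          conv_rhs => rw [hdiv i hi]
          rw [map_mul, aeval_X]; ring
      · push Not at h0
        obtain ⟨j, hj, hcj⟩ := h0
        let _ : Algebra k (ResidueField O) := (subHom hk).toAlgebra
        refine hd.algebraic (A := k) (fun a => ?_) (subHom hk).injective
          ⟨∑ i ∈ Finset.range n, monomial i ((c i).coeff 0), fun h => hcj ?_, ?_⟩
        · change d (subHom hk a) = 0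
          rw [subHom_apply]
          exact res_closure hk hd hS a.2
        · have := congrArg (fun q => q.coeff j) h
          simpa [finsetSum_coeff, coeff_monomial, Finset.mem_range.1 hj] using this
        · have r1 := Red.sum (O := O) (Finset.range n)
            (f := fun i => Polynomial.aeval A (c i) * ρ ^ i)
            (g := fun i => (c i).eval₂ (subHom hk) 0 * res O ρ ^ i)
            fun i _ => ((red_zero_iff.2 hA).aeval hk (c i)).mul ((Red.of_mem hρ).pow i)
          have r2 := r1.eq Red.zero hsum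
          rw [map_sum, ← r2]
          refine Finset.sum_congr rfl fun i _ => ?_
          rw [aeval_monomial, eval₂_at_zero]
          rfl
  refine key _ (p.natDegree + 1) c rfl ⟨p.natDegree, by simp, fun h => hp ?_⟩ ?_
  · have := hc p.natDegree
    rw [h, map_zero] at this
    exact leadingCoeff_eq_zero.1 (Subtype.ext this.symm)
  · rw [aeval_eq_sum_range] at hpρ
    rw [← hpρ]
    refine Finset.sum_congr rfl fun i _ => ?_
    rw [hc i]
    rfl

/-- From a place `O₃` of a two-dimensional family where `A → 0` and `σ` stays transcendental, a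
place where `σ → 0` and `A` stays transcendental, provided the special fibre is rigid. -/
theorem exists_lift_place [CharZero K] {O₃ : ValuationSubring K} {S : Set K}
    (hk : (Subfield.closure S).toSubring ≤ O₃.toSubring) {A σ : K} (T : Finset K)
    (hA0 : A ≠ 0) (hA : O₃.valuation A < 1) (hσ : σ ∈ O₃) (hT : ∀ t ∈ T, t ∈ O₃)
    (h2 : ∃ d, IsDer d ∧ (∀ y ∈ S, d (res O₃ y) = 0) ∧ d (res O₃ σ) ≠ 0)
    (h3 : ∀ t ∈ T, ∀ d, IsDer d → (∀ y ∈ S, d (res O₃ y) = 0) → d (res O₃ t) = 0)
    (h4 : ∀ O : ValuationSubring K, (Subfield.closure S).toSubring ≤ O.toSubring →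
      (∀ t ∈ T, t ∈ O) → O.valuation A < 1 → O.valuation σ < 1 →
      ∀ t ∈ T, ∀ d, IsDer d → (∀ y ∈ S, d (res O y) = 0) → d (res O t) = 0) :
    ∃ O : ValuationSubring K, (Subfield.closure (insert A S)).toSubring ≤ O.toSubring ∧
      O.valuation σ < 1 ∧ ∀ t ∈ T, O₃.valuation t = 1 → O.valuation t = 1 := by
  classical
  set k := Subfield.closure S with hkdef
  have := charZero_res hk
  let G : Finset K := insert A (insert σ T)
  let R₀ := Algebra.adjoin k (G : Set K)
  let R : Subring K := R₀.toSubring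
  have hft : Algebra.FiniteType k R₀ := by
    rw [← Subalgebra.fg_iff_finiteType]
    exact Subalgebra.fg_adjoin_finset G
  have hnoeth : IsNoetherianRing R := Algebra.FiniteType.isNoetherianRing k R₀
  have hind : ∀ P : K → Prop, (∀ y ∈ k, P y) → P A → P σ → (∀ t ∈ T, P t) →
      (∀ a ∈ R, ∀ b ∈ R, P a → P b → P (a + b)) → (∀ a ∈ R, ∀ b ∈ R, P a → P b → P (a * b)) →
      ∀ y ∈ R, P y := by
    intro P p1 p2 p3 p4 p5 p6 y hy
    have hy' : y ∈ Algebra.adjoin k (G : Set K) := hy
    clear hy
    induction hy' using Algebra.adjoin_induction with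
    | mem t ht =>
      simp only [G, Finset.coe_insert, Set.mem_insert_iff, Finset.mem_coe] at ht
      rcases ht with rfl | rfl | ht
      · exact p2
      · exact p3
      · exact p4 t ht
    | algebraMap r => exact p1 r r.2
    | add a b ha hb pa pb => exact p5 a ha b hb pa pb
    | mul a b ha hb pa pb => exact p6 a ha b hb pa pb
  have hkR : ∀ y ∈ k, y ∈ R := fun y hy => R₀.algebraMap_mem ⟨y, hy⟩
  have hAR : A ∈ R := Algebra.subset_adjoin (by simp [G])
  have hσR : σ ∈ R := Algebra.subset_adjoin (by simp [G])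
  have hTR : ∀ t ∈ T, t ∈ R := fun t ht => Algebra.subset_adjoin (by simp [G, ht])
  have hR3 : R ≤ O₃.toSubring := hind (· ∈ O₃) (fun y hy => hk hy)
    ((O₃.valuation_le_one_iff A).1 hA.le) hσ hT (fun a _ b _ => O₃.add_mem a b)
    fun a _ b _ => O₃.mul_mem a b
  obtain ⟨d0, hd0, hd0S, hd0σ⟩ := h2
  let k' := Subfield.closure (res O₃ '' S)
  obtain ⟨O₂, hk2, hσ2⟩ := exists_place k' (t := res O₃ σ)
    (trans_of_der hd0 (by rintro _ ⟨y, hy, rfl⟩; exact hd0S y hy) hd0σ)
  have halg : ∀ t, (∀ d, IsDer d → (∀ y ∈ S, d (res O₃ y) = 0) → d (res O₃ t) = 0) →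
      IsAlgebraic k' (res O₃ t) := fun t ht =>
    alg_closure_of_killed fun d hd h0 => ht d hd fun y hy => h0 _ ⟨y, hy, rfl⟩
  have hR2 : ∀ y ∈ R, res O₃ y ∈ O₂ := by
    refine hind (fun y => res O₃ y ∈ O₂) (fun y hy => ?_) ?_ ?_ (fun t ht => ?_)
      (fun a ha b hb pa pb => ?_) fun a ha b hb pa pb => ?_
    · exact mem_of_alg hk2 (halg y fun d hd h0 => res_closure hk hd h0 hy)
    · rw [(red_zero_iff.2 hA).2]; exact O₂.zero_mem
    · exact (O₂.valuation_le_one_iff _).1 hσ2.le
    · exact mem_of_alg hk2 (halg t (h3 t ht))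
    · rw [((Red.of_mem (hR3 ha)).add (Red.of_mem (hR3 hb))).2]; exact O₂.add_mem _ _ pa pb
    · rw [((Red.of_mem (hR3 ha)).mul (Red.of_mem (hR3 hb))).2]; exact O₂.mul_mem _ _ pa pb
  let ψ₃ : R →+* ResidueField O₃ := (residue O₃).comp (Subring.inclusion hR3)
  have hψ₃ : ∀ y : R, ψ₃ y = res O₃ y := fun y => (res_of_mem (hR3 y.2)).symm
  let ψ₂ : R →+* O₂ := ψ₃.codRestrict O₂.toSubring fun y => by rw [hψ₃]; exact hR2 _ y.2
  let m : Ideal R := (maximalIdeal O₂).comap ψ₂
  have hm : ∀ y : R, y ∈ m ↔ O₂.valuation (res O₃ y) < 1 := fun y => by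
    rw [← hψ₃]; exact O₂.valuation_lt_one_iff (ψ₂ y)
  have hmp : m.IsPrime := Ideal.comap_isPrime _ _
  have hmk : ∀ y : R, (y : K) ∈ k → (y : K) ≠ 0 → y ∉ m := by
    intro y hy h0 hym
    have : y * ⟨(y : K)⁻¹, hkR _ (k.inv_mem hy)⟩ = 1 := Subtype.ext (mul_inv_cancel₀ h0)
    exact hmp.ne_top ((Ideal.eq_top_iff_one _).2 (this ▸ m.mul_mem_right _ hym))
  have hAm : (⟨A, hAR⟩ : R) ∈ m := by
    rw [hm]; simp only; rw [(red_zero_iff.2 hA).2]; simp
  have hσm : Ideal.span {(⟨σ, hσR⟩ : R)} ≤ m := by
    rw [Ideal.span_le, Set.singleton_subset_iff]; exact (hm _).2 hσ2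
  obtain ⟨p, hp, hpm⟩ := Ideal.exists_minimalPrimes_le hσm
  have hpp := hp.isPrime
  have hht := Ideal.height_le_one_of_isPrincipal_of_mem_minimalPrimes _ p hp
  obtain ⟨O, hRO, hO⟩ := exists_val_of_prime R p
  have hσO : O.valuation σ < 1 := (hO ⟨σ, hσR⟩).1 (hp.le (Ideal.subset_span rfl))
  have hkO : k.toSubring ≤ O.toSubring := fun y hy => hRO (hkR y hy)
  have hpoly : ∀ (y : R) (q : k[X]), Polynomial.aeval (y : K) q ∈ R := fun y q => by
    rw [aeval_eq_sum_range]
    exact R.sum_mem fun i _ => R.mul_mem (hkR _ (q.coeff i).2) (R.pow_mem y.2 _)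
  have hconst : ∀ y ∈ m, ∀ q : k[X], q.coeff 0 ≠ 0 →
      (⟨Polynomial.aeval (y : K) q, hpoly y q⟩ : R) ∉ m := by
    intro y hy q hq hqm
    refine hmk ⟨q.coeff 0, hkR _ (q.coeff 0).2⟩ (q.coeff 0).2 (fun h => hq (Subtype.ext h)) ?_
    have e : (⟨q.coeff 0, hkR _ (q.coeff 0).2⟩ : R) =
        ⟨Polynomial.aeval (y : K) q, hpoly y q⟩ -
          ⟨Polynomial.aeval (y : K) q.divX, hpoly y _⟩ * y := by
      apply Subtype.ext
      have := congrArg (Polynomial.aeval (y : K)) q.divX_mul_X_add
      rw [map_add, map_mul, aeval_X, aeval_C] at this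
      change ((q.coeff 0 : k) : K) = Polynomial.aeval (y : K) q - Polynomial.aeval (y : K) q.divX * y
      rw [← this]
      exact (add_sub_cancel_left _ _).symm
    rw [e]
    exact m.sub_mem hqm (m.mul_mem_left _ hy)
  have hAp : (⟨A, hAR⟩ : R) ∉ p := by
    intro hAp
    have hAO : O.valuation A < 1 := (hO _).1 hAp
    have := charZero_res hkO
    have hkill : ∀ d, IsDer d → (∀ y ∈ S, d (res O y) = 0) → ∀ y ∈ R, d (res O y) = 0 := by
      intro d hd h0
      refine hind (fun y => d (res O y) = 0) (fun y hy => res_closure hkO hd h0 hy) ?_ ?_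
        (fun t ht => h4 O hkO (fun t ht => hRO (hTR t ht)) hAO hσO t ht d hd h0)
        (fun a ha b hb pa pb => ?_) fun a ha b hb pa pb => ?_
      · rw [(red_zero_iff.2 hAO).2, hd.zero]
      · rw [(red_zero_iff.2 hσO).2, hd.zero]
      · rw [((Red.of_mem (hRO ha)).add (Red.of_mem (hRO hb))).2, hd.add, pa, pb, add_zero]
      · rw [((Red.of_mem (hRO ha)).mul (Red.of_mem (hRO hb))).2, hd.mul, pa, pb]; simp
    have hmp' : m ≤ p := by
      intro y hy
      by_contra hyp
      let _ : Algebra k (ResidueField O) := (subHom hkO).toAlgebra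
      have a1 : IsAlgebraic k (res O (y : K)) := alg_of_killed fun d hd h0 =>
        hkill d hd (fun s hs => by
          have := h0 ⟨s, Subfield.subset_closure hs⟩
          change d (subHom hkO _) = 0 at this
          rwa [subHom_apply] at this) _ y.2
      have a2 : res O (y : K) ≠ 0 := fun h =>
        hyp ((hO y).2 ((Red.of_mem (hRO y.2)).lt h))
      obtain ⟨q, hq0, hq⟩ := a1.exists_nonzero_coeff_and_aeval_eq_zero
        (mem_nonZeroDivisors_of_ne_zero a2)
      refine hconst y hy q hq0 (hpm ((hO _).2 ?_))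
      exact ((Red.of_mem (hRO y.2)).aeval hkO q).lt hq
    let q : Ideal R := RingHom.ker ψ₃
    have hqp : q.IsPrime := RingHom.ker_isPrime _
    have l1 : (⊥ : Ideal R) < q := by
      refine bot_lt_iff_ne_bot.2 fun h => hA0 ?_
      have : (⟨A, hAR⟩ : R) ∈ q := by
        rw [RingHom.mem_ker, hψ₃]; exact (red_zero_iff.2 hA).2
      rw [h, Ideal.mem_bot] at this
      exact congrArg Subtype.val this
    have l2 : q < p := by
      refine lt_of_le_of_ne (fun y hy => hmp' ?_) fun h => ?_
      · rw [hm, ← hψ₃, RingHom.mem_ker.1 hy]; simp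
      · have : (⟨σ, hσR⟩ : R) ∈ q := h ▸ hp.le (Ideal.subset_span rfl)
        rw [RingHom.mem_ker, hψ₃] at this
        simp only at this
        rw [this, hd0.zero] at hd0σ
        exact hd0σ rfl
    have e1 := Ideal.height_add_one_le_of_lt_of_isPrime l1
    have e2 := Ideal.height_add_one_le_of_lt_of_isPrime l2
    have e3 : (1 : ℕ∞) + 1 ≤ 1 := by
      calc (1 : ℕ∞) + 1 ≤ ((⊥ : Ideal R).height + 1) + 1 := by gcongr; exact le_add_self
        _ ≤ q.height + 1 := by gcongr
        _ ≤ 1 := e2.trans hht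
    exact absurd e3 (by decide)
  have hunit : ∀ s : k[X], s ≠ 0 → O.valuation (Polynomial.aeval A s) = 1 := by
    intro s hs
    have : (⟨Polynomial.aeval A s, hpoly ⟨A, hAR⟩ s⟩ : R) ∉ p := by
      induction hn : s.natDegree using Nat.strong_induction_on generalizing s with
      | _ n ih =>
        by_cases h0 : s.coeff 0 = 0
        · have e : s = s.divX * X := by
            have := s.divX_mul_X_add
            rw [h0, C_0, add_zero] at this
            exact this.symm
          have hs' : s.divX ≠ 0 := fun h => hs (by rw [e, h, zero_mul])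
          have hlt : s.divX.natDegree < n := by
            rw [natDegree_divX_eq_natDegree_tsub_one, ← hn]
            have : s.natDegree ≠ 0 := fun h => hs (by
              rw [eq_C_of_natDegree_eq_zero h, h0, C_0])
            omega
          intro hmem
          have e2 : (⟨Polynomial.aeval A s, hpoly ⟨A, hAR⟩ s⟩ : R) =
              ⟨Polynomial.aeval A s.divX, hpoly ⟨A, hAR⟩ _⟩ * ⟨A, hAR⟩ := by
            apply Subtype.ext
            change Polynomial.aeval A s = Polynomial.aeval A s.divX * A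
            conv_lhs => rw [e]
            rw [map_mul, aeval_X]
          rw [e2] at hmem
          exact (hpp.mem_or_mem hmem).elim (ih _ hlt _ hs' rfl) hAp
        · exact fun hmem => hconst _ hAm s h0 (hpm hmem)
    have h1 := mt (hO _).2 this
    exact le_antisymm ((O.valuation_le_one_iff _).2 (hRO (hpoly ⟨A, hAR⟩ s))) (not_lt.1 h1)
  refine ⟨O, ?_, hσO, fun t ht h1 => ?_⟩
  · have : Subfield.closure (insert A S) ≤ (IntermediateField.adjoin k {A}).toSubfield := by
      rw [Subfield.closure_le]
      rintro y (rfl | hy)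
      · exact IntermediateField.subset_adjoin _ _ rfl
      · exact (IntermediateField.adjoin k {A}).algebraMap_mem ⟨y, Subfield.subset_closure hy⟩
    intro y hy
    obtain ⟨r, s, rfl⟩ := (IntermediateField.mem_adjoin_simple_iff k y).1 (this hy)
    by_cases hs : s = 0
    · simp [hs]
    · change _ ∈ O
      rw [← O.valuation_le_one_iff, map_div₀, hunit s hs, div_one, O.valuation_le_one_iff]
      exact hRO (hpoly ⟨A, hAR⟩ r)
  · refine le_antisymm ((O.valuation_le_one_iff _).2 (hRO (hTR t ht))) (not_lt.1 fun hlt => ?_)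
    have h5 := (hm _).1 (hpm ((hO ⟨t, hTR t ht⟩).2 hlt))
    exact h5.ne (val_of_alg hk2 (halg t (h3 t ht)) ((Red.of_mem (hT t ht)).ne_zero h1))

end Pool.Agent.P.MP_27dab6_co
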