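import Pool.Agent.P.MP_27dab6_co.Edge
import Pool.Agent.P.MP_27dab6_co.Graph
import Pool.Agent.P.MP_27dab6_co.Place

/-!
Configurations of disks over a field: genericity, rigidity, stresses.
-/

set_option autoImplicit false

namespace Pool.Agent.P.MP_27dab6_co

open Finset Classical

variable {V K : Type} [Field K]

/-- product of the differences of `f` and `g` along `e` -/
noncomputable def bt (f g : V → K) (e : Sym2 V) : K :=
  (f (fs e) - f (sn e)) * (g (fs e) - g (sn e))

theorem bt_mk (f g : V → K) (i j : V) : bt f g s(i, j) = (f i - f j) * (g i - g j) := by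
  unfold bt
  rcases fs_sn i j with ⟨h1, h2⟩ | ⟨h1, h2⟩ <;> rw [h1, h2]
  ring

theorem bt_comm (f g : V → K) (e : Sym2 V) : bt f g e = bt g f e := mul_comm _ _

/-- sum of `f` over the two ends of `e` -/
noncomputable def sm (f : V → K) (e : Sym2 V) : K := f (fs e) + f (sn e)

theorem sm_mk (f : V → K) (i j : V) : sm f s(i, j) = f i + f j := by
  unfold sm
  rcases fs_sn i j with ⟨h1, h2⟩ | ⟨h1, h2⟩ <;> rw [h1, h2]
  ring

/-- linearised distance -/
def row (z w δz δw : V → K) (i j : V) : K :=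
  (w i - w j) * (δz i - δz j) + (z i - z j) * (δw i - δw j)

/-- linearised tangency -/
def lin (z w r δz δw δr : V → K) (i j : V) : K :=
  row z w δz δw i j - 2 * (r i + r j) * (δr i + δr j)

theorem row_symm (z w δz δw : V → K) (i j : V) : row z w δz δw i j = row z w δz δw j i := by
  unfold row; ring

theorem lin_symm (z w r δz δw δr : V → K) (i j : V) :
    lin z w r δz δw δr i j = lin z w r δz δw δr j i := by
  unfold lin row; ring

theorem IsDer.bt {D : K → K} (hD : IsDer D) (z w : V → K) (e : Sym2 V) :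
    D (bt z w e) = row z w (fun i => D (z i)) (fun i => D (w i)) (fs e) (sn e) := by
  unfold Pool.Agent.P.MP_27dab6_co.bt row
  rw [hD.mul, hD.sub, hD.sub]; ring

theorem IsDer.prod {D : K → K} (hD : IsDer D) (z w : V → K) (i j : V) :
    D ((z i - z j) * (w i - w j)) = row z w (fun i => D (z i)) (fun i => D (w i)) i j := by
  unfold row
  rw [hD.mul, hD.sub, hD.sub]; ring

section Local

variable [CharZero K] {ι : Type}

theorem zero_around (S : Finset ι) (h3 : S.card ≤ 3) (c p q l : ι → K)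
    (hpq : ∀ i ∈ S, c i ≠ 0 → p i * q i = l i ^ 2) (hl : ∀ i ∈ S, c i ≠ 0 → l i ≠ 0)
    (hinj : ∀ i ∈ S, ∀ j ∈ S, c i ≠ 0 → c j ≠ 0 → p i / l i = p j / l j → i = j)
    (e1 : ∑ i ∈ S, c i * q i = 0) (e2 : ∑ i ∈ S, c i * p i = 0) (e3 : ∑ i ∈ S, c i * l i = 0) :
    ∀ i ∈ S, c i = 0 := by
  by_contra hne
  push Not at hne
  obtain ⟨i0, hi0, hc0⟩ := hne
  set T := S.filter fun i => c i ≠ 0 with hT
  have hs : ∀ f : ι → K, ∑ i ∈ T, c i * f i = ∑ i ∈ S, c i * f i := fun f =>
    sum_filter_of_ne fun i _ h h0 => h (by rw [h0, zero_mul])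
  have hp : ∀ i ∈ T, p i ≠ 0 ∧ q i ≠ 0 := fun i hi => by
    obtain ⟨a, b⟩ := mem_filter.1 hi
    exact mul_ne_zero_iff.1 (by rw [hpq i a b]; exact pow_ne_zero _ (hl i a b))
  have := local_four T ⟨i0, mem_filter.2 ⟨hi0, hc0⟩⟩ (fun i => c i * q i) (fun i => c i * p i)
    (fun i => p i / l i) (fun _ => 1) 0 0
    (fun i hi => div_ne_zero (hp i hi).1 (hl i (mem_filter.1 hi).1 (mem_filter.1 hi).2))
    (fun i hi j hj => hinj i (mem_filter.1 hi).1 j (mem_filter.1 hj).1 (mem_filter.1 hi).2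
      (mem_filter.1 hj).2)
    (fun i hi => Or.inr ⟨rfl, by
      obtain ⟨a, b⟩ := mem_filter.1 hi
      have := hl i a b
      have h := hpq i a b
      field_simp
      linear_combination (-p i) * h⟩)
    (fun i hi => Or.inl (mul_ne_zero (mem_filter.1 hi).2 (hp i hi).2))
    (fun _ => (hs q).trans e1) (fun _ => (hs p).trans e2) (by
      rw [← hs] at e3
      have : ∑ i ∈ T, (c i * q i * (p i / l i) + c i * p i / (p i / l i)) =
          2 * ∑ i ∈ T, c i * l i := by
        rw [mul_sum]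
        refine sum_congr rfl fun i hi => ?_
        obtain ⟨a, b⟩ := mem_filter.1 hi
        have := hl i a b
        have h := hpq i a b
        have := (hp i hi).1
        field_simp
        linear_combination h
      rw [this, e3, mul_zero])
  have h4 : T.card ≤ 3 := (card_filter_le _ _).trans h3
  simp at this
  omega

theorem solve_local (S : Finset ι) (h3 : S.card ≤ 3) (p q l t : ι → K)
    (hpq : ∀ i ∈ S, p i * q i = l i ^ 2) (hl : ∀ i ∈ S, l i ≠ 0)
    (hinj : ∀ i ∈ S, ∀ j ∈ S, p i / l i = p j / l j → i = j) :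
    ∃ A B C : K, ∀ i ∈ S, q i * A + p i * B - 2 * l i * C = t i := by
  let R : (K × K × K) →ₗ[K] (S → K) :=
    { toFun := fun x i => q i * x.1 + p i * x.2.1 - 2 * l i * x.2.2
      map_add' := fun a b => by funext i; simp; ring
      map_smul' := fun c a => by funext i; simp; ring }
  have hR : Function.Surjective R := surj_of_free R fun c hc e => by
    let c' : ι → K := fun i => if h : i ∈ S then c ⟨i, h⟩ else 0
    have hs : ∀ f : ι → K, ∑ i ∈ S, c' i * f i = ∑ e : S, c e * f e := fun f => by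
      rw [← sum_coe_sort S]
      exact sum_congr rfl fun i _ => by simp [c', i.2]
    have := zero_around S h3 c' p q l (fun i hi _ => hpq i hi) (fun i hi _ => hl i hi)
      (fun i hi j hj _ _ => hinj i hi j hj) (by rw [hs]; simpa [R] using hc (1, 0, 0))
      (by rw [hs]; simpa [R] using hc (0, 1, 0)) (by
        rw [hs]
        have := hc (0, 0, -1 / 2)
        refine Eq.trans (sum_congr rfl fun e _ => ?_) this
        simp only [R, LinearMap.coe_mk, AddHom.coe_mk]
        ring) e e.2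
    simpa [c', e.2] using this
  obtain ⟨x, hx⟩ := hR fun i => t i
  exact ⟨x.1, x.2.1, x.2.2, fun i hi => congrFun hx ⟨i, hi⟩⟩

/-- Solutions of the linearised tangency equations extend vertex by vertex. -/
theorem ext_lemma (G : SimpleGraph V) (z w r : V → K) {U Y : Finset V}
    (htan : ∀ i ∈ U, ∀ j ∈ U, G.Adj i j →
      (z i - z j) * (w i - w j) = (r i + r j) ^ 2 ∧ r i + r j ≠ 0)
    (hdir : ∀ v ∈ U, v ∉ Y → ∀ j ∈ U, ∀ j' ∈ U, G.Adj v j → G.Adj v j' →
      (z v - z j) / (r v + r j) = (z v - z j') / (r v + r j') → j = j')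
    (hY : Y ⊆ U)
    (hlow : ∀ X ⊆ U, Disjoint X Y → X.Nonempty → ∃ v ∈ X, (nbr G (X ∪ Y) v).card ≤ 3)
    (c : Sym2 V → K) (δz δw δr : V → K) :
    ∃ δz' δw' δr' : V → K, (∀ i ∈ Y, δz' i = δz i ∧ δw' i = δw i ∧ δr' i = δr i) ∧
      ∀ i ∈ U, ∀ j ∈ U, G.Adj i j → (i ∉ Y ∨ j ∉ Y) → lin z w r δz' δw' δr' i j = c s(i, j) := by
  suffices H : ∀ n, ∀ X ⊆ U, Disjoint X Y → X.card = n → ∃ δz' δw' δr' : V → K,
      (∀ i ∈ Y, δz' i = δz i ∧ δw' i = δw i ∧ δr' i = δr i) ∧
      ∀ i ∈ X ∪ Y, ∀ j ∈ X ∪ Y, G.Adj i j → (i ∉ Y ∨ j ∉ Y) →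
        lin z w r δz' δw' δr' i j = c s(i, j) by
    have := H _ (U \ Y) sdiff_subset sdiff_disjoint rfl
    rwa [sdiff_union_of_subset hY] at this
  intro n
  induction n with
  | zero =>
    intro X _ _ hX
    rw [card_eq_zero.1 hX, empty_union]
    exact ⟨δz, δw, δr, fun _ _ => ⟨rfl, rfl, rfl⟩, fun i hi j hj _ h => by tauto⟩
  | succ n ih =>
    intro X hXU hd hX
    obtain ⟨v, hv, h3⟩ := hlow X hXU hd (card_pos.1 (by omega))
    have hvY : v ∉ Y := disjoint_left.1 hd hv
    have hsub : X ∪ Y ⊆ U := union_subset hXU hY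
    obtain ⟨a, b, d, h1, h2⟩ := ih (X.erase v) ((erase_subset _ _).trans hXU)
      (hd.mono_left (erase_subset _ _)) (by rw [card_erase_of_mem hv]; omega)
    obtain ⟨A, B, C, h⟩ := solve_local (nbr G (X ∪ Y) v) h3 (fun j => z v - z j)
      (fun j => w v - w j) (fun j => r v + r j)
      (fun j => c s(v, j) + (w v - w j) * a j + (z v - z j) * b j + 2 * (r v + r j) * d j)
      (fun j hj => (htan v (hXU hv) j (hsub (mem_nbr.1 hj).1) (mem_nbr.1 hj).2).1)
      (fun j hj => (htan v (hXU hv) j (hsub (mem_nbr.1 hj).1) (mem_nbr.1 hj).2).2)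
      (fun j hj j' hj' => hdir v (hXU hv) hvY j (hsub (mem_nbr.1 hj).1) j'
        (hsub (mem_nbr.1 hj').1) (mem_nbr.1 hj).2 (mem_nbr.1 hj').2)
    have key : ∀ j ∈ X ∪ Y, G.Adj v j → lin z w r (Function.update a v A) (Function.update b v B)
        (Function.update d v C) v j = c s(v, j) := fun j hj hadj => by
      have := h j (mem_nbr.2 ⟨hj, hadj⟩)
      have hne : j ≠ v := hadj.ne'
      simp only [lin, row, Function.update_self, Function.update_of_ne hne]
      linear_combination this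
    refine ⟨Function.update a v A, Function.update b v B, Function.update d v C,
      fun i hi => ?_, fun i hi j hj hadj hij => ?_⟩
    · have : i ≠ v := fun e => hvY (e ▸ hi)
      simpa [Function.update_of_ne this] using h1 i hi
    · by_cases e1 : i = v
      · subst e1; exact key j hj hadj
      by_cases e2 : j = v
      · subst e2; rw [lin_symm, Sym2.eq_swap]; exact key i hi hadj.symm
      have m : ∀ k ∈ X ∪ Y, k ≠ v → k ∈ X.erase v ∪ Y := fun k hk hkv => by
        rcases mem_union.1 hk with h | h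
        · exact mem_union_left _ (mem_erase.2 ⟨hkv, h⟩)
        · exact mem_union_right _ h
      have := h2 i (m i hi e1) j (m j hj e2) hadj hij
      simpa only [lin, row, Function.update_of_ne e1, Function.update_of_ne e2] using this

end Local

/-- basic facts on a configuration of disks with centres `(z, w)` in isotropic coordinates -/
structure Base (G : SimpleGraph V) (z w r : V → K) : Prop where
  ne4 : ∀ i j k l, r i + r j + r k + r l ≠ 0
  nz : ∀ i j, i ≠ j → z i ≠ z j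
  nw : ∀ i j, i ≠ j → w i ≠ w j
  nint : ∀ i j, i ≠ j → (z i - z j) * (w i - w j) ≠ (r i - r j) ^ 2
  tan : ∀ i j, G.Adj i j → (z i - z j) * (w i - w j) = (r i + r j) ^ 2

/-- every solution of the linearised tangency equations on `U` comes from a derivation -/
def Gen (G : SimpleGraph V) (z w r : V → K) (U : Finset V) : Prop :=
  ∀ δz δw δr : V → K, (∀ i ∈ U, ∀ j ∈ U, G.Adj i j → lin z w r δz δw δr i j = 0) →
    ∃ D, IsDer D ∧ ∀ i ∈ U, D (z i) = δz i ∧ D (w i) = δw i ∧ D (r i) = δr i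

/-- the motion is a rotation followed by a translation on `U` -/
def Triv (z w δz δw : V → K) (U : Finset V) : Prop :=
  ∃ θ : K, ∀ i ∈ U, ∀ j ∈ U, δz i - δz j = θ * (z i - z j) ∧ δw i - δw j = -θ * (w i - w j)

/-- infinitesimal rigidity of the bars of `B` inside `U` -/
def Rigid (B : SimpleGraph V) (z w : V → K) (U : Finset V) : Prop :=
  ∀ δz δw : V → K, (∀ i ∈ U, ∀ j ∈ U, B.Adj i j → row z w δz δw i j = 0) → Triv z w δz δw U

/-- equilibrium stress on the bars of `B` inside `U` -/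
def Stress (B : SimpleGraph V) (z w : V → K) (U : Finset V) (ω : Sym2 V → K) : Prop :=
  (∀ φ : V → K, ∑ e ∈ eIn B U, ω e * bt w φ e = 0) ∧
    ∀ φ : V → K, ∑ e ∈ eIn B U, ω e * bt z φ e = 0

/-- independence of the radii on `I` and of the values `N` on `Φ` -/
def Ind (I : Finset V) (Φ : Finset (Sym2 V)) (r : V → K) (N : Sym2 V → K) : Prop :=
  ∀ (ρ : V → K) (c : Sym2 V → K), ∃ D, IsDer D ∧ (∀ i ∈ I, D (r i) = ρ i) ∧
    ∀ e ∈ Φ, D (N e) = c e

/-- the set of parameters -/
def pset (I : Finset V) (Φ : Finset (Sym2 V)) (r : V → K) (N : Sym2 V → K) : Set K :=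
  r '' I ∪ N '' Φ

omit [Field K] in
theorem r_mem_pset {I : Finset V} {Φ : Finset (Sym2 V)} {r : V → K} {N : Sym2 V → K} {i : V}
    (h : i ∈ I) : r i ∈ pset I Φ r N := Or.inl ⟨i, h, rfl⟩

omit [Field K] in
theorem n_mem_pset {I : Finset V} {Φ : Finset (Sym2 V)} {r : V → K} {N : Sym2 V → K}
    {e : Sym2 V} (h : e ∈ Φ) : N e ∈ pset I Φ r N := Or.inr ⟨e, h, rfl⟩

omit [Field K] in
theorem kill_pset {L : Type} [Zero L] {I : Finset V} {Φ : Finset (Sym2 V)} {r : V → K}
    {N : Sym2 V → K} {f : K → L} (h1 : ∀ i ∈ I, f (r i) = 0) (h2 : ∀ e ∈ Φ, f (N e) = 0) :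
    ∀ y ∈ pset I Φ r N, f y = 0 := by
  rintro _ (⟨i, hi, rfl⟩ | ⟨e, he, rfl⟩)
  · exact h1 i hi
  · exact h2 e he

theorem Ind.mono {I I' : Finset V} {Φ Φ' : Finset (Sym2 V)} {r : V → K} {N : Sym2 V → K}
    (h : Ind I Φ r N) (h1 : I' ⊆ I) (h2 : Φ' ⊆ Φ) : Ind I' Φ' r N := fun ρ c => by
  obtain ⟨D, a, b, d⟩ := h ρ c
  exact ⟨D, a, fun i hi => b i (h1 hi), fun e he => d e (h2 he)⟩

theorem Ind.res [CharZero K] {I : Finset V} {Φ : Finset (Sym2 V)} {r : V → K} {N : Sym2 V → K}
    (h : Ind I Φ r N) {O : ValuationSubring K}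
    (hk : (Subfield.closure (pset I Φ r N)).toSubring ≤ O.toSubring) :
    Ind I Φ (fun i => res O (r i)) fun e => res O (N e) := by
  have h1 : Dual (I.disjSum Φ) (Sum.elim r N) := fun c => by
    obtain ⟨D, a, b, d⟩ := h (fun i => c (Sum.inl i)) fun e => c (Sum.inr e)
    refine ⟨D, a, ?_⟩
    rintro (i | e) hk
    · exact b i (by simpa using hk)
    · exact d e (by simpa using hk)
  have h2 : Sum.elim r N '' (I.disjSum Φ : Finset _) = pset I Φ r N := by
    ext y
    constructor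
    · rintro ⟨i | e, hk, rfl⟩
      · exact r_mem_pset (by simpa using hk)
      · exact n_mem_pset (by simpa using hk)
    · rintro (⟨i, hi, rfl⟩ | ⟨e, he, rfl⟩)
      · exact ⟨Sum.inl i, by simpa using hi, rfl⟩
      · exact ⟨Sum.inr e, by simpa using he, rfl⟩
  intro ρ c
  obtain ⟨D, a, b⟩ := h1.res (O := O) (by rw [h2]; exact hk) (Sum.elim ρ c)
  exact ⟨D, a, fun i hi => b (Sum.inl i) (by simpa using hi),
    fun e he => b (Sum.inr e) (by simpa using he)⟩

section Base

variable {G B : SimpleGraph V} {z w r : V → K} {U : Finset V}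

theorem Base.ne2 (h : Base G z w r) (i j : V) : r i + r j ≠ 0 := fun e =>
  h.ne4 i j i j (by linear_combination 2 * e)

theorem Base.dir (h : Base G z w r) {v j j' : V} (hj : G.Adj v j) (hj' : G.Adj v j')
    (e : (z v - z j) / (r v + r j) = (z v - z j') / (r v + r j')) : j = j' := by
  by_contra hne
  have h1 := h.tan v j hj
  have h2 := h.tan v j' hj'
  have l1 := h.ne2 v j
  have l2 := h.ne2 v j'
  have z1 := sub_ne_zero.2 (h.nz v j hj.ne)
  have z2 := sub_ne_zero.2 (h.nz v j' hj'.ne)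
  apply h.nint j j' hne
  rw [div_eq_div_iff l1 l2] at e
  have e' : (w v - w j) * (r v + r j') = (w v - w j') * (r v + r j) := by
    apply mul_left_cancel₀ (mul_ne_zero z1 l2)
    linear_combination (r v + r j') ^ 2 * h1 - (r v + r j) ^ 2 * h2 -
      (w v - w j') * (r v + r j) * e
  apply mul_left_cancel₀ (pow_ne_zero 2 l1)
  have a1 : (r v + r j) * (z j - z j') = (z v - z j) * (r j' - r j) := by linear_combination -e
  have a2 : (r v + r j) * (w j - w j') = (w v - w j) * (r j' - r j) := by linear_combination -e'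
  linear_combination ((r v + r j) * (w j - w j')) * a1 + (z v - z j) * (r j' - r j) * a2 +
    (r j' - r j) ^ 2 * h1

theorem Base.swap (h : Base G z w r) : Base G w z r :=
  ⟨h.ne4, h.nw, h.nz, fun i j e => by rw [mul_comm]; exact h.nint i j e,
    fun i j e => by rw [mul_comm]; exact h.tan i j e⟩

theorem Base.scale (h : Base G z w r) {u : K} (hu : u ≠ 0) :
    Base G (fun i => z i / u) (fun i => w i * u) r := by
  have e : ∀ i j, (z i / u - z j / u) * (w i * u - w j * u) = (z i - z j) * (w i - w j) :=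
    fun i j => by field_simp
  exact ⟨h.ne4, fun i j hij e => h.nz i j hij ((div_left_inj' hu).1 e),
    fun i j hij e => h.nw i j hij (mul_right_cancel₀ hu e),
    fun i j hij => by rw [e]; exact h.nint i j hij, fun i j hij => by rw [e]; exact h.tan i j hij⟩

theorem nbr_le {B' : SimpleGraph V} (h : B ≤ B') (S : Finset V) (v : V) :
    (nbr B S v).card ≤ (nbr B' S v).card :=
  card_le_card fun _ hj => mem_nbr.2 ⟨(mem_nbr.1 hj).1, h (mem_nbr.1 hj).2⟩

theorem Gen.sub [CharZero K] (h : Base G z w r) (hg : Gen G z w r U) {Y : Finset V} (hY : Y ⊆ U)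
    (hlow : ∀ X ⊆ U, Disjoint X Y → X.Nonempty → ∃ v ∈ X, (nbr G (X ∪ Y) v).card ≤ 3) :
    Gen G z w r Y := fun δz δw δr hδ => by
  obtain ⟨a, b, d, h1, h2⟩ := ext_lemma G z w r (fun i _ j _ e => ⟨h.tan i j e, h.ne2 i j⟩)
    (fun v _ _ j _ j' _ e e' => h.dir e e') hY hlow (fun _ => 0) δz δw δr
  obtain ⟨D, hD, h3⟩ := hg a b d fun i hi j hj e => by
    by_cases hij : i ∈ Y ∧ j ∈ Y
    · have := hδ i hij.1 j hij.2 e
      simpa only [lin, row, h1 i hij.1, h1 j hij.2] using this
    · exact h2 i hi j hj e (by tauto)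
  exact ⟨D, hD, fun i hi => by simpa only [h1 i hi] using h3 i (hY hi)⟩

theorem Gen.erase [CharZero K] (h : Base G z w r) (hg : Gen G z w r U) {x : V}
    (h3 : (nbr G U x).card ≤ 3) : Gen G z w r (U.erase x) := by
  refine hg.sub h (erase_subset _ _) fun X hX hd ⟨v, hv⟩ => ⟨v, hv, ?_⟩
  have : v = x := by
    by_contra hne
    exact disjoint_left.1 hd hv (mem_erase.2 ⟨hne, hX hv⟩)
  subst this
  refine le_trans (card_le_card fun j hj => mem_nbr.2 ⟨?_, (mem_nbr.1 hj).2⟩) h3
  exact union_subset hX (erase_subset _ _) (mem_nbr.1 hj).1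

theorem Gen.tight [CharZero K] (h : Base G z w r) (hg : Gen G z w r U) (hGB : G ≤ B)
    (hs : Sparse B U) {Y : Finset V} (hY : Y ⊆ U) (ht : Tight B Y) : Gen G z w r Y :=
  hg.sub h hY fun X hX hd hne => by
    obtain ⟨v, hv, h3⟩ := hs.low hX hY hd hne ht.ge
    exact ⟨v, hv, (nbr_le hGB _ _).trans h3⟩

/-- the level where nothing is clustered -/
noncomputable def trivLev (U : Finset V) (z w : V → K) (h : ∃ i ∈ U, ∃ j ∈ U, z i ≠ z j) :
    Lev K V where
  U := U
  L := Option V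
  lz := some
  bz := fun _ => none
  lw := some
  bw := fun _ => none
  ζ := z
  ω := w
  hz := fun _ _ _ _ _ => rfl
  hw := fun _ _ _ _ _ => rfl
  cz := fun _ _ _ _ e => by rw [Option.some.inj e]
  cw := fun _ _ _ _ e => by rw [Option.some.inj e]
  act := by
    obtain ⟨i, hi, j, hj, e⟩ := h
    exact ⟨i, hi, j, hj, Or.inl ⟨rfl, e⟩⟩

theorem ncl_inj {L : Type} (U : Finset V) {l : V → L} (h : Function.Injective l) :
    ncl U l = U.card := card_image_of_injective U h

theorem ncl_some (U : Finset V) : ncl U (some : V → Option V) = U.card :=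
  ncl_inj U (Option.some_injective V)

theorem Base.act (h : Base G z w r) (ht : Tight B U) : ∃ i ∈ U, ∃ j ∈ U, z i ≠ z j := by
  obtain ⟨i, hi, j, hj, e⟩ := one_lt_card.1 ht.two_le
  exact ⟨i, hi, j, hj, h.nz i j e⟩

theorem triv_count (ht : Tight B U) (h : ∃ i ∈ U, ∃ j ∈ U, z i ≠ z j) :
    (trivLev U z w h).Le (eIn B U).card ∧ (trivLev U z w h).Ge (eIn B U).card := by
  have hne : U.Nonempty := card_pos.1 (by have := ht.two_le; omega)
  unfold Lev.Le Lev.Ge Tight at *
  simp only [trivLev, ncl_some, ncl_const hne]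
  omega

theorem Rigid.surj (h : Base G z w r) (ht : Tight B U) (hr : Rigid B z w U) (c : Sym2 V → K) :
    ∃ δz δw : V → K, ∀ e ∈ eIn B U, row z w δz δw (fs e) (sn e) = c e := by
  obtain ⟨a, b, -, -, h2⟩ := (trivLev U z w (h.act ht)).surj_of_rig (eIn B U) fs sn
    (fun δz δw _ _ hδ => by
      obtain ⟨θ, hθ⟩ := hr δz δw fun i hi j hj e => by
        have := hδ s(i, j) (mem_eIn.2 ⟨hi, hj, e⟩)
        rcases fs_sn i j with ⟨h1, h2⟩ | ⟨h1, h2⟩ <;> rw [h1, h2] at this
        · exact this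
        · rw [row_symm]; exact this
      exact ⟨θ, fun i hi j hj => ⟨fun _ => (hθ i hi j hj).1, fun _ => (hθ i hi j hj).2⟩⟩)
    (triv_count ht _).1 c
  exact ⟨a, b, h2⟩

theorem exists_stress (h : Base G z w r) (ht : Tight B U) (hr : ¬Rigid B z w U) :
    ∃ ω, Stress B z w U ω ∧ ∃ e ∈ eIn B U, ω e ≠ 0 := by
  by_contra hne
  push Not at hne
  refine hr fun δz δw hδ => ?_
  obtain ⟨θ, hθ⟩ := (trivLev U z w (h.act ht)).rig_of_sf (eIn B U) fs sn
    (fun e he => ⟨(mem_eIn'.1 he).1, (mem_eIn'.1 he).2.1, rfl, rfl⟩)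
    (fun c h1 h2 => hne c ⟨fun φ => h1 φ fun i j e => by rw [Option.some.inj e],
      fun φ => h2 φ fun i j e => by rw [Option.some.inj e]⟩)
    (triv_count ht _).2 δz δw (fun _ _ _ _ e => by rw [Option.some.inj e])
    (fun _ _ _ _ e => by rw [Option.some.inj e])
    fun e he => hδ _ (mem_eIn'.1 he).1 _ (mem_eIn'.1 he).2.1 (mem_eIn'.1 he).2.2
  exact ⟨θ, fun i hi j hj => ⟨(hθ i hi j hj).1 rfl, (hθ i hi j hj).2 rfl⟩⟩

theorem Stress.row {ω : Sym2 V → K} (h : Stress B z w U ω) (δz δw : V → K) :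
    ∑ e ∈ eIn B U, ω e * row z w δz δw (fs e) (sn e) = 0 := by
  have := congrArg₂ (· + ·) (h.1 δz) (h.2 δw)
  simp only [← sum_add_distrib, add_zero] at this
  refine Eq.trans (sum_congr rfl fun e _ => ?_) this
  unfold Pool.Agent.P.MP_27dab6_co.row bt
  ring

theorem Stress.der {ω : Sym2 V → K} (h : Stress B z w U ω) {D : K → K} (hD : IsDer D) :
    ∑ e ∈ eIn B U, ω e * D (bt z w e) = 0 := by
  simp only [hD.bt]
  exact h.row _ _

/-- a rigid tight framework carries no stress, also on a subgraph -/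
theorem Rigid.no_stress (h : Base G z w r) {B' : SimpleGraph V} (hB : B ≤ B') (ht : Tight B' U)
    (hr : Rigid B' z w U) {ω : Sym2 V → K} (hω : Stress B z w U ω) : ∀ e ∈ eIn B U, ω e = 0 := by
  intro e he
  obtain ⟨a, b, hab⟩ := hr.surj h ht (fun f => if f = e then 1 else 0)
  have := hω.row a b
  rw [sum_congr rfl fun f hf => by rw [hab f (eIn_mono hB Subset.rfl hf)]] at this
  simpa [he] using this

theorem Rigid.ind (h : Base G z w r) (hg : Gen G z w r U) (hGB : G ≤ B) (ht : Tight B U)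
    (hr : Rigid B z w U) : Ind U (eIn B U \ eIn G U) r (bt z w) := fun ρ c => by
  obtain ⟨a, b, hab⟩ := hr.surj h ht
    fun e => if e ∈ eIn G U then 2 * sm r e * sm ρ e else c e
  obtain ⟨D, hD, h1⟩ := hg a b ρ fun i hi j hj e => by
    have := hab s(i, j) (mem_eIn.2 ⟨hi, hj, hGB e⟩)
    rw [if_pos (mem_eIn.2 ⟨hi, hj, e⟩), sm_mk, sm_mk] at this
    unfold lin
    rcases fs_sn i j with ⟨h1, h2⟩ | ⟨h1, h2⟩ <;> rw [h1, h2] at this
    · rw [this, sub_self]
    · rw [row_symm, this, sub_self]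
  refine ⟨D, hD, fun i hi => (h1 i hi).2.2, fun e he => ?_⟩
  obtain ⟨he1, he2⟩ := mem_sdiff.1 he
  have := hab e he1
  rw [if_neg he2] at this
  obtain ⟨m1, m2, -⟩ := mem_eIn'.1 he1
  rw [hD.bt, ← this]
  simp only [row, h1 _ m1, h1 _ m2]

end Base

end Pool.Agent.P.MP_27dab6_co
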