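import Pool.Agent.P.MP_27dab6_co.Gen

/-!
Translation to the Euclidean plane and to the counting form of the Laman conditions.
-/

set_option autoImplicit false

namespace Pool.Agent.P.MP_27dab6_co

open Finset

theorem card_pairs {V : Type} (G : SimpleGraph V) [DecidableRel G.Adj] (S : Finset V) :
    ((S ×ˢ S).filter fun q : V × V => G.Adj q.1 q.2).card = 2 * (eIn G S).card := by
  classical
  rw [← sum_deg, card_filter, sum_product]
  refine sum_congr rfl fun v _ => ?_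
  rw [nbr, card_filter]
  exact sum_congr rfl fun j _ => by by_cases h : G.Adj v j <;> simp [h]

theorem dist_sq (p q : EuclideanSpace ℝ (Fin 2)) :
    dist p q ^ 2 = (p 0 - q 0) ^ 2 + (p 1 - q 1) ^ 2 := by
  rw [EuclideanSpace.dist_eq, Real.sq_sqrt (by positivity), Fin.sum_univ_two, Real.dist_eq,
    Real.dist_eq, sq_abs, sq_abs]

theorem pack_iff {V : Type} (G : SimpleGraph V) (c : V → EuclideanSpace ℝ (Fin 2)) (r : V → ℝ)
    (hr : ∀ v, 0 < r v) : Pack G (fun v => c v 0) (fun v => c v 1) r ↔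
      ∀ u v : V, u ≠ v →
        r u + r v ≤ dist (c u) (c v) ∧ (G.Adj u v ↔ dist (c u) (c v) = r u + r v) := by
  have k : ∀ u v, (r u + r v ≤ dist (c u) (c v) ↔
      (r u + r v) ^ 2 ≤ (c u 0 - c v 0) ^ 2 + (c u 1 - c v 1) ^ 2) ∧
      (dist (c u) (c v) = r u + r v ↔
        (c u 0 - c v 0) ^ 2 + (c u 1 - c v 1) ^ 2 = (r u + r v) ^ 2) := fun u v => by
    have h := (add_pos (hr u) (hr v)).le
    rw [← dist_sq]
    exact ⟨(sq_le_sq₀ h dist_nonneg).symm, (sq_eq_sq₀ dist_nonneg h).symm⟩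
  exact ⟨fun h u v e => ⟨(k u v).1.2 (h.le u v e), (h.adj u v e).trans (k u v).2.symm⟩,
    fun h => ⟨hr, fun u v e => (k u v).1.1 (h u v e).1,
      fun u v e => (h u v e).2.trans (k u v).2⟩⟩

theorem coin_laman (V : Type) [Fintype V] [DecidableEq V] (G : SimpleGraph V) [DecidableRel G.Adj]
    (h0 : ∃ (c : V → EuclideanSpace ℝ (Fin 2)) (r : V → ℝ), (∀ v, 0 < r v) ∧ ∀ u v : V, u ≠ v →
      r u + r v ≤ dist (c u) (c v) ∧ (G.Adj u v ↔ dist (c u) (c v) = r u + r v))
    (h1 : ((univ ×ˢ univ).filter (fun q : V × V => G.Adj q.1 q.2)).card + 6 = 4 * Fintype.card V)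
    (h2 : ∀ S : Finset V, 2 ≤ S.card →
      ((S ×ˢ S).filter (fun q : V × V => G.Adj q.1 q.2)).card + 6 ≤ 4 * S.card) :
    ∃ (c : V → EuclideanSpace ℝ (Fin 2)) (r : V → ℝ), (∀ v, 0 < r v) ∧ AlgebraicIndependent ℚ r ∧
      ∀ u v : V, u ≠ v →
        r u + r v ≤ dist (c u) (c v) ∧ (G.Adj u v ↔ dist (c u) (c v) = r u + r v) := by
  obtain ⟨c, r, hr, h⟩ := h0
  obtain ⟨x, y, r', a, b⟩ := ((pack_iff G c r hr).2 h).generic
    (fun S _ hS => by
      have := h2 S hS
      rw [card_pairs] at this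
      omega)
    (by
      rw [card_pairs] at h1
      unfold Tight
      rw [card_univ]
      omega)
  exact ⟨fun v => !₂[x v, y v], r', a.pos, b, (pack_iff G _ r' a.pos).1 a⟩

end Pool.Agent.P.MP_27dab6_co
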