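import Mathlib

/-!
Derivations of fields of characteristic zero as plain maps; dual derivations of independent
families.
-/

set_option autoImplicit false

namespace Pool.Agent.P.MP_27dab6_co

open Polynomial

/-- `d` is additive and satisfies the Leibniz rule. -/
structure IsDer {K : Type} [Field K] (d : K → K) : Prop where
  add : ∀ a b, d (a + b) = d a + d b
  mul : ∀ a b, d (a * b) = a * d b + b * d a

namespace IsDer

variable {K : Type} [Field K] {d : K → K}

theorem zero (h : IsDer d) : d 0 = 0 := by
  have := h.add 0 0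
  simpa using this

theorem one (h : IsDer d) : d 1 = 0 := by
  have := h.mul 1 1
  simpa using this

theorem neg (h : IsDer d) (a : K) : d (-a) = -d a := by
  have := h.add a (-a)
  rw [add_neg_cancel, h.zero] at this
  linear_combination -this

theorem sub (h : IsDer d) (a b : K) : d (a - b) = d a - d b := by
  rw [sub_eq_add_neg, h.add, h.neg, sub_eq_add_neg]

theorem sum (h : IsDer d) {ι : Type*} (s : Finset ι) (f : ι → K) :
    d (∑ i ∈ s, f i) = ∑ i ∈ s, d (f i) := by
  classical
  induction s using Finset.induction_on with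
  | empty => simpa using h.zero
  | insert a s ha ih => rw [Finset.sum_insert ha, Finset.sum_insert ha, h.add, ih]

theorem sq (h : IsDer d) (a : K) : d (a ^ 2) = 2 * a * d a := by
  rw [pow_two, h.mul]; ring

theorem natCast (h : IsDer d) (n : ℕ) : d (n : K) = 0 := by
  induction n with
  | zero => simpa using h.zero
  | succ n ih => rw [Nat.cast_succ, h.add, ih, h.one, add_zero]

theorem two (h : IsDer d) : d 2 = 0 := by simpa using h.natCast 2

theorem inv (h : IsDer d) (a : K) : d a⁻¹ = -(a⁻¹ ^ 2) * d a := by
  by_cases ha : a = 0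
  · simp [ha, h.zero]
  · have e := h.mul a a⁻¹
    rw [mul_inv_cancel₀ ha, h.one] at e
    have : d a⁻¹ = a⁻¹ * (a * d a⁻¹) := by rw [← mul_assoc, inv_mul_cancel₀ ha, one_mul]
    rw [this]
    linear_combination (-a⁻¹) * e

theorem div (h : IsDer d) (a b : K) : d (a / b) = b⁻¹ * d a - a * b⁻¹ ^ 2 * d b := by
  rw [div_eq_mul_inv, h.mul, h.inv]; ring

theorem smul (h : IsDer d) (c : K) : IsDer fun x => c * d x where
  add a b := by simp only [h.add]; ring
  mul a b := by simp only [h.mul]; ring

theorem plus {d' : K → K} (h : IsDer d) (h' : IsDer d') : IsDer fun x => d x + d' x where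
  add a b := by simp only [h.add, h'.add]; ring
  mul a b := by simp only [h.mul, h'.mul]; ring

theorem comm {d' : K → K} (h : IsDer d) (h' : IsDer d') : IsDer fun x => d (d' x) - d' (d x) where
  add a b := by simp only [h.add, h'.add]; ring
  mul a b := by simp only [h.mul, h'.mul, h.add, h'.add]; ring

theorem of_zero : IsDer fun _ : K => (0 : K) where
  add _ _ := by simp
  mul _ _ := by simp

theorem finsum {ι : Type*} (s : Finset ι) (D : ι → K → K) (hD : ∀ i ∈ s, IsDer (D i)) :
    IsDer fun x => ∑ i ∈ s, D i x where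
  add a b := by
    rw [← Finset.sum_add_distrib]
    exact Finset.sum_congr rfl fun i hi => (hD i hi).add a b
  mul a b := by
    rw [Finset.mul_sum, Finset.mul_sum, ← Finset.sum_add_distrib]
    exact Finset.sum_congr rfl fun i hi => (hD i hi).mul a b

/-- the constants of a derivation -/
def const (h : IsDer d) : Subfield K where
  carrier := {x | d x = 0}
  mul_mem' := by
    intro a b ha hb
    simp only [Set.mem_ofPred_eq] at *
    rw [h.mul, ha, hb]; simp
  one_mem' := h.one
  add_mem' := by
    intro a b ha hb
    simp only [Set.mem_ofPred_eq] at *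
    rw [h.add, ha, hb]; simp
  zero_mem' := h.zero
  neg_mem' := by
    intro a ha
    simp only [Set.mem_ofPred_eq] at *
    rw [h.neg, ha]; simp
  inv_mem' := by
    intro a ha
    simp only [Set.mem_ofPred_eq] at *
    rw [h.inv, ha]; simp

theorem closure (h : IsDer d) {S : Set K} (hS : ∀ y ∈ S, d y = 0) {y : K}
    (hy : y ∈ Subfield.closure S) : d y = 0 :=
  (Subfield.closure_le (t := h.const)).2 hS hy

theorem aeval {A : Type} [CommRing A] [Algebra A K] (h : IsDer d)
    (hA : ∀ a : A, d (algebraMap A K a) = 0) (p : A[X]) (z : K) :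
    d (Polynomial.aeval z p) = Polynomial.aeval z p.derivative * d z := by
  induction p using Polynomial.induction_on with
  | C a => simp [hA]
  | add p q ih ih' => simp only [map_add, h.add, ih, ih']; ring
  | monomial n a ih =>
    have e : C a * X ^ (n + 1) = (C a * X ^ n) * X := by ring
    rw [e, map_mul, h.mul, ih, derivative_mul (f := C a * X ^ n)]
    simp only [aeval_X, map_mul, map_add, derivative_X, mul_one]
    ring

theorem algebraic {A : Type} [CommRing A] [IsDomain A] [CharZero A] [Algebra A K] (h : IsDer d)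
    (hA : ∀ a : A, d (algebraMap A K a) = 0) (hinj : Function.Injective (algebraMap A K))
    {z : K} (hz : IsAlgebraic A z) : d z = 0 := by
  by_contra hne
  obtain ⟨r, hr, hz⟩ := hz
  induction hn : r.natDegree using Nat.strong_induction_on generalizing r with
  | _ n ih =>
    have e := h.aeval hA r z
    rw [hz, h.zero] at e
    have e' : Polynomial.aeval z r.derivative = 0 := (mul_eq_zero.mp e.symm).resolve_right hne
    by_cases h0 : r.natDegree = 0
    · rw [eq_C_of_natDegree_eq_zero h0] at hz hr
      simp only [aeval_C] at hz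
      have : r.coeff 0 = 0 := hinj (by simpa using hz)
      simp [this] at hr
    · have hr' : r.derivative ≠ 0 := fun h' => h0 (derivative_eq_zero.mp h')
      exact ih _ (hn ▸ natDegree_derivative_lt h0) r.derivative hr' e' rfl

end IsDer

/-- dual numbers, as a type synonym carrying only the ring structure -/
def DualN (K : Type) [Field K] : Type := TrivSqZeroExt K K

noncomputable instance (K : Type) [Field K] : CommRing (DualN K) :=
  inferInstanceAs (CommRing (TrivSqZeroExt K K))

open scoped IntermediateField.algebraAdjoinAdjoin in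
theorem exists_der_of_transcendental {L K : Type} [Field L] [Field K] [Algebra L K] [CharZero L]
    {z : K} (hz : Transcendental L z) :
    ∃ d : K → K, IsDer d ∧ (∀ a : L, d (algebraMap L K a) = 0) ∧ d z = 1 := by
  classical
  have key0 : ∀ a b : TrivSqZeroExt K K, a.fst = 0 → b.fst = 0 → a * b = 0 := by
    intro a b ha hb
    apply TrivSqZeroExt.ext
    · simp [ha]
    · simp [ha, hb]
  have key1 : ∀ a b : TrivSqZeroExt K K, (a * b).snd = a.fst * b.snd + b.fst * a.snd := by
    intro a b
    simp [mul_comm]
  have h1 : AlgebraicIndepOn L id ({z} : Set K) := by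
    rw [AlgebraicIndepOn, algebraicIndependent_unique_type_iff]
    simpa using hz
  obtain ⟨t, hzt, ht⟩ := exists_isTranscendenceBasis_superset h1
  have hb : AlgebraicIndependent L ((↑) : t → K) := ht.1
  set A0 := Algebra.adjoin L (Set.range ((↑) : t → K))
  set E := IntermediateField.adjoin L (Set.range ((↑) : t → K))
  have halg : Algebra.IsAlgebraic E K := ht.isAlgebraic_field
  have : CharZero E := algebraRat.charZero _
  have hsep : Algebra.IsSeparable E K := inferInstance
  have s1 : Algebra.FormallySmooth A0 E := .of_isLocalization (nonZeroDivisors _)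
  have s2 : Algebra.FormallyEtale E K := Algebra.FormallyEtale.of_isSeparable _ K
  have s3 : Algebra.FormallySmooth A0 K := .comp _ E _
  let j0 : MvPolynomial t L →ₐ[L] TrivSqZeroExt K K :=
    MvPolynomial.aeval fun s => TrivSqZeroExt.inl (s : K) +
      TrivSqZeroExt.inr (if (s : K) = z then 1 else 0)
  let j1 : A0 →+* DualN K := (j0.comp hb.aevalEquiv.symm.toAlgHom).toRingHom
  let _ : Algebra A0 (DualN K) := j1.toAlgebra
  have hfst : ∀ p : MvPolynomial t L,
      (j0 p).fst = MvPolynomial.aeval ((↑) : t → K) p := by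
    intro p
    have : (TrivSqZeroExt.fstHom L K K).comp j0 = MvPolynomial.aeval ((↑) : t → K) := by
      ext s
      simp only [j0, AlgHom.comp_apply, MvPolynomial.aeval_X, TrivSqZeroExt.fstHom_apply,
        TrivSqZeroExt.fst_add, TrivSqZeroExt.fst_inl, TrivSqZeroExt.fst_inr, add_zero]
    exact AlgHom.congr_fun this p
  let g : DualN K →ₐ[A0] K :=
    { toRingHom := (TrivSqZeroExt.fstHom L K K).toRingHom
      commutes' := fun a => by
        obtain ⟨p, rfl⟩ := hb.aevalEquiv.surjective a
        change (j0 (hb.aevalEquiv.symm (hb.aevalEquiv p))).fst = _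
        rw [AlgEquiv.symm_apply_apply, hfst]
        rfl }
  have hg : Function.Surjective g := fun x => ⟨TrivSqZeroExt.inl x, rfl⟩
  have hn : IsNilpotent (RingHom.ker (g : DualN K →+* K)) := by
    refine ⟨2, ?_⟩
    rw [pow_two, Ideal.zero_eq_bot, eq_bot_iff, Ideal.mul_le]
    intro a ha b hb'
    have ha' : TrivSqZeroExt.fst (a : TrivSqZeroExt K K) = 0 := ha
    have hb'' : TrivSqZeroExt.fst (b : TrivSqZeroExt K K) = 0 := hb'
    exact key0 a b ha' hb''
  let j := Algebra.FormallySmooth.liftOfSurjective (AlgHom.id A0 K) g hg hn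
  have hj : ∀ x, TrivSqZeroExt.fst (j x : TrivSqZeroExt K K) = x := fun x =>
    Algebra.FormallySmooth.liftOfSurjective_apply (AlgHom.id A0 K) g hg hn x
  have hjA : ∀ p : MvPolynomial t L, j (MvPolynomial.aeval ((↑) : t → K) p) = j0 p := by
    intro p
    have := j.commutes (hb.aevalEquiv p)
    change j (MvPolynomial.aeval ((↑) : t → K) p) =
      j0 (hb.aevalEquiv.symm (hb.aevalEquiv p)) at this
    rwa [AlgEquiv.symm_apply_apply] at this
  refine ⟨fun x => TrivSqZeroExt.snd (j x : TrivSqZeroExt K K), ⟨fun a b => ?_, fun a b => ?_⟩,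
    fun a => ?_, ?_⟩
  · rw [map_add]; rfl
  · rw [map_mul]
    have := key1 (j a) (j b)
    rw [hj, hj] at this
    exact this
  · have := hjA (MvPolynomial.C a)
    rw [MvPolynomial.aeval_C] at this
    simp only [this, j0, MvPolynomial.aeval_C]
    simp [TrivSqZeroExt.algebraMap_eq_inl']
  · have := hjA (MvPolynomial.X ⟨z, hzt rfl⟩)
    rw [MvPolynomial.aeval_X] at this
    simp only [this, j0, MvPolynomial.aeval_X]
    simp

section Sub

variable {K : Type} [Field K] [CharZero K]

/-- an element killed by all derivations killing `L` is algebraic over `L` -/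
theorem alg_of_killed {L : Type} [Field L] [CharZero L] [Algebra L K] {z : K}
    (h : ∀ d : K → K, IsDer d → (∀ a : L, d (algebraMap L K a) = 0) → d z = 0) :
    IsAlgebraic L z := by
  by_contra hz
  obtain ⟨d, hd, h0, h1⟩ := exists_der_of_transcendental (L := L) hz
  rw [h d hd h0] at h1
  exact zero_ne_one h1

theorem alg_closure_of_killed {S : Set K} {z : K}
    (h : ∀ d : K → K, IsDer d → (∀ y ∈ S, d y = 0) → d z = 0) :
    IsAlgebraic (Subfield.closure S) z :=
  alg_of_killed fun d hd h0 => h d hd fun y hy => h0 ⟨y, Subfield.subset_closure hy⟩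

theorem IsDer.alg_closure {d : K → K} (hd : IsDer d) {S : Set K} (hS : ∀ y ∈ S, d y = 0) {z : K}
    (hz : IsAlgebraic (Subfield.closure S) z) : d z = 0 :=
  hd.algebraic (fun a => hd.closure hS a.2) Subtype.val_injective hz

theorem trans_of_der {d : K → K} (hd : IsDer d) {S : Set K} (hS : ∀ y ∈ S, d y = 0) {z : K}
    (hz : d z ≠ 0) : Transcendental (Subfield.closure S) z :=
  fun h => hz (hd.alg_closure hS h)

end Sub

/-- the family `x` restricted to `s` has dual derivations -/
def Dual {K ι : Type} [Field K] (s : Finset ι) (x : ι → K) : Prop :=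
  ∀ c : ι → K, ∃ d : K → K, IsDer d ∧ ∀ k ∈ s, d (x k) = c k

theorem Dual.of_single {K ι : Type} [Field K] {s : Finset ι} {x : ι → K}
    (h : ∀ i ∈ s, ∃ d : K → K, IsDer d ∧ d (x i) = 1 ∧ ∀ k ∈ s, k ≠ i → d (x k) = 0) :
    Dual s x := by
  classical
  choose! D hD h1 h0 using h
  intro c
  refine ⟨fun y => ∑ i ∈ s, c i * D i y, IsDer.finsum s (fun i y => c i * D i y)
    fun i hi => (hD i hi).smul _, fun k hk => ?_⟩
  simp only
  rw [Finset.sum_eq_single k]
  · rw [h1 k hk, mul_one]
  · intro i hi hik
    rw [h0 i hi k hk hik.symm, mul_zero]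
  · intro h; exact (h hk).elim

theorem Dual.mono {K ι : Type} [Field K] {s t : Finset ι} {x : ι → K} (h : Dual t x)
    (hst : s ⊆ t) : Dual s x := fun c => by
  obtain ⟨d, hd, hc⟩ := h c
  exact ⟨d, hd, fun k hk => hc k (hst hk)⟩

theorem Dual.algebraicIndependent {K ι : Type} [Field K] [CharZero K] [Fintype ι] {x : ι → K}
    (h : Dual Finset.univ x) : AlgebraicIndependent ℚ x := by
  classical
  refine algebraicIndependent_of_finite_type' (algebraMap ℚ K).injective fun t _ _ i hi => ?_
  obtain ⟨d, hd, hc⟩ := h (fun k => if k = i then 1 else 0)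
  intro halg
  have h0 : ∀ a : Algebra.adjoin ℚ (x '' t), d (algebraMap _ K a) = 0 := by
    rintro ⟨a, ha⟩
    have : Algebra.adjoin ℚ (x '' t) ≤ (hd.const.toIntermediateField
        fun q => SubfieldClass.ratCast_mem _ q).toSubalgebra := by
      rw [Algebra.adjoin_le_iff]
      rintro _ ⟨k, hk, rfl⟩
      have := hc k (Finset.mem_univ _)
      rw [if_neg (fun e : k = i => hi (e ▸ hk))] at this
      exact this
    exact this ha
  have := hd.algebraic h0 Subtype.val_injective halg
  rw [hc i (Finset.mem_univ _), if_pos rfl] at this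
  exact one_ne_zero this

theorem Dual.of_algebraicIndependent {K ι : Type} [Field K] [CharZero K] [Fintype ι] {x : ι → K}
    (h : AlgebraicIndependent ℚ x) : Dual Finset.univ x := by
  classical
  refine Dual.of_single fun i _ => ?_
  have h1 := h.transcendental_adjoin (s := {i}ᶜ) (i := i) (by simp)
  rw [← IntermediateField.transcendental_adjoin_iff] at h1
  obtain ⟨d, hd, h0, h1⟩ := exists_der_of_transcendental h1
  exact ⟨d, hd, h1, fun k _ hk =>
    h0 ⟨x k, IntermediateField.subset_adjoin _ _ ⟨k, hk, rfl⟩⟩⟩

end Pool.Agent.P.MP_27dab6_co
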