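import Pool.Agent.P.MP_27dab6_co.Node

/-!
From tangent and free bars to contact structures: the count and the tight case.
-/

set_option autoImplicit false

namespace Pool.Agent.P.MP_27dab6_co

open Finset Classical

variable {κ : Type} [Field κ]

/-- contact point, square of the contact direction and big classes -/
@[ext] structure Key (κ L : Type) where
  p : κ
  p' : κ
  q : κ
  b : L
  b' : L

namespace Lev

variable {V E : Type} (Λ : Lev κ V)

/-- Tangent bars `T` (external for `η = 1`, internal for `η = -1`) and free bars `Φ`, with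
independent radii and free lengths, except that the radii of `α` and `β` move together. -/
structure Bars (r : V → κ) (α β : V) (T Φ : Finset E) (s t : E → V) (η : E → κ) : Prop where
  hN : ∀ e ∈ T ∪ Φ, Λ.Near (s e) (t e)
  hη : ∀ e ∈ T, η e = 1 ∨ η e = -1
  hst : ∀ e ∈ T, s e ≠ t e ∧ ¬((s e = α ∨ s e = β) ∧ (t e = α ∨ t e = β))
  hE : ∀ e ∈ T, (Λ.ζ (s e) - Λ.ζ (t e)) * (Λ.ω (s e) - Λ.ω (t e)) = (r (s e) + η e * r (t e)) ^ 2
  hs : Λ.lz α = Λ.lz β ∨ Λ.lw α = Λ.lw β
  hab : α ≠ β → (∃ e ∈ T, s e = α ∨ t e = α) → (∃ e ∈ T, s e = β ∨ t e = β) → Λ.Near α β →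
    Λ.ζ α = Λ.ζ β → Λ.ω α = Λ.ω β → False
  hder : ∀ (ρ : V → κ) (c : E → κ), ρ α = ρ β → ∃ D, IsDer D ∧ (∀ i ∈ Λ.U, D (r i) = ρ i) ∧
    ∀ f ∈ Φ, D ((Λ.ζ (s f) - Λ.ζ (t f)) * (Λ.ω (s f) - Λ.ω (t f))) = c f
  hdis : Disjoint T Φ

end Lev

/-- every family of bars that fits on one contact point has at most `2m - k` members, as soon as
it has at least `n` members -/
def NodeBd {V E : Type} (T : Finset E) (s t : E → V) (η : E → κ) (n k : ℕ) : Prop :=
  ∀ F ⊆ T, ∀ (S : Finset V) (col : V → Bool),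
    (∀ e ∈ F, s e ∈ S ∧ t e ∈ S ∧ (col (s e) = col (t e) ↔ η e = -1)) → n ≤ F.card →
    F.card + k ≤ 2 * S.card

namespace Lev

variable {V E : Type} {Λ : Lev κ V} {r : V → κ} {α β : V} {T Φ : Finset E} {s t : E → V}
  {η : E → κ}

theorem Bars.r_ne (h : Λ.Bars r α β T Φ s t η) {i : V} (hi : i ∈ Λ.U) : r i ≠ 0 := by
  obtain ⟨D, hD, e, -⟩ := h.hder (fun _ => 1) 0 rfl
  intro h0
  have := e i hi
  rw [h0, hD.zero] at this
  exact zero_ne_one this

theorem Bars.sq_ne [CharZero κ] (h : Λ.Bars r α β T Φ s t η) {i j : V} (hi : i ∈ Λ.U)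
    (hj : j ∈ Λ.U) (hij : i ≠ j) (hsp : ¬((i = α ∨ i = β) ∧ (j = α ∨ j = β))) :
    r i ^ 2 ≠ r j ^ 2 := by
  have key : ∀ i ∈ Λ.U, ∀ j ∈ Λ.U, i ≠ j → ¬(i = α ∨ i = β) → r i ^ 2 ≠ r j ^ 2 := by
    intro i hi j hj hij hsp e
    push Not at hsp
    obtain ⟨D, hD, e1, -⟩ := h.hder (fun u => if u = i then 1 else 0) 0
      (by simp [hsp.1.symm, hsp.2.symm])
    have := congrArg D e
    rw [hD.sq, hD.sq, e1 i hi, e1 j hj] at this
    simp [hij.symm, h.r_ne hi] at this
  by_cases h1 : i = α ∨ i = β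
  · exact (key j hj i hi hij.symm fun h2 => hsp ⟨h1, h2⟩).symm
  · exact key i hi j hj hij h1

variable (Λ r s t η) in
/-- direction of a tangent bar -/
noncomputable def dir (e : E) : κ := (Λ.ζ (s e) - Λ.ζ (t e)) / (r (s e) + η e * r (t e))

variable (Λ r s t η) in
/-- contact point, contact line and big classes of a tangent bar -/
noncomputable def key (e : E) : Key κ Λ.L :=
  ⟨Λ.ζ (s e) - r (s e) * Λ.dir r s t η e, Λ.ω (s e) - r (s e) / Λ.dir r s t η e,
    Λ.dir r s t η e ^ 2, Λ.bz (s e), Λ.bw (s e)⟩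

variable (Λ r T s t η) in
/-- incidences between vertices and contact points -/
noncomputable def inc : Finset (V × Key κ Λ.L) :=
  T.image (fun e => (s e, Λ.key r s t η e)) ∪ T.image fun e => (t e, Λ.key r s t η e)

variable (Λ r) in
/-- direction of an incidence -/
noncomputable def idir (i : V × Key κ Λ.L) : κ := (Λ.ζ i.1 - i.2.p) / r i.1

theorem Bars.facts [CharZero κ] (h : Λ.Bars r α β T Φ s t η) {e : E} (he : e ∈ T) :
    Λ.dir r s t η e ≠ 0 ∧ η e * η e = 1 ∧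
      Λ.ζ (s e) - Λ.ζ (t e) = (r (s e) + η e * r (t e)) * Λ.dir r s t η e ∧
      Λ.ω (s e) - Λ.ω (t e) = (r (s e) + η e * r (t e)) / Λ.dir r s t η e ∧
      r (s e) + η e * r (t e) ≠ 0 := by
  obtain ⟨a, b, -, -⟩ := h.hN e (mem_union_left _ he)
  have hη : η e * η e = 1 := by rcases h.hη e he with q | q <;> simp [q]
  have hl : r (s e) + η e * r (t e) ≠ 0 := fun q =>
    h.sq_ne a b (h.hst e he).1 (h.hst e he).2 (by
      linear_combination (r (s e) - η e * r (t e)) * q + r (t e) ^ 2 * hη)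
  have hE := h.hE e he
  have hz : Λ.ζ (s e) - Λ.ζ (t e) ≠ 0 := fun q => by
    rw [q, zero_mul] at hE
    exact pow_ne_zero _ hl hE.symm
  refine ⟨div_ne_zero hz hl, hη, ?_, ?_, hl⟩
  · unfold dir; field_simp
  · unfold dir; field_simp; linear_combination hE

theorem Bars.idir_s [CharZero κ] (h : Λ.Bars r α β T Φ s t η) {e : E} (he : e ∈ T) :
    Λ.idir r (s e, Λ.key r s t η e) = Λ.dir r s t η e := by
  have := h.r_ne (h.hN e (mem_union_left _ he)).1
  simp only [idir, key]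
  field_simp
  ring

theorem Bars.idir_t [CharZero κ] (h : Λ.Bars r α β T Φ s t η) {e : E} (he : e ∈ T) :
    Λ.idir r (t e, Λ.key r s t η e) = -η e * Λ.dir r s t η e := by
  have := h.r_ne (h.hN e (mem_union_left _ he)).2.1
  simp only [idir, key]
  field_simp
  linear_combination -(h.facts he).2.2.1

theorem Bars.inc_facts [CharZero κ] (h : Λ.Bars r α β T Φ s t η) {i : V × Key κ Λ.L}
    (hi : i ∈ Λ.inc r T s t η) :
    i.1 ∈ Λ.U ∧ Λ.idir r i ≠ 0 ∧ Λ.ω i.1 - i.2.p' = r i.1 / Λ.idir r i ∧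
      Λ.idir r i ^ 2 = i.2.q ∧ Λ.bz i.1 = i.2.b ∧ Λ.bw i.1 = i.2.b' ∧
      ∃ e ∈ T, s e = i.1 ∨ t e = i.1 := by
  rcases mem_union.1 hi with hi | hi <;> obtain ⟨e, he, rfl⟩ := mem_image.1 hi <;>
    obtain ⟨a, b, c, c'⟩ := h.hN e (mem_union_left _ he) <;>
    obtain ⟨f1, f2, f3, f4, f5⟩ := h.facts he
  · rw [h.idir_s he]
    exact ⟨a, f1, by simp [key], rfl, rfl, rfl, e, he, Or.inl rfl⟩
  · have hη : η e ≠ 0 := fun q => by simp [q] at f2
    rw [h.idir_t he]
    refine ⟨b, by simp [hη, f1], ?_, ?_, c.symm, c'.symm, e, he, Or.inr rfl⟩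
    · simp only [key]
      rw [eq_div_iff f1] at f4
      field_simp
      linear_combination -η e * f4 - r (t e) * f2
    · simp only [key]
      linear_combination Λ.dir r s t η e ^ 2 * f2

theorem Bars.geo [CharZero κ] (h : Λ.Bars r α β T Φ s t η) :
    Λ.Geo r (Λ.inc r T s t η) Prod.fst Prod.snd Key.p Key.p' (Λ.idir r) := by
  have hz : ∀ i ∈ Λ.inc r T s t η, Λ.ζ i.1 - i.2.p = r i.1 * Λ.idir r i := fun i hi => by
    have := h.r_ne (h.inc_facts hi).1
    unfold idir; field_simp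
  refine ⟨fun i hi => (h.inc_facts hi).1, fun i hi => (h.inc_facts hi).2.1,
    fun i hi => h.r_ne (h.inc_facts hi).1, hz, fun i hi => (h.inc_facts hi).2.2.1,
    fun i hi j hj e => ?_, fun i hi j hj e e' => ?_, fun i hi j hj e e' => ?_⟩
  · rw [(h.inc_facts hi).2.2.2.1, (h.inc_facts hj).2.2.2.1, e]
  · obtain ⟨-, -, a1, a2, a3, a4, -⟩ := h.inc_facts hi
    obtain ⟨-, -, b1, b2, b3, b4, -⟩ := h.inc_facts hj
    have a0 := hz i hi
    have b0 := hz j hj
    rw [e, e'] at a0 a1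
    rw [e'] at a2
    rw [e] at a3 a4
    refine Prod.ext e (Key.ext ?_ ?_ ?_ ?_ ?_)
    · linear_combination b0 - a0
    · linear_combination b1 - a1
    · exact a2.symm.trans b2
    · exact a3.symm.trans b3
    · exact a4.symm.trans b4
  · refine Prod.ext ?_ e
    by_contra hne
    obtain ⟨a0, ad, a1, a2, a3, a4, a5⟩ := h.inc_facts hi
    obtain ⟨b0, bd, b1, b2, b3, b4, b5⟩ := h.inc_facts hj
    have c1 := hz i hi
    have c2 := hz j hj
    rw [e] at c1 a1 a2 a3 a4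
    have c3 : r i.1 * Λ.idir r i = r j.1 * Λ.idir r j := by rw [← c1, ← c2, e']
    have c4 : Λ.idir r i ^ 2 = Λ.idir r j ^ 2 := a2.trans b2.symm
    have c5 : r i.1 ^ 2 = r j.1 ^ 2 := by
      apply mul_right_cancel₀ (pow_ne_zero 2 ad)
      linear_combination (r i.1 * Λ.idir r i + r j.1 * Λ.idir r j) * c3 - r j.1 ^ 2 * c4
    have c6 : Λ.ω i.1 = Λ.ω j.1 := by
      have : r i.1 / Λ.idir r i = r j.1 / Λ.idir r j := by
        field_simp
        apply mul_right_cancel₀ ad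
        linear_combination Λ.idir r j * c3 - r j.1 * c4
      linear_combination a1 - b1 + this
    have hsp : (i.1 = α ∨ i.1 = β) ∧ (j.1 = α ∨ j.1 = β) := by
      by_contra hsp
      exact h.sq_ne a0 b0 hne hsp c5
    have hn : Λ.Near i.1 j.1 := ⟨a0, b0, a3.trans b3.symm, a4.trans b4.symm⟩
    have hn' : Λ.Near j.1 i.1 := ⟨b0, a0, b3.trans a3.symm, b4.trans a4.symm⟩
    rcases hsp with ⟨p | p, q | q⟩
    · exact hne (p.trans q.symm)
    · rw [p, q] at hne hn e' c6
      exact h.hab hne (p ▸ a5) (q ▸ b5) hn e' c6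
    · rw [p, q] at hne hn' e' c6
      exact h.hab (Ne.symm hne) (q ▸ b5) (p ▸ a5) hn' e'.symm c6.symm
    · exact hne (p.trans q.symm)

theorem Bars.isf [CharZero κ] (h : Λ.Bars r α β T Φ s t η) :
    Λ.ISF (Λ.inc r T s t η) Prod.fst Prod.snd Key.p Key.p' Φ s t :=
  h.geo.free h.hs (fun f hf => ⟨(h.hN f (mem_union_right _ hf)).1,
    (h.hN f (mem_union_right _ hf)).2.1⟩) fun ρ c hρ => by
      obtain ⟨D, hD, e1, e2⟩ := h.hder ρ c hρ
      exact ⟨D, hD, fun i hi => e1 _ (h.inc_facts hi).1, e2⟩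

theorem Bars.node_bd [CharZero κ] (h : Λ.Bars r α β T Φ s t η) {n k : ℕ}
    (H : NodeBd T s t η n k) {e : E} (he : e ∈ T)
    (hn : n ≤ (T.filter fun f => Λ.key r s t η f = Λ.key r s t η e).card) :
    (T.filter fun f => Λ.key r s t η f = Λ.key r s t η e).card + k ≤
      2 * ((Λ.inc r T s t η).filter fun i => i.2 = Λ.key r s t η e).card := by
  have := H _ (filter_subset _ _) (((Λ.inc r T s t η).filter
    fun i => i.2 = Λ.key r s t η e).image Prod.fst)
    (fun v => decide (Λ.idir r (v, Λ.key r s t η e) = Λ.dir r s t η e)) (fun f hf => ?_) hn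
  · exact this.trans (Nat.mul_le_mul_left _ card_image_le)
  obtain ⟨hf, ef⟩ := mem_filter.1 hf
  refine ⟨mem_image.2 ⟨(s f, Λ.key r s t η f), mem_filter.2 ⟨mem_union_left _
    (mem_image_of_mem _ hf), ef⟩, rfl⟩, mem_image.2 ⟨(t f, Λ.key r s t η f), mem_filter.2
    ⟨mem_union_right _ (mem_image_of_mem _ hf), ef⟩, rfl⟩, ?_⟩
  have q : Λ.dir r s t η f ^ 2 = Λ.dir r s t η e ^ 2 := congrArg Key.q ef
  have d0 := (h.facts he).1
  have d1 : -Λ.dir r s t η e ≠ Λ.dir r s t η e := fun q => d0 (by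
    apply mul_left_cancel₀ (two_ne_zero (α := κ)); linear_combination -q)
  have d2 : (1 : κ) ≠ -1 := by norm_num
  simp only [← ef, h.idir_s hf, h.idir_t hf, decide_eq_decide]
  rcases sq_eq_sq_iff_eq_or_eq_neg.1 q with q | q <;> rcases h.hη f hf with p | p <;>
    simp [p, q, d1, d2]

theorem Bars.count [CharZero κ] (h : Λ.Bars r α β T Φ s t η) :
    2 * (Λ.inc r T s t η).card + Φ.card + ncl Λ.U Λ.bz + ncl Λ.U Λ.bw + 1 ≤
      ncl Λ.U Λ.lz + ncl Λ.U Λ.lw + 3 * (T.image (Λ.key r s t η)).card := by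
  have := Λ.inc_count _ _ _ _ _ Φ s t (fun i hi j hj e => ?_)
    (fun f hf => h.hN f (mem_union_right _ hf)) h.isf
  · refine this.trans (Nat.add_le_add_left (Nat.mul_le_mul_left _ (card_le_card ?_)) _)
    intro q hq
    obtain ⟨i, hi, rfl⟩ := mem_image.1 hq
    rcases mem_union.1 hi with hi | hi <;> obtain ⟨e, he, rfl⟩ := mem_image.1 hi <;>
      exact mem_image_of_mem _ he
  · obtain ⟨a0, -, -, -, a3, a4, -⟩ := h.inc_facts hi
    obtain ⟨b0, -, -, -, b3, b4, -⟩ := h.inc_facts hj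
    exact ⟨a0, b0, by rw [a3, b3, e], by rw [a4, b4, e]⟩

theorem inc_fiber : (Λ.inc r T s t η).card = ∑ n ∈ T.image (Λ.key r s t η),
    ((Λ.inc r T s t η).filter fun i => i.2 = n).card :=
  card_eq_sum_card_fiberwise fun i hi => by
    rcases mem_union.1 hi with hi | hi <;> obtain ⟨e, he, rfl⟩ := mem_image.1 hi <;>
      exact mem_image_of_mem _ he

theorem Bars.le [CharZero κ] (h : Λ.Bars r α β T Φ s t η) (H : NodeBd T s t η 1 3) :
    Λ.Le (T ∪ Φ).card := by
  have c1 := h.count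
  have c2 : T.card + 3 * (T.image (Λ.key r s t η)).card ≤ 2 * (Λ.inc r T s t η).card := by
    rw [inc_fiber, card_eq_sum_card_fiberwise (f := Λ.key r s t η)
      (t := T.image (Λ.key r s t η)) fun i hi => mem_image_of_mem _ hi, card_eq_sum_ones
      (T.image _), mul_sum, mul_sum, ← sum_add_distrib]
    refine sum_le_sum fun n hn => ?_
    obtain ⟨e, he, rfl⟩ := mem_image.1 hn
    exact h.node_bd H he (card_pos.2 ⟨e, by simp [he]⟩)
  unfold Le
  rw [card_union_of_disjoint h.hdis]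
  omega

theorem Bars.nodeBd_of (h : Λ.Bars r α β T Φ s t η) (H : NodeBd T s t η 2 4) :
    NodeBd T s t η 1 3 := by
  intro F hF S col hc h1
  by_cases h2 : 2 ≤ F.card
  · have := H F hF S col hc h2
    omega
  · obtain ⟨e, he⟩ := card_pos.1 h1
    have : 1 < S.card := one_lt_card.2 ⟨_, (hc e he).1, _, (hc e he).2.1, (h.hst e (hF he)).1⟩
    omega

theorem Bars.key_inj [CharZero κ] (h : Λ.Bars r α β T Φ s t η) (H : NodeBd T s t η 2 4)
    (hge : Λ.Ge (T ∪ Φ).card) {e e' : E} (he : e ∈ T) (he' : e' ∈ T)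
    (ek : Λ.key r s t η e' = Λ.key r s t η e) : e' = e := by
  by_contra hne
  have c1 := h.count
  have c2 : T.card + 3 * (T.image (Λ.key r s t η)).card < 2 * (Λ.inc r T s t η).card := by
    rw [inc_fiber, card_eq_sum_card_fiberwise (f := Λ.key r s t η)
      (t := T.image (Λ.key r s t η)) fun i hi => mem_image_of_mem _ hi, card_eq_sum_ones
      (T.image _), mul_sum, mul_sum, ← sum_add_distrib]
    refine sum_lt_sum (fun n hn => ?_) ⟨_, mem_image_of_mem _ he, ?_⟩
    · obtain ⟨e, he, rfl⟩ := mem_image.1 hn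
      exact h.node_bd (h.nodeBd_of H) he (card_pos.2 ⟨e, by simp [he]⟩)
    · exact h.node_bd H he (one_lt_card.2 ⟨e', by simp [he', ek], e, by simp [he], hne⟩)
  unfold Ge at hge
  rw [card_union_of_disjoint h.hdis] at hge
  omega

theorem Bars.sf [CharZero κ] (h : Λ.Bars r α β T Φ s t η) (H : NodeBd T s t η 2 4)
    (hge : Λ.Ge (T ∪ Φ).card) : Λ.SF (T ∪ Φ) s t := by
  intro c h1 h2
  let k := Λ.key r s t η
  let tr : (E → κ) → V × Key κ Λ.L → κ := fun y i =>
    ∑ e ∈ T, y e * ((if (s e, k e) = i then 1 else 0) - if (t e, k e) = i then 1 else 0)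
  have htr : ∀ (y : E → κ) (g : V × Key κ Λ.L → κ),
      ∑ i ∈ Λ.inc r T s t η, tr y i * g i = ∑ e ∈ T, y e * (g (s e, k e) - g (t e, k e)) := by
    intro y g
    simp only [tr, sum_mul]
    rw [sum_comm]
    refine sum_congr rfl fun e he => ?_
    have m1 : (s e, k e) ∈ Λ.inc r T s t η := mem_union_left _ (mem_image_of_mem _ he)
    have m2 : (t e, k e) ∈ Λ.inc r T s t η := mem_union_right _ (mem_image_of_mem _ he)
    simp only [mul_assoc, ← mul_sum, sub_mul, sum_sub_distrib, ite_mul, one_mul, zero_mul,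
      sum_ite_eq, m1, m2, if_true]
  have hfil : ∀ (y : E → κ) (g : V × Key κ Λ.L → κ) n,
      ∑ i ∈ Λ.inc r T s t η with i.2 = n, tr y i * g i =
        ∑ e ∈ T, y e * (if k e = n then g (s e, k e) - g (t e, k e) else 0) := by
    intro y g n
    have := htr y fun i => if i.2 = n then g i else 0
    rw [sum_filter]
    simp only [mul_ite, mul_zero] at this ⊢
    rw [this]
    exact sum_congr rfl fun e _ => by split_ifs <;> simp
  have := h.isf (tr fun e => c e * (Λ.ω (s e) - Λ.ω (t e)))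
    (tr fun e => c e * (Λ.ζ (s e) - Λ.ζ (t e))) c
    (fun n => by simpa using hfil _ (fun _ => 1) n) (fun n => by simpa using hfil _ (fun _ => 1) n)
    (fun n => by
      rw [sum_sub_distrib, hfil _ (fun i => Λ.ζ i.1 - i.2.p), hfil _ (fun i => Λ.ω i.1 - i.2.p'),
        ← sum_sub_distrib]
      exact sum_eq_zero fun e _ => by split_ifs <;> ring)
    (fun φ hφ => by
      rw [htr _ (fun i => φ i.1), ← h1 φ hφ, sum_union h.hdis]
      simp only [mul_assoc])
    (fun φ hφ => by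
      rw [htr _ (fun i => φ i.1), ← h2 φ hφ, sum_union h.hdis]
      simp only [mul_assoc])
  intro f hf
  rcases mem_union.1 hf with hf | hf
  · have a1 := (this.1 (s f, k f) (mem_union_left _ (mem_image_of_mem _ hf))).1
    simp only [tr] at a1
    rw [sum_eq_single f (fun e he hne => by
      have : k e ≠ k f := fun q => hne (h.key_inj H hge hf he q)
      simp [this]) (fun q => (q hf).elim)] at a1
    obtain ⟨f1, -, -, f4, f5⟩ := h.facts hf
    have : Λ.ω (s f) - Λ.ω (t f) ≠ 0 := by rw [f4]; exact div_ne_zero f5 f1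
    simpa [(h.hst f hf).1.symm, this] using a1
  · exact this.2 f hf

theorem Bars.rig [CharZero κ] (h : Λ.Bars r α β T Φ s t η) (H : NodeBd T s t η 2 4)
    (hge : Λ.Ge (T ∪ Φ).card) : Λ.Rig (T ∪ Φ) s t :=
  Λ.rig_of_sf _ s t h.hN (h.sf H hge) hge

/-- in the tight case two external bars at one vertex have different directions -/
theorem Bars.dir_ne [CharZero κ] (h : Λ.Bars r α β T Φ s t η) (H : NodeBd T s t η 2 4)
    (hge : Λ.Ge (T ∪ Φ).card) {e e' : E} (he : e ∈ T) (he' : e' ∈ T) (η1 : η e = 1)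
    (η2 : η e' = 1) {v j j' : V} (h1 : (s e = v ∧ t e = j) ∨ (t e = v ∧ s e = j))
    (h2 : (s e' = v ∧ t e' = j') ∨ (t e' = v ∧ s e' = j'))
    (hd : (Λ.ζ v - Λ.ζ j) / (r v + r j) = (Λ.ζ v - Λ.ζ j') / (r v + r j')) : e' = e := by
  have key : ∀ e ∈ T, η e = 1 → ∀ j, (s e = v ∧ t e = j) ∨ (t e = v ∧ s e = j) →
      (v, Λ.key r s t η e) ∈ Λ.inc r T s t η ∧
        Λ.idir r (v, Λ.key r s t η e) = (Λ.ζ v - Λ.ζ j) / (r v + r j) := by
    rintro e he η1 j (⟨rfl, rfl⟩ | ⟨rfl, rfl⟩)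
    · exact ⟨mem_union_left _ (mem_image_of_mem _ he), by rw [h.idir_s he, dir, η1, one_mul]⟩
    · refine ⟨mem_union_right _ (mem_image_of_mem _ he), ?_⟩
      rw [h.idir_t he, dir, η1, one_mul, add_comm]
      ring
  obtain ⟨a1, a2⟩ := key e he η1 j h1
  obtain ⟨b1, b2⟩ := key e' he' η2 j' h2
  have := h.geo.hinj _ b1 _ a1 rfl (by rw [a2, b2, hd])
  exact h.key_inj H hge he he' (congrArg Prod.snd this)

end Lev

end Pool.Agent.P.MP_27dab6_co
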