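import Pool.Agent.P.MP_27dab6_co.Quad

/-!
The place where the parameter of the four-cycle vanishes: every other vertex of degree three has
two short bars.
-/

set_option autoImplicit false

namespace Pool.Agent.P.MP_27dab6_co

open Finset Classical IsLocalRing

variable {V K : Type} [Field K]

theorem val_eq_of {O : ValuationSubring K} {x u y u' : K} (hu : O.valuation u = 1)
    (hu' : O.valuation u' = 1) (e : x * u = y * u') : O.valuation x = O.valuation y := by
  have := congrArg O.valuation e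
  rwa [map_mul, map_mul, hu, hu', mul_one, mul_one] at this

theorem int_of_dir {p q l p' q' l' : K} (h : p * q = l ^ 2) (h' : p' * q' = l' ^ 2) (l0 : l ≠ 0)
    (l0' : l' ≠ 0) (e : p / l = p' / l') : (p' - p) * (q' - q) = (l - l') ^ 2 := by
  obtain ⟨u, rfl⟩ : ∃ u, p = l * u := ⟨p / l, by field_simp⟩
  rw [mul_div_cancel_left₀ _ l0] at e
  obtain rfl : p' = l' * u := by rw [e]; field_simp
  have a1 : u * q = l := mul_left_cancel₀ l0 (by linear_combination h)
  have a2 : u * q' = l' := mul_left_cancel₀ l0' (by linear_combination h')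
  linear_combination (l' - l) * (a2 - a1)

theorem mem_of_le {O : ValuationSubring K} {p π : K} (hπ : π ≠ 0)
    (h : O.valuation p ≤ O.valuation π) : p * π⁻¹ ∈ O := by
  rw [← O.valuation_le_one_iff, map_mul, map_inv₀,
    mul_inv_le_iff₀ (zero_lt_iff.2 (by simpa using hπ)), one_mul]
  exact h

theorem mem_of_le' {O : ValuationSubring K} {p π : K} (hπ : π ≠ 0)
    (h : O.valuation p ≤ (O.valuation π)⁻¹) : p * π ∈ O := by
  simpa using mem_of_le (O := O) (p := p) (inv_ne_zero hπ) (by rwa [map_inv₀])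

namespace Set3

variable {G B : SimpleGraph V} {U : Finset V} {z w r : V → K} {x a b c : V} {ω : Sym2 V → K}
  (h : Set3 G B U z w r x a b c ω) [CharZero K] {O : ValuationSubring K}
  (hk : (Subfield.closure (prm G B U z w r x)).toSubring ≤ O.toSubring)

include h hk

theorem res4_ne {i j k l : V} (hi : i ∈ U) (hj : j ∈ U) (hk' : k ∈ U) (hl : l ∈ U) :
    res O (r i) + res O (r j) + (res O (r k) + res O (r l)) ≠ 0 :=
  (((h.red_r hk hi).add (h.red_r hk hj)).add ((h.red_r hk hk').add (h.red_r hk hl))).ne_zero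
    ((((h.cn_r hi).add (h.cn_r hj)).add ((h.cn_r hk').add (h.cn_r hl))).val hk
      (by rw [← add_assoc]; exact h.base.ne4 _ _ _ _))

theorem plus_vals {y : V} (hy : y ∈ U) {σ : K}
    (hq : Quad (r x + r a) (r x + r b) (r y + r a) (r y + r b) (z b - z a) (w b - w a) (z x - z a)
      (w x - w a) σ) (hσ : O.valuation σ < 1) :
    O.valuation (z b - z a) < 1 ∧ O.valuation (w b - w a) ≤ 1 ∧
      O.valuation (z x - z a) = O.valuation (z b - z a) := by
  have aU := mem_of_mem_erase h.ha
  have bU := mem_of_mem_erase h.hb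
  have l := (h.red_r hk h.hx).add (h.red_r hk aU)
  have l' := (h.red_r hk h.hx).add (h.red_r hk bU)
  have m := (h.red_r hk hy).add (h.red_r hk aU)
  have m' := (h.red_r hk hy).add (h.red_r hk bU)
  have s := red_zero_iff.2 hσ
  have l0 := h.res_add_ne hk h.hx aU
  have m0 := h.res_add_ne hk hy aU
  have e1 : O.valuation (z b - z a) = O.valuation σ :=
    val_eq_of ((((Red.one.add s).mul (l.add (l'.mul s))).mul m).val_eq_one (by simp [l0, m0]))
      (((m'.sub m).neg.mul (((l.add l').mul m).add ((l'.mul (m.add m')).mul s))).val_eq_one (by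
        have := h.res_sub_ne hk h.ha h.hb h.ab
        have := h.res4_ne hk h.hx aU h.hx bU
        simp [*])) (by rw [hq.i1]; ring)
  have e2 : O.valuation (z x - z a) = O.valuation σ :=
    val_eq_of (((Red.one.add s).mul m).val_eq_one (by simp [m0]))
      (((l.mul m).add ((l'.mul m').mul s)).val_eq_one (by simp [l0, m0])) hq.i3
  exact ⟨e1 ▸ hσ, (Red.of_mul ((m.add (m'.mul s)).mul ((l.mul m).add ((l'.mul m').mul s)))
    (by simp [l0, m0]) ((m'.sub m).neg.mul (m.mul ((l.mul (m.add m')).add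
      ((m'.mul (l.add l')).mul s)))) hq.i2).le, e2.trans e1.symm⟩

theorem finalPlus₂ {y : V} (hy : y ∈ U.erase x) (hz : z y - z a = r y + r a)
    (hZ : O.valuation (z b - z a) < 1) (hW : O.valuation (w b - w a) ≤ 1)
    (hX : O.valuation (z x - z a) = O.valuation (z b - z a)) (hω : ∀ e ∈ eIn B U, ω e ∈ O)
    (hω' : ∃ e ∈ eIn B U, res O (ω e) ≠ 0) {v : V} (hv : v ∈ U.erase x) (hvx : ¬B.Adj x v)
    (h3 : (nbr B U v).card = 3) :
    2 ≤ ((nbr B U v).filter fun j => O.valuation (z v - z j) < 1).card := by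
  have := charZero_res hk
  have aU := mem_of_mem_erase h.ha
  have bU := mem_of_mem_erase h.hb
  have cU := mem_of_mem_erase h.hc
  obtain ⟨ρ, hρ⟩ : ∃ ρ : V → ResidueField O, ρ = fun i => res O (r i) := ⟨_, rfl⟩
  have R : ∀ i ∈ U, Red O (r i) (ρ i) := fun i hi => hρ ▸ h.red_r hk hi
  have ne2 : ∀ i ∈ U, ∀ j ∈ U, ρ i + ρ j ≠ 0 := fun i hi j hj => hρ ▸ h.res_add_ne hk hi hj
  obtain ⟨Z, hZ'⟩ : ∃ Z, Z = z b - z a := ⟨_, rfl⟩
  have Z0 : Z ≠ 0 := hZ' ▸ sub_ne_zero.2 (h.base.nz b a h.ab.symm)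
  rw [← hZ'] at hZ hX
  have β0 : 0 < O.valuation Z := zero_lt_iff.2 (by simpa using Z0)
  have β1 : 1 < (O.valuation Z)⁻¹ := (one_lt_inv₀ β0).2 hZ
  have L1 : LD (U.erase x) O O z w (O.valuation 1) 1 := LD.self one_ne_zero
    ⟨y, hy, a, h.ha, Or.inl (by
      rw [hz, map_one]
      exact ((R y (mem_of_mem_erase hy)).add (R a aU)).val_eq_one
        (ne2 y (mem_of_mem_erase hy) a aU))⟩
  have L2 : LD (U.erase x) O O z w (O.valuation Z) Z :=
    LD.self Z0 ⟨b, h.hb, a, h.ha, Or.inl (by rw [hZ'])⟩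
  obtain ⟨ge, lz, lw⟩ := budget (O := O) (w := w) ⟨a, h.ha⟩ (eIn B (U.erase x))
    {O.valuation Z, O.valuation 1} (fun _ => 0)
    (fun γ hγ => by
      simp only [mem_union, mem_insert, mem_singleton, mem_image] at hγ
      rcases hγ with (rfl | rfl) | ⟨e, he, rfl⟩
      exacts [L2.ne, L1.ne, (h.lev_edge he).ne])
    (fun γ hγ => by
      simp only [mem_union, mem_insert, mem_singleton, mem_image] at hγ
      rcases hγ with (rfl | rfl) | ⟨e, he, rfl⟩
      exacts [h.lev_le hk L2, h.lev_le hk L1, h.lev_le hk (h.lev_edge he)])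
    (by
      have := h.card_e
      rw [card_pair (by simpa using hZ.ne)]
      omega)
  have B1 := h.lev_bars hk L1
  have B2 := h.lev_bars hk L2
  rw [← hρ] at B1 B2
  have ge2 : L2.lev.Ge (eLv B U x O z (O.valuation Z)).card := ge _ (by simp)
  have sf1 := B1.sf' h.lev_node (filter_split _) (ge _ (by simp))
  have sf2 := B2.sf' h.lev_node (filter_split _) ge2
  have lz : ∀ i ∈ U.erase x, ∀ j ∈ U.erase x, i ≠ j →
      O.valuation (z i - z j) = O.valuation Z ∨ O.valuation (z i - z j) = 1 := fun i hi j hj e => by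
    simpa using lz i hi j hj (h.base.nz i j e)
  have lw : ∀ i ∈ U.erase x, ∀ j ∈ U.erase x,
      O.valuation (w i - w j) ≤ (O.valuation Z)⁻¹ := fun i hi j hj => by
    by_cases e : i = j
    · simp [e]
    · have := lw i hi j hj (h.base.nw i j e)
      simp only [mem_insert, mem_singleton, map_one, inv_eq_one] at this
      rcases this with e | e
      · rw [← e, inv_inv]
      · rw [e]; exact β1.le
  have nx : ∀ j ∈ U, G.Adj x j → Red O ((z x - z j) * (w x - w j)) ((ρ x + ρ j) ^ 2) :=
    fun j hj e => (((R x h.hx).add (R j hj)).pow 2).congr (h.base.tan x j e).symm rfl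
  have vx : ∀ j ∈ U, G.Adj x j → O.valuation (w x - w j) = (O.valuation (z x - z j))⁻¹ :=
    fun j hj e => inv_of_mul (by
      rw [← map_mul]; exact (nx j hj e).val_eq_one (pow_ne_zero _ (ne2 x h.hx j hj)))
  have wx : ∀ j ∈ U.erase x, O.valuation (w x - w j) ≤ (O.valuation Z)⁻¹ := fun j hj =>
    val_tri_le (by rw [vx a aU h.ta, hX]) (lw a h.ha j hj)
  have zb : O.valuation (z x - z b) ≤ O.valuation Z :=
    val_tri_le hX.le (by rw [Valuation.map_sub_swap, hZ'])
  have mem3 : ∀ j, j = a ∨ j = b ∨ j = c → j ∈ U.erase x ∧ G.Adj x j := by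
    rintro j (rfl | rfl | rfl)
    exacts [⟨h.ha, h.ta⟩, ⟨h.hb, h.tb⟩, ⟨h.hc, h.tc⟩]
  have dich : O.valuation (z x - z c) ≤ O.valuation Z ∨ O.valuation (z x - z c) = 1 := by
    rcases lz a h.ha c h.hc h.ac with e | e
    · exact Or.inl (val_tri_le hX.le e.le)
    · right
      rw [← sub_add_sub_cancel (z x) (z a) (z c), Valuation.map_add_eq_of_lt_right, e]
      rw [hX, e]; exact hZ
  have z1 : ∀ j, j = a ∨ j = b ∨ j = c → (z x - z j) * 1⁻¹ ∈ O := by
    rintro j (rfl | rfl | rfl) <;> refine mem_of_le one_ne_zero ?_ <;> rw [map_one]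
    exacts [hX.le.trans hZ.le, zb.trans hZ.le, dich.elim (·.trans hZ.le) Eq.le]
  have za0 : res O ((z x - z a) * 1⁻¹) = 0 := (red_zero_iff.2 (by simpa [hX] using hZ)).2
  have zb0 : res O ((z x - z b) * 1⁻¹) = 0 := (red_zero_iff.2 (by simpa using zb.trans_lt hZ)).2
  have k1 := h.lead_z hk hω L1 (fun _ => 0) (fun _ _ _ => rfl) 1 fun j hj => Or.inr (z1 j hj)
  simp only [sub_self, mul_zero, sum_const_zero, za0, zb0, zero_add, sub_zero,
    mul_one] at k1
  have oc : O.valuation (z x - z c) = 1 → res O (ω s(x, c)) = 0 := fun e =>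
    (mul_eq_zero.1 k1).resolve_right ((Red.of_mem (z1 c (by simp))).ne_zero (by simpa using e))
  have lev1 : ∀ e ∈ eLv B U x O z (O.valuation 1), res O (ω e) = 0 := sf1 _
    (fun φ hφ => by
      have e1 : φ a = φ b := hφ _ _ (L1.lz_iff.2 (by
        rw [Valuation.map_sub_swap, ← hZ', map_one]; exact hZ))
      rcases dich with e | e
      · have e2 : φ a = φ c := hφ _ _ (L1.lz_iff.2 (by
          rw [map_one]
          exact (val_tri_le (by rw [Valuation.map_sub_swap]; exact hX.le) e).trans_lt hZ))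
        have := h.lead_w hk hω L1 φ hφ (φ a) (by
          rintro j (rfl | rfl | rfl)
          exacts [Or.inl rfl, Or.inl e1, Or.inl e2])
        simpa [← e1, ← e2] using this
      · have := h.lead_w hk hω L1 φ hφ (φ a) (by
          rintro j (rfl | rfl | rfl)
          · exact Or.inl rfl
          · exact Or.inl e1
          · exact Or.inr (mem_of_le' one_ne_zero (by rw [vx _ cU h.tc, e, map_one])))
        simpa [← e1, oc e] using this)
    (fun φ hφ => by
      have := h.lead_z hk hω L1 φ hφ 0 fun j hj => Or.inr (z1 j hj)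
      rw [za0, zb0, ← mul_assoc (res O (ω s(x, c))), k1] at this
      simpa using this)
  have w2 : ∀ j, j = a ∨ j = b ∨ j = c → (w x - w j) * Z ∈ O := fun j hj =>
    mem_of_le' Z0 (wx j (mem3 j hj).1)
  have k2 := h.lead_w hk hω L2 (fun _ => 0) (fun _ _ _ => rfl) 1 fun j hj => Or.inr (w2 j hj)
  simp only [sub_self, mul_zero, sum_const_zero, zero_add, sub_zero, mul_one] at k2
  have xe : ∀ j, j = a ∨ j = b ∨ j = c → Red O (ω s(x, j)) (res O (ω s(x, j))) := fun j hj =>
    Red.of_mem (hω _ (mem_eIn.2 ⟨h.hx, mem_of_mem_erase (mem3 j hj).1, h.le (mem3 j hj).2⟩))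
  have lamx : O.valuation (lam G U r ω x) = 1 := by
    have : Red O (lam G U r ω x) (res O (ω s(x, a)) * (ρ x + ρ a) +
        res O (ω s(x, b)) * (ρ x + ρ b) + res O (ω s(x, c)) * (ρ x + ρ c)) := by
      rw [lam, h.nbrG, sum_insert (by simp [h.ab, h.ac]), sum_pair h.bc, add_assoc]
      exact ((xe a (by simp)).mul ((R x h.hx).add (R a aU))).add
        (((xe b (by simp)).mul ((R x h.hx).add (R b bU))).add
          ((xe c (by simp)).mul ((R x h.hx).add (R c cU))))
    refine this.val_eq_one fun k3 => ?_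
    have o3 : res O (ω s(x, a)) = 0 ∧ res O (ω s(x, b)) = 0 ∧ res O (ω s(x, c)) = 0 := by
      rcases dich with e | e
      · have z2 : ∀ j, j = a ∨ j = b ∨ j = c → O.valuation (z x - z j) ≤ O.valuation Z := by
          rintro j (rfl | rfl | rfl)
          exacts [hX.le, zb, e]
        have k4 := h.lead_z hk hω L2 (fun _ => 0) (fun _ _ _ => rfl) 1
          fun j hj => Or.inr (mem_of_le Z0 (z2 j hj))
        simp only [sub_self, mul_zero, sum_const_zero, zero_add, sub_zero, mul_one] at k4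
        have pq : ∀ j, j = a ∨ j = b ∨ j = c →
            res O ((z x - z j) * Z⁻¹) * res O ((w x - w j) * Z) = (ρ x + ρ j) ^ 2 := fun j hj =>
          ((Red.of_mem (mem_of_le Z0 (z2 j hj))).mul (Red.of_mem (w2 j hj))).eq
            (nx j (mem_of_mem_erase (mem3 j hj).1) (mem3 j hj).2) (by field_simp)
        have := zero_around ({a, b, c} : Finset V) card_le_three (fun j => res O (ω s(x, j)))
          (fun j => res O ((z x - z j) * Z⁻¹)) (fun j => res O ((w x - w j) * Z))
          (fun j => ρ x + ρ j) (fun j hj _ => pq j (by simpa using hj))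
          (fun j hj _ => ne2 x h.hx j (mem_of_mem_erase (mem3 j (by simpa using hj)).1))
          (fun j hj j' hj' _ _ hd => by
            by_contra hne
            have hj : j = a ∨ j = b ∨ j = c := by simpa using hj
            have hj' : j' = a ∨ j' = b ∨ j' = c := by simpa using hj'
            have m1 := (mem3 j hj).1
            have m2 := (mem3 j' hj').1
            have zz : O.valuation (z j - z j') ≤ O.valuation Z :=
              val_tri_le (by rw [Valuation.map_sub_swap]; exact z2 j hj) (z2 j' hj')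
            refine B2.virt h.lev_node (filter_split _) ge2 ⟨L2.near m1 m2 zz (lw j m1 j' m2), hne,
              fun e => hne ((e.1.elim id id).trans (e.2.elim id id).symm), ?_,
              fun e => (e rfl).elim⟩
            rw [(L2.redz m1 m2 zz).eq ((Red.of_mem (mem_of_le Z0 (z2 j' hj'))).sub
                (Red.of_mem (mem_of_le Z0 (z2 j hj)))) (by ring),
              (L2.redw m1 m2 (lw j m1 j' m2)).eq ((Red.of_mem (w2 j' hj')).sub
                (Red.of_mem (w2 j hj))) (by ring),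
              int_of_dir (pq j hj) (pq j' hj') (ne2 x h.hx j (mem_of_mem_erase m1))
                (ne2 x h.hx j' (mem_of_mem_erase m2)) hd]
            ring)
          (by rw [sum_insert (by simp [h.ab, h.ac]), sum_pair h.bc, ← add_assoc]; exact k2)
          (by rw [sum_insert (by simp [h.ab, h.ac]), sum_pair h.bc, ← add_assoc]; exact k4)
          (by rw [sum_insert (by simp [h.ab, h.ac]), sum_pair h.bc, ← add_assoc]; exact k3)
        exact ⟨this a (by simp), this b (by simp), this c (by simp)⟩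
      · have e1 : res O ((w x - w b) * Z) = res O ((w x - w a) * Z) :=
          (((Red.of_mem (w2 a (by simp))).sub (red_zero_iff.2 (show O.valuation
            ((w b - w a) * Z) < 1 by
              rw [map_mul]
              exact (mul_le_of_le_one_left zero_le hW).trans_lt hZ))).congr (by ring)
                (sub_zero _)).2
        have e2 : res O ((w x - w a) * Z) ≠ 0 := (Red.of_mem (w2 a (by simp))).ne_zero (by
          rw [map_mul, vx a aU h.ta, hX, inv_mul_cancel₀ β0.ne'])
        have e3 : ρ a - ρ b ≠ 0 := hρ ▸ h.res_sub_ne hk h.ha h.hb h.ab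
        rw [oc e, e1] at k2
        rw [oc e] at k3
        have e4 : res O (ω s(x, a)) + res O (ω s(x, b)) = 0 :=
          mul_right_cancel₀ e2 (by linear_combination k2)
        have e5 : res O (ω s(x, a)) = 0 :=
          mul_right_cancel₀ e3 (by linear_combination k3 - (ρ x + ρ b) * e4)
        exact ⟨e5, by linear_combination e4 - e5, oc e⟩
    obtain ⟨o1, o2, o3⟩ := o3
    have lev2 : ∀ e ∈ eLv B U x O z (O.valuation Z), res O (ω e) = 0 := sf2 _
      (fun φ hφ => by
        simpa [o1, o2, o3] using h.lead_w hk hω L2 φ hφ 0 fun j hj => Or.inr (w2 j hj))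
      (fun φ hφ => by
        simpa [o1, o2, o3] using h.lead_z hk hω L2 φ hφ (φ c) (by
          rintro j (rfl | rfl | rfl)
          exacts [Or.inr (mem_of_le Z0 hX.le), Or.inr (mem_of_le Z0 zb), Or.inl rfl]))
    obtain ⟨e, he, e0⟩ := hω'
    rcases h.edge_cases he with he | rfl | rfl | rfl
    · obtain ⟨m1, m2, m3⟩ := mem_eIn'.1 he
      rcases lz _ m1 _ m2 m3.ne with e' | e'
      · exact e0 (lev2 e (mem_filter.2 ⟨he, e'⟩))
      · exact e0 (lev1 e (mem_filter.2 ⟨he, e'.trans (map_one _).symm⟩))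
    exacts [e0 o1, e0 o2, e0 o3]
  by_contra hlt
  have vU := mem_of_mem_erase hv
  have mN : ∀ j ∈ nbr B U v, j ∈ U.erase x ∧ s(v, j) ∈ eIn B (U.erase x) := fun j hj => by
    obtain ⟨m1, m2⟩ := mem_nbr.1 hj
    have : j ∈ U.erase x := mem_erase.2 ⟨fun e => hvx (e ▸ m2.symm), m1⟩
    exact ⟨this, mem_eIn.2 ⟨hv, this, m2⟩⟩
  have mO : ∀ j ∈ nbr B U v, ω s(v, j) ∈ O := fun j hj =>
    hω _ (mem_eIn.2 ⟨vU, mem_nbr.1 hj⟩)
  have vw : ∀ j ∈ nbr B U v, O.valuation (w v - w j) = (O.valuation (z v - z j))⁻¹ := fun j hj =>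
    inv_of_mul (by rw [← map_mul, ← bt_mk]; exact (h.cn_n (mN j hj).2).val hk (h.n_ne (mN j hj).2))
  have big : ∀ j ∈ nbr B U v, ¬O.valuation (z v - z j) < 1 →
      O.valuation (z v - z j) = 1 ∧ O.valuation (ω s(v, j)) < 1 := fun j hj e => by
    have : O.valuation (z v - z j) = 1 :=
      (lz v hv j (mN j hj).1 (mem_nbr.1 hj).2.ne).resolve_left fun e' => e (e' ▸ hZ)
    exact ⟨this, (Red.of_mem (mO j hj)).lt (lev1 _ (mem_filter.2 ⟨(mN j hj).2, by
      rw [lv_mk, this, map_one]⟩))⟩
  have small : ∀ j ∈ nbr B U v, O.valuation (ω s(v, j)) < 1 := fun j hj => by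
    by_cases e : O.valuation (z v - z j) < 1
    · have eq := h.st.1 (Pi.single v 1)
      rw [sum_single_bt vU, ← add_sum_erase _ _ hj, add_eq_zero_iff_eq_neg] at eq
      have : O.valuation (ω s(v, j) * (w v - w j)) < 1 := by
        rw [eq, Valuation.map_neg]
        refine Valuation.map_sum_lt _ one_ne_zero fun j' hj' => ?_
        obtain ⟨m1, m2⟩ := mem_erase.1 hj'
        obtain ⟨b1, b2⟩ := big j' m2 fun e' => hlt (one_lt_card.2
          ⟨j', mem_filter.2 ⟨m2, e'⟩, j, mem_filter.2 ⟨hj, e⟩, m1⟩)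
        rwa [map_mul, vw j' m2, b1, inv_one, mul_one]
      rw [map_mul, vw j hj] at this
      refine lt_of_le_of_lt (le_mul_of_one_le_right zero_le ?_) this
      exact ((one_lt_inv₀ (zero_lt_iff.2 (by
        simpa [sub_eq_zero] using h.base.nz v j (mem_nbr.1 hj).2.ne))).2 e).le
    · exact (big j hj e).2
  have quot : ∀ t : K, Cn (prm G B U z w r x) (t / lam G U r ω x) → O.valuation t < 1 → t = 0 :=
    fun t ht e => by
      simpa [h.lam_x] using ht.zero_of_lt hk (by rwa [map_div₀, lamx, div_one])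
  refine h.load_ne vU h3 (quot _ (h.cn_lam hv) ?_) fun j hj e =>
    quot _ (h.cn_om (mem_fr.2 ⟨(mN j hj).2, fun e' => e (adj_fs_sn.1 e')⟩)) (small j hj)
  refine Valuation.map_sum_lt _ one_ne_zero fun j hj => ?_
  obtain ⟨m1, m2⟩ := mem_nbr.1 hj
  rw [map_mul]
  exact (mul_le_of_le_one_right zero_le ((R v vU).add (R j m1)).le).trans_lt
    (small j (mem_nbr.2 ⟨m1, h.le m2⟩))

theorem finalPlus {y : V} (hy : y ∈ U.erase x) (hz : z y - z a = r y + r a) {σ : K}
    (hq : Quad (r x + r a) (r x + r b) (r y + r a) (r y + r b) (z b - z a) (w b - w a) (z x - z a)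
      (w x - w a) σ) (hσ : O.valuation σ < 1) {v : V} (hv : v ∈ U.erase x) (hvx : ¬B.Adj x v)
    (h3 : (nbr B U v).card = 3) :
    2 ≤ ((nbr B U v).filter fun j => O.valuation (z v - z j) < 1).card := by
  obtain ⟨a1, a2, a3⟩ := h.plus_vals hk (mem_of_mem_erase hy) hq hσ
  obtain ⟨j, hj, e⟩ := h.nz x h.hx h.card_x
  obtain ⟨μ, h0, m1, m2⟩ := exists_norm O (E := eIn B U) (ω := ω)
    ⟨s(x, j), mem_eIn.2 ⟨h.hx, mem_nbr.1 hj⟩, e⟩
  exact (h.smul h0).finalPlus₂ hk hy hz a1 a2 a3 m1 m2 hv hvx h3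

end Set3

end Pool.Agent.P.MP_27dab6_co
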