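import Pool.Agent.P.MP_27dab6_co.Graph
import Pool.Agent.P.MP_8972a1_co.Count

/-!
The bipartite minor bound for graphs with a Whitney dual and for contact graphs of packings.
-/

set_option autoImplicit false

namespace Pool.Agent.P.MP_27dab6_co

open Finset Classical Pool.Agent.P.MP_8972a1_co

theorem count_four {V E : Type} [Fintype V] [Fintype E] [DecidableEq V] (s t : E → V) {F : Type} (l r : E → F)
    (hdual : ∀ Z : E → ZMod 2, IsCyc s t Z ↔ ∃ S : F → ZMod 2, ∀ e, Z e = S (l e) + S (r e))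
    (hg : ∀ Z : E → ZMod 2, IsCyc s t Z → Z ≠ 0 → 4 ≤ (univ.filter fun e => Z e ≠ 0).card)
    (h3 : 3 ≤ Fintype.card V) : Fintype.card E + 4 ≤ 2 * Fintype.card V := by
  have : Nonempty V := Fintype.card_pos_iff.1 (by omega)
  let z : F → E → ZMod 2 := fun φ e => (if l e = φ then 1 else 0) + (if r e = φ then 1 else 0)
  have hz : ∀ φ, IsCyc s t (z φ) := fun φ =>
    (hdual _).2 ⟨fun ψ => if ψ = φ then 1 else 0, fun e => rfl⟩
  let Φ : Finset F := (univ.image l ∪ univ.image r).filter fun φ => z φ ≠ 0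
  let ext : (Φ → ZMod 2) →ₗ[ZMod 2] (E → ZMod 2) :=
    { toFun := fun S e => (if h : l e ∈ Φ then S ⟨_, h⟩ else 0) +
        (if h : r e ∈ Φ then S ⟨_, h⟩ else 0)
      map_add' := by
        intro a b
        funext e
        simp only [Pi.add_apply]
        split_ifs <;> ring
      map_smul' := by
        intro a b
        funext e
        simp only [Pi.smul_apply, smul_eq_mul, RingHom.id_apply]
        split_ifs <;> ring }
  have hm : ∀ e, l e ≠ r e → l e ∈ Φ ∧ r e ∈ Φ := fun e hlr => by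
    constructor
    · refine mem_filter.2 ⟨by simp, fun h => ?_⟩
      have := congrFun h e
      simp [z, Ne.symm hlr] at this
    · refine mem_filter.2 ⟨by simp, fun h => ?_⟩
      have := congrFun h e
      simp [z, hlr] at this
  have hle : LinearMap.ker (bdry s t) ≤ LinearMap.range ext := by
    intro Z hZ
    have hZ' : IsCyc s t Z := fun v => congrFun (LinearMap.mem_ker.1 hZ) v
    obtain ⟨S, hS⟩ := (hdual Z).1 hZ'
    refine ⟨fun φ => S φ.1, ?_⟩
    funext e
    simp only [ext, LinearMap.coe_mk, AddHom.coe_mk]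
    by_cases hlr : l e = r e
    · rw [hS e, hlr, two_zero, two_zero]
    · rw [dif_pos (hm e hlr).1, dif_pos (hm e hlr).2, hS e]
  have h1 := Submodule.finrank_mono hle
  have h4 := LinearMap.finrank_range_add_finrank_ker ext
  rw [Module.finrank_fintype_fun_eq_card, Fintype.card_coe] at h4
  have h2 : 4 * Φ.card ≤ 2 * Fintype.card E := by
    calc 4 * Φ.card = ∑ _φ ∈ Φ, 4 := by simp [mul_comm]
      _ ≤ ∑ φ ∈ Φ, ((univ.filter fun e => l e = φ).card + (univ.filter fun e => r e = φ).card) := by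
        refine sum_le_sum fun φ hφ => ?_
        refine (hg _ (hz φ) (mem_filter.1 hφ).2).trans ?_
        refine le_trans (card_le_card ?_) (card_union_le _ _)
        intro e he
        rw [mem_filter] at he
        by_contra hne
        simp only [mem_union, mem_filter, mem_univ, true_and, not_or] at hne
        exact he.2 (by simp [z, hne.1, hne.2])
      _ ≤ 2 * Fintype.card E := by
        rw [sum_add_distrib, two_mul]
        refine add_le_add ?_ ?_
        · exact (sum_card_fiberwise_eq_card_filter univ Φ l).le.trans (card_le_univ _)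
        · exact (sum_card_fiberwise_eq_card_filter univ Φ r).le.trans (card_le_univ _)
  have h5 := finrank_cyc s t
  by_cases h0 : Φ.card = 0
  · omega
  · obtain ⟨φ, hφ⟩ := card_pos.1 (Nat.pos_of_ne_zero h0)
    have : Module.finrank (ZMod 2) (LinearMap.ker ext) ≠ 0 := by
      rw [Ne, Submodule.finrank_eq_zero, Submodule.eq_bot_iff]
      intro h
      have := congrFun (h (fun _ => 1) (by
        rw [LinearMap.mem_ker]
        funext e
        simp only [ext, LinearMap.coe_mk, AddHom.coe_mk, Pi.zero_apply]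
        by_cases hlr : l e = r e
        · rw [hlr, two_zero]
        · rw [dif_pos (hm e hlr).1, dif_pos (hm e hlr).2, two_zero])) ⟨φ, hφ⟩
      simp at this
    omega

theorem pm_of_dual {V E : Type} [Fintype V] [Fintype E] (B : SimpleGraph V) (s t : E → V)
    (hE : ∀ u v, B.Adj u v → ∃ e, (s e = u ∧ t e = v) ∨ (s e = v ∧ t e = u)) {F : Type}
    (l r : E → F)
    (hdual : ∀ Z : E → ZMod 2, IsCyc s t Z ↔ ∃ S : F → ZMod 2, ∀ e, Z e = S (l e) + S (r e)) :
    PM B univ := by
  intro S Br col H h1 h2 h3 h3S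
  have h3' : ∀ p : H, ∃ (e : E) (u v : V), u ∈ Br p.1.1 ∧ v ∈ Br p.1.2 ∧
      ((s e = u ∧ t e = v) ∨ (s e = v ∧ t e = u)) := fun p => by
    obtain ⟨-, -, -, -, u, hu, v, hv, h⟩ := h3 p.1 p.2
    obtain ⟨e, he⟩ := hE u v h
    exact ⟨e, u, v, hu, hv, he⟩
  choose ε u v hu hv hε using h3'
  let s' : H → S := fun p => ⟨p.1.1, (h3 p.1 p.2).1⟩
  let t' : H → S := fun p => ⟨p.1.2, (h3 p.1 p.2).2.1⟩
  have cs : ∀ p, col (s' p) = true := fun p => (h3 p.1 p.2).2.2.1
  have ct : ∀ p, col (t' p) = false := fun p => (h3 p.1 p.2).2.2.2.1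
  have own : ∀ (i j : S) x, x ∈ Br i → x ∈ Br j → i = j := fun i j x a b => by
    by_contra h
    exact disjoint_left.1 (h2 _ i.2 _ j.2 fun e => h (Subtype.ext e)) a b
  have st : ∀ p q, s' p ≠ t' q := fun p q e => by
    have := cs p
    rw [e, ct] at this
    exact absurd this (by decide)
  have pext : ∀ p q, s' p = s' q → t' p = t' q → p = q := fun p q a b =>
    Subtype.ext (Prod.ext (congrArg Subtype.val a) (congrArg Subtype.val b))
  have εinj : Function.Injective ε := fun p q e => by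
    have a := hε p
    have b := hε q
    rw [e] at a
    rcases a with ⟨a1, a2⟩ | ⟨a1, a2⟩ <;> rcases b with ⟨b1, b2⟩ | ⟨b1, b2⟩
    · exact pext p q (own _ _ _ (hu p) (by rw [← a1, b1]; exact hu q))
        (own _ _ _ (hv p) (by rw [← a2, b2]; exact hv q))
    · exact (st p q (own _ _ _ (hu p) (by rw [← a1, b1]; exact hv q))).elim
    · exact (st q p (own _ _ _ (hu q) (by rw [← b1, a1]; exact hv p))).elim
    · exact pext p q (own _ _ _ (hu p) (by rw [← a2, b2]; exact hu q))
        (own _ _ _ (hv p) (by rw [← a1, b1]; exact hv q))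
  let Int : E → Prop := fun e => ∃ i : S, s e ∈ Br i ∧ t e ∈ Br i
  have εint : ∀ p, ¬Int (ε p) := by
    rintro p ⟨i, a, b⟩
    rcases hε p with ⟨a1, a2⟩ | ⟨a1, a2⟩
    · exact st p p ((own _ _ _ (hu p) (a1 ▸ a)).trans (own _ _ _ (hv p) (a2 ▸ b)).symm)
    · exact st p p ((own _ _ _ (hu p) (a2 ▸ b)).trans (own _ _ _ (hv p) (a1 ▸ a)).symm)
  let rel : F → F → Prop := fun φ ψ => ∃ e, ¬Int e ∧ e ∉ Set.range ε ∧ φ = l e ∧ ψ = r e
  have bd : ∀ (e : E) a b, (s e = a ∧ t e = b) ∨ (s e = b ∧ t e = a) →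
      bdry s t (Pi.single e 1) = Pi.single a 1 + Pi.single b 1 := by
    intro e a b h
    funext x
    simp only [bdry, LinearMap.coe_mk, AddHom.coe_mk, Pi.add_apply, Pi.single_apply, ite_mul,
      one_mul, zero_mul, sum_ite_eq', mem_univ, if_true]
    rcases h with ⟨rfl, rfl⟩ | ⟨rfl, rfl⟩ <;> simp only [eq_comm, add_comm]
  have path : ∀ (i : S) a b, a ∈ Br i → b ∈ Br i → ∃ P : E → ZMod 2,
      (∀ e, ¬Int e → P e = 0) ∧ bdry s t P = Pi.single a 1 + Pi.single b 1 := by
    intro i a b ha hb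
    have := (h1 i i.2).2 a ha b hb
    clear hb
    induction this with
    | refl => exact ⟨0, fun _ _ => rfl, by funext x; simp [two_zero]⟩
    | @tail p q _ hpq ih =>
      obtain ⟨P, hP, eP⟩ := ih
      obtain ⟨e, he⟩ := hE p q hpq.2.2
      refine ⟨P + Pi.single e 1, fun f hf => ?_, ?_⟩
      · have : f ≠ e := by
          rintro rfl
          rcases he with ⟨a1, a2⟩ | ⟨a1, a2⟩
          · exact hf ⟨i, a1 ▸ hpq.1, a2 ▸ hpq.2.1⟩
          · exact hf ⟨i, a1 ▸ hpq.2.1, a2 ▸ hpq.1⟩
        simp [hP f hf, this]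
      · rw [map_add, eP, bd e p q he]
        funext x
        simp only [Pi.add_apply]
        linear_combination two_zero ((Pi.single p 1 : V → ZMod 2) x)
  let ρ : S → V := fun i => if h : (Br i).Nonempty then h.choose else i
  have hρ : ∀ (i : S) x, x ∈ Br i → ρ i ∈ Br i := fun i x hx => by
    have h : (Br i).Nonempty := ⟨x, hx⟩
    simp only [ρ, h, dif_pos]
    exact h.choose_spec
  choose P1 hP1 eP1 using fun p => path (s' p) (ρ (s' p)) (u p) (hρ _ _ (hu p)) (hu p)
  choose P2 hP2 eP2 using fun p => path (t' p) (ρ (t' p)) (v p) (hρ _ _ (hv p)) (hv p)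
  have := count_four s' t' (fun p => Quot.mk rel (l (ε p))) (fun p => Quot.mk rel (r (ε p)))
    (fun Z => ⟨fun hZ => ?_, ?_⟩) (four_le_support s' t' (fun p => st p p) (fun p q e => ?_) ?_)
    (by simpa using h3S)
  · simpa using this
  · let Z₀ : E → ZMod 2 := ∑ p, Z p • (Pi.single (ε p) 1 + P1 p + P2 p)
    have z0 : IsCyc s t Z₀ := by
      intro x
      change bdry s t Z₀ x = 0
      have e1 : ∀ p, bdry s t (Pi.single (ε p) 1 + P1 p + P2 p) x =
          ∑ i : S, (if ρ i = x then 1 else 0) *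
            ((if s' p = i then 1 else 0) + if t' p = i then 1 else 0) := fun p => by
        rw [map_add, map_add, bd _ _ _ (hε p), eP1, eP2]
        simp only [mul_add, sum_add_distrib, mul_ite, mul_one, mul_zero, sum_ite_eq, mem_univ,
          if_true, Pi.add_apply, Pi.single_apply, eq_comm (a := x)]
        linear_combination two_zero (if u p = x then (1 : ZMod 2) else 0) +
          two_zero (if v p = x then (1 : ZMod 2) else 0)
      simp only [Z₀, map_sum, map_smul, Finset.sum_apply, Pi.smul_apply, smul_eq_mul, e1, mul_sum]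
      rw [sum_comm]
      refine sum_eq_zero fun i _ => ?_
      simp only [mul_left_comm (Z _), ← mul_sum]
      rw [hZ i, mul_zero]
    obtain ⟨S₀, hS₀⟩ := (hdual Z₀).1 z0
    have ev : ∀ e, ¬Int e → Z₀ e = ∑ p, if e = ε p then Z p else 0 := fun e he => by
      simp [Z₀, Finset.sum_apply, hP1 _ e he, hP2 _ e he, Pi.single_apply]
    refine ⟨Quot.lift S₀ ?_, fun p => ?_⟩
    · rintro _ _ ⟨e, a, b, rfl, rfl⟩
      have := hS₀ e
      rw [ev e a, sum_eq_zero fun p _ => if_neg fun h => b ⟨p, h.symm⟩] at this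
      linear_combination two_zero (S₀ (l e)) + this
    · have := hS₀ (ε p)
      rw [ev _ (εint p)] at this
      simpa [εinj.eq_iff] using this
  · rintro ⟨S', hS'⟩ i
    have z0 := (hdual fun e => S' (Quot.mk rel (l e)) + S' (Quot.mk rel (r e))).2
      ⟨fun φ => S' (Quot.mk rel φ), fun e => rfl⟩
    have z1 : ∑ x ∈ Br i, ∑ e, (S' (Quot.mk rel (l e)) + S' (Quot.mk rel (r e))) *
        ((if s e = x then 1 else 0) + if t e = x then 1 else 0) = 0 :=
      sum_eq_zero fun x _ => z0 x
    rw [sum_comm] at z1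
    simp only [← mul_sum, sum_add_distrib, sum_ite_eq] at z1
    refine Eq.trans ?_ z1
    rw [← sum_subset (subset_univ (univ.image ε)), sum_image fun p _ q _ e => εinj e]
    · refine sum_congr rfl fun p _ => ?_
      rw [hS' p]
      have a1 : u p ∈ Br i ↔ s' p = i := ⟨own _ _ _ (hu p), fun e => e ▸ hu p⟩
      have a2 : v p ∈ Br i ↔ t' p = i := ⟨own _ _ _ (hv p), fun e => e ▸ hv p⟩
      rcases hε p with ⟨b1, b2⟩ | ⟨b1, b2⟩ <;> simp only [b1, b2, a1, a2]
      rw [add_comm (if s' p = i then 1 else 0)]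
    · intro e _ he
      by_cases hi : Int e
      · obtain ⟨j, a, b⟩ := hi
        have : s e ∈ Br i ↔ t e ∈ Br i :=
          ⟨fun h => own _ _ _ a h ▸ b, fun h => own _ _ _ b h ▸ a⟩
        simp only [this, two_zero, mul_zero]
      · rw [Quot.sound (r := rel) ⟨e, hi, by simpa using he, rfl, rfl⟩, two_zero, zero_mul]
  · rcases Sym2.eq_iff.1 e with ⟨a, b⟩ | ⟨a, b⟩
    · exact pext p q a b
    · exact (st p q a).elim
  · have key : ∀ p (a b : S), s(s' p, t' p) = s(a, b) → col a ≠ col b := fun p a b e => by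
      rcases Sym2.eq_iff.1 e with ⟨rfl, rfl⟩ | ⟨rfl, rfl⟩ <;> simp [cs, ct]
    intro e1 e2 e3 a b c k1 k2 k3
    have q1 := key _ _ _ k1
    have q2 := key _ _ _ k2
    have q3 := key _ _ _ k3
    revert q1 q2 q3
    cases col a <;> cases col b <;> cases col c <;> simp

/-- disks with centres `(x v, y v)` and radii `r v` form a packing with contact graph `G` -/
structure Pack {V : Type} (G : SimpleGraph V) (x y r : V → ℝ) : Prop where
  pos : ∀ v, 0 < r v
  le : ∀ u v, u ≠ v → (r u + r v) ^ 2 ≤ (x u - x v) ^ 2 + (y u - y v) ^ 2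
  adj : ∀ u v, u ≠ v → (G.Adj u v ↔ (x u - x v) ^ 2 + (y u - y v) ^ 2 = (r u + r v) ^ 2)

section Cross

variable {V : Type} {p : V → ℂ} {r : V → ℝ} (hr : ∀ v, 0 < r v)
  (hle : ∀ u v, u ≠ v → r u + r v ≤ ‖p u - p v‖)
include hr hle

theorem cross_share {i j l : V} (hj : ‖p j - p i‖ = r i + r j) (hl : ‖p l - p i‖ = r i + r l)
    (hjl : j ≠ l) {τ τ' : ℝ} (h0 : 0 ≤ τ) (h0' : 0 ≤ τ')
    (e : (τ : ℂ) * (p j - p i) = τ' * (p l - p i)) : τ = 0 ∧ τ' = 0 := by
  have ri := hr i
  have rj := hr j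
  have rl := hr l
  have n : τ * (r i + r j) = τ' * (r i + r l) := by
    have := congrArg norm e
    rwa [norm_mul, norm_mul, hj, hl, Complex.norm_real, Complex.norm_real, Real.norm_of_nonneg h0,
      Real.norm_of_nonneg h0'] at this
  have : τ = 0 := by
    by_contra h
    have hτ : 0 < τ := lt_of_le_of_ne h0 (Ne.symm h)
    have e2 : (τ : ℂ) * (p j - p l) = ((τ' - τ : ℝ) : ℂ) * (p l - p i) := by
      push_cast; linear_combination e
    have n2 := congrArg norm e2
    rw [norm_mul, norm_mul, hl, Complex.norm_real, Complex.norm_real, Real.norm_of_nonneg h0,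
      Real.norm_eq_abs] at n2
    have := mul_le_mul_of_nonneg_left (hle j l hjl) h0
    rcases abs_cases (τ' - τ) with ⟨a, -⟩ | ⟨a, -⟩ <;> rw [a] at n2 <;> nlinarith
  refine ⟨this, ?_⟩
  rw [this, zero_mul] at n
  exact (mul_eq_zero.1 n.symm).resolve_right (by positivity)

theorem cross_three {i j k : V} (hij : i ≠ j) (hik : i ≠ k) (hjk : j ≠ k) {q : ℂ}
    (hi : ‖p i - q‖ = r i) (hj : ‖p j - q‖ = r j) (hk : ‖p k - q‖ = r k) : False := by
  have sq : ∀ {v}, ‖p v - q‖ = r v → (p v - q).re ^ 2 + (p v - q).im ^ 2 = r v ^ 2 := fun h => by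
    rw [← h, Complex.sq_norm, Complex.normSq_apply]; ring
  have ip : ∀ {u v}, u ≠ v → ‖p u - q‖ = r u → ‖p v - q‖ = r v →
      (p u - q).re * (p v - q).re + (p u - q).im * (p v - q).im ≤ -(r u * r v) := by
    intro u v huv hu hv
    have h1 := pow_le_pow_left₀ (by have := hr u; have := hr v; positivity) (hle u v huv) 2
    rw [Complex.sq_norm, Complex.normSq_apply] at h1
    have a := sq hu
    have b := sq hv
    simp only [Complex.sub_re, Complex.sub_im] at *
    nlinarith
  have a1 := sq hi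
  have a2 := sq hj
  have a3 := sq hk
  have b1 := ip hij hi hj
  have b2 := ip hik hi hk
  have b3 := ip hjk hj hk
  generalize (p i - q).re = x1, (p i - q).im = y1, (p j - q).re = x2, (p j - q).im = y2,
    (p k - q).re = x3, (p k - q).im = y3 at *
  have r1 := hr i
  have r2 := hr j
  have r3 := hr k
  generalize r i = a, r j = b, r k = c at *
  have c1 := mul_le_mul_of_nonneg_left b1 (by positivity : 0 ≤ a * b * c ^ 2)
  have c2 := mul_le_mul_of_nonneg_left b2 (by positivity : 0 ≤ a * b ^ 2 * c)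
  have c3 := mul_le_mul_of_nonneg_left b3 (by positivity : 0 ≤ a ^ 2 * b * c)
  have c4 : 0 < (a * b * c) ^ 2 := by positivity
  have c5 : (b * c * x1 + a * c * x2 + a * b * x3) ^ 2 + (b * c * y1 + a * c * y2 + a * b * y3) ^ 2
      = 3 * (a * b * c) ^ 2 + 2 * (a * b * c ^ 2 * (x1 * x2 + y1 * y2) +
        a * b ^ 2 * c * (x1 * x3 + y1 * y3) + a ^ 2 * b * c * (x2 * x3 + y2 * y3)) := by
    linear_combination (b * c) ^ 2 * a1 + (a * c) ^ 2 * a2 + (a * b) ^ 2 * a3
  nlinarith [sq_nonneg (b * c * x1 + a * c * x2 + a * b * x3),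
    sq_nonneg (b * c * y1 + a * c * y2 + a * b * y3)]

theorem cross_all {i j k l : V} (hij : i ≠ j) (hkl : k ≠ l) (h1 : ‖p j - p i‖ = r i + r j)
    (h2 : ‖p l - p k‖ = r k + r l) (hne : s(i, j) ≠ s(k, l)) {τ τ' : ℝ} (h0 : 0 ≤ τ)
    (h0' : 0 ≤ τ') (l1 : τ ≤ 1) (l1' : τ' ≤ 1)
    (e : p i + τ * (p j - p i) = p k + τ' * (p l - p k)) :
    (τ = 0 ∨ τ = 1) ∧ (τ' = 0 ∨ τ' = 1) := by
  have h1' : ‖p i - p j‖ = r j + r i := by rw [norm_sub_rev, h1, add_comm]
  have h2' : ‖p k - p l‖ = r l + r k := by rw [norm_sub_rev, h2, add_comm]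
  by_cases ik : i = k
  · subst ik
    have := cross_share hr hle h1 h2 (fun h => hne (by rw [h])) h0 h0' (by linear_combination e)
    exact ⟨Or.inl this.1, Or.inl this.2⟩
  by_cases il : i = l
  · subst il
    have := cross_share hr hle h1 h2' (fun h => hne (by rw [h, Sym2.eq_swap])) h0
      (sub_nonneg.2 l1') (by push_cast; linear_combination e)
    exact ⟨Or.inl this.1, Or.inr (by linarith [this.2])⟩
  by_cases jk : j = k
  · subst jk
    have := cross_share hr hle h1' h2 il (sub_nonneg.2 l1) h0' (by push_cast; linear_combination e)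
    exact ⟨Or.inr (by linarith [this.1]), Or.inl this.2⟩
  by_cases jl : j = l
  · subst jl
    have := cross_share hr hle h1' h2' ik (sub_nonneg.2 l1) (sub_nonneg.2 l1')
      (by push_cast; linear_combination e)
    exact ⟨Or.inr (by linarith [this.1]), Or.inr (by linarith [this.2])⟩
  exfalso
  have seg : ∀ {a b : V} {σ : ℝ}, 0 ≤ σ → σ ≤ 1 → ‖p b - p a‖ = r a + r b →
      ‖p a - (p a + σ * (p b - p a))‖ + ‖p b - (p a + σ * (p b - p a))‖ = r a + r b := by
    intro a b σ s0 s1 h
    have e1 : p a - (p a + σ * (p b - p a)) = -((σ : ℂ) * (p b - p a)) := by ring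
    have e2 : p b - (p a + σ * (p b - p a)) = ((1 - σ : ℝ) : ℂ) * (p b - p a) := by
      push_cast; ring
    rw [e1, e2, norm_neg, norm_mul, norm_mul, h, Complex.norm_real, Complex.norm_real,
      Real.norm_of_nonneg s0, Real.norm_of_nonneg (sub_nonneg.2 s1)]
    ring
  have s1 := seg h0 l1 h1
  have s2 := seg h0' l1' h2
  rw [← e] at s2
  set q := p i + τ * (p j - p i)
  have tri : ∀ u v, u ≠ v → r u + r v ≤ ‖p u - q‖ + ‖p v - q‖ := fun u v h =>
    (hle u v h).trans (by simpa using norm_sub_le (p u - q) (p v - q))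
  have t1 := tri i k ik
  have t2 := tri i l il
  have t3 := tri j k jk
  have t4 := tri j l jl
  exact cross_three hr hle hij ik jk (q := q) (by linarith) (by linarith) (by linarith)

end Cross

theorem Pack.pm {V : Type} [Fintype V] {G : SimpleGraph V} {x y r : V → ℝ} (h : Pack G x y r) :
    PM G univ := by
  let p : V → ℂ := fun v => ⟨x v, y v⟩
  have nsq : ∀ u v, ‖p u - p v‖ ^ 2 = (x u - x v) ^ 2 + (y u - y v) ^ 2 := fun u v => by
    rw [Complex.sq_norm, Complex.normSq_apply]; simp [p]; ring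
  have rr : ∀ u v, 0 < r u + r v := fun u v => add_pos (h.pos u) (h.pos v)
  have hle : ∀ u v, u ≠ v → r u + r v ≤ ‖p u - p v‖ := fun u v huv =>
    (sq_le_sq₀ (rr u v).le (norm_nonneg _)).1 (by rw [nsq]; exact h.le u v huv)
  have heq : ∀ u v, G.Adj u v → ‖p v - p u‖ = r u + r v := fun u v huv => by
    rw [norm_sub_rev, ← sq_eq_sq₀ (norm_nonneg _) (rr u v).le, nsq]
    exact (h.adj u v huv.ne).1 huv
  have pinj : ∀ u v, p u = p v → u = v := fun u v e => by
    by_contra huv
    have := hle u v huv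
    rw [e, sub_self, norm_zero] at this
    exact absurd (rr u v) (not_lt.2 this)
  have hadj : ∀ e : G.edgeSet, G.Adj (fs e.1) (sn e.1) := fun e => by
    rw [← SimpleGraph.mem_edgeSet, mk_fs_sn]; exact e.2
  obtain ⟨F, l, r', hd⟩ := dual_of_drawing (fun e : G.edgeSet => fs e.1) (fun e => sn e.1)
    (fun e => (hadj e).ne) (fun e e' q => Subtype.ext (by rwa [mk_fs_sn, mk_fs_sn] at q))
    (fun v => (x v, y v)) (fun u v e => pinj u v (by
      simp only [Prod.mk.injEq] at e; simp [p, e.1, e.2]))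
    (fun e => ⟨fun τ => (x (fs e.1) + τ * (x (sn e.1) - x (fs e.1)),
      y (fs e.1) + τ * (y (sn e.1) - y (fs e.1))), by fun_prop⟩)
    (fun e => by simp) (fun e => by simp)
    (fun e τ τ' q => by
      simp only [ContinuousMap.coe_mk, Prod.mk.injEq, add_right_inj] at q
      by_contra hτ
      have hτ' : (τ : ℝ) - τ' ≠ 0 := sub_ne_zero.2 fun e => hτ (Subtype.ext e)
      refine (hadj e).ne (pinj _ _ (Complex.ext ?_ ?_))
      · apply mul_left_cancel₀ hτ'; simp only [p]; linear_combination -q.1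
      · apply mul_left_cancel₀ hτ'; simp only [p]; linear_combination -q.2)
    fun e e' hne τ τ' q => by
      simp only [ContinuousMap.coe_mk, Prod.mk.injEq] at q
      have := cross_all h.pos hle (hadj e).ne (hadj e').ne (heq _ _ (hadj e)) (heq _ _ (hadj e'))
        (by rw [mk_fs_sn, mk_fs_sn]; exact fun q => hne (Subtype.ext q)) τ.2.1 τ'.2.1 τ.2.2 τ'.2.2
        (Complex.ext (by simpa [p] using q.1) (by simpa [p] using q.2))
      exact ⟨this.1.imp Subtype.ext Subtype.ext, this.2.imp Subtype.ext Subtype.ext⟩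
  exact pm_of_dual G _ _ (fun u v huv => ⟨⟨s(u, v), huv⟩, fs_sn u v⟩) l r' hd

end Pool.Agent.P.MP_27dab6_co
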