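import Pool.Agent.P.MP_27dab6_co.Main
import Pool.Agent.P.MP_27dab6_co.Planar

/-!
A packing with a sparse contact graph deforms to a generic packing with the same contact graph.
-/

set_option autoImplicit false

namespace Pool.Agent.P.MP_27dab6_co

open Finset Classical Complex Filter Topology

theorem exists_dual_near {ι : Type} (s : Finset ι) (q : ι → ℝ) {ε : ℝ} (hε : 0 < ε) :
    ∃ t : ι → ℝ, (∀ i, dist (t i) (q i) < ε) ∧ Dual s fun i => (t i : ℂ) := by
  induction s using Finset.induction_on with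
  | empty => exact ⟨q, fun _ => by simpa using hε, fun _ => ⟨_, IsDer.of_zero, by simp⟩⟩
  | insert a s ha ih =>
    obtain ⟨t, h1, h2⟩ := ih
    set k := Subfield.closure ((fun i => (t i : ℂ)) '' s) with hk
    have : Countable k := Cardinal.mk_le_aleph0_iff.1 ((Subfield.cardinalMk_closure_le_max _).trans
      (max_le (Cardinal.mk_le_aleph0_iff.2 (s.finite_toSet.image _).countable) le_rfl))
    obtain ⟨u, hu, hu'⟩ := (((Algebraic.countable k ℂ).preimage_of_injOn
      ofReal_injective.injOn).dense_compl ℝ).exists_dist_lt (q a) hε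
    obtain ⟨D0, d1, d2, d3⟩ := exists_der_of_transcendental (L := k) (z := (u : ℂ)) hu
    refine ⟨Function.update t a u, fun i => ?_, fun c => ?_⟩
    · by_cases e : i = a
      · rw [e, Function.update_self, dist_comm]; exact hu'
      · rw [Function.update_of_ne e]; exact h1 i
    · obtain ⟨D, hD, h3⟩ := h2 c
      refine ⟨_, hD.plus (d1.smul (c a - D u)), fun i hi => ?_⟩
      rcases mem_insert.1 hi with rfl | hi
      · simp [d3]
      · have e : i ≠ a := fun e => ha (e ▸ hi)
        have := d2 ⟨t i, Subfield.subset_closure ⟨i, hi, rfl⟩⟩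
        rw [Subfield.algebraMap_ofSubfield] at this
        simp only [Function.update_of_ne e, h3 i hi]
        simp_all

variable {V : Type}

/-- the polar form of the tangency equation -/
def form {R : Type} [CommRing R] (p δ : V × Fin 3 → R) (i j : V) : R :=
  (p (i, 0) - p (j, 0)) * (δ (i, 0) - δ (j, 0)) + (p (i, 1) - p (j, 1)) * (δ (i, 1) - δ (j, 1)) -
    (p (i, 2) + p (j, 2)) * (δ (i, 2) + δ (j, 2))

/-- first isotropic coordinate -/
def zc (x y : V → ℝ) (v : V) : ℂ := x v + I * y v

/-- second isotropic coordinate -/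
def wc (x y : V → ℝ) (v : V) : ℂ := x v - I * y v

/-- the velocity vector in real coordinates -/
noncomputable def vel (δz δw δr : V → ℂ) (c : V × Fin 3) : ℂ :=
  ![(δz c.1 + δw c.1) / 2, (δw c.1 - δz c.1) * I / 2, δr c.1] c.2

theorem lin_form (p : V × Fin 3 → ℝ) (δz δw δr : V → ℂ) (i j : V) :
    lin (zc (fun v => p (v, 0)) fun v => p (v, 1)) (wc (fun v => p (v, 0)) fun v => p (v, 1))
      (fun v => (p (v, 2) : ℂ)) δz δw δr i j =
      2 * form (fun c => (p c : ℂ)) (vel δz δw δr) i j := by
  simp only [lin, row, zc, wc, form, vel, Matrix.cons_val]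
  ring

theorem form_re (p : V × Fin 3 → ℝ) (δ : V × Fin 3 → ℂ) (i j : V) :
    (form (fun c => (p c : ℂ)) δ i j).re = form p (fun c => (δ c).re) i j ∧
      (form (fun c => (p c : ℂ)) δ i j).im = form p (fun c => (δ c).im) i j := by
  simp [form]

theorem zw_eq (x y : V → ℝ) (i j : V) : (zc x y i - zc x y j) * (wc x y i - wc x y j) =
    (((x i - x j) ^ 2 + (y i - y j) ^ 2 : ℝ) : ℂ) := by
  simp only [zc, wc]
  push_cast
  linear_combination (-((y i : ℂ) - y j) ^ 2) * I_mul_I

theorem Pack.base {G : SimpleGraph V} {x y r : V → ℝ} (h : Pack G x y r) :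
    Base G (zc x y) (wc x y) fun v => (r v : ℂ) := by
  have k : ∀ i j, i ≠ j → (zc x y i - zc x y j) * (wc x y i - wc x y j) ≠ 0 := fun i j e e' => by
    rw [zw_eq, ofReal_eq_zero] at e'
    have := h.le i j e
    have := h.pos i
    have := h.pos j
    nlinarith
  refine ⟨fun i j k l e => ?_, fun i j e => sub_ne_zero.1 (left_ne_zero_of_mul (k i j e)),
    fun i j e => sub_ne_zero.1 (right_ne_zero_of_mul (k i j e)), fun i j e e' => ?_,
    fun i j e => ?_⟩
  · have : r i + r j + r k + r l = 0 := by exact_mod_cast e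
    linarith [h.pos i, h.pos j, h.pos k, h.pos l]
  · rw [zw_eq] at e'
    have : (x i - x j) ^ 2 + (y i - y j) ^ 2 = (r i - r j) ^ 2 := by exact_mod_cast e'
    have := h.le i j e
    nlinarith [mul_pos (h.pos i) (h.pos j)]
  · rw [zw_eq, (h.adj i j e.ne).1 e]
    push_cast
    rfl

variable [Fintype V] (G : SimpleGraph V) (J : Finset (V × Fin 3))

/-- the tangency equations together with the coordinates in `J` -/
noncomputable def eqs (p : V × Fin 3 → ℝ) : eIn G univ ⊕ J → ℝ :=
  Sum.elim (fun e => form p p (fs e) (sn e)) fun c => p c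

/-- the linearised equations -/
noncomputable def deq (p : V × Fin 3 → ℝ) : (V × Fin 3 → ℝ) →L[ℝ] (eIn G univ ⊕ J → ℝ) :=
  LinearMap.toContinuousLinearMap
    { toFun := fun δ => Sum.elim (fun e => 2 * form p δ (fs e) (sn e)) fun c => δ c
      map_add' := fun a b => by
        funext e
        rcases e with e | e <;> simp [form]
        ring
      map_smul' := fun c a => by
        funext e
        rcases e with e | e <;> simp [form]
        ring }

theorem deq_apply (p δ : V × Fin 3 → ℝ) :
    deq G J p δ = Sum.elim (fun e : eIn G univ => 2 * form p δ (fs e) (sn e))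
      fun c : J => δ c := rfl

theorem eqs_deriv (p : V × Fin 3 → ℝ) : HasStrictFDerivAt (eqs G J) (deq G J p) p := by
  refine hasStrictFDerivAt_pi'' ?_
  have a := fun c => hasStrictFDerivAt_apply (𝕜 := ℝ) (F' := fun _ : V × Fin 3 => ℝ) c p
  rintro (e | c)
  · refine ((((a _).sub (a _)).mul ((a _).sub (a _))).add (((a _).sub (a _)).mul
      ((a _).sub (a _)))).sub (((a _).add (a _)).mul ((a _).add (a _))) |>.congr_fderiv ?_
    ext δ
    simp [deq_apply, form]
    ring
  · exact a c

theorem deq_cont : Continuous (deq G J) := by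
  refine continuous_clm_apply.2 fun δ => continuous_pi ?_
  rintro (e | c)
  · simp only [deq_apply, Sum.elim_inl, form]
    fun_prop
  · exact continuous_const

variable {G}

theorem exists_coords {p : V × Fin 3 → ℝ} (h : Function.Surjective (deq G ∅ p)) :
    ∃ J, Function.Bijective (deq G J p) := by
  obtain ⟨J, hJ, hm⟩ := exists_max_image (univ.filter fun J => Function.Surjective (deq G J p))
    card ⟨∅, by simpa using h⟩
  have hJ := (mem_filter.1 hJ).2
  refine ⟨J, (injective_iff_map_eq_zero _).2 fun δ hδ => ?_, hJ⟩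
  by_contra hne
  obtain ⟨k, hk⟩ := Function.ne_iff.1 hne
  have hk : δ k ≠ 0 := hk
  have hkJ : k ∉ J := fun e => hk (congrFun hδ (Sum.inr ⟨k, e⟩))
  have := hm (insert k J) (mem_filter.2 ⟨mem_univ _, fun c => ?_⟩)
  · rw [card_insert_of_notMem hkJ] at this
    omega
  obtain ⟨η, hη⟩ := hJ (Sum.elim (fun e => c (Sum.inl e))
    fun i => c (Sum.inr ⟨i, mem_insert_of_mem i.2⟩))
  refine ⟨η + ((c (Sum.inr ⟨k, mem_insert_self _ _⟩) - η k) / δ k) • δ, ?_⟩
  rw [map_add, map_smul]
  funext e
  rcases e with e | ⟨i, hi⟩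
  · have h1 := congrFun hη (Sum.inl e)
    have h2 := congrFun hδ (Sum.inl e)
    simp only [deq_apply, Sum.elim_inl, Pi.add_apply, Pi.smul_apply, Pi.zero_apply] at h1 h2 ⊢
    simp [h1, h2]
  · simp only [deq_apply, Sum.elim_inr, Pi.add_apply, Pi.smul_apply, smul_eq_mul]
    rcases mem_insert.1 hi with rfl | hi'
    · field_simp; ring
    · have h1 := congrFun hη (Sum.inr ⟨i, hi'⟩)
      have h2 := congrFun hδ (Sum.inr ⟨i, hi'⟩)
      simp only [deq_apply, Sum.elim_inr, Pi.zero_apply] at h1 h2
      simp [h1, h2]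

omit [Fintype V] in
theorem form_mk {R : Type} [CommRing R] (p δ : V × Fin 3 → R) (i j : V) :
    form p δ (fs s(i, j)) (sn s(i, j)) = form p δ i j := by
  rcases fs_sn i j with ⟨h1, h2⟩ | ⟨h1, h2⟩ <;> rw [h1, h2]
  unfold form; ring

theorem Pack.exists_gen {x y r : V → ℝ} (h : Pack G x y r) (hs : Sparse G univ) :
    ∃ x' y' r' : V → ℝ, Pack G x' y' r' ∧
      Gen G (zc x' y') (wc x' y') (fun v => (r' v : ℂ)) univ := by
  obtain ⟨p0, rfl, rfl, rfl⟩ : ∃ p0 : V × Fin 3 → ℝ, x = (fun v => p0 (v, 0)) ∧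
      y = (fun v => p0 (v, 1)) ∧ r = fun v => p0 (v, 2) :=
    ⟨fun c => ![x c.1, y c.1, r c.1] c.2, rfl, rfl, rfl⟩
  obtain ⟨J, hJ⟩ := exists_coords (G := G) (p := p0) fun c => by
    obtain ⟨δz, δw, δr, -, h2⟩ := ext_lemma G _ _ _ (U := univ) (Y := ∅)
      (fun i _ j _ e => ⟨h.base.tan i j e, h.base.ne2 i j⟩)
      (fun v _ _ j _ j' _ e e' => h.base.dir e e') (empty_subset _)
      (fun X hX hd hne => hs.low hX (empty_subset _) hd hne (by simp))
      (fun e => if he : e ∈ eIn G univ then (c (Sum.inl ⟨e, he⟩) : ℂ) else 0) 0 0 0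
    refine ⟨fun k => (vel δz δw δr k).re, ?_⟩
    funext e
    rcases e with ⟨e, he⟩ | ⟨i, hi⟩
    · have := h2 _ (mem_univ _) _ (mem_univ _) (mem_eIn'.1 he).2.2 (by simp)
      rw [lin_form, mk_fs_sn, dif_pos he] at this
      have := congrArg re this
      simpa [deq_apply, (form_re _ _ _ _).1] using this
    · simp at hi
  have N : ∀ᶠ p in 𝓝 p0, (∀ v, 0 < p (v, 2)) ∧ (∀ u v, u ≠ v → ¬G.Adj u v → 0 < form p p u v) ∧
      Function.Injective (deq G J p) := by
    refine (eventually_all.2 fun v => ?_).and ((eventually_all.2 fun u => eventually_all.2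
      fun v => ?_).and ?_)
    · exact (continuous_apply (v, (2 : Fin 3))).continuousAt.eventually (lt_mem_nhds (h.pos v))
    · by_cases e : u ≠ v ∧ ¬G.Adj u v
      · have : 0 < form p0 p0 u v := by
          have := (h.le u v e.1).lt_of_ne fun e' => e.2 ((h.adj u v e.1).2 e'.symm)
          unfold form
          linarith
        have c : Continuous fun p : V × Fin 3 → ℝ => form p p u v := by unfold form; fun_prop
        exact (c.continuousAt.eventually (lt_mem_nhds this)).mono fun p hp _ _ => hp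
      · exact Eventually.of_forall fun p a b => (e ⟨a, b⟩).elim
    · exact (deq_cont G J).continuousAt.eventually
        (ContinuousLinearMap.isOpen_injective.mem_nhds hJ.1)
  have N2 := image_mem_map (m := eqs G J) N
  rw [(eqs_deriv G J p0).map_nhds_eq_of_surj (LinearMap.range_eq_top.2 hJ.2)] at N2
  obtain ⟨ε, hε, N2⟩ := Metric.mem_nhds_iff.1 N2
  obtain ⟨t, t1, t2⟩ := exists_dual_near J p0 hε
  obtain ⟨p, ⟨n1, n2, n3⟩, hp⟩ := N2 (a := Sum.elim (fun _ => 0) fun c => t c) (by
    rw [Metric.mem_ball, dist_pi_lt_iff hε]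
    rintro (⟨e, he⟩ | c)
    · have := (h.adj _ _ (mem_eIn'.1 he).2.2.ne).1 (mem_eIn'.1 he).2.2
      have : form p0 p0 (fs e) (sn e) = 0 := by unfold form; linarith
      simpa [eqs, this] using hε
    · exact t1 c)
  have tan : ∀ u v, G.Adj u v → form p p u v = 0 := fun u v e => by
    rw [← form_mk]
    exact congrFun hp (Sum.inl ⟨s(u, v), mem_eIn.2 ⟨mem_univ _, mem_univ _, e⟩⟩)
  refine ⟨fun v => p (v, 0), fun v => p (v, 1), fun v => p (v, 2), ⟨n1, fun u v e => ?_,
    fun u v e => ⟨fun e' => ?_, fun e' => ?_⟩⟩, fun δz δw δr hδ => ?_⟩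
  · by_cases e' : G.Adj u v
    · have := tan u v e'
      unfold form at this
      linarith
    · have := n2 u v e e'
      unfold form at this
      linarith
  · have := tan u v e'
    unfold form at this
    linarith
  · by_contra hn
    have := n2 u v e hn
    unfold form at this
    linarith
  obtain ⟨D, hD, h1⟩ := t2 (vel δz δw δr)
  have h2 : ∀ e ∈ eIn G univ,
      form (fun c => (p c : ℂ)) (fun c => D (p c) - vel δz δw δr c) (fs e) (sn e) = 0 :=
    fun e he => by
      have a1 := hδ _ (mem_univ _) _ (mem_univ _) (mem_eIn'.1 he).2.2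
      rw [lin_form] at a1
      have a2 : form (fun c => (p c : ℂ)) (fun c => (p c : ℂ)) (fs e) (sn e) = 0 := by
        have := tan _ _ (mem_eIn'.1 he).2.2
        simp only [form] at this ⊢
        exact_mod_cast this
      have a2 := congrArg D a2
      simp only [form, hD.add, hD.sub, hD.mul, hD.zero] at a1 a2 ⊢
      linear_combination (a2 - a1) / 2
  have h3 : ∀ c ∈ J, D (p c) - vel δz δw δr c = 0 := fun c hc => by
    have : p c = t c := congrFun hp (Sum.inr ⟨c, hc⟩)
    rw [this, h1 c hc, sub_self]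
  have h4 : ∀ f : ℂ → ℝ, f 0 = 0 → (∀ δ i j, f (form (fun c => (p c : ℂ)) δ i j) =
      form p (fun c => f (δ c)) i j) → ∀ c, f (D (p c) - vel δz δw δr c) = 0 := fun f f0 hf =>
    congrFun ((injective_iff_map_eq_zero _).1 n3 (fun c => f (D (p c) - vel δz δw δr c)) (by
      funext e
      rcases e with ⟨e, he⟩ | ⟨c, hc⟩
      · simp [deq_apply, ← hf, h2 e he, f0]
      · simp [deq_apply, h3 c hc, f0]))
  have h5 : ∀ c, D (p c) = vel δz δw δr c := fun c => sub_eq_zero.1 (Complex.ext
    (h4 re rfl (fun δ i j => (form_re p δ i j).1) c) (h4 im rfl (fun δ i j => (form_re p δ i j).2) c))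
  have dI : D I = 0 := by
    have := congrArg D I_mul_I
    rw [hD.mul, hD.neg, hD.one] at this
    exact mul_left_cancel₀ (mul_ne_zero two_ne_zero I_ne_zero) (by linear_combination this)
  refine ⟨D, hD, fun i _ => ⟨?_, ?_, h5 (i, 2)⟩⟩
  · simp only [zc, hD.add, hD.mul, dI, h5, vel, Matrix.cons_val]
    linear_combination ((δw i - δz i) / 2) * I_mul_I
  · simp only [wc, hD.sub, hD.mul, dI, h5, vel, Matrix.cons_val]
    linear_combination (-(δw i - δz i) / 2) * I_mul_I

theorem Pack.generic {x y r : V → ℝ} (h : Pack G x y r) (hs : Sparse G univ) (ht : Tight G univ) :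
    ∃ x' y' r' : V → ℝ, Pack G x' y' r' ∧ AlgebraicIndependent ℚ r' := by
  obtain ⟨x', y', r', h1, h2⟩ := h.exists_gen hs
  refine ⟨x', y', r', h1, ?_⟩
  have := (rigid_main h1.base _ univ G rfl h2 le_rfl hs ht h1.pm).ind h1.base h2 le_rfl ht
  have h3 : Dual univ fun v => (r' v : ℂ) := fun c => by
    obtain ⟨D, a, b, -⟩ := this c 0
    exact ⟨D, a, b⟩
  exact AlgebraicIndependent.of_comp (IsScalarTower.toAlgHom ℚ ℝ ℂ) h3.algebraicIndependent

end Pool.Agent.P.MP_27dab6_co
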