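import Pool.Agent.P.MP_27dab6_co.KSplit

/-!
Point location in a triangulation.
-/

set_option autoImplicit false

namespace Pool.Agent.P.MP_27dab6_co

open Finset Classical Filter Topology

/-- open triangle -/
def In (a b c y : ℂ) : Prop := 0 < ori a b y ∧ 0 < ori b c y ∧ 0 < ori c a y

/-- closed triangle -/
def Cl (a b c y : ℂ) : Prop := 0 ≤ ori a b y ∧ 0 ≤ ori b c y ∧ 0 ≤ ori c a y

theorem ori_cont (a b : ℂ) : Continuous (ori a b) := by unfold ori; fun_prop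

theorem ev_pos {a b y : ℂ} (h : 0 < ori a b y) : ∀ᶠ y' in 𝓝 y, 0 < ori a b y' :=
  (ori_cont a b).continuousAt.eventually (lt_mem_nhds h)

theorem ev_neg {a b y : ℂ} (h : ori a b y < 0) : ∀ᶠ y' in 𝓝 y, ori a b y' < 0 :=
  (ori_cont a b).continuousAt.eventually (gt_mem_nhds h)

theorem In.ev {a b c y : ℂ} (h : In a b c y) : ∀ᶠ y' in 𝓝 y, In a b c y' :=
  (ev_pos h.1).and ((ev_pos h.2.1).and (ev_pos h.2.2))

theorem ev_imp {α : Type} {l : Filter α} {q : Prop} {r : α → Prop} (h : q → ∀ᶠ y in l, r y) :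
    ∀ᶠ y in l, q → r y := by
  by_cases e : q
  · exact (h e).mono fun _ h _ => h
  · exact Eventually.of_forall fun _ h => (e h).elim

theorem pluck (x a b c d : ℂ) :
    ori x a b * ori x c d - ori x a c * ori x b d + ori x a d * ori x b c = 0 := by
  unfold ori; ring

theorem In.on {a b c u v y : ℂ} (hu : In a b c u) (hv : In a b c v) (h : On u v y) : In a b c y :=
  ⟨h.pos hu.1.le hv.1, h.pos hu.2.1.le hv.2.1, h.pos hu.2.2.le hv.2.2⟩

variable {W : Type} [Fintype W]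

namespace Tri

variable {F : W → W → W → Prop} {o1 o2 o3 : W} {p : W → ℂ} (h : Tri F o1 o2 o3 p)

include h

theorem approx {a b c y : ℂ} (h0 : 0 < ori a b c) (hy : Cl a b c y) {O : ℂ → Prop}
    (hO : ∀ᶠ y' in 𝓝 y, O y') : ∃ y', O y' ∧ Gnr F p y' ∧ In a b c y' := by
  have c1 : Continuous fun s : ℝ => y + s * ((a + b + c) / 3 - y) := by fun_prop
  have h1 : ∀ᶠ s : ℝ in 𝓝[>] 0, ∀ᶠ y' in 𝓝 (y + s * ((a + b + c) / 3 - y)), O y' :=
    nhdsWithin_le_nhds ((c1.tendsto' 0 y (by simp)).eventually hO.eventually_nhds)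
  obtain ⟨s, s1, s2⟩ := (h1.and (Ioo_mem_nhdsGT one_pos)).exists
  have k : ∀ a' b' : ℂ, ori a' b' ((a + b + c) / 3) =
      (ori a' b' a + ori a' b' b + ori a' b' c) / 3 := fun a' b' => by
    simp [ori]; ring
  have o : On y ((a + b + c) / 3) (y + s * ((a + b + c) / 3 - y)) := ⟨s, s2.1, s2.2, rfl⟩
  have i : In a b c (y + s * ((a + b + c) / 3 - y)) :=
    ⟨o.pos hy.1 (by simpa [k] using h0), o.pos hy.2.1 (by simpa [k, ori_cyc a b c] using h0),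
      o.pos hy.2.2 (by simpa [k, ori_cyc a b c, ori_cyc b c a] using h0)⟩
  obtain ⟨y', a1, a2⟩ := h.exists_gnr (s1.and i.ev)
  exact ⟨y', a1.1, a2, a1.2⟩

theorem not_in {v a b c : W} (hv : v ≠ o1 ∧ v ≠ o2 ∧ v ≠ o3) (h0 : ∃ b c, F v b c) (e : F a b c)
    (i : Cl (p a) (p b) (p c) (p v)) : v = a ∨ v = b ∨ v = c := by
  obtain ⟨y, a1, a2, a3⟩ := h.approx (h.pos _ _ _ e) i
    (O := fun y => ∀ b c, F v b c → 0 < ori (p b) (p c) y)
    (eventually_all.2 fun b => eventually_all.2 fun c => ev_imp fun f =>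
      ev_pos (by rw [ori_cyc]; exact h.pos _ _ _ f))
  obtain ⟨b', c', e', b1, b2⟩ := h.cover a2 hv h0
  exact h.once a2 e e' a3 ⟨b1, a1 _ _ e', b2⟩

theorem inj {a a' : W} (ha : ∃ b c, F a b c) (ha' : ∃ b c, F a' b c) (e : p a = p a') :
    a = a' := by
  have k : ∀ a a' : W, (∃ b c, F a b c) → (∃ b c, F a' b c) → p a = p a' →
      (a ≠ o1 ∧ a ≠ o2 ∧ a ≠ o3) → a = a' := by
    rintro a a' ha ⟨b, c, f⟩ e hv
    rcases h.not_in hv ha f (by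
      rw [e]; exact ⟨by simp, by rw [ori_cyc]; exact (h.pos _ _ _ f).le, by simp⟩) with
      rfl | rfl | rfl
    exacts [rfl, (h.ne f e.symm).elim, (h.ne (h.cyc _ _ _ (h.cyc _ _ _ f)) e).elim]
  by_cases hv : a ≠ o1 ∧ a ≠ o2 ∧ a ≠ o3
  · exact k _ _ ha ha' e hv
  by_cases hv' : a' ≠ o1 ∧ a' ≠ o2 ∧ a' ≠ o3
  · exact (k _ _ ha' ha e.symm hv').symm
  obtain ⟨⟨c1, e1⟩, -⟩ := h.out o1 o2 (Or.inl ⟨rfl, rfl⟩)
  obtain ⟨⟨c2, e2⟩, -⟩ := h.out o2 o3 (Or.inr (Or.inl ⟨rfl, rfl⟩))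
  obtain ⟨⟨c3, e3⟩, -⟩ := h.out o3 o1 (Or.inr (Or.inr ⟨rfl, rfl⟩))
  have n1 := h.ne e1
  have n2 := h.ne e2
  have n3 := h.ne e3
  simp only [not_and_or, not_not] at hv hv'
  rcases hv with rfl | rfl | rfl <;> rcases hv' with rfl | rfl | rfl <;> tauto

theorem cone {x a b a' b' : W} (e : F x a b) (e' : F x a' b') (h1 : 0 ≤ ori (p x) (p a) (p a'))
    (h2 : 0 < ori (p x) (p a') (p b)) : a' = a := by
  have c1 : Continuous fun s : ℝ => p x + s * (p a' - p x) := by fun_prop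
  have h3 : ∀ᶠ s : ℝ in 𝓝[>] 0, 0 < ori (p a) (p b) (p x + s * (p a' - p x)) :=
    nhdsWithin_le_nhds (c1.continuousAt.eventually (ev_pos (by
      simpa [ori_cyc (p x)] using h.pos _ _ _ e)))
  obtain ⟨s, s1, s2⟩ := (h3.and (Ioo_mem_nhdsGT one_pos)).exists
  have o : On (p x) (p a') (p x + s * (p a' - p x)) := ⟨s, s2.1, s2.2, rfl⟩
  have f := h.pos _ _ _ e'
  obtain ⟨y, a1, a2, a3⟩ := h.approx f (y := p x + s * (p a' - p x))
    ⟨by simp [ori_aff], (o.symm.pos (by simp) (by rwa [ori_cyc])).le,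
      (o.pos (by simp) (by rwa [← ori_cyc])).le⟩
    ((ev_pos s1).and (ev_pos (o.pos (c := p b) (d := p x) (by simp) (by rwa [← ori_cyc]))))
  have k := pluck (p x) (p a) (p a') y (p b)
  have k1 : 0 < ori (p x) y (p b) := by rw [ori_cyc]; exact a1.2
  have k2 : 0 < ori (p x) (p a) y := by
    refine (pos_iff_pos_of_mul_pos ?_).2 h2
    nlinarith [mul_nonneg h1 k1.le, mul_pos (h.pos _ _ _ e) a3.1]
  rcases h.once a2 e (h.cyc _ _ _ e') ⟨k2, a1.1, a1.2⟩ ⟨a3.2.1, a3.2.2, a3.1⟩ with rfl | rfl | rfl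
  · exact (h.ne' e' rfl).elim
  · rfl
  · simp at h2

theorem cover' {x : W} (hv : x ≠ o1 ∧ x ≠ o2 ∧ x ≠ o3) (h0 : ∃ b c, F x b c) {y : ℂ}
    (hy : y ≠ p x) : ∃ a b, F x a b ∧ 0 ≤ ori (p x) (p a) y ∧ 0 < ori (p b) (p x) y := by
  have f : 0 < ori (p x) y (p x + Complex.I * (y - p x)) := by
    have := Complex.normSq_pos.2 (sub_ne_zero.2 hy)
    refine this.trans_eq ?_
    simp [ori, Complex.normSq_apply]
    ring
  obtain ⟨y', a1, a2, a3⟩ := h.approx f (y := y) ⟨by simp, by simp, by rw [← ori_cyc]; exact f.le⟩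
    (O := fun y' => ∀ a, (ori (p x) (p a) y < 0 → ori (p x) (p a) y' < 0) ∧
      (0 < ori (p x) (p a) y → 0 < ori (p x) (p a) y'))
    (eventually_all.2 fun a => (ev_imp ev_neg).and (ev_imp ev_pos))
  obtain ⟨a, b, e, b1, b2⟩ := h.cover a2 hv h0
  have k1 : 0 ≤ ori (p x) (p a) y := not_lt.1 fun e => b1.not_gt ((a1 a).1 e)
  refine ⟨a, b, e, k1, ?_⟩
  rw [ori_swap] at b2 ⊢
  have k2 : ori (p x) (p b) y ≤ 0 := not_lt.1 fun e => by linarith [(a1 b).2 e]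
  refine neg_pos.2 (k2.lt_of_ne fun e' => ?_)
  have k := pluck (p x) (p a) (p b) y y'
  rw [e'] at k
  nlinarith [mul_pos (h.pos _ _ _ e) a3.1, mul_nonneg k1 b2.le]

theorem loc {y : ℂ} (hy : In (p o1) (p o2) (p o3) y) :
    ∃ a b c, F a b c ∧ Cl (p a) (p b) (p c) y := by
  by_contra hn
  push Not at hn
  have h0 : ∀ᶠ y' in 𝓝 y, ∀ a b c, F a b c → ¬In (p a) (p b) (p c) y' :=
    eventually_all.2 fun a => eventually_all.2 fun b => eventually_all.2 fun c => ev_imp fun f => by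
      have := hn a b c f
      simp only [Cl, not_and_or, not_le] at this
      rcases this with e | e | e <;> filter_upwards [ev_neg e] with y' e' i
      exacts [e'.not_gt i.1, e'.not_gt i.2.1, e'.not_gt i.2.2]
  obtain ⟨y, ⟨a1, a2⟩, hy⟩ := h.exists_gnr (h0.and hy.ev)
  have h1 := h.sum_anti (fun a b => crs y (p a) (p b)) fun a b => crs_swap _ _ _
  obtain ⟨⟨c1, e1⟩, -⟩ := h.out o1 o2 (Or.inl ⟨rfl, rfl⟩)
  obtain ⟨⟨c2, e2⟩, -⟩ := h.out o2 o3 (Or.inr (Or.inl ⟨rfl, rfl⟩))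
  obtain ⟨⟨c3, e3⟩, -⟩ := h.out o3 o1 (Or.inr (Or.inr ⟨rfl, rfl⟩))
  rw [crs_tri (hy.1 _) (hy.1 _) (hy.1 _) (hy.2 _ _ _ e1) (hy.2 _ _ _ e2) (hy.2 _ _ _ e3),
    if_pos (show _ ∧ _ ∧ _ from a2), if_neg fun e => a2.1.not_gt e.1] at h1
  have h3 := h.sum_nx fun d => crs y (p d.1.1) (p d.1.2)
  have h4 := (h.sum_nx fun d => crs y (p (h.nx d).1.1) (p (h.nx d).1.2)).trans h3
  have h5 : ∑ d : Dt F, crs y (p d.1.1) (p d.1.2) +
      ∑ d : Dt F, crs y (p (h.nx d).1.1) (p (h.nx d).1.2) +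
      ∑ d : Dt F, crs y (p (h.nx (h.nx d)).1.1) (p (h.nx (h.nx d)).1.2) ≤ 0 := by
    rw [← sum_add_distrib, ← sum_add_distrib]
    refine sum_nonpos fun d _ => ?_
    have f := d.face
    change crs y (p d.1.1) (p d.1.2) + crs y (p d.1.2) (p d.th) +
      crs y (p d.th) (p (h.nx d).th) ≤ 0
    rw [h.nx_th, crs_tri (hy.1 _) (hy.1 _) (hy.1 _) (hy.2 _ _ _ f) (hy.2 _ _ _ (h.cyc _ _ _ f))
      (hy.2 _ _ _ (h.cyc _ _ _ (h.cyc _ _ _ f))), if_neg (show ¬(_ ∧ _ ∧ _) from a1 _ _ _ f)]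
    split_ifs <;> simp
  omega

end Tri

end Pool.Agent.P.MP_27dab6_co
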