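import Pool.Agent.P.MP_27dab6_co.KOps

/-!
A triangulation that contains given points and given non-crossing segments.
-/

set_option autoImplicit false

namespace Pool.Agent.P.MP_27dab6_co

open Finset

/-- the segments `U V` and `y y'` cross properly -/
def Cross (U V y y' : ℂ) : Prop :=
  ori U V y * ori U V y' < 0 ∧ ori y y' U * ori y y' V < 0

theorem Cross.symm {U V y y' : ℂ} (h : Cross U V y y') : Cross U V y' y :=
  ⟨by rw [mul_comm]; exact h.1, by rw [ori_swap y, ori_swap y, neg_mul_neg]; exact h.2⟩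

theorem bary (a b c y : ℂ) :
    (ori a b c : ℂ) * y = ori b c y * a + ori c a y * b + ori a b y * c := by
  apply Complex.ext <;> simp [ori] <;> ring

theorem In.not_out {O1 O2 O3 a b y : ℂ} (i : In O1 O2 O3 y) (h : ori a b y ≤ 0) :
    ¬Out O1 O2 O3 a b := by
  rintro (⟨rfl, rfl⟩ | ⟨rfl, rfl⟩ | ⟨rfl, rfl⟩)
  exacts [h.not_gt i.1, h.not_gt i.2.1, h.not_gt i.2.2]

theorem On.ne {a b y : ℂ} (h : On a b y) (n : a ≠ b) : y ≠ a := by
  obtain ⟨t, t0, -, rfl⟩ := h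
  simp [t0.ne', sub_ne_zero.2 n.symm]

theorem On.trans {U V x z : ℂ} (hx : On U V x) (hz : z = V ∨ On x V z) :
    On U z x ∧ ∃ τ : ℝ, 0 < τ ∧ ∀ c, ori U z c = τ * ori U V c := by
  rcases hz with rfl | ⟨k, k0, k1, rfl⟩
  · exact ⟨hx, 1, one_pos, by simp⟩
  obtain ⟨t, t0, t1, rfl⟩ := hx
  have h1 : 0 < k * (1 - t) := mul_pos k0 (by linarith)
  have h2 : ((t + k * (1 - t) : ℝ) : ℂ) ≠ 0 := by exact_mod_cast (add_pos t0 h1).ne'
  refine ⟨⟨t / (t + k * (1 - t)), by positivity, (div_lt_one (add_pos t0 h1)).2 (by linarith), ?_⟩,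
    t + k * (1 - t), add_pos t0 h1, fun c => by simp [ori]; ring⟩
  push_cast at h2 ⊢
  field_simp
  ring

namespace TT

variable {O1 O2 O3 : ℂ}

theorem base {m : ℂ} (h : In O1 O2 O3 m) : ∃ T : TT O1 O2 O3, T.H m := by
  refine ⟨⟨Fin 4, inferInstance, fun a b c => (a, b, c) ∈ [(0, 1, 3), (1, 3, 0), (3, 0, 1),
    (1, 2, 3), (2, 3, 1), (3, 1, 2), (2, 0, 3), (0, 3, 2), (3, 2, 0)],
    0, 1, 2, ![O1, O2, O3, m], ⟨by decide, by decide, ?_, by unfold Out; decide,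
      by unfold Out; decide, fun w wa wc => ?_⟩, rfl, rfl, rfl⟩, (3 : Fin 4),
    ⟨(0 : Fin 4), (1 : Fin 4), .tail _ (.tail _ (.head _))⟩, rfl⟩
  · obtain ⟨h1, h2, h3⟩ := h
    intro a b c f
    simp only [List.mem_cons, Prod.mk.injEq, List.not_mem_nil, or_false] at f
    rcases f with ⟨rfl, rfl, rfl⟩ | ⟨rfl, rfl, rfl⟩ | ⟨rfl, rfl, rfl⟩ | ⟨rfl, rfl, rfl⟩ | ⟨rfl, rfl, rfl⟩ |
      ⟨rfl, rfl, rfl⟩ | ⟨rfl, rfl, rfl⟩ | ⟨rfl, rfl, rfl⟩ | ⟨rfl, rfl, rfl⟩ <;>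
      first | assumption | (rw [ori_cyc]; assumption) | (rw [← ori_cyc]; assumption)
  · have l1 := wc 0 1 3 (by decide)
    have l2 := wc 1 2 3 (by decide)
    have l3 := wc 2 0 3 (by decide)
    have m := wa 3 3
    refine ⟨w 3, fun a b c f => ?_⟩
    simp only [List.mem_cons, Prod.mk.injEq, List.not_mem_nil, or_false] at f
    rcases f with ⟨rfl, rfl, rfl⟩ | ⟨rfl, rfl, rfl⟩ | ⟨rfl, rfl, rfl⟩ | ⟨rfl, rfl, rfl⟩ | ⟨rfl, rfl, rfl⟩ |
      ⟨rfl, rfl, rfl⟩ | ⟨rfl, rfl, rfl⟩ | ⟨rfl, rfl, rfl⟩ | ⟨rfl, rfl, rfl⟩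
    · linear_combination l1 - wa 3 1
    · linear_combination wa 3 1 - m / 2
    · linear_combination m / 2
    · linear_combination l2 - wa 3 2
    · linear_combination wa 3 2 - m / 2
    · linear_combination m / 2
    · linear_combination l3 - wa 3 0
    · linear_combination wa 3 0 - m / 2
    · linear_combination m / 2

open Classical

variable {T : TT O1 O2 O3}

theorem ins_edge {a b c y : ℂ} (h : T.G a b c) (i : In O1 O2 O3 y) (i' : Cl a b c y)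
    (e : ori a b y = 0) : ∃ T' : TT O1 O2 O3, (∀ y', T.H y' → T'.H y') ∧ T'.H y := by
  have s := ori_sum a b c y
  have k := bary a b c y
  have h0 := h.pos
  have h1 : (ori a b c : ℂ) ≠ 0 := by exact_mod_cast h0.ne'
  rw [e] at s k
  rcases i'.2.1.eq_or_lt with e1 | e1
  · obtain rfl : y = b := mul_left_cancel₀ h1 (by
      rw [k, ← e1, show ori a b c = ori c a y by linarith]; simp)
    exact ⟨T, fun _ h => h, h.D.H₂⟩
  rcases i'.2.2.eq_or_lt with e2 | e2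
  · obtain rfl : y = a := mul_left_cancel₀ h1 (by
      rw [k, ← e2, show ori a b c = ori b c y by linarith]; simp)
    exact ⟨T, fun _ h => h, h.D.H₁⟩
  obtain ⟨T', -, -, a1, a2, -⟩ := split (m := y) h.D (h.D.rev (i.not_out e.le))
    ⟨ori c a y / ori a b c, by positivity, (div_lt_one h0).2 (by linarith),
      mul_left_cancel₀ h1 (by
        have s : (ori b c y : ℂ) + ori c a y = ori a b c := by
          exact_mod_cast (by linarith : ori b c y + ori c a y = ori a b c)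
        rw [k]
        push_cast
        field_simp
        linear_combination a * s)⟩
  exact ⟨T', a1, a2⟩

theorem ins_in {a b c y : ℂ} (h : T.G a b c) (i' : In a b c y) (o : ¬Out O1 O2 O3 b c) :
    ∃ T' : TT O1 O2 O3, (∀ y', T.H y' → T'.H y') ∧ T'.H y := by
  have s := ori_sum a b c y
  have k := bary a b c y
  have h0 := h.pos
  have h1 : (ori a b c : ℂ) ≠ 0 := by exact_mod_cast h0.ne'
  obtain ⟨i1, i2, i3⟩ := i'
  have h2 : ((ori c a y + ori a b y : ℝ) : ℂ) ≠ 0 := by exact_mod_cast (add_pos i3 i1).ne'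
  obtain ⟨T1, -, -, a1, -, a2⟩ := split h.cyc.D (h.cyc.D.rev o)
    ⟨ori a b y / (ori c a y + ori a b y), by positivity,
      (div_lt_one (add_pos i3 i1)).2 (by linarith), rfl⟩
  obtain ⟨T2, -, -, b1, b2, -⟩ := split (m := y) (a2 _ h.cyc).1 (a2 _ h.cyc).2
    ⟨(ori c a y + ori a b y) / ori a b c, by positivity, (div_lt_one h0).2 (by linarith),
      mul_left_cancel₀ h1 (by
        have s : (ori a b y : ℂ) + ori b c y + ori c a y = ori a b c := by exact_mod_cast s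
        rw [k]
        push_cast at h2 ⊢
        field_simp
        linear_combination a * s)⟩
  exact ⟨T2, fun y h => b1 _ (a1 _ h), b2⟩

theorem ins {m y : ℂ} (hm : T.H m) (im : In O1 O2 O3 m) (i : In O1 O2 O3 y) :
    ∃ T' : TT O1 O2 O3, (∀ y', T.H y' → T'.H y') ∧ T'.H y := by
  obtain ⟨a, b, c, h, i1, i2, i3⟩ := loc (T := T) i
  rcases i1.eq_or_lt with e1 | e1
  · exact ins_edge h i ⟨i1, i2, i3⟩ e1.symm
  rcases i2.eq_or_lt with e2 | e2
  · exact ins_edge h.cyc i ⟨i2, i3, i1⟩ e2.symm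
  rcases i3.eq_or_lt with e3 | e3
  · exact ins_edge h.cyc.cyc i ⟨i3, i1, i2⟩ e3.symm
  by_cases o1 : Out O1 O2 O3 b c
  swap
  · exact ins_in h ⟨e1, e2, e3⟩ o1
  by_cases o2 : Out O1 O2 O3 c a
  swap
  · exact ins_in h.cyc ⟨e2, e3, e1⟩ o2
  by_cases o3 : Out O1 O2 O3 a b
  swap
  · exact ins_in h.cyc.cyc ⟨e3, e1, e2⟩ o3
  have k : ∀ a b, Out O1 O2 O3 a b → 0 < ori a b m := fun a b o =>
    not_le.1 fun e => im.not_out e o
  rcases h.not_in hm im ⟨(k _ _ o3).le, (k _ _ o1).le, (k _ _ o2).le⟩ with rfl | rfl | rfl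
  · simpa using k _ _ o3
  · simpa using k _ _ o3
  · simpa using k _ _ o1

theorem points {m : ℂ} (im : In O1 O2 O3 m) (S : Finset ℂ) (hS : ∀ y ∈ S, In O1 O2 O3 y) :
    ∃ T : TT O1 O2 O3, T.H m ∧ ∀ y ∈ S, T.H y := by
  induction S using Finset.induction_on with
  | empty => simpa using base im
  | insert y S _ ih =>
    obtain ⟨T, a1, a2⟩ := ih fun y h => hS y (mem_insert_of_mem h)
    obtain ⟨T', b1, b2⟩ := ins a1 im (hS y (mem_insert_self _ _))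
    exact ⟨T', b1 _ a1, (forall_mem_insert _ _ _).2 ⟨b2, fun y h => b1 _ (a2 y h)⟩⟩

theorem phase1 {U V : ℂ} (iU : In O1 O2 O3 U) (iV : In O1 O2 O3 V) (T : TT O1 O2 O3) :
    ∃ T' : TT O1 O2 O3, (∀ y, T.H y → T'.H y) ∧
      (∀ y y', T.D y y' → ¬Cross U V y y' → T'.D y y') ∧
      ∀ y y', T'.D y y' → ¬Cross U V y y' := by
  induction hn : {e : ℂ × ℂ | T.D e.1 e.2 ∧ Cross U V e.1 e.2}.ncard
    using Nat.strong_induction_on generalizing T with
  | _ n ih =>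
  by_cases h : ∀ y y', T.D y y' → ¬Cross U V y y'
  · exact ⟨T, fun _ h => h, fun _ _ h _ => h, h⟩
  push Not at h
  obtain ⟨a, b, d, c⟩ := h
  have o : ¬Out O1 O2 O3 a b := fun o => c.2.not_gt (mul_pos
    (not_le.1 fun e => iU.not_out e o) (not_le.1 fun e => iV.not_out e o))
  have n1 : ori U V a - ori U V b ≠ 0 := fun e =>
    (mul_self_nonneg _).not_gt (sub_eq_zero.1 e ▸ c.1)
  have hm : 0 < ori U V a / (ori U V a - ori U V b) ∧ ori U V a / (ori U V a - ori U V b) < 1 := by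
    rcases mul_neg_iff.1 c.1 with ⟨h1, h2⟩ | ⟨h1, h2⟩
    · exact ⟨div_pos h1 (by linarith), (div_lt_one (by linarith)).2 (by linarith)⟩
    · exact ⟨div_pos_of_neg_of_neg h1 (by linarith),
        (div_lt_one_of_neg (by linarith)).2 (by linarith)⟩
  obtain ⟨T1, a1, a2, a3, -⟩ := split d (d.rev o) ⟨_, hm.1, hm.2, rfl⟩
  have m0 : ori U V (a + (ori U V a / (ori U V a - ori U V b) : ℝ) * (b - a)) = 0 := by
    rw [ori_aff]; field_simp; ring
  have k : ∀ y y', T1.D y y' → Cross U V y y' → T.D y y' ∧ ¬(y = a ∧ y' = b) := fun y y' d' c' => by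
    rcases a1 _ _ d' with e | rfl | rfl
    · exact e
    · simpa [-Complex.ofReal_div, m0] using c'.1
    · simpa [-Complex.ofReal_div, m0] using c'.1
  obtain ⟨T2, b1, b2, b3⟩ := ih _ (hn ▸ Set.ncard_lt_ncard
    (t := {e : ℂ × ℂ | T.D e.1 e.2 ∧ Cross U V e.1 e.2})
    ⟨fun e he => ⟨(k _ _ he.1 he.2).1, he.2⟩,
      fun hs => (k a b (hs (a := (a, b)) ⟨d, c⟩).1 c).2 ⟨rfl, rfl⟩⟩
    (T.finD.subset fun e he => he.1)) T1 rfl
  refine ⟨T2, fun y h => b1 _ (a3 _ h), fun y y' d' c' => b2 _ _ (a2 _ _ d' ?_) c', b3⟩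
  rintro (⟨rfl, rfl⟩ | ⟨rfl, rfl⟩)
  exacts [c' c, c' c.symm]

theorem step {U V x : ℂ} (iV : In O1 O2 O3 V) (hV : T.H V) (n : U ≠ V) (ix : In O1 O2 O3 x)
    (hx : T.H x) (o : x = U ∨ On U V x) (nc : ∀ y y', T.D y y' → ¬Cross U V y y') :
    ∃ a, T.D x a ∧ (a = V ∨ On x V a) := by
  have n' : V ≠ x := by
    rcases o with rfl | o
    exacts [n.symm, (o.symm.ne n.symm).symm]
  obtain ⟨a, b, f, h1, h2⟩ := hx.cover ix n'
  refine ⟨a, f.D, ?_⟩
  by_cases h3 : 0 ≤ ori a b V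
  · rcases f.not_in hV iV ⟨h1, h3, h2.le⟩ with e | e | e
    exacts [(n' e).elim, Or.inl e.symm, by simp [e] at h2]
  rw [not_le] at h3
  have h0 := f.pos
  rcases h1.eq_or_lt with h1 | h1
  · have s := ori_sum x V b a
    have k := bary x V b a
    have e1 : ori x V a = 0 := by rw [ori_swap', ← h1, neg_zero]
    have e2 : ori x V b = ori b x V := by rw [← ori_cyc, ← ori_cyc]
    have e3 : ori V b a = -ori a b V := by rw [ori_swap, ori_cyc, ori_cyc, ← ori_swap', ori_swap]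
    have e4 : ori b x a = ori x a b := by rw [← ori_cyc]
    have h4 : (ori x V b : ℂ) ≠ 0 := by rw [e2]; exact_mod_cast h2.ne'
    refine Or.inr ⟨ori b x a / ori x V b, by rw [e2, e4]; positivity,
      (div_lt_one (e2 ▸ h2)).2 (by linarith), mul_left_cancel₀ h4 ?_⟩
    have s : (ori x V a : ℂ) + ori V b a + ori b x a = ori x V b := by exact_mod_cast s
    rw [k]
    rw [e1] at s ⊢
    push_cast at s ⊢
    field_simp
    linear_combination x * s
  refine (nc a b f.cyc.D ⟨?_, ?_⟩).elim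
  · obtain ⟨s, s0, hs⟩ : ∃ s : ℝ, 0 < s ∧ ∀ c, ori x V c = s * ori U V c := by
      rcases o with rfl | o
      · exact ⟨1, one_pos, by simp⟩
      · obtain ⟨s, -, s0, -, hs, -⟩ := o.scal
        exact ⟨s, s0, hs⟩
    rw [ori_swap', hs] at h1
    rw [← ori_cyc, hs] at h2
    exact mul_neg_of_neg_of_pos (by nlinarith) (by nlinarith)
  · refine mul_neg_of_pos_of_neg ?_ h3
    rw [← ori_cyc] at h0
    rcases o with rfl | ⟨t, t0, t1, rfl⟩
    · exact h0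
    · rw [ori_aff] at h0
      nlinarith

theorem phase2 {U V : ℂ} (iU : In O1 O2 O3 U) (iV : In O1 O2 O3 V) (n : U ≠ V) (T : TT O1 O2 O3)
    (hU : T.H U) (hV : T.H V) (nc : ∀ y y', T.D y y' → ¬Cross U V y y') :
    ∃ T' : TT O1 O2 O3, (∀ y, T.H y → ¬On U V y → T'.H y) ∧
      (∀ y y', T.D y y' → ¬On U V y → ¬On U V y' → T'.D y y') ∧ T'.D U V := by
  induction hn : {y : ℂ | T.H y ∧ On U V y}.ncard
    using Nat.strong_induction_on generalizing T with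
  | _ n' ih =>
  obtain ⟨x, d, rfl | o⟩ := step iV hV n iU hU (Or.inl rfl) nc
  · exact ⟨T, fun _ h _ => h, fun _ _ h _ _ => h, d⟩
  have ix := iU.on iV o
  obtain ⟨z, d', o'⟩ := step iV hV n ix d.H₂ (Or.inr o) nc
  obtain ⟨o1, τ, τ0, hτ⟩ := o.trans o'
  obtain ⟨T1, a1, a2, a3, a4⟩ := vsplit (d.rev (iU.not_out (by simp))) d' ix o1
  have k : ∀ y, T1.H y → On U V y → T.H y ∧ y ≠ x := fun y h o =>
    a3 y h (by rw [hτ, o.ori_eq, mul_zero])
  obtain ⟨T2, b1, b2, b3⟩ := ih _ (hn ▸ Set.ncard_lt_ncard (t := {y : ℂ | T.H y ∧ On U V y})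
    ⟨fun e he => ⟨(k _ he.1 he.2).1, he.2⟩, fun hs => (k x (hs (a := x) ⟨d.H₂, o⟩).1 o).2 rfl⟩
    (T.finH.subset fun e he => he.1)) T1 (a2 _ hU (o.ne n).symm) (a2 _ hV (o.symm.ne n.symm).symm)
    (fun y y' d c => (a4 _ _ d).elim (fun d => nc _ _ d c) fun e => by
      rw [hτ, hτ] at e
      nlinarith [c.1, mul_pos τ0 τ0]) rfl
  have ne : ∀ y, ¬On U V y → y ≠ x := fun y h e => h (e ▸ o)
  exact ⟨T2, fun y h h' => b1 _ (a2 _ h (ne _ h')) h',
    fun y y' h h1 h2 => b2 _ _ (a1 _ _ h (ne _ h1) (ne _ h2)) h1 h2, b3⟩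

end TT

open Classical in
theorem koebe_draw {V : Type} [Fintype V] (G : SimpleGraph V) (P : V → ℂ)
    (hP : Function.Injective P) (h1 : ∀ u v w, G.Adj u v → ¬On (P u) (P v) (P w))
    (h2 : ∀ u v a b, G.Adj u v → G.Adj a b → ¬Cross (P u) (P v) (P a) (P b)) :
    ∃ (q : V → ℂ) (r : V → ℝ), (∀ v, 0 < r v) ∧ ∀ u v, u ≠ v →
      (G.Adj u v → ‖q v - q u‖ = r u + r v) ∧ (¬G.Adj u v → r u + r v < ‖q v - q u‖) := by
  obtain ⟨M, M0, hM⟩ : ∃ M : ℝ, 0 < M ∧ ∀ v, ‖P v‖ < M :=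
    ⟨∑ v, ‖P v‖ + 1, by positivity, fun v => (single_le_sum (f := fun v => ‖P v‖)
      (fun _ _ => norm_nonneg _) (mem_univ v)).trans_lt (lt_add_one _)⟩
  have i : ∀ y : ℂ, ‖y‖ < M → In ⟨-4 * M, -M⟩ ⟨4 * M, -M⟩ ⟨0, 4 * M⟩ y := fun y hy => by
    have a1 := abs_lt.1 ((Complex.abs_re_le_norm y).trans_lt hy)
    have a2 := abs_lt.1 ((Complex.abs_im_le_norm y).trans_lt hy)
    refine ⟨?_, ?_, ?_⟩ <;> simp only [ori] <;> nlinarith
  have iP := fun v => i _ (hM v)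
  have key : ∀ E : Finset (V × V), ∃ T : TT ⟨-4 * M, -M⟩ ⟨4 * M, -M⟩ ⟨0, 4 * M⟩,
      (∀ v, T.H (P v)) ∧ ∀ e ∈ E, G.Adj e.1 e.2 → T.D (P e.1) (P e.2) := fun E => by
    induction E using Finset.induction_on with
    | empty =>
      obtain ⟨T, -, h⟩ := TT.points (i 0 (by simpa using M0)) (univ.image P) (by simpa using iP)
      exact ⟨T, by simpa using h, by simp⟩
    | insert e E _ ih =>
      obtain ⟨T, a1, a2⟩ := ih
      by_cases he : G.Adj e.1 e.2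
      swap
      · exact ⟨T, a1, (forall_mem_insert _ _ _).2 ⟨fun h => (he h).elim, a2⟩⟩
      obtain ⟨T1, b1, b2, b3⟩ := TT.phase1 (iP e.1) (iP e.2) T
      obtain ⟨T2, c1, c2, c3⟩ := TT.phase2 (iP e.1) (iP e.2) (hP.ne he.ne) T1 (b1 _ (a1 _))
        (b1 _ (a1 _)) b3
      exact ⟨T2, fun v => c1 _ (b1 _ (a1 v)) (h1 _ _ _ he), (forall_mem_insert _ _ _).2 ⟨fun _ => c3,
        fun e' h h' => c2 _ _ (b2 _ _ (a2 e' h h') (h2 _ _ _ _ he h')) (h1 _ _ _ he)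
          (h1 _ _ _ he)⟩⟩
  obtain ⟨T, a1, a2⟩ := key univ
  choose ι f e using a1
  have := T.fin
  cases nonempty_fintype T.W
  refine koebe_of_tri G _ T.W T.F T.o1 T.o2 T.o3 T.p ι T.tri
    (fun u v h => hP (by rw [← e, h, e])) (fun v => TT.inner (e v ▸ iP v)) f (fun u v h => ?_)
    le_rfl
  obtain ⟨a, b, ⟨c, f'⟩, e1, e2⟩ := a2 (u, v) (mem_univ _) h
  obtain rfl := TT.inj ⟨_, _, f'⟩ (f u) (e1.trans (e u).symm)
  obtain rfl := TT.inj ⟨_, _, T.tri.cyc _ _ _ f'⟩ (f v) (e2.trans (e v).symm)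
  exact ⟨c, f'⟩

end Pool.Agent.P.MP_27dab6_co
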