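import Pool.Agent.P.MP_27dab6_co.KTri

/-!
Radii from a convex functional, and the layout of the disks.
-/

set_option autoImplicit false

namespace Pool.Agent.P.MP_27dab6_co

open Finset Classical Filter Topology Real

/-- the angle of a kite -/
noncomputable def ang (x : ℝ) : ℝ := 2 * arctan (exp x)

theorem ang_cont : Continuous ang := by unfold ang; fun_prop

theorem ang_mono : Monotone ang := fun _ _ h =>
  mul_le_mul_of_nonneg_left (arctan_mono (exp_le_exp.2 h)) two_pos.le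

theorem ang_surj {φ : ℝ} (h0 : 0 < φ) (h1 : φ < π) : ∃ x, ang x = φ :=
  ⟨log (tan (φ / 2)), by
    rw [ang, exp_log (tan_pos_of_pos_of_lt_pi_div_two (by linarith) (by linarith)),
      arctan_tan (by linarith) (by linarith)]
    ring⟩

/-- a primitive of the angle -/
noncomputable def pot (x : ℝ) : ℝ := ∫ u in (0 : ℝ)..x, ang u

theorem pot_deriv (x : ℝ) : HasDerivAt pot (ang x) x := 
  (ang_cont.integral_hasStrictDerivAt 0 x).hasDerivAt

theorem pot_tan (x y : ℝ) : pot y + ang y * (x - y) ≤ pot x := by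
  have h : pot x - pot y = ∫ u in y..x, ang u :=
    intervalIntegral.integral_interval_sub_left (ang_cont.intervalIntegrable _ _)
      (ang_cont.intervalIntegrable _ _)
  rcases le_total y x with e | e
  · have := intervalIntegral.integral_mono_on e (f := fun _ => ang y) (g := ang) (μ := MeasureTheory.volume)
      (by simp) (ang_cont.intervalIntegrable _ _) fun u hu => ang_mono hu.1
    simp at this
    linarith
  · have := intervalIntegral.integral_mono_on e (g := fun _ => ang y) (f := ang) (μ := MeasureTheory.volume)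
      (ang_cont.intervalIntegrable _ _) (by simp) fun u hu => ang_mono hu.2
    rw [intervalIntegral.integral_symm] at h
    simp at this
    linarith

theorem pot_coe {φ : ℝ} (h0 : 0 < φ) (h1 : φ < π) :
    ∃ ε M : ℝ, 0 < ε ∧ ∀ x, ε * |x| - M ≤ pot x - φ * x := by
  obtain ⟨a, ha⟩ := ang_surj (φ := φ / 2) (by linarith) (by linarith)
  obtain ⟨b, hb⟩ := ang_surj (φ := (φ + π) / 2) (by linarith) (by linarith)
  refine ⟨min (φ / 2) ((π - φ) / 2), max (ang a * a - pot a) (ang b * b - pot b),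
    lt_min (by linarith) (by linarith), fun x => ?_⟩
  have m1 := min_le_left (φ / 2) ((π - φ) / 2)
  have m2 := min_le_right (φ / 2) ((π - φ) / 2)
  have m3 := le_max_left (ang a * a - pot a) (ang b * b - pot b)
  have m4 := le_max_right (ang a * a - pot a) (ang b * b - pot b)
  have t1 := pot_tan x a
  have t2 := pot_tan x b
  rw [ha] at *
  rw [hb] at *
  rcases le_total 0 x with e | e
  · rw [abs_of_nonneg e]; nlinarith
  · rw [abs_of_nonpos e]; nlinarith

theorem exists_crit {C : Type} [Fintype C] (X : Submodule ℝ (C → ℝ)) (φ : C → ℝ)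
    (h : ∀ c, 0 < φ c ∧ φ c < π) : ∃ x ∈ X, ∀ y ∈ X, ∑ c, (ang (x c) - φ c) * y c = 0 := by
  choose ε M hε hM using fun c => pot_coe (h c).1 (h c).2
  let S : (C → ℝ) → ℝ := fun x => ∑ c, (pot (x c) - φ c * x c)
  have pc : Continuous pot := continuous_iff_continuousAt.2 fun x => (pot_deriv x).continuousAt
  have Sc : Continuous S := by unfold S; fun_prop
  have lb : ∀ x c, ε c * |x c| - ∑ c, M c ≤ S x := fun x c => by
    refine le_trans ?_ (sum_le_sum fun c _ => hM c (x c))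
    rw [sum_sub_distrib]
    exact sub_le_sub_right (single_le_sum (f := fun c => ε c * |x c|)
      (fun c _ => mul_nonneg (hε c).le (abs_nonneg _)) (mem_univ c)) _
  have cp : IsCompact ((X : Set (C → ℝ)) ∩ {x | S x ≤ S 0}) := by
    refine (isCompact_univ_pi fun c =>
      isCompact_closedBall (0 : ℝ) ((S 0 + ∑ c, M c) / ε c)).of_isClosed_subset
      (X.closed_of_finiteDimensional.inter (isClosed_le Sc continuous_const)) fun x hx c _ => ?_
    rw [mem_closedBall_zero_iff, norm_eq_abs, le_div_iff₀ (hε c)]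
    have h1 : S x ≤ S 0 := hx.2
    linarith [lb x c]
  obtain ⟨x, hx, hm⟩ := cp.exists_isMinOn ⟨0, X.zero_mem, le_refl (S 0)⟩ Sc.continuousOn
  refine ⟨x, hx.1, fun y hy => ?_⟩
  have hd : HasDerivAt (fun t : ℝ => S (x + t • y)) (∑ c, (ang (x c) - φ c) * y c) 0 := by
    refine HasDerivAt.fun_sum fun c _ => ?_
    have h1 : HasDerivAt (fun t : ℝ => x c + t * y c) (y c) 0 := by
      simpa using ((hasDerivAt_id (0 : ℝ)).mul_const (y c)).const_add (x c)
    have h2 := ((pot_deriv _).comp (0 : ℝ) h1).sub (h1.const_mul (φ c))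
    simp only [zero_mul, add_zero] at h2
    exact h2.congr_deriv (by ring)
  refine IsLocalMin.hasDerivAt_eq_zero (Eventually.of_forall fun t => ?_) hd
  simp only [zero_smul, add_zero]
  by_cases e : S (x + t • y) ≤ S 0
  · exact hm ⟨X.add_mem hx.1 (X.smul_mem t hy), e⟩
  · exact hx.2.trans (not_le.1 e).le

theorem exp_ang (x : ℝ) : Complex.exp (ang x * Complex.I) * (1 - exp x * Complex.I) =
    1 + exp x * Complex.I := by
  have c0 : (cos (arctan (exp x)) : ℂ) ≠ 0 := by exact_mod_cast (cos_arctan_pos _).ne'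
  have s : sin (arctan (exp x)) = exp x * cos (arctan (exp x)) := by
    have := tan_mul_cos (cos_arctan_pos (exp x)).ne'
    rw [tan_arctan] at this
    exact this.symm
  have q := sin_sq_add_cos_sq (arctan (exp x))
  have e : Complex.exp (ang x * Complex.I) =
      (cos (arctan (exp x)) + sin (arctan (exp x)) * Complex.I) ^ 2 := by
    rw [Complex.ofReal_cos, Complex.ofReal_sin, ← Complex.exp_mul_I, ← Complex.exp_nat_mul, ang]
    push_cast
    ring_nf
  rw [s] at q e
  have q : ((exp x : ℂ) * cos (arctan (exp x))) ^ 2 + (cos (arctan (exp x)) : ℂ) ^ 2 = 1 := by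
    exact_mod_cast q
  rw [e, Complex.ofReal_mul]
  linear_combination (1 + exp x * Complex.I) * q -
    (cos (arctan (exp x)) : ℂ) ^ 2 * (exp x) ^ 2 * (1 + exp x * Complex.I) * Complex.I_mul_I

theorem ori_eq (a b c : ℂ) : ori a b c = ((c - a) * (starRingEnd ℂ) (b - a)).im := by
  simp [ori]; ring

variable {W : Type} [Fintype W] {F : W → W → W → Prop} {o1 o2 o3 : W} {p : W → ℂ}

theorem Tri.exists_rot (h : Tri F o1 o2 o3 p) (δ : Dt F → ℝ)
    (hδ : ∀ (ρ : W → ℝ) (s : Dt F → ℝ), (∀ d, s (h.nx d) = s d) →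
      ∑ d, δ d * (s d - ρ d.1.1) = 0) :
    ∃ ψ : Sym2 W → ℝ, ∀ d : Dt F, ψ s(d.1.1, d.th) - ψ s(d.1.1, d.1.2) = δ d := by
  let L : (Sym2 W → ℝ) →ₗ[ℝ] (Dt F → ℝ) :=
    { toFun := fun ψ d => ψ s(d.1.1, d.th) - ψ s(d.1.1, d.1.2)
      map_add' := fun a b => by funext d; simp; ring
      map_smul' := fun c a => by funext d; simp; ring }
  by_contra hn
  obtain ⟨f, f0, hf⟩ := (LinearMap.range L).exists_le_ker_of_notMem (v := δ) fun ⟨ψ, e⟩ =>
    hn ⟨ψ, congrFun e⟩
  let y : Dt F → ℝ := fun d => f fun j => if d = j then 1 else 0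
  have fy : ∀ v, f v = ∑ d, v d * y d := fun v => LinearMap.pi_apply_eq_sum_univ f v
  let g : W → W → ℝ := fun a b =>
    if e : ∃ c, F a b c then y (h.nx ⟨(a, b), e⟩) - y ⟨(a, b), e⟩ else 0
  have gs : ∀ a b, g a b = ∑ d : Dt F, if d.1 = (a, b) then y (h.nx d) - y d else 0 :=
    fun a b => by
      by_cases e : ∃ c, F a b c
      · rw [sum_eq_single (⟨(a, b), e⟩ : Dt F) (fun d _ hd => if_neg fun e' => hd (Subtype.ext e'))
          (by simp), if_pos rfl]
        exact dif_pos e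
      · rw [sum_eq_zero fun d _ => if_neg fun e' => e (by simpa [e'] using d.2)]
        exact dif_neg e
  have g0 : ∀ a b, a ≠ b → g a b + g b a = 0 := fun a b hab => by
    have := (fy _).symm.trans (hf ⟨Pi.single s(a, b) 1, rfl⟩)
    simp only [L, LinearMap.coe_mk, AddHom.coe_mk, sub_mul, sum_sub_distrib] at this
    rw [← h.sum_nx, ← sum_sub_distrib] at this
    rw [gs, gs, ← sum_add_distrib]
    refine Eq.trans (sum_congr rfl fun d _ => ?_) this
    rw [h.nx_th]
    obtain ⟨⟨u, v⟩, e⟩ := d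
    simp only [Tri.nx, Pi.single_apply, Sym2.eq_iff, Prod.mk.injEq]
    by_cases e1 : u = a ∧ v = b
    · obtain ⟨rfl, rfl⟩ := e1; simp [hab, hab.symm]
    by_cases e2 : u = b ∧ v = a
    · obtain ⟨rfl, rfl⟩ := e2; simp [hab, hab.symm]
    rw [if_neg e1, if_neg e2, if_neg (by tauto), if_neg (by tauto)]
    simp
  have gd : ∀ d : Dt F, (g d.1.1 d.1.2 - g d.1.2 d.1.1) / 2 = y (h.nx d) - y d := fun d => by
    have e : g d.1.1 d.1.2 = y (h.nx d) - y d := dif_pos d.2
    linarith [g0 _ _ (h.ne' d.face)]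
  obtain ⟨q, hq⟩ := h.ex (fun a b => ((g a b - g b a) / 2 : ℝ)) (fun a b => by push_cast; ring)
    fun a b c e => by
      have e1 := gd ⟨(a, b), c, e⟩
      have e2 := gd (h.nx ⟨(a, b), c, e⟩)
      have e3 := gd (h.nx (h.nx ⟨(a, b), c, e⟩))
      rw [h.nx3] at e3
      have t : Dt.th (⟨(a, b), c, e⟩ : Dt F) = c := h.th_eq e
      have t' := h.nx_th ⟨(a, b), c, e⟩
      change (g b (Dt.th _) - g (Dt.th _) b) / 2 = _ at e2
      change (g (Dt.th _) (Dt.th _) - g (Dt.th _) (Dt.th _)) / 2 = _ at e3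
      rw [t'] at e3
      rw [t] at e2 e3
      exact_mod_cast (show (g a b - g b a) / 2 + (g b c - g c b) / 2 + (g c a - g a c) / 2 = 0 by
        linarith)
  refine f0 ((fy δ).trans ?_)
  have := hδ (fun a => -(q a).re) (fun d => y d - (q d.1.1).re) fun d => by
    have := congrArg Complex.re (hq _ _ _ d.face)
    rw [Complex.ofReal_re, gd, Complex.sub_re] at this
    change _ - (q d.1.2).re = _
    linarith
  simpa using this

theorem Tri.layout (h : Tri F o1 o2 o3 p) : ∃ (q : W → ℂ) (r : W → ℝ), (∀ v, 0 < r v) ∧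
    Tri F o1 o2 o3 q ∧ ∀ a b c, F a b c → ‖q b - q a‖ = r a + r b := by
  let φ : Dt F → ℝ := fun d => Complex.arg ((p d.th - p d.1.1) / (p d.1.2 - p d.1.1))
  have n1 : ∀ d : Dt F, p d.1.2 - p d.1.1 ≠ 0 := fun d => sub_ne_zero.2 (h.ne d.face).symm
  have n2 : ∀ d : Dt F, p d.th - p d.1.1 ≠ 0 := fun d =>
    sub_ne_zero.2 (h.ne (h.cyc _ _ _ (h.cyc _ _ _ d.face)))
  have hφ : ∀ d, 0 < φ d ∧ φ d < π := fun d => by
    have : 0 < ((p d.th - p d.1.1) / (p d.1.2 - p d.1.1)).im := by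
      rw [div_eq_mul_inv, Complex.inv_def, ← mul_assoc, Complex.im_mul_ofReal, ← ori_eq]
      exact mul_pos (h.pos _ _ _ d.face) (inv_pos.2 (Complex.normSq_pos.2 (n1 d)))
    exact ⟨lt_of_le_of_ne (Complex.arg_nonneg_iff.2 this.le)
      fun e => this.ne' (Complex.arg_eq_zero_iff.1 e.symm).2,
      Complex.arg_lt_pi_iff.2 (Or.inr this.ne')⟩
  let X : Submodule ℝ (Dt F → ℝ) :=
    { carrier := {x | ∃ (ρ : W → ℝ) (s : Dt F → ℝ), (∀ d, s (h.nx d) = s d) ∧
        ∀ d, x d = s d - ρ d.1.1}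
      add_mem' := by
        rintro a b ⟨ρ, s, a1, a2⟩ ⟨ρ', s', b1, b2⟩
        exact ⟨ρ + ρ', s + s', fun d => by simp [a1, b1], fun d => by simp [a2, b2]; ring⟩
      zero_mem' := ⟨0, 0, fun _ => rfl, fun _ => by simp⟩
      smul_mem' := by
        rintro c a ⟨ρ, s, a1, a2⟩
        exact ⟨c • ρ, c • s, fun d => by simp [a1], fun d => by simp [a2]; ring⟩ }
  obtain ⟨x, ⟨ρ, s, s1, s2⟩, hx⟩ := exists_crit X φ hφ
  obtain ⟨ψ, hψ⟩ := h.exists_rot (fun d => ang (x d) - φ d) fun ρ s hs =>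
    hx _ ⟨ρ, s, hs, fun _ => rfl⟩
  let U : W → W → ℂ := fun a b =>
    Complex.exp (ψ s(a, b) * Complex.I) * ((p b - p a) / (‖p b - p a‖ : ℝ))
  have Ua : ∀ a b, U b a = -U a b := fun a b => by
    simp only [U, Sym2.eq_swap (a := b), norm_sub_rev (p a)]
    ring
  have Un : ∀ d : Dt F, ‖U d.1.1 d.1.2‖ = 1 := fun d => by
    simp [U, Complex.norm_exp_ofReal_mul_I, n1 d]
  have Uc : ∀ d : Dt F, U d.1.1 d.th = U d.1.1 d.1.2 * Complex.exp (ang (x d) * Complex.I) :=
    fun d => by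
      have e1 := Complex.norm_mul_exp_arg_mul_I ((p d.th - p d.1.1) / (p d.1.2 - p d.1.1))
      have e2 : (ψ s(d.1.1, d.th) : ℂ) * Complex.I + φ d * Complex.I =
          ψ s(d.1.1, d.1.2) * Complex.I + ang (x d) * Complex.I := by
        have : ψ s(d.1.1, d.th) + φ d = ψ s(d.1.1, d.1.2) + ang (x d) := by linarith [hψ d]
        rw [← add_mul, ← add_mul]
        exact_mod_cast congrArg (fun t : ℝ => (t : ℂ) * Complex.I) this
      have e2 := congrArg Complex.exp e2
      rw [Complex.exp_add, Complex.exp_add] at e2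
      have m1 : ((‖p d.1.2 - p d.1.1‖ : ℝ) : ℂ) ≠ 0 := by simpa using n1 d
      have m2 : ((‖p d.th - p d.1.1‖ : ℝ) : ℂ) ≠ 0 := by simpa using n2 d
      have m3 := n1 d
      rw [norm_div, Complex.ofReal_div] at e1
      simp only [U]
      change _ * Complex.exp (φ d * Complex.I) = _ at e1
      generalize Complex.exp (ψ s(d.1.1, d.th) * Complex.I) = A1 at *
      generalize Complex.exp (φ d * Complex.I) = A2 at *
      generalize Complex.exp (ψ s(d.1.1, d.1.2) * Complex.I) = A3 at *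
      generalize Complex.exp (ang (x d) * Complex.I) = A4 at *
      field_simp at e1 ⊢
      linear_combination (-A1) * e1 + (‖p d.th - p d.1.1‖ : ℝ) * (p d.1.2 - p d.1.1) * e2
  have Uk : ∀ d : Dt F, U d.1.1 d.th * (exp (ρ d.1.1) - exp (s d) * Complex.I) =
      U d.1.1 d.1.2 * (exp (ρ d.1.1) + exp (s d) * Complex.I) := fun d => by
    have e : (exp (s d) : ℂ) = exp (ρ d.1.1) * exp (x d) := by
      rw [s2, ← Complex.ofReal_mul, ← exp_add]; simp
    rw [Uc, e]
    linear_combination U d.1.1 d.1.2 * exp (ρ d.1.1) * exp_ang (x d)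
  obtain ⟨q, hq⟩ := h.ex (fun a b => (exp (ρ a) + exp (ρ b) : ℝ) * U a b)
    (fun a b => by rw [Ua, add_comm]; ring) fun a b c e => by
      have e1 := Uk ⟨(a, b), c, e⟩
      have e2 := Uk (h.nx ⟨(a, b), c, e⟩)
      have e3 := Uk (h.nx (h.nx ⟨(a, b), c, e⟩))
      have t : Dt.th (⟨(a, b), c, e⟩ : Dt F) = c := h.th_eq e
      have t' := h.nx_th ⟨(a, b), c, e⟩
      rw [h.nx_th, s1] at e2
      rw [h.nx_th, s1, s1] at e3
      change U b a * (exp (ρ b) - _) = U b (Dt.th _) * (exp (ρ b) + _) at e2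
      change U (Dt.th _) b * (exp (ρ (Dt.th _)) - _) =
        U (Dt.th _) (Dt.th _) * (exp (ρ (Dt.th _)) + _) at e3
      rw [t'] at e3
      rw [t] at e1 e2 e3
      simp only at e1 e3
      rw [Ua a b] at e2
      rw [Ua b c] at e3
      rw [Ua c a] at e1
      push_cast at e1 e2 e3 ⊢
      linear_combination -e1 - e2 - e3
  refine ⟨q, fun a => exp (ρ a), fun a => exp_pos _, ⟨h.cyc, h.uniq, fun a b c e => ?_, h.rev,
    h.out, h.ex⟩, fun a b c e => ?_⟩
  · have e1 := Uc ⟨(a, b), c, e⟩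
    have e2 := Un ⟨(a, b), c, e⟩
    rw [h.th_eq (d := ⟨(a, b), c, e⟩) e] at e1
    simp only at e1 e2
    have e3 : U a b * (starRingEnd ℂ) (U a b) = 1 := by
      rw [Complex.mul_conj, Complex.normSq_eq_norm_sq, e2]; simp
    rw [ori_eq, ← hq _ _ _ e, ← neg_sub, ← hq _ _ _ (h.cyc _ _ _ (h.cyc _ _ _ e)), Ua a c, e1,
      show -(((exp (ρ c) + exp (ρ a) : ℝ) : ℂ) *
          -(U a b * Complex.exp (ang (x ⟨(a, b), c, e⟩) * Complex.I))) *
        (starRingEnd ℂ) (((exp (ρ a) + exp (ρ b) : ℝ) : ℂ) * U a b) =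
        (((exp (ρ c) + exp (ρ a)) * (exp (ρ a) + exp (ρ b)) : ℝ) : ℂ) *
          Complex.exp (ang (x ⟨(a, b), c, e⟩) * Complex.I) by
        rw [map_mul, Complex.conj_ofReal, Complex.ofReal_mul]
        linear_combination ((exp (ρ c) + exp (ρ a) : ℝ) : ℂ) * ((exp (ρ a) + exp (ρ b) : ℝ) : ℂ) *
          Complex.exp (ang (x ⟨(a, b), c, e⟩) * Complex.I) * e3,
      Complex.im_ofReal_mul, Complex.exp_ofReal_mul_I_im]
    refine mul_pos (by positivity) (sin_pos_of_pos_of_lt_pi ?_ ?_)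
    · exact mul_pos two_pos (arctan_pos.2 (exp_pos _))
    · have := arctan_lt_pi_div_two (exp (x ⟨(a, b), c, e⟩))
      unfold ang
      linarith
  · rw [← hq _ _ _ e, norm_mul, Un ⟨(a, b), c, e⟩, mul_one, Complex.norm_real,
      norm_of_nonneg (by positivity)]

end Pool.Agent.P.MP_27dab6_co
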