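import Pool.Agent.P.MP_27dab6_co.KVsp

/-!
Triangulations of a fixed triangle and the two operations on them.
-/

set_option autoImplicit false

namespace Pool.Agent.P.MP_27dab6_co

open Finset Classical Filter Topology

theorem On.ori_eq {a b y : ℂ} (h : On a b y) : ori a b y = 0 := by
  obtain ⟨t, -, -, rfl⟩ := h
  simp [ori_aff]

theorem On.scal {a b y : ℂ} (h : On a b y) : ∃ s t : ℝ, 0 < s ∧ 0 < t ∧
    (∀ c, ori y b c = s * ori a b c) ∧ ∀ c, ori y a c = -(t * ori a b c) := by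
  obtain ⟨t, t0, t1, rfl⟩ := h
  exact ⟨1 - t, t, by linarith, t0, fun c => by simp [ori]; ring, fun c => by simp [ori]; ring⟩

theorem col3 {a b x c d : ℂ} (h : a ≠ b) (hx : ori a b x = 0) (hc : ori a b c = 0)
    (hd : ori a b d = 0) : ori x c d = 0 := by
  have := Complex.normSq_pos.2 (sub_ne_zero.2 h)
  refine mul_left_cancel₀ this.ne' ?_
  simp only [ori, Complex.normSq_apply, Complex.sub_re, Complex.sub_im] at *
  linear_combination
    ((b.re - a.re) * (d.re - c.re) + (b.im - a.im) * (d.im - c.im)) * hx +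
    ((b.re - a.re) * (x.re - d.re) + (b.im - a.im) * (x.im - d.im)) * hc +
    ((b.re - a.re) * (c.re - x.re) + (b.im - a.im) * (c.im - x.im)) * hd

section

variable {W : Type} [Fintype W] {F : W → W → W → Prop} {o1 o2 o3 x u z : W} {p : W → ℂ}
  (h : Tri F o1 o2 o3 p) (xo : x ≠ o1 ∧ x ≠ o2 ∧ x ≠ o3) (du : ∃ e, F x u e) (dz : ∃ e, F x z e)
  (hx : On (p u) (p z) (p x))

include h xo du dz hx

omit xo in
theorem Tri.strad {a b : W} (f : F x a b) :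
    (0 < ori (p u) (p z) (p b) → 0 < ori (p u) (p z) (p a) ∨ a = z) ∧
      (ori (p u) (p z) (p b) < 0 → ori (p u) (p z) (p a) < 0 ∨ a = u) := by
  obtain ⟨s, t, s0, t0, hs, ht⟩ := hx.scal
  obtain ⟨e, f1⟩ := du
  obtain ⟨e', f2⟩ := dz
  refine ⟨fun h1 => or_iff_not_imp_left.2 fun h2 => (h.cone f f2 ?_ ?_).symm,
    fun h1 => or_iff_not_imp_left.2 fun h2 => (h.cone f f1 ?_ ?_).symm⟩
  · rw [ori_swap', hs]; nlinarith
  · rw [hs]; positivity
  · rw [ori_swap', ht]; nlinarith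
  · rw [ht]; nlinarith

theorem Tri.vs : Vs F o1 o2 o3 x u z fun a b =>
    ori (p u) (p z) (p a) + ori (p u) (p z) (p b) < 0 := by
  obtain ⟨s, t, s0, t0, hs, ht⟩ := hx.scal
  have n : p u ≠ p z := fun e => by
    have := h.pos _ _ _ dz.choose_spec
    rw [hs, e] at this
    simp at this
  have st := @Tri.strad _ _ _ _ _ _ _ _ _ _ h du dz hx
  refine ⟨xo, du, dz, fun e => n (by rw [e]), ?_, ?_, fun a b c f f' n1 n2 => ?_, fun a f => ?_,
    fun a f => ?_, fun a f => ?_, fun a f => ?_⟩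
  · rintro ⟨e, f⟩
    obtain ⟨e', f'⟩ := h.rev₁ xo du.choose_spec
    refine h.ne' dz.choose_spec (h.cone f f' hx.ori_eq.ge ?_)
    rw [ori_swap, ht, neg_neg]
    exact mul_pos t0 (h.pos _ _ _ f)
  · rintro ⟨e, f⟩
    obtain ⟨e', f'⟩ := h.rev₁ xo dz.choose_spec
    refine h.ne' du.choose_spec (h.cone f f' hx.symm.ori_eq.ge ?_)
    rw [ori_swap, hs, ori_swap (p z), mul_neg, neg_neg]
    exact mul_pos s0 (h.pos _ _ _ f)
  · obtain ⟨a1, a2⟩ := st f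
    obtain ⟨b1, b2⟩ := st f'
    simp only [n1, n2, or_false] at b1 b2
    rcases lt_trichotomy (ori (p u) (p z) (p b)) 0 with e | e | e
    · have c1 : ori (p u) (p z) (p a) ≤ 0 := by
        rcases a2 e with e' | rfl
        exacts [e'.le, by simp]
      have c2 := not_lt.1 fun e' => e.not_gt (b1 e')
      exact iff_of_true (by linarith) (by linarith)
    · have c1 := not_lt.1 fun e' => e.not_gt (b1 e')
      have c2 := not_lt.1 fun e' => e.not_lt (b2 e')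
      exact ((h.pos _ _ _ f').ne' (col3 n hx.ori_eq e (c1.antisymm c2))).elim
    · have c1 : 0 ≤ ori (p u) (p z) (p a) := by
        rcases a1 e with e' | rfl
        exacts [e'.le, by simp]
      have c2 := not_lt.1 fun e' => e.not_gt (b2 e')
      exact iff_of_false (by linarith) (by linarith)
  all_goals have := h.pos _ _ _ f
  · rw [ori_swap', ht] at this
    simp only [ori_self₂]
    nlinarith
  · rw [ht] at this
    simp only [ori_self₂]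
    nlinarith
  · rw [ori_swap', hs] at this
    simp only [ori_self₃]
    nlinarith
  · rw [hs] at this
    simp only [ori_self₃]
    nlinarith

theorem Tri.vs_geo : ∃ p' : Option W → ℂ, (∀ a, a ≠ x → p' (some a) = p a) ∧
    0 < ori (p u) (p z) (p' (some x)) ∧ ori (p u) (p z) (p' none) < 0 ∧
    Tri (vsp F x u z fun a b => ori (p u) (p z) (p a) + ori (p u) (p z) (p b) < 0)
      (some o1) (some o2) (some o3) p' := by
  have v := h.vs xo du dz hx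
  obtain ⟨n1, n2⟩ := h.xu v
  have n : 0 < Complex.normSq (p z - p u) := Complex.normSq_pos.2 (sub_ne_zero.2 fun e => by
    obtain ⟨t, -, -, e'⟩ := hx
    exact h.ne du.choose_spec (by simpa [e] using e'))
  let P : ℝ → Option W → ℂ := fun s o => o.elim (p x + (-s : ℝ) * (Complex.I * (p z - p u)))
    fun a => if a = x then p x + s * (Complex.I * (p z - p u)) else p a
  have Pc : ∀ o, Tendsto (fun s => P s o) (𝓝 0) (𝓝 (p (o.getD x))) := by
    rintro (_ | a)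
    · exact Continuous.tendsto' (by simp only [P, Option.elim]; fun_prop) _ _ (by simp [P])
    · by_cases e : a = x
      · exact Continuous.tendsto' (by simp only [P, Option.elim, if_pos e]; fun_prop) _ _
          (by simp [P, e])
      · simp [P, e]
  have oc : Continuous fun t : ℂ × ℂ × ℂ => ori t.1 t.2.1 t.2.2 := by unfold ori; fun_prop
  have ev : ∀ᶠ s : ℝ in 𝓝[>] 0, ∀ a b c : Option W, F (a.getD x) (b.getD x) (c.getD x) →
      0 < ori (P s a) (P s b) (P s c) :=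
    nhdsWithin_le_nhds (eventually_all.2 fun a => eventually_all.2 fun b =>
      eventually_all.2 fun c => ev_imp fun f =>
        ((oc.tendsto _).comp ((Pc a).prodMk_nhds ((Pc b).prodMk_nhds (Pc c)))).eventually
          (lt_mem_nhds (h.pos _ _ _ f)))
  obtain ⟨s, s1, s2⟩ := (ev.and self_mem_nhdsWithin).exists
  have k : ∀ s : ℝ, ori (p u) (p z) (p x + s * (Complex.I * (p z - p u))) =
      s * Complex.normSq (p z - p u) := fun s => by
    have := hx.ori_eq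
    simp only [ori, Complex.normSq_apply] at this ⊢
    simp
    linear_combination this
  have P1 : ∀ a, a ≠ x → P s (some a) = p a := fun a e => if_neg e
  have P2 : 0 < ori (p u) (p z) (P s (some x)) := by
    rw [show P s (some x) = _ from if_pos rfl, k]; exact mul_pos s2 n
  have P3 : ori (p u) (p z) (P s none) < 0 := (k (-s)).trans_lt (by nlinarith [mul_pos s2 n])
  have k' : ∀ a b, Lr F x u z (fun a b => ori (p u) (p z) (p a) + ori (p u) (p z) (p b) < 0) a b →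
      0 < ori (P s none) (P s (some a)) (P s (some b)) := by
    rintro a b (f | ⟨rfl, rfl⟩)
    · exact s1 _ _ _ f.1
    · rw [P1 _ n1.symm, P1 _ n2.symm, ← ori_cyc, ori_swap]
      exact neg_pos.2 P3
  refine ⟨P s, P1, P2, P3, h.vsplit v _ ?_⟩
  rintro (_ | a) (_ | b) (_ | e) f <;> try exact f.elim
  · exact k' _ _ f
  · rw [← ori_cyc]; exact k' _ _ f
  · rw [← ori_cyc, ← ori_cyc]; exact k' _ _ f
  · rcases f with f | ⟨rfl, rfl, rfl⟩ | ⟨rfl, rfl, rfl⟩ | ⟨rfl, rfl, rfl⟩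
    · exact s1 _ _ _ f.1
    · rwa [P1 _ n1.symm, P1 _ n2.symm]
    · rwa [P1 _ n1.symm, P1 _ n2.symm, ori_cyc]
    · rwa [P1 _ n1.symm, P1 _ n2.symm, ← ori_cyc]

end

/-- triangulations of the triangle `O1 O2 O3` -/
structure TT (O1 O2 O3 : ℂ) : Type 1 where
  W : Type
  fin : Finite W
  F : W → W → W → Prop
  o1 : W
  o2 : W
  o3 : W
  p : W → ℂ
  tri : Tri F o1 o2 o3 p
  e1 : p o1 = O1
  e2 : p o2 = O2
  e3 : p o3 = O3

namespace TT

variable {O1 O2 O3 : ℂ} (T : TT O1 O2 O3)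

/-- faces, as triples of points -/
def G (a b c : ℂ) : Prop := ∃ u v w, T.F u v w ∧ T.p u = a ∧ T.p v = b ∧ T.p w = c

/-- darts, as pairs of points -/
def D (a b : ℂ) : Prop := ∃ u v, (∃ w, T.F u v w) ∧ T.p u = a ∧ T.p v = b

/-- vertices, as points -/
def H (a : ℂ) : Prop := ∃ u, (∃ v w, T.F u v w) ∧ T.p u = a

theorem finD : {e : ℂ × ℂ | T.D e.1 e.2}.Finite := by
  have := T.fin
  refine (Set.finite_range fun e : T.W × T.W => (T.p e.1, T.p e.2)).subset ?_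
  rintro ⟨a, b⟩ ⟨u, v, -, rfl, rfl⟩
  exact ⟨(u, v), rfl⟩

theorem finH : {a : ℂ | T.H a}.Finite := by
  have := T.fin
  refine (Set.finite_range T.p).subset ?_
  rintro a ⟨u, -, rfl⟩
  exact ⟨u, rfl⟩

variable {T}

theorem inner {v : T.W} (h : In O1 O2 O3 (T.p v)) : v ≠ T.o1 ∧ v ≠ T.o2 ∧ v ≠ T.o3 := by
  refine ⟨?_, ?_, ?_⟩ <;> rintro rfl
  · simpa [T.e1] using h.1
  · simpa [T.e2] using h.1
  · simpa [T.e3] using h.2.1

theorem inj {a a' : T.W} (ha : ∃ b c, T.F a b c) (ha' : ∃ b c, T.F a' b c) (e : T.p a = T.p a') :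
    a = a' := by
  have := T.fin
  cases nonempty_fintype T.W
  exact T.tri.inj ha ha' e

theorem D.H₁ {a b : ℂ} (h : T.D a b) : T.H a := by
  obtain ⟨u, v, f, rfl, -⟩ := h
  exact ⟨u, ⟨v, f⟩, rfl⟩

theorem D.H₂ {a b : ℂ} (h : T.D a b) : T.H b := by
  obtain ⟨u, v, ⟨w, f⟩, -, rfl⟩ := h
  exact ⟨v, ⟨w, u, T.tri.cyc _ _ _ f⟩, rfl⟩

theorem D.rev {a b : ℂ} (h : T.D a b) (ho : ¬Out O1 O2 O3 a b) : T.D b a := by
  obtain ⟨u, v, ⟨w, f⟩, rfl, rfl⟩ := h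
  refine ⟨v, u, (T.tri.rev _ _ _ f).resolve_right fun o => ho ?_, rfl, rfl⟩
  rcases o with ⟨rfl, rfl⟩ | ⟨rfl, rfl⟩ | ⟨rfl, rfl⟩ <;> simp [Out, T.e1, T.e2, T.e3]

theorem G.cyc {a b c : ℂ} (h : T.G a b c) : T.G b c a := by
  obtain ⟨u, v, w, f, rfl, rfl, rfl⟩ := h
  exact ⟨v, w, u, T.tri.cyc _ _ _ f, rfl, rfl, rfl⟩

theorem G.pos {a b c : ℂ} (h : T.G a b c) : 0 < ori a b c := by
  obtain ⟨u, v, w, f, rfl, rfl, rfl⟩ := h
  exact T.tri.pos _ _ _ f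

theorem G.D {a b c : ℂ} (h : T.G a b c) : T.D a b := by
  obtain ⟨u, v, w, f, rfl, rfl, rfl⟩ := h
  exact ⟨u, v, ⟨w, f⟩, rfl, rfl⟩

theorem G.not_in {a b c y : ℂ} (h : T.G a b c) (hy : T.H y) (i : In O1 O2 O3 y)
    (i' : Cl a b c y) : y = a ∨ y = b ∨ y = c := by
  have := T.fin
  cases nonempty_fintype T.W
  obtain ⟨u, v, w, f, rfl, rfl, rfl⟩ := h
  obtain ⟨x, f', rfl⟩ := hy
  rcases T.tri.not_in (inner i) f' f i' with rfl | rfl | rfl <;> simp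

theorem loc {y : ℂ} (i : In O1 O2 O3 y) : ∃ a b c, T.G a b c ∧ Cl a b c y := by
  have := T.fin
  cases nonempty_fintype T.W
  obtain ⟨a, b, c, f, i'⟩ := T.tri.loc (y := y) (by rwa [T.e1, T.e2, T.e3])
  exact ⟨_, _, _, ⟨a, b, c, f, rfl, rfl, rfl⟩, i'⟩

theorem H.cover {x y : ℂ} (h : T.H x) (i : In O1 O2 O3 x) (hy : y ≠ x) :
    ∃ a b, T.G x a b ∧ 0 ≤ ori x a y ∧ 0 < ori b x y := by
  have := T.fin
  cases nonempty_fintype T.W
  obtain ⟨x, f, rfl⟩ := h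
  obtain ⟨a, b, f', i'⟩ := T.tri.cover' (inner i) f hy
  exact ⟨_, _, ⟨x, a, b, f', rfl, rfl, rfl⟩, i'⟩

theorem split {a b m : ℂ} (h1 : T.D a b) (h2 : T.D b a) (hm : On a b m) : ∃ T' : TT O1 O2 O3,
    (∀ y y', T'.D y y' → (T.D y y' ∧ ¬(y = a ∧ y' = b)) ∨ y = m ∨ y' = m) ∧
    (∀ y y', T.D y y' → ¬((y = a ∧ y' = b) ∨ (y = b ∧ y' = a)) → T'.D y y') ∧
    (∀ y, T.H y → T'.H y) ∧ T'.H m ∧ ∀ c, T.G a b c → T'.D c m ∧ T'.D m c := by
  have := T.fin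
  obtain ⟨u, v, ⟨c, hc⟩, rfl, rfl⟩ := h1
  obtain ⟨v', u', ⟨d, hd⟩, e1, e2⟩ := h2
  obtain rfl := inj ⟨_, _, T.tri.cyc _ _ _ hc⟩ ⟨_, _, hd⟩ e1.symm
  obtain rfl := inj ⟨_, _, hc⟩ ⟨_, _, T.tri.cyc _ _ _ hd⟩ e2.symm
  have h := T.tri
  refine ⟨⟨Option T.W, inferInstance, _, _, _, _, _, h.split hc hd hm, T.e1, T.e2, T.e3⟩,
    ?_, ?_, ?_, ⟨none, ⟨some v, some c, Or.inl ⟨rfl, rfl⟩⟩, rfl⟩, ?_⟩
  · rintro y y' ⟨_ | a, _ | b, f, rfl, rfl⟩
    · exact Or.inr (Or.inl rfl)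
    · exact Or.inr (Or.inl rfl)
    · exact Or.inr (Or.inr rfl)
    · obtain ⟨⟨e, f⟩, hn⟩ := (h.dart_iff hc hd).1 f
      exact Or.inl ⟨⟨a, b, ⟨e, f⟩, rfl, rfl⟩, fun e => hn (Or.inl ⟨inj ⟨_, _, f⟩ ⟨_, _, hc⟩ e.1,
        inj ⟨_, _, h.cyc _ _ _ f⟩ ⟨_, _, hd⟩ e.2⟩)⟩
  · rintro y y' ⟨a, b, f, rfl, rfl⟩ hn
    refine ⟨some a, some b, (h.dart_iff hc hd).2 ⟨f, fun e => hn ?_⟩, rfl, rfl⟩
    rcases e with ⟨rfl, rfl⟩ | ⟨rfl, rfl⟩ <;> simp
  · rintro y ⟨a, ⟨b, f⟩, rfl⟩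
    refine ⟨some a, ?_, rfl⟩
    by_cases e' : (a = u ∧ b = v) ∨ (a = v ∧ b = u)
    · obtain ⟨e'', l⟩ := (Tri.lk_dom (u := u) (v := v) (c := c) (d := d) (b := a)).2.2 (by tauto)
      exact ⟨none, some e'', l⟩
    · exact ⟨some b, (h.dart_iff hc hd).2 ⟨f, e'⟩⟩
  · rintro y ⟨u', v', c', f, e1, e2, rfl⟩
    obtain rfl := inj ⟨_, _, hc⟩ ⟨_, _, f⟩ e1.symm
    obtain rfl := inj ⟨_, _, hd⟩ ⟨_, _, h.cyc _ _ _ f⟩ e2.symm
    obtain rfl := h.uniq _ _ _ _ hc f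
    exact ⟨⟨some c, none, ⟨some v, Or.inl ⟨rfl, rfl⟩⟩, rfl, rfl⟩,
      ⟨none, some c, ⟨some u, Or.inr (Or.inl ⟨rfl, rfl⟩)⟩, rfl, rfl⟩⟩

theorem vsplit {x u z : ℂ} (h1 : T.D x u) (h2 : T.D x z) (i : In O1 O2 O3 x) (hx : On u z x) :
    ∃ T' : TT O1 O2 O3, (∀ y y', T.D y y' → y ≠ x → y' ≠ x → T'.D y y') ∧
      (∀ y, T.H y → y ≠ x → T'.H y) ∧ (∀ y, T'.H y → ori u z y = 0 → T.H y ∧ y ≠ x) ∧
      ∀ y y', T'.D y y' → T.D y y' ∨ 0 ≤ ori u z y * ori u z y' := by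
  have := T.fin
  cases nonempty_fintype T.W
  obtain ⟨x, u, du, rfl, rfl⟩ := h1
  obtain ⟨x', z, dz, e1, rfl⟩ := h2
  obtain rfl := inj ⟨_, du⟩ ⟨_, dz⟩ e1.symm
  have h := T.tri
  have xo := inner i
  have v := h.vs xo du dz hx
  have st := @Tri.strad _ _ _ _ _ _ _ _ _ _ h du dz hx
  obtain ⟨p', P1, P2, P3, h'⟩ := h.vs_geo xo du dz hx
  have sg : ∀ b e, T.F x b e →
      (ori (T.p u) (T.p z) (T.p b) + ori (T.p u) (T.p z) (T.p e) < 0 →
        ori (T.p u) (T.p z) (T.p b) ≤ 0) ∧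
      (¬ori (T.p u) (T.p z) (T.p b) + ori (T.p u) (T.p z) (T.p e) < 0 →
        0 ≤ ori (T.p u) (T.p z) (T.p b)) := fun b e f => by
    refine ⟨fun r => not_lt.1 fun r' => ?_, fun r => not_lt.1 fun r' => ?_⟩
    · rcases (st f).2 (by linarith) with e | rfl
      exacts [e.not_gt r', by simp at r']
    · rcases (st f).1 (by linarith) with e | rfl
      exacts [e.not_gt r', by simp at r']
  have sL : ∀ b, (∃ e, vsp T.F x u z (fun a b => ori (T.p u) (T.p z) (T.p a) +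
      ori (T.p u) (T.p z) (T.p b) < 0) (some x) (some b) e) →
      0 ≤ ori (T.p u) (T.p z) (p' (some x)) * ori (T.p u) (T.p z) (p' (some b)) := fun b f => by
    refine mul_nonneg P2.le ?_
    rcases (h.dartB v).1 f with ⟨e, f, r⟩ | rfl
    · rw [P1 _ (h.ne' f).symm]; exact (sg _ _ f).2 r
    · simp [P1 _ (h.xu v).1.symm]
  have sR : ∀ b, (∃ e, vsp T.F x u z (fun a b => ori (T.p u) (T.p z) (T.p a) +
      ori (T.p u) (T.p z) (T.p b) < 0) none (some b) e) →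
      0 ≤ ori (T.p u) (T.p z) (p' none) * ori (T.p u) (T.p z) (p' (some b)) := fun b f => by
    refine mul_nonneg_of_nonpos_of_nonpos P3.le ?_
    rcases Tri.dartD.1 f with ⟨e, f, r⟩ | rfl
    · rw [P1 _ (h.ne' f).symm]; exact (sg _ _ f).1 r
    · simp [P1 _ (h.xu v).2.symm]
  refine ⟨⟨Option T.W, inferInstance, _, _, _, _, p', h', (P1 _ xo.1.symm).trans T.e1,
    (P1 _ xo.2.1.symm).trans T.e2, (P1 _ xo.2.2.symm).trans T.e3⟩, ?_, ?_, ?_, ?_⟩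
  · rintro y y' ⟨a, b, f, rfl, rfl⟩ n1 n2
    have n1 : a ≠ x := fun e => n1 (by rw [e])
    have n2 : b ≠ x := fun e => n2 (by rw [e])
    exact ⟨some a, some b, (h.dartA v n1 n2).2 (Or.inl f), P1 _ n1, P1 _ n2⟩
  · rintro y ⟨a, ⟨b, e, f⟩, rfl⟩ n1
    have n1 : a ≠ x := fun e => n1 (by rw [e])
    refine ⟨some a, ?_, P1 _ n1⟩
    by_cases n2 : b = x
    · subst n2
      by_cases r : ori (T.p u) (T.p z) (T.p e) + ori (T.p u) (T.p z) (T.p a) < 0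
      · exact ⟨none, Tri.dartE.2 (Or.inl ⟨e, h.cyc _ _ _ f, r⟩)⟩
      · exact ⟨some b, (h.dartC v).2 (Or.inl ⟨e, h.cyc _ _ _ f, r⟩)⟩
    · exact ⟨some b, (h.dartA v n1 n2).2 (Or.inl ⟨e, f⟩)⟩
  · rintro y ⟨_ | a, ⟨b, f⟩, rfl⟩ e
    · exact (P3.ne e).elim
    have n1 : a ≠ x := by rintro rfl; exact P2.ne' e
    have k : ∀ a e, T.F x a e → ∃ b c, T.F a b c := fun a e f => ⟨_, _, h.cyc _ _ _ f⟩
    have k' : ∀ a e, T.F x e a → ∃ b c, T.F a b c := fun a e f => ⟨_, _, h.cyc2 f⟩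
    have f' : ∃ b c, T.F a b c := by
      rcases b with _ | b
      · rcases Tri.dartE.1 f with ⟨e, f, -⟩ | rfl
        exacts [k' _ _ f, k _ _ du.choose_spec]
      by_cases n2 : b = x
      · subst n2
        rcases (h.dartC v).1 f with ⟨e, f, -⟩ | rfl
        exacts [k' _ _ f, k _ _ dz.choose_spec]
      rcases (h.dartA v n1 n2).1 f with f | ⟨rfl, -⟩ | ⟨rfl, -⟩
      exacts [⟨b, f⟩, k _ _ du.choose_spec, k _ _ dz.choose_spec]
    change T.H (p' (some a)) ∧ p' (some a) ≠ _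
    rw [P1 _ n1]
    exact ⟨⟨a, f', rfl⟩, fun e => n1 (inj f' ⟨_, du⟩ e)⟩
  · rintro y y' ⟨_ | a, _ | b, f, rfl, rfl⟩
    · exact Or.inr (mul_self_nonneg _)
    · exact Or.inr (sR _ f)
    · exact Or.inr ((sR _ (Tri.dartD.2 ((h.side v a).2 (Tri.dartE.1 f)))).trans_eq (mul_comm _ _))
    by_cases n1 : a = x
    · subst n1; exact Or.inr (sL _ f)
    by_cases n2 : b = x
    · subst n2
      exact Or.inr ((sL _ ((h.dartB v).2 ((h.side v.symm a).2 ((h.dartC v).1 f)))).trans_eq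
        (mul_comm _ _))
    change T.D (p' (some a)) (p' (some b)) ∨ 0 ≤ ori _ _ (p' (some a)) * ori _ _ (p' (some b))
    rw [P1 _ n1, P1 _ n2]
    rcases (h.dartA v n1 n2).1 f with f | ⟨rfl, rfl⟩ | ⟨rfl, rfl⟩
    exacts [Or.inl ⟨a, b, f, rfl, rfl⟩, Or.inr (by simp), Or.inr (by simp)]

end TT

end Pool.Agent.P.MP_27dab6_co
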