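import Pool.Agent.P.MP_27dab6_co.KLay

/-!
Splitting an inner edge of a triangulation, and the packing of an induced subgraph.
-/

set_option autoImplicit false

namespace Pool.Agent.P.MP_27dab6_co

open Finset Classical

variable {W : Type}

/-- `y` lies in the open segment from `a` to `b` -/
def On (a b y : ℂ) : Prop := ∃ t : ℝ, 0 < t ∧ t < 1 ∧ y = a + t * (b - a)

theorem ori_aff (c d a b : ℂ) (t : ℝ) :
    ori c d (a + t * (b - a)) = (1 - t) * ori c d a + t * ori c d b := by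
  simp [ori]; ring

theorem On.symm {a b y : ℂ} (h : On a b y) : On b a y := by
  obtain ⟨t, t0, t1, rfl⟩ := h
  exact ⟨1 - t, by linarith, by linarith, by push_cast; ring⟩

theorem On.pos {a b y c d : ℂ} (h : On a b y) (h1 : 0 ≤ ori c d a) (h2 : 0 < ori c d b) :
    0 < ori c d y := by
  obtain ⟨t, t0, t1, rfl⟩ := h
  rw [ori_aff]
  have := sub_pos.2 t1
  positivity

/-- the link of the new vertex -/
def Lk (u v c d b e : W) : Prop :=
  (b = v ∧ e = c) ∨ (b = c ∧ e = u) ∨ (b = u ∧ e = d) ∨ (b = d ∧ e = v)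

/-- the face contains both `u` and `v` -/
def Bd (u v a b e : W) : Prop := (a = u ∨ b = u ∨ e = u) ∧ (a = v ∨ b = v ∨ e = v)

/-- faces after splitting the edge `u v` -/
def spl (F : W → W → W → Prop) (u v c d : W) : Option W → Option W → Option W → Prop
  | some a, some b, some e => F a b e ∧ ¬Bd u v a b e
  | none, some b, some e => Lk u v c d b e
  | some a, none, some e => Lk u v c d e a
  | some a, some b, none => Lk u v c d a b
  | _, _, _ => False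

namespace Tri

variable {F : W → W → W → Prop} {o1 o2 o3 : W} {p : W → ℂ} (h : Tri F o1 o2 o3 p) {u v c d : W}
  (hc : F u v c) (hd : F v u d)

include h hc hd

theorem dist6 : u ≠ v ∧ v ≠ c ∧ c ≠ u ∧ u ≠ d ∧ d ≠ v ∧ c ≠ d := by
  refine ⟨h.ne' hc, h.ne' (h.cyc _ _ _ hc), h.ne' (h.cyc _ _ _ (h.cyc _ _ _ hc)),
    h.ne' (h.cyc _ _ _ hd), h.ne' (h.cyc _ _ _ (h.cyc _ _ _ hd)), ?_⟩
  rintro rfl
  have := h.pos _ _ _ hd
  rw [ori_swap] at this
  linarith [h.pos _ _ _ hc]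

theorem old {a b e : W} (f : F a b e) (hb : Bd u v a b e) :
    (a = u ∧ b = v ∧ e = c) ∨ (a = v ∧ b = u ∧ e = d) ∨ Lk u v c d a b := by
  have f1 := h.cyc _ _ _ f
  have f2 := h.cyc _ _ _ f1
  have n := h.ne' hc
  rcases hb with ⟨rfl | rfl | rfl, e | e | e⟩ <;> (try exact (n e).elim) <;> subst e
  · exact Or.inl ⟨rfl, rfl, h.uniq _ _ _ _ f hc⟩
  · exact Or.inr (Or.inr (Or.inr (Or.inr (Or.inl ⟨rfl, h.uniq _ _ _ _ f2 hd⟩))))
  · exact Or.inr (Or.inl ⟨rfl, rfl, h.uniq _ _ _ _ f hd⟩)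
  · exact Or.inr (Or.inr (Or.inr (Or.inl ⟨h.uniq _ _ _ _ f1 hc, rfl⟩)))
  · exact Or.inr (Or.inr (Or.inl ⟨rfl, h.uniq _ _ _ _ f2 hc⟩))
  · exact Or.inr (Or.inr (Or.inr (Or.inr (Or.inr ⟨h.uniq _ _ _ _ f1 hd, rfl⟩))))

theorem lk_face {a b : W} (l : Lk u v c d a b) : ∃ e, F a b e ∧ Bd u v a b e := by
  rcases l with ⟨rfl, rfl⟩ | ⟨rfl, rfl⟩ | ⟨rfl, rfl⟩ | ⟨rfl, rfl⟩
  · exact ⟨_, h.cyc _ _ _ hc, by simp [Bd]⟩
  · exact ⟨_, h.cyc _ _ _ (h.cyc _ _ _ hc), by simp [Bd]⟩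
  · exact ⟨_, h.cyc _ _ _ hd, by simp [Bd]⟩
  · exact ⟨_, h.cyc _ _ _ (h.cyc _ _ _ hd), by simp [Bd]⟩

theorem dart_iff {a b : W} : (∃ e, spl F u v c d (some a) (some b) e) ↔
    (∃ e, F a b e) ∧ ¬((a = u ∧ b = v) ∨ (a = v ∧ b = u)) := by
  obtain ⟨n1, n2, n3, n4, n5, n6⟩ := h.dist6 hc hd
  constructor
  · rintro ⟨_ | e, f⟩
    · obtain ⟨e, f', -⟩ := h.lk_face hc hd f
      refine ⟨⟨e, f'⟩, ?_⟩
      rcases f with ⟨rfl, rfl⟩ | ⟨rfl, rfl⟩ | ⟨rfl, rfl⟩ | ⟨rfl, rfl⟩ <;> tauto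
    · exact ⟨⟨e, f.1⟩, fun e' => f.2 (by unfold Bd; tauto)⟩
  · rintro ⟨⟨e, f⟩, hn⟩
    by_cases hb : Bd u v a b e
    · exact ⟨none, ((h.old hc hd f hb).resolve_left (by tauto)).resolve_left (by tauto)⟩
    · exact ⟨some e, f, hb⟩

omit h hc hd in
theorem lk_dom {b : W} : ((∃ e, Lk u v c d b e) ↔ b = u ∨ b = v ∨ b = c ∨ b = d) ∧
    ((∃ e, Lk u v c d e b) ↔ b = u ∨ b = v ∨ b = c ∨ b = d) := by
  unfold Lk
  refine ⟨⟨fun ⟨_, l⟩ => by tauto, ?_⟩, fun ⟨_, l⟩ => by tauto, ?_⟩ <;>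
    rintro (rfl | rfl | rfl | rfl)
  exacts [⟨d, by tauto⟩, ⟨c, by tauto⟩, ⟨u, by tauto⟩, ⟨v, by tauto⟩, ⟨c, by tauto⟩,
    ⟨d, by tauto⟩, ⟨v, by tauto⟩, ⟨u, by tauto⟩]

theorem split {m : ℂ} (hm : On (p u) (p v) m) :
    Tri (spl F u v c d) (some o1) (some o2) (some o3) fun o => o.elim m p := by
  obtain ⟨n1, n2, n3, n4, n5, n6⟩ := h.dist6 hc hd
  have lp : ∀ b e, Lk u v c d b e → 0 < ori m (p b) (p e) := fun b e l => by
    have a1 := h.pos _ _ _ hc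
    have a2 := h.pos _ _ _ hd
    rw [← ori_cyc]
    rcases l with ⟨rfl, rfl⟩ | ⟨rfl, rfl⟩ | ⟨rfl, rfl⟩ | ⟨rfl, rfl⟩
    · exact hm.symm.pos (by simp) (by rwa [ori_cyc])
    · exact hm.pos (by simp) (by rwa [← ori_cyc])
    · exact hm.pos (by simp) (by rwa [ori_cyc])
    · exact hm.symm.pos (by simp) (by rwa [← ori_cyc])
  refine ⟨?_, ?_, ?_, ?_, ?_, fun w wa wc => ?_⟩
  · rintro (_ | a) (_ | b) (_ | e) f <;> try exact f
    exact ⟨h.cyc _ _ _ f.1, fun e' => f.2 (by unfold Bd at *; tauto)⟩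
  · rintro (_ | a) (_ | b) (_ | e) (_ | e') f f' <;> try first | rfl | exact f.elim | exact f'.elim
    · rcases f with ⟨rfl, rfl⟩ | ⟨rfl, rfl⟩ | ⟨rfl, rfl⟩ | ⟨rfl, rfl⟩ <;>
        rcases f' with ⟨e, rfl⟩ | ⟨e, rfl⟩ | ⟨e, rfl⟩ | ⟨e, rfl⟩ <;> tauto
    · rcases f with ⟨rfl, rfl⟩ | ⟨rfl, rfl⟩ | ⟨rfl, rfl⟩ | ⟨rfl, rfl⟩ <;>
        rcases f' with ⟨rfl, e⟩ | ⟨rfl, e⟩ | ⟨rfl, e⟩ | ⟨rfl, e⟩ <;> tauto
    · obtain ⟨e, a1, a2⟩ := h.lk_face hc hd f
      exact (f'.2 (h.uniq _ _ _ _ a1 f'.1 ▸ a2)).elim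
    · obtain ⟨e', a1, a2⟩ := h.lk_face hc hd f'
      exact (f.2 (h.uniq _ _ _ _ a1 f.1 ▸ a2)).elim
    · rw [h.uniq _ _ _ _ f.1 f'.1]
  · rintro (_ | a) (_ | b) (_ | e) f <;> try exact f.elim
    · exact lp _ _ f
    · rw [← ori_cyc]; exact lp _ _ f
    · rw [← ori_cyc, ← ori_cyc]; exact lp _ _ f
    · exact h.pos _ _ _ f.1
  · have k : ∀ a b, (∃ e, spl F u v c d (some a) (some b) e) →
        (∃ e, spl F u v c d (some b) (some a) e) ∨
          Out (some o1) (some o2) (some o3) (some a) (some b) := fun a b f => by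
      obtain ⟨⟨e, f⟩, hn⟩ := (h.dart_iff hc hd).1 f
      exact (h.rev _ _ _ f).imp (fun f' => (h.dart_iff hc hd).2 ⟨f', by tauto⟩)
        fun o => by simpa [Out] using o
    rintro (_ | a) (_ | b) (_ | e) f <;> try exact f.elim
    · obtain ⟨e', l⟩ := lk_dom.2.2 (lk_dom.1.1 ⟨_, f⟩)
      exact Or.inl ⟨some e', l⟩
    · obtain ⟨e', l⟩ := lk_dom.1.2 (lk_dom.2.1 ⟨_, f⟩)
      exact Or.inl ⟨some e', l⟩
    · exact k _ _ ⟨_, f⟩
    · exact k _ _ ⟨_, f⟩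
  · rintro (_ | a) (_ | b) o <;> try simp [Out] at o
    obtain ⟨a1, a2⟩ := h.out a b o
    refine ⟨(h.dart_iff hc hd).2 ⟨a1, ?_⟩, fun e => a2 ((h.dart_iff hc hd).1 e).1⟩
    rintro (⟨rfl, rfl⟩ | ⟨rfl, rfl⟩)
    exacts [a2 ⟨_, hd⟩, a2 ⟨_, hc⟩]
  · have l1 := wc none (some v) (some c) (Or.inl ⟨rfl, rfl⟩)
    have l2 := wc none (some c) (some u) (Or.inr (Or.inl ⟨rfl, rfl⟩))
    have l3 := wc none (some u) (some d) (Or.inr (Or.inr (Or.inl ⟨rfl, rfl⟩)))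
    have l4 := wc none (some d) (some v) (Or.inr (Or.inr (Or.inr ⟨rfl, rfl⟩)))
    have m1 := wa none (some c)
    have m2 := wa none (some d)
    have m3 := wa none (some u)
    have m4 := wa none (some v)
    obtain ⟨q, hq⟩ := h.ex (fun a b => if (a = u ∧ b = v) ∨ (a = v ∧ b = u) then
        w (some a) none + w none (some b) else w (some a) (some b))
      (fun a b => by
        by_cases e : (a = u ∧ b = v) ∨ (a = v ∧ b = u)
        · rw [if_pos e, if_pos (by tauto), wa none (some a), wa none (some b)]; ring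
        · rw [if_neg e, if_neg (by tauto), wa])
      fun a b e f => by
        by_cases hb : Bd u v a b e
        · rcases h.old hc hd f hb with ⟨rfl, rfl, rfl⟩ | ⟨rfl, rfl, rfl⟩ | l
          · rw [if_pos (by tauto), if_neg (by tauto), if_neg (by tauto)]
            linear_combination l1 + l2 - m1
          · rw [if_pos (by tauto), if_neg (by tauto), if_neg (by tauto)]
            linear_combination l3 + l4 - m2
          · rcases l with ⟨rfl, rfl⟩ | ⟨rfl, rfl⟩ | ⟨rfl, rfl⟩ | ⟨rfl, rfl⟩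
            · rw [h.uniq _ _ _ _ f (h.cyc _ _ _ hc), if_neg (by tauto), if_neg (by tauto),
                if_pos (by tauto)]
              linear_combination l1 + l2 - m1
            · rw [h.uniq _ _ _ _ f (h.cyc _ _ _ (h.cyc _ _ _ hc)), if_neg (by tauto),
                if_pos (by tauto), if_neg (by tauto)]
              linear_combination l1 + l2 - m1
            · rw [h.uniq _ _ _ _ f (h.cyc _ _ _ hd), if_neg (by tauto), if_neg (by tauto),
                if_pos (by tauto)]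
              linear_combination l3 + l4 - m2
            · rw [h.uniq _ _ _ _ f (h.cyc _ _ _ (h.cyc _ _ _ hd)), if_neg (by tauto),
                if_pos (by tauto), if_neg (by tauto)]
              linear_combination l3 + l4 - m2
        · unfold Bd at hb
          rw [if_neg (by tauto), if_neg (by tauto), if_neg (by tauto)]
          exact wc (some a) (some b) (some e) ⟨f, hb⟩
    have q1 := hq _ _ _ hc
    have q2 := hq _ _ _ (h.cyc _ _ _ (h.cyc _ _ _ hc))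
    have q3 := hq _ _ _ (h.cyc _ _ _ hd)
    rw [if_pos (by tauto)] at q1
    rw [if_neg (by tauto)] at q2 q3
    have k : ∀ b, b = u ∨ b = v ∨ b = c ∨ b = d →
        w none (some b) = q b - (q u + w (some u) none) := by
      rintro b (rfl | rfl | rfl | rfl)
      · linear_combination m3
      · linear_combination q1
      · linear_combination l2 - q2
      · linear_combination q3 - l3 + m2 + m3
    have k' : ∀ a b, (∃ e, spl F u v c d (some a) (some b) e) →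
        w (some a) (some b) = q b - q a := fun a b f => by
      obtain ⟨⟨e, f⟩, hn⟩ := (h.dart_iff hc hd).1 f
      have := hq _ _ _ f
      rwa [if_neg hn] at this
    refine ⟨fun o => o.elim (q u + w (some u) none) q, ?_⟩
    rintro (_ | a) (_ | b) (_ | e) f <;> try exact f.elim
    · exact k _ (lk_dom.1.1 ⟨_, f⟩)
    · rw [wa, k _ (lk_dom.2.1 ⟨_, f⟩), neg_sub]; rfl
    · exact k' _ _ ⟨_, f⟩
    · exact k' _ _ ⟨_, f⟩

end Tri

theorem koebe_of_tri {V : Type} [Fintype V] (G : SimpleGraph V) (n : ℕ) :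
    ∀ (W : Type) [Fintype W] (F : W → W → W → Prop) (o1 o2 o3 : W) (p : W → ℂ) (ι : V → W),
      Tri F o1 o2 o3 p → Function.Injective ι → (∀ v, ι v ≠ o1 ∧ ι v ≠ o2 ∧ ι v ≠ o3) →
      (∀ v, ∃ b c, F (ι v) b c) → (∀ u v, G.Adj u v → ∃ c, F (ι u) (ι v) c) →
      (univ.filter fun e : V × V => ¬G.Adj e.1 e.2 ∧ ∃ c, F (ι e.1) (ι e.2) c).card ≤ n →
      ∃ (q : V → ℂ) (r : V → ℝ), (∀ v, 0 < r v) ∧ ∀ u v, u ≠ v →
        (G.Adj u v → ‖q v - q u‖ = r u + r v) ∧ (¬G.Adj u v → r u + r v < ‖q v - q u‖) := by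
  induction n with
  | zero =>
    intro W _ F o1 o2 o3 p ι h _i ho hf hG hn
    have hn : ∀ u v, ¬G.Adj u v → ¬∃ c, F (ι u) (ι v) c := fun u v a b => by
      have := card_eq_zero.1 (Nat.le_zero.1 hn)
      exact notMem_empty (u, v) (this ▸ mem_filter.2 ⟨mem_univ _, a, b⟩)
    obtain ⟨q, r, a1, a2, a3⟩ := h.layout
    refine ⟨q ∘ ι, r ∘ ι, fun v => a1 _, fun u v e => ⟨fun e' => ?_, fun e' => ?_⟩⟩
    · obtain ⟨c, f⟩ := hG u v e'
      exact a3 _ _ _ f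
    · exact a2.apart a1 a3 (ho u) (ho v) (hf u) (hf v) (_i.ne e) (hn u v e')
        (hn v u fun e'' => e' e''.symm)
  | succ n ih =>
    intro W _ F o1 o2 o3 p ι h hi ho hf hG hn
    rcases hn.eq_or_lt with hn | hn
    swap
    · exact ih W F o1 o2 o3 p ι h hi ho hf hG (Nat.lt_succ_iff.1 hn)
    obtain ⟨⟨u, v⟩, he⟩ := card_pos.1 (n.succ_pos.trans_eq hn.symm)
    obtain ⟨-, e, c, hc⟩ := mem_filter.1 he
    obtain ⟨d, hd⟩ := (h.rev _ _ _ hc).resolve_right (by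
      have := ho u
      unfold Out
      tauto)
    refine ih (Option W) _ _ _ _ _ (some ∘ ι)
      (h.split hc hd ⟨1 / 2, by norm_num, by norm_num, rfl⟩)
      ((Option.some_injective _).comp hi) (fun v => by simpa using ho v) (fun a => ?_)
      (fun a b e' => (h.dart_iff hc hd).2 ⟨hG a b e', ?_⟩) ?_
    · obtain ⟨b, c', f⟩ := hf a
      by_cases e' : (ι a = ι u ∧ b = ι v) ∨ (ι a = ι v ∧ b = ι u)
      · obtain ⟨e'', l⟩ := (Tri.lk_dom (u := ι u) (v := ι v) (c := c) (d := d) (b := ι a)).2.2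
          (by tauto)
        exact ⟨none, some e'', l⟩
      · obtain ⟨e'', l⟩ := (h.dart_iff hc hd).2 ⟨⟨c', f⟩, e'⟩
        exact ⟨some b, e'', l⟩
    · rintro (⟨e1, e2⟩ | ⟨e1, e2⟩) <;> rw [hi e1, hi e2] at e'
      exacts [e e', e e'.symm]
    · refine Nat.lt_succ_iff.1 ((card_lt_card ⟨fun x hx => ?_, fun hs => ?_⟩).trans_eq hn)
      · obtain ⟨-, a1, a2⟩ := mem_filter.1 hx
        exact mem_filter.2 ⟨mem_univ _, a1, ((h.dart_iff hc hd).1 a2).1⟩
      · exact ((h.dart_iff hc hd).1 (mem_filter.1 (hs he)).2.2).2 (Or.inl ⟨rfl, rfl⟩)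

end Pool.Agent.P.MP_27dab6_co
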