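import Mathlib

/-!
Triangulations of a triangle by positively oriented triangles: every generic point is covered at
most once.
-/

set_option autoImplicit false

namespace Pool.Agent.P.MP_27dab6_co

open Finset Classical Filter Topology

/-- twice the signed area -/
def ori (a b c : ℂ) : ℝ := (b.re - a.re) * (c.im - a.im) - (b.im - a.im) * (c.re - a.re)

theorem ori_cyc (a b c : ℂ) : ori b c a = ori a b c := by unfold ori; ring

theorem ori_swap (a b c : ℂ) : ori b a c = -ori a b c := by unfold ori; ring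

theorem ori_swap' (a b c : ℂ) : ori a c b = -ori a b c := by unfold ori; ring

@[simp] theorem ori_self₁ (a b : ℂ) : ori a a b = 0 := by unfold ori; ring

@[simp] theorem ori_self₂ (a b : ℂ) : ori a b a = 0 := by unfold ori; ring

@[simp] theorem ori_self₃ (a b : ℂ) : ori a b b = 0 := by unfold ori; ring

theorem ori_sum (a b c y : ℂ) : ori a b y + ori b c y + ori c a y = ori a b c := by
  unfold ori; ring

theorem quad_ne {c0 c1 c2 : ℝ} (h : c1 ≠ 0 ∨ c2 ≠ 0) :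
    ∀ᶠ t in 𝓝[≠] (0 : ℝ), c0 + c1 * t + c2 * t ^ 2 ≠ 0 := by
  let P : Polynomial ℝ := Polynomial.C c0 + Polynomial.C c1 * Polynomial.X +
    Polynomial.C c2 * Polynomial.X ^ 2
  have hP : P ≠ 0 := fun e => by
    have e1 := congrArg (Polynomial.coeff · 1) e
    have e2 := congrArg (Polynomial.coeff · 2) e
    simp [P, Polynomial.coeff_C] at e1 e2
    tauto
  have := (Polynomial.finite_setOfPred_isRoot hP).compl_mem_cofinite
  filter_upwards [nhdsNE_le_cofinite 0 this] with t ht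
  simpa [P] using ht

variable {W : Type}

/-- the three sides of the outer triangle -/
def Out (o1 o2 o3 a b : W) : Prop := (a = o1 ∧ b = o2) ∨ (a = o2 ∧ b = o3) ∨ (a = o3 ∧ b = o1)

/-- a triangulation of the triangle `o1 o2 o3` with oriented faces `F` and vertex positions `p` -/
structure Tri (F : W → W → W → Prop) (o1 o2 o3 : W) (p : W → ℂ) : Prop where
  cyc : ∀ a b c, F a b c → F b c a
  uniq : ∀ a b c c', F a b c → F a b c' → c = c'
  pos : ∀ a b c, F a b c → 0 < ori (p a) (p b) (p c)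
  rev : ∀ a b c, F a b c → (∃ d, F b a d) ∨ Out o1 o2 o3 a b
  out : ∀ a b, Out o1 o2 o3 a b → (∃ c, F a b c) ∧ ¬∃ d, F b a d
  ex : ∀ w : W → W → ℂ, (∀ a b, w b a = -w a b) →
    (∀ a b c, F a b c → w a b + w b c + w c a = 0) → ∃ q : W → ℂ, ∀ a b c, F a b c →
      w a b = q b - q a

/-- signed crossing of the segment from `a` to `b` with the vertical ray below `y` -/
noncomputable def crs (y a b : ℂ) : ℤ :=
  if a.re < y.re ∧ y.re < b.re ∧ 0 < ori a b y then 1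
  else if b.re < y.re ∧ y.re < a.re ∧ ori a b y < 0 then -1 else 0

theorem crs_swap (y a b : ℂ) : crs y b a = -crs y a b := by
  unfold crs
  rw [ori_swap a b y]
  simp only [Left.neg_pos_iff, Left.neg_neg_iff]
  split_ifs with h1 h2 h2 <;> first | rfl | (exfalso; linarith [h1.1, h2.2.1])

theorem crs_tri {y a b c : ℂ} (ha : a.re ≠ y.re) (hb : b.re ≠ y.re) (hc : c.re ≠ y.re)
    (h1 : ori a b y ≠ 0) (h2 : ori b c y ≠ 0) (h3 : ori c a y ≠ 0) :
    crs y a b + crs y b c + crs y c a =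
      (if 0 < ori a b y ∧ 0 < ori b c y ∧ 0 < ori c a y then 1 else 0) -
        if ori a b y < 0 ∧ ori b c y < 0 ∧ ori c a y < 0 then 1 else 0 := by
  have key : (a.re - y.re) * ori b c y + (b.re - y.re) * ori c a y + (c.re - y.re) * ori a b y = 0 := by
    unfold ori; ring
  unfold crs
  generalize ori a b y = P at *
  generalize ori b c y = Q at *
  generalize ori c a y = R at *
  rcases ha.lt_or_gt with ha | ha <;> rcases hb.lt_or_gt with hb | hb <;>
    rcases hc.lt_or_gt with hc | hc <;> rcases h1.lt_or_gt with h1 | h1 <;>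
    rcases h2.lt_or_gt with h2 | h2 <;> rcases h3.lt_or_gt with h3 | h3 <;>
    simp only [ha, hb, hc, h1, h2, h3, ha.not_gt, hb.not_gt, hc.not_gt, h1.not_gt, h2.not_gt,
      h3.not_gt, and_true, and_false, and_self, if_true, if_false] <;>
    first
    | rfl
    | (exfalso; nlinarith)

/-- darts of the triangulation -/
abbrev Dt (F : W → W → W → Prop) : Type := {d : W × W // ∃ c, F d.1 d.2 c}

/-- third vertex of the face of a dart -/
noncomputable def Dt.th {F : W → W → W → Prop} (d : Dt F) : W := d.2.choose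

theorem Dt.face {F : W → W → W → Prop} (d : Dt F) : F d.1.1 d.1.2 d.th := d.2.choose_spec

namespace Tri

variable {F : W → W → W → Prop} {o1 o2 o3 : W} {p : W → ℂ} (h : Tri F o1 o2 o3 p)

/-- next dart in the face -/
noncomputable def nx (d : Dt F) : Dt F := ⟨(d.1.2, d.th), _, h.cyc _ _ _ d.face⟩

include h in
theorem th_eq {d : Dt F} {c : W} (e : F d.1.1 d.1.2 c) : d.th = c := h.uniq _ _ _ _ d.face e

theorem nx_th (d : Dt F) : (h.nx d).th = d.1.1 := h.th_eq (h.cyc _ _ _ d.face)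

theorem nx3 (d : Dt F) : h.nx (h.nx (h.nx d)) = d := by
  refine Subtype.ext (Prod.ext (h.nx_th d) ?_)
  exact h.nx_th (h.nx d)

theorem nx_bij : Function.Bijective h.nx :=
  ⟨fun a b e => by rw [← h.nx3 a, e, h.nx3], fun a => ⟨_, h.nx3 a⟩⟩

include h in
theorem ne {a b c : W} (e : F a b c) : p a ≠ p b := fun e' => by
  have := h.pos _ _ _ e
  rw [e'] at this
  simp at this

include h in
theorem ne' {a b c : W} (e : F a b c) : a ≠ b := fun e' => h.ne e (by rw [e'])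

variable [Fintype W]

theorem sum_nx {M : Type} [AddCommMonoid M] (f : Dt F → M) : ∑ d, f (h.nx d) = ∑ d, f d :=
  h.nx_bij.sum_comp f

include h in
theorem sum_anti (f : W → W → ℤ) (hf : ∀ a b, f b a = -f a b) :
    ∑ d : Dt F, f d.1.1 d.1.2 = f o1 o2 + f o2 o3 + f o3 o1 := by
  obtain ⟨⟨c1, e1⟩, -⟩ := h.out o1 o2 (Or.inl ⟨rfl, rfl⟩)
  obtain ⟨⟨c2, e2⟩, -⟩ := h.out o2 o3 (Or.inr (Or.inl ⟨rfl, rfl⟩))
  obtain ⟨⟨c3, e3⟩, -⟩ := h.out o3 o1 (Or.inr (Or.inr ⟨rfl, rfl⟩))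
  rw [← sum_filter_add_sum_filter_not univ fun d : Dt F => ∃ e, F d.1.2 d.1.1 e,
    sum_involution (s := univ.filter fun d : Dt F => ∃ e, F d.1.2 d.1.1 e)
      (fun d hd => ⟨d.1.swap, (mem_filter.1 hd).2⟩) (fun d _ => by simp [hf d.1.1])
      (fun d _ _ e => h.ne' d.face (congrArg (·.1.2) e))
      (fun d _ => mem_filter.2 ⟨mem_univ _, d.2⟩) fun _ _ => rfl, zero_add]
  have : (univ.filter fun d : Dt F => ¬∃ e, F d.1.2 d.1.1 e) =
      {⟨(o1, o2), c1, e1⟩, ⟨(o2, o3), c2, e2⟩, ⟨(o3, o1), c3, e3⟩} := by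
    ext ⟨⟨a, b⟩, c, e⟩
    simp only [mem_filter, mem_univ, true_and, mem_insert, mem_singleton]
    refine ⟨fun h' => ?_, fun h' => (h.out a b ?_).2⟩
    · rcases (h.rev a b c e).resolve_left h' with ⟨rfl, rfl⟩ | ⟨rfl, rfl⟩ | ⟨rfl, rfl⟩ <;> simp
    · rcases h' with h' | h' | h' <;> obtain ⟨rfl, rfl⟩ := Prod.mk.inj (congrArg Subtype.val h')
      exacts [Or.inl ⟨rfl, rfl⟩, Or.inr (Or.inl ⟨rfl, rfl⟩), Or.inr (Or.inr ⟨rfl, rfl⟩)]
  have n1 := h.ne' e1
  have n2 := h.ne' e2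
  have n3 := h.ne' e3
  rw [this, sum_insert, sum_pair, add_assoc]
  · exact fun e => n2 (congrArg (·.1.1) e)
  · simp only [mem_insert, mem_singleton, not_or]
    exact ⟨fun e => n1 (congrArg (·.1.1) e), fun e => n3 (congrArg (·.1.1) e).symm⟩

/-- `y` is not on a side and not on a vertical line through a vertex -/
def Gnr (F : W → W → W → Prop) (p : W → ℂ) (y : ℂ) : Prop :=
  (∀ a, (p a).re ≠ y.re) ∧ ∀ a b c, F a b c → ori (p a) (p b) y ≠ 0

include h in
theorem once {y : ℂ} (hy : Gnr F p y) {a b c a' b' c' : W} (e : F a b c) (e' : F a' b' c')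
    (i : 0 < ori (p a) (p b) y ∧ 0 < ori (p b) (p c) y ∧ 0 < ori (p c) (p a) y)
    (i' : 0 < ori (p a') (p b') y ∧ 0 < ori (p b') (p c') y ∧ 0 < ori (p c') (p a') y) :
    a' = a ∨ a' = b ∨ a' = c := by
  let I : Dt F → Prop := fun d => 0 < ori (p d.1.1) (p d.1.2) y ∧ 0 < ori (p d.1.2) (p d.th) y ∧
    0 < ori (p d.th) (p d.1.1) y
  have h1 := h.sum_anti (fun a b => crs y (p a) (p b)) fun a b => crs_swap _ _ _
  obtain ⟨⟨c1, e1⟩, -⟩ := h.out o1 o2 (Or.inl ⟨rfl, rfl⟩)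
  obtain ⟨⟨c2, e2⟩, -⟩ := h.out o2 o3 (Or.inr (Or.inl ⟨rfl, rfl⟩))
  obtain ⟨⟨c3, e3⟩, -⟩ := h.out o3 o1 (Or.inr (Or.inr ⟨rfl, rfl⟩))
  rw [crs_tri (hy.1 _) (hy.1 _) (hy.1 _) (hy.2 _ _ _ e1) (hy.2 _ _ _ e2) (hy.2 _ _ _ e3)] at h1
  have h2 : ∑ d : Dt F, crs y (p d.1.1) (p d.1.2) ≤ 1 := by
    rw [h1]; split_ifs <;> simp
  have h3 := h.sum_nx fun d => crs y (p d.1.1) (p d.1.2)
  have h4 := (h.sum_nx fun d => crs y (p (h.nx d).1.1) (p (h.nx d).1.2)).trans h3
  have h5 : ((univ.filter I).card : ℤ) ≤ 3 := by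
    rw [card_filter]
    push_cast
    refine le_trans (le_of_eq ?_) (show ∑ d : Dt F, crs y (p d.1.1) (p d.1.2) +
      ∑ d : Dt F, crs y (p (h.nx d).1.1) (p (h.nx d).1.2) +
      ∑ d : Dt F, crs y (p (h.nx (h.nx d)).1.1) (p (h.nx (h.nx d)).1.2) ≤ 3 by omega)
    rw [← sum_add_distrib, ← sum_add_distrib]
    refine sum_congr rfl fun d _ => ?_
    have f := d.face
    change _ = crs y (p d.1.1) (p d.1.2) + crs y (p d.1.2) (p d.th) +
      crs y (p d.th) (p (h.nx d).th)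
    rw [h.nx_th, crs_tri (hy.1 _) (hy.1 _) (hy.1 _) (hy.2 _ _ _ f) (hy.2 _ _ _ (h.cyc _ _ _ f))
      (hy.2 _ _ _ (h.cyc _ _ _ (h.cyc _ _ _ f))), if_neg (c := ori (p d.1.1) (p d.1.2) y < 0 ∧ _),
      sub_zero]
    rintro ⟨a1, a2, a3⟩
    have := ori_sum (p d.1.1) (p d.1.2) (p d.th) y
    linarith [h.pos _ _ _ f]
  by_contra hn
  push Not at hn
  have f1 := h.cyc _ _ _ e
  have f2 := h.cyc _ _ _ f1
  have : ({⟨(a', b'), c', e'⟩, ⟨(a, b), c, e⟩, ⟨(b, c), a, f1⟩, ⟨(c, a), b, f2⟩} : Finset (Dt F)) ⊆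
      univ.filter I := by
    intro d hd
    simp only [mem_insert, mem_singleton] at hd
    refine mem_filter.2 ⟨mem_univ _, ?_⟩
    rcases hd with rfl | rfl | rfl | rfl <;> simp only [I]
    · rw [h.th_eq e']; exact i'
    · rw [h.th_eq e]; exact i
    · rw [h.th_eq f1]; exact ⟨i.2.1, i.2.2, i.1⟩
    · rw [h.th_eq f2]; exact ⟨i.2.2, i.1, i.2.1⟩
  have h6 := card_le_card this
  rw [card_insert_of_notMem, card_insert_of_notMem, card_pair] at h6
  · omega
  · exact fun e => h.ne' f1 (congrArg (·.1.1) e)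
  · simp only [mem_insert, mem_singleton, not_or]
    exact ⟨fun e' => h.ne' e (congrArg (·.1.1) e'), fun e' => h.ne' f2 (congrArg (·.1.1) e').symm⟩
  · simp only [mem_insert, mem_singleton, not_or]
    exact ⟨fun e => hn.1 (congrArg (·.1.1) e), fun e => hn.2.1 (congrArg (·.1.1) e),
      fun e => hn.2.2 (congrArg (·.1.1) e)⟩

include h in
theorem cover {y : ℂ} (hy : Gnr F p y) {v : W} (hv : v ≠ o1 ∧ v ≠ o2 ∧ v ≠ o3)
    (h0 : ∃ b c, F v b c) : ∃ b c, F v b c ∧ 0 < ori (p v) (p b) y ∧ 0 < ori (p c) (p v) y := by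
  by_contra hn
  push Not at hn
  have nxt : ∀ b c, F v b c → ∃ d, F v c d := fun b c e =>
    (h.rev _ _ _ (h.cyc _ _ _ (h.cyc _ _ _ e))).resolve_right (by
      rintro (⟨-, e⟩ | ⟨-, e⟩ | ⟨-, e⟩) <;> simp [e] at hv)
  have key : ∀ S : Finset W, S.Nonempty → (∀ b ∈ S, ∃ c ∈ S, F v b c ∧
      0 < ori (p v) (p b) y * ori (p v) (p c) y) → False := fun S hS hc => by
    obtain ⟨b, hb, hm⟩ := exists_max_image S (fun b => (((p b).re - (p v).re) * (y.re - (p v).re) +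
      ((p b).im - (p v).im) * (y.im - (p v).im)) / ori (p v) (p b) y) hS
    obtain ⟨c, hc, e, hs⟩ := hc b hb
    have h1 := hm c hc
    have h2 := h.pos _ _ _ e
    have n1 := left_ne_zero_of_mul hs.ne'
    have n2 := right_ne_zero_of_mul hs.ne'
    rw [← sub_nonneg, div_sub_div _ _ n1 n2, div_nonneg_iff] at h1
    have h3 : 0 < (y.re - (p v).re) ^ 2 + (y.im - (p v).im) ^ 2 := by
      have := sub_ne_zero.2 (hy.1 v).symm
      positivity
    have := (h1.resolve_right fun e => e.2.not_gt hs).1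
    have := mul_pos h2 h3
    unfold ori at *
    nlinarith
  by_cases hR : ∃ b c, F v b c ∧ 0 < ori (p v) (p b) y
  · obtain ⟨b0, c0, e0, h1⟩ := hR
    refine key (univ.filter fun b => (∃ c, F v b c) ∧ 0 < ori (p v) (p b) y)
      ⟨b0, by simpa using ⟨⟨c0, e0⟩, h1⟩⟩ fun b hb => ?_
    obtain ⟨⟨c, e⟩, h2⟩ := (mem_filter.1 hb).2
    obtain ⟨d, e'⟩ := nxt b c e
    have h3 : 0 < ori (p v) (p c) y := by
      have := hn b c e h2
      rw [ori_swap] at this
      exact lt_of_le_of_ne (by linarith) (hy.2 _ _ _ e').symm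
    exact ⟨c, by simpa using ⟨⟨d, e'⟩, h3⟩, e, mul_pos h2 h3⟩
  · push Not at hR
    obtain ⟨b0, c0, e0⟩ := h0
    refine key (univ.filter fun b => ∃ c, F v b c) ⟨b0, by simpa using ⟨c0, e0⟩⟩ fun b hb => ?_
    obtain ⟨c, e⟩ := (mem_filter.1 hb).2
    obtain ⟨d, e'⟩ := nxt b c e
    exact ⟨c, by simpa using ⟨d, e'⟩, e, mul_pos_of_neg_of_neg
      ((hR b c e).lt_of_ne (hy.2 _ _ _ e)) ((hR c d e').lt_of_ne (hy.2 _ _ _ e'))⟩

include h in
theorem exists_gnr {O : Set ℂ} {y : ℂ} (hO : O ∈ 𝓝 y) : ∃ y' ∈ O, Gnr F p y' := by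
  have c : Continuous fun t : ℝ => y + (t + t ^ 2 * Complex.I) := by fun_prop
  have h1 : ∀ᶠ t : ℝ in 𝓝[≠] 0, y + (t + t ^ 2 * Complex.I) ∈ O :=
    nhdsWithin_le_nhds (c.continuousAt.preimage_mem_nhds (by simpa using hO))
  have h2 : ∀ᶠ t : ℝ in 𝓝[≠] 0, ∀ a, (p a).re ≠ (y + (t + t ^ 2 * Complex.I)).re :=
    eventually_all.2 fun a => (quad_ne (c0 := y.re - (p a).re) (c1 := 1) (c2 := 0)
      (Or.inl one_ne_zero)).mono fun t ht e => ht (by
        rw [e]; simp [pow_two])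
  have h3 : ∀ᶠ t : ℝ in 𝓝[≠] 0, ∀ d : Dt F,
      ori (p d.1.1) (p d.1.2) (y + (t + t ^ 2 * Complex.I)) ≠ 0 :=
    eventually_all.2 fun d => (quad_ne (c0 := ori (p d.1.1) (p d.1.2) y)
      (c1 := (p d.1.1).im - (p d.1.2).im) (c2 := (p d.1.2).re - (p d.1.1).re) (by
        by_contra hn
        push Not at hn
        exact h.ne d.face (Complex.ext (by linarith [hn.2]) (by linarith [hn.1])))).mono
      fun t ht e => ht (by
        rw [← e]; simp [ori, pow_two]; ring)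
  obtain ⟨t, a1, a2, a3⟩ := (h1.and (h2.and h3)).exists
  exact ⟨_, a1, a2, fun a b c e => a3 ⟨(a, b), c, e⟩⟩

end Tri

theorem in_face {a b c y : ℂ} {ra rb rc μ : ℝ} (hμ : 0 < μ) (ha : 0 < ra) (hb : μ ≤ rb)
    (hc : μ ≤ rc) (e1 : ‖b - a‖ = ra + rb) (e2 : ‖c - b‖ = rb + rc) (e3 : ‖a - c‖ = rc + ra)
    (h0 : 0 < ori a b c) (h1 : 0 < ori a b y) (h2 : 0 < ori c a y)
    (h3 : ‖y - a‖ ^ 2 < ra ^ 2 + 2 * ra * μ) : 0 < ori b c y := by
  by_contra hn
  have s := ori_sum a b c y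
  have e1 := congrArg (· ^ 2) e1
  have e2 := congrArg (· ^ 2) e2
  have e3 := congrArg (· ^ 2) e3
  simp only [Complex.sq_norm, Complex.normSq_apply, Complex.sub_re, Complex.sub_im] at e1 e2 e3 h3
  have k : ori a b c ^ 2 * ((y.re - a.re) * (y.re - a.re) + (y.im - a.im) * (y.im - a.im)) =
      (ori c a y + ori a b y) ^ 2 * ra ^ 2 +
        2 * ra * (ori c a y + ori a b y) * (ori c a y * rb + ori a b y * rc) +
        (ori c a y * rb - ori a b y * rc) ^ 2 := by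
    have k1 : ori a b c * (y.re - a.re) = ori c a y * (b.re - a.re) + ori a b y * (c.re - a.re) := by
      unfold ori; ring
    have k2 : ori a b c * (y.im - a.im) = ori c a y * (b.im - a.im) + ori a b y * (c.im - a.im) := by
      unfold ori; ring
    generalize ori c a y = l at *
    generalize ori a b y = m at *
    linear_combination (ori a b c * (y.re - a.re) + (l * (b.re - a.re) + m * (c.re - a.re))) * k1 +
      (ori a b c * (y.im - a.im) + (l * (b.im - a.im) + m * (c.im - a.im))) * k2 +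
      (l ^ 2 + l * m) * e1 + (m ^ 2 + l * m) * e3 - l * m * e2
  generalize ori c a y = l at *
  generalize ori a b y = m at *
  generalize ori a b c = T at *
  have t1 : T ≤ l + m := by linarith
  have t2 : T ^ 2 ≤ (l + m) ^ 2 := by gcongr
  have t3 : (l + m) * μ ≤ l * rb + m * rc := by nlinarith
  have t4 := mul_lt_mul_of_pos_left h3 (pow_pos h0 2)
  have t5 : T ^ 2 * (ra ^ 2 + 2 * ra * μ) ≤ (l + m) ^ 2 * (ra ^ 2 + 2 * ra * μ) := by gcongr
  have t6 : 2 * ra * (l + m) * ((l + m) * μ) ≤ 2 * ra * (l + m) * (l * rb + m * rc) := by gcongr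
  nlinarith [sq_nonneg (l * rb - m * rc)]

theorem Tri.apart [Fintype W] {F : W → W → W → Prop} {o1 o2 o3 : W} {p : W → ℂ}
    (h : Tri F o1 o2 o3 p) {r : W → ℝ} (hr : ∀ v, 0 < r v)
    (hl : ∀ a b c, F a b c → ‖p b - p a‖ = r a + r b) {u v : W} (hu : u ≠ o1 ∧ u ≠ o2 ∧ u ≠ o3)
    (hv : v ≠ o1 ∧ v ≠ o2 ∧ v ≠ o3) (hu' : ∃ b c, F u b c) (hv' : ∃ b c, F v b c) (huv : u ≠ v)
    (h1 : ¬∃ c, F u v c) (h2 : ¬∃ c, F v u c) : r u + r v < ‖p v - p u‖ := by
  by_contra hn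
  push Not at hn
  obtain ⟨m, -, hm⟩ := exists_min_image univ r ⟨u, mem_univ _⟩
  have s0 := add_pos (hr u) (hr v)
  have o : ∀ a, IsOpen {y : ℂ | ‖y - p a‖ ^ 2 < r a ^ 2 + 2 * r a * r m} := fun a =>
    isOpen_lt (by fun_prop) continuous_const
  have k : ∀ a, ∀ y : ℂ, ‖y - p a‖ ≤ r a → ‖y - p a‖ ^ 2 < r a ^ 2 + 2 * r a * r m := fun a y e =>
    lt_add_of_le_of_pos (by gcongr) (by have := hr a; have := hr m; positivity)
  obtain ⟨y, ⟨y1, y2⟩, hy⟩ := h.exists_gnr (((o u).inter (o v)).mem_nhds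
    (x := p u + (r u / (r u + r v) : ℝ) * (p v - p u)) ⟨k u _ (by
      rw [add_sub_cancel_left, norm_mul, Complex.norm_real,
        Real.norm_of_nonneg (div_pos (hr u) s0).le, div_mul_eq_mul_div, div_le_iff₀ s0]
      gcongr
      exact (hr u).le), k v _ (by
      rw [show p u + (r u / (r u + r v) : ℝ) * (p v - p u) - p v =
        -((r v / (r u + r v) : ℝ) * (p v - p u)) by
          have : (r u : ℂ) + r v ≠ 0 := by exact_mod_cast s0.ne'
          push_cast; field_simp; ring, norm_neg, norm_mul, Complex.norm_real,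
        Real.norm_of_nonneg (div_pos (hr v) s0).le, div_mul_eq_mul_div, div_le_iff₀ s0]
      gcongr
      exact (hr v).le)⟩)
  have inn : ∀ a b c, F a b c → 0 < ori (p a) (p b) y → 0 < ori (p c) (p a) y →
      ‖y - p a‖ ^ 2 < r a ^ 2 + 2 * r a * r m → 0 < ori (p b) (p c) y := fun a b c e =>
    in_face (hr m) (hr a) (hm b (mem_univ _)) (hm c (mem_univ _)) (hl _ _ _ e)
      (hl _ _ _ (h.cyc _ _ _ e)) (hl _ _ _ (h.cyc _ _ _ (h.cyc _ _ _ e))) (h.pos _ _ _ e)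
  obtain ⟨b, c, e, a1, a2⟩ := h.cover hy hu hu'
  obtain ⟨b', c', e', b1, b2⟩ := h.cover hy hv hv'
  rcases h.once hy e e' ⟨a1, inn _ _ _ e a1 a2 y1, a2⟩ ⟨b1, inn _ _ _ e' b1 b2 y2, b2⟩ with
    rfl | rfl | rfl
  exacts [huv rfl, h1 ⟨c, e⟩, h2 ⟨b, h.cyc _ _ _ (h.cyc _ _ _ e)⟩]

end Pool.Agent.P.MP_27dab6_co
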