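import Pool.Agent.P.MP_27dab6_co.KGeo

/-!
Splitting an inner vertex `x` along two neighbours `u`, `z`; the edge `u z` appears.
-/

set_option autoImplicit false

namespace Pool.Agent.P.MP_27dab6_co

open Finset Classical

variable {W : Type}

/-- the link of the new vertex -/
def Lr (F : W → W → W → Prop) (x u z : W) (R : W → W → Prop) (b e : W) : Prop :=
  (F x b e ∧ R b e) ∨ (b = z ∧ e = u)

/-- faces that go to the new vertex -/
def Rt (x : W) (R : W → W → Prop) (a b e : W) : Prop :=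
  (a = x ∧ R b e) ∨ (b = x ∧ R e a) ∨ (e = x ∧ R a b)

/-- the rotations of a triple -/
def Cy (u z x a b e : W) : Prop :=
  (a = u ∧ b = z ∧ e = x) ∨ (a = z ∧ b = x ∧ e = u) ∨ (a = x ∧ b = u ∧ e = z)

/-- faces after splitting the vertex `x` -/
def vsp (F : W → W → W → Prop) (x u z : W) (R : W → W → Prop) :
    Option W → Option W → Option W → Prop
  | some a, some b, some e => (F a b e ∧ ¬Rt x R a b e) ∨ Cy u z x a b e
  | none, some b, some e => Lr F x u z R b e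
  | some a, none, some e => Lr F x u z R e a
  | some a, some b, none => Lr F x u z R a b
  | _, _, _ => False

/-- data of a vertex split -/
structure Vs (F : W → W → W → Prop) (o1 o2 o3 x u z : W) (R : W → W → Prop) : Prop where
  xo : x ≠ o1 ∧ x ≠ o2 ∧ x ≠ o3
  du : ∃ e, F x u e
  dz : ∃ e, F x z e
  uz : u ≠ z
  nuz : ¬∃ e, F u z e
  nzu : ¬∃ e, F z u e
  c1 : ∀ a b c, F x a b → F x b c → b ≠ u → b ≠ z → (R a b ↔ R b c)
  r1 : ∀ a, F x a u → ¬R a u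
  r2 : ∀ b, F x u b → R u b
  r3 : ∀ a, F x a z → R a z
  r4 : ∀ b, F x z b → ¬R z b

variable {F : W → W → W → Prop} {o1 o2 o3 x u z : W} {R : W → W → Prop} {p : W → ℂ}

theorem Vs.symm (v : Vs F o1 o2 o3 x u z R) : Vs F o1 o2 o3 x z u fun a b => ¬R a b :=
  ⟨v.xo, v.dz, v.du, v.uz.symm, v.nzu, v.nuz, fun a b c f f' n n' => (v.c1 a b c f f' n' n).not,
    fun a f => not_not.2 (v.r3 a f), v.r4, v.r1, fun b f => not_not.2 (v.r2 b f)⟩

namespace Tri

variable (h : Tri F o1 o2 o3 p)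

include h

theorem cyc2 {a b c : W} (f : F a b c) : F c a b := h.cyc _ _ _ (h.cyc _ _ _ f)

theorem rev₁ {a b c : W} (ha : a ≠ o1 ∧ a ≠ o2 ∧ a ≠ o3) (f : F a b c) : ∃ d, F b a d :=
  (h.rev _ _ _ f).resolve_right (by unfold Out; tauto)

theorem rev₂ {a b c : W} (hb : b ≠ o1 ∧ b ≠ o2 ∧ b ≠ o3) (f : F a b c) : ∃ d, F b a d :=
  (h.rev _ _ _ f).resolve_right (by unfold Out; tauto)

variable (v : Vs F o1 o2 o3 x u z R)

include v

theorem side (b : W) :
    ((∃ e, F x b e ∧ R b e) ∨ b = z) ↔ (∃ e, F x e b ∧ R e b) ∨ b = u := by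
  constructor
  · rintro (⟨e, f, r⟩ | rfl)
    · by_cases e1 : b = u
      · exact Or.inr e1
      obtain ⟨c, f'⟩ := h.rev₁ v.xo f
      exact Or.inl ⟨c, h.cyc _ _ _ f', (v.c1 _ _ _ (h.cyc _ _ _ f') f e1
        (by rintro rfl; exact v.r4 _ f r)).2 r⟩
    · obtain ⟨e, f⟩ := v.dz
      obtain ⟨c, f'⟩ := h.rev₁ v.xo f
      exact Or.inl ⟨c, h.cyc _ _ _ f', v.r3 _ (h.cyc _ _ _ f')⟩
  · rintro (⟨e, f, r⟩ | rfl)
    · by_cases e1 : b = z
      · exact Or.inr e1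
      obtain ⟨c, f'⟩ := h.rev₂ v.xo (h.cyc2 f)
      exact Or.inl ⟨c, f', (v.c1 _ _ _ f f' (by rintro rfl; exact v.r1 _ f r) e1).1 r⟩
    · obtain ⟨e, f⟩ := v.du
      exact Or.inl ⟨e, f, v.r2 _ f⟩

theorem xu : x ≠ u ∧ x ≠ z := ⟨h.ne' v.du.choose_spec, h.ne' v.dz.choose_spec⟩

theorem dartA {a b : W} (ha : a ≠ x) (hb : b ≠ x) : (∃ e, vsp F x u z R (some a) (some b) e) ↔
    (∃ e, F a b e) ∨ (a = u ∧ b = z) ∨ (a = z ∧ b = u) := by
  constructor
  · rintro ⟨_ | e, f | f⟩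
    · exact Or.inl ⟨_, h.cyc _ _ _ f.1⟩
    · exact Or.inr (Or.inr f)
    · exact Or.inl ⟨_, f.1⟩
    · unfold Cy at f; tauto
  · rintro (⟨e, f⟩ | ⟨rfl, rfl⟩ | ⟨rfl, rfl⟩)
    · by_cases r : Rt x R a b e
      · obtain ⟨rfl, r'⟩ := (r.resolve_left fun e => ha e.1).resolve_left fun e => hb e.1
        exact ⟨none, Or.inl ⟨h.cyc2 f, r'⟩⟩
      · exact ⟨some e, Or.inl ⟨f, r⟩⟩
    · exact ⟨some x, Or.inr (Or.inl ⟨rfl, rfl, rfl⟩)⟩
    · exact ⟨none, Or.inr ⟨rfl, rfl⟩⟩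

theorem dartB {b : W} : (∃ e, vsp F x u z R (some x) (some b) e) ↔
    (∃ e, F x b e ∧ ¬R b e) ∨ b = u := by
  obtain ⟨n1, n2⟩ := h.xu v
  constructor
  · rintro ⟨_ | e, f | f⟩
    · exact (h.ne' f.1 rfl).elim
    · exact (n2 f.1).elim
    · exact Or.inl ⟨e, f.1, fun r => f.2 (Or.inl ⟨rfl, r⟩)⟩
    · unfold Cy at f; tauto
  · rintro (⟨e, f, r⟩ | rfl)
    · refine ⟨some e, Or.inl ⟨f, ?_⟩⟩
      rintro (r' | r' | r')
      exacts [r r'.2, h.ne' f r'.1.symm, h.ne' (h.cyc2 f) r'.1]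
    · exact ⟨some z, Or.inr (Or.inr (Or.inr ⟨rfl, rfl, rfl⟩))⟩

theorem dartC {a : W} : (∃ e, vsp F x u z R (some a) (some x) e) ↔
    (∃ e, F x e a ∧ ¬R e a) ∨ a = z := by
  obtain ⟨n1, n2⟩ := h.xu v
  constructor
  · rintro ⟨_ | e, f | f⟩
    · exact (h.ne' (h.cyc2 f.1) rfl).elim
    · exact (n1 f.2).elim
    · exact Or.inl ⟨e, h.cyc _ _ _ f.1, fun r => f.2 (Or.inr (Or.inl ⟨rfl, r⟩))⟩
    · unfold Cy at f; tauto
  · rintro (⟨e, f, r⟩ | rfl)
    · refine ⟨some e, Or.inl ⟨h.cyc2 f, ?_⟩⟩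
      rintro (r' | r' | r')
      exacts [h.ne' (h.cyc2 f) r'.1, r r'.2, h.ne' f r'.1.symm]
    · exact ⟨some u, Or.inr (Or.inr (Or.inl ⟨rfl, rfl, rfl⟩))⟩

omit h v in
theorem dartD {b : W} : (∃ e, vsp F x u z R none (some b) e) ↔
    (∃ e, F x b e ∧ R b e) ∨ b = z := by
  constructor
  · rintro ⟨_ | e, f⟩
    · exact f.elim
    · exact f.imp (fun f => ⟨e, f⟩) fun f => f.1
  · rintro (⟨e, f⟩ | rfl)
    exacts [⟨some e, Or.inl f⟩, ⟨some u, Or.inr ⟨rfl, rfl⟩⟩]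

omit h v in
theorem dartE {a : W} : (∃ e, vsp F x u z R (some a) none e) ↔
    (∃ e, F x e a ∧ R e a) ∨ a = u := by
  constructor
  · rintro ⟨_ | e, f⟩
    · exact f.elim
    · exact f.imp (fun f => ⟨e, f⟩) fun f => f.2
  · rintro (⟨e, f⟩ | rfl)
    exacts [⟨some e, Or.inl f⟩, ⟨some z, Or.inr ⟨rfl, rfl⟩⟩]

theorem vsp_ex (w : Option W → Option W → ℂ) (wa : ∀ a b, w b a = -w a b)
    (wc : ∀ a b c, vsp F x u z R a b c → w a b + w b c + w c a = 0) :
    ∃ q : Option W → ℂ, ∀ a b c, vsp F x u z R a b c → w a b = q b - q a := by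
  obtain ⟨n1, n2⟩ := h.xu v
  have l1 := wc (some u) (some z) (some x) (Or.inr (Or.inl ⟨rfl, rfl, rfl⟩))
  have l2 := wc none (some z) (some u) (Or.inr ⟨rfl, rfl⟩)
  let δ := w (some x) (some u) + w (some u) none
  let g : W → ℂ := fun b =>
    if ∃ e, F x b e ∧ R b e then δ + w none (some b) else w (some x) (some b)
  have gR : ∀ b, ((∃ e, F x b e ∧ R b e) ∨ b = z) → g b = δ + w none (some b) := by
    rintro b (e | rfl)
    · exact if_pos e
    · refine (if_neg fun ⟨e, f, r⟩ => v.r4 _ f r).trans ?_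
      linear_combination -l1 - l2 + wa (some u) (some b) + wa (some x) (some b)
  have gL : ∀ b, ((∃ e, F x b e ∧ ¬R b e) ∨ b = u) → g b = w (some x) (some b) := by
    rintro b (⟨e, f, r⟩ | rfl)
    · exact if_neg fun ⟨e', f', r'⟩ => r (h.uniq _ _ _ _ f' f ▸ r')
    · obtain ⟨e, f⟩ := v.du
      refine (if_pos ⟨e, f, v.r2 _ f⟩).trans ?_
      linear_combination wa none (some b)
  let w0 : W → W → ℂ := fun a b => if a = x then (if b = x then 0 else g b)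
    else if b = x then -g a else w (some a) (some b)
  have x1 : ∀ b, b ≠ x → w0 x b = g b := fun b e => (if_pos rfl).trans (if_neg e)
  have x2 : ∀ a, a ≠ x → w0 a x = -g a := fun b e => (if_neg e).trans (if_pos rfl)
  have x3 : ∀ a b, a ≠ x → b ≠ x → w0 a b = w (some a) (some b) := fun a b e e' =>
    (if_neg e).trans (if_neg e')
  have k : ∀ a b, F x a b → w0 x a + w0 a b + w0 b x = 0 := fun a b f => by
    have m1 := (h.ne' f).symm
    have m2 := h.ne' (h.cyc2 f)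
    rw [x1 _ m1, x3 _ _ m1 m2, x2 _ m2]
    by_cases r : R a b
    · rw [gR a (Or.inl ⟨b, f, r⟩), gR b ((h.side v b).2 (Or.inl ⟨a, f, r⟩))]
      linear_combination wc none (some a) (some b) (Or.inl ⟨f, r⟩) - wa none (some b)
    · rw [gL a (Or.inl ⟨b, f, r⟩), gL b ((h.side v.symm b).2 (Or.inl ⟨a, f, r⟩))]
      linear_combination wc (some x) (some a) (some b) (Or.inl ⟨f, by unfold Rt; tauto⟩) -
        wa (some x) (some b)
  obtain ⟨q, hq⟩ := h.ex w0 (fun a b => by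
      by_cases e : a = x <;> by_cases e' : b = x <;> simp [w0, e, e', wa (some a)])
    fun a b e f => by
      by_cases e1 : a = x
      · exact e1 ▸ k b e (e1 ▸ f)
      by_cases e2 : b = x
      · linear_combination (e2 ▸ k e a (e2 ▸ h.cyc _ _ _ f) : w0 b e + w0 e a + w0 a b = 0)
      by_cases e3 : e = x
      · linear_combination (e3 ▸ k a b (e3 ▸ h.cyc2 f) : w0 e a + w0 a b + w0 b e = 0)
      rw [x3 _ _ e1 e2, x3 _ _ e2 e3, x3 _ _ e3 e1]
      exact wc _ _ _ (Or.inl ⟨f, by unfold Rt; tauto⟩)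
  have gq : ∀ b e, F x b e → g b = q b - q x := fun b e f => by
    rw [← x1 _ (h.ne' f).symm, hq _ _ _ f]
  have qu := gq _ _ v.du.choose_spec
  have qz := gq _ _ v.dz.choose_spec
  have kR : ∀ b, ((∃ e, F x b e ∧ R b e) ∨ b = z) → w none (some b) = q b - (q x + δ) :=
    fun b e => by
      have := gR b e
      rcases e with ⟨e, f, -⟩ | rfl
      · linear_combination gq _ _ f - this
      · linear_combination qz - this
  have kL : ∀ b, ((∃ e, F x b e ∧ ¬R b e) ∨ b = u) → w (some x) (some b) = q b - q x :=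
    fun b e => by
      have := gL b e
      rcases e with ⟨e, f, -⟩ | rfl
      · linear_combination gq _ _ f - this
      · linear_combination qu - this
  have kz := kL z ((h.side v.symm z).2 (Or.inr rfl))
  have ku := kL u (Or.inr rfl)
  have k' : ∀ a b, (∃ e, vsp F x u z R (some a) (some b) e) → w (some a) (some b) = q b - q a :=
    fun a b f => by
      by_cases e1 : a = x
      · subst e1; exact kL _ ((h.dartB v).1 f)
      by_cases e2 : b = x
      · subst e2; rw [wa, kL _ ((h.side v.symm a).2 ((h.dartC v).1 f)), neg_sub]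
      rcases (h.dartA v e1 e2).1 f with ⟨e, f⟩ | ⟨rfl, rfl⟩ | ⟨rfl, rfl⟩
      · rw [← x3 _ _ e1 e2, hq _ _ _ f]
      · linear_combination l1 - wa (some x) (some b) + kz - ku
      · linear_combination wa (some b) (some a) - l1 + wa (some x) (some a) - kz + ku
  refine ⟨fun o => o.elim (q x + δ) q, ?_⟩
  rintro (_ | a) (_ | b) (_ | e) f <;> try exact f.elim
  · exact kR _ (dartD.1 ⟨_, f⟩)
  · rw [wa, kR _ ((h.side v a).2 (dartE.1 ⟨_, f⟩)), neg_sub]; rfl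
  · exact k' _ _ ⟨_, f⟩
  · exact k' _ _ ⟨_, f⟩

theorem vsplit (p' : Option W → ℂ)
    (hp : ∀ a b c, vsp F x u z R a b c → 0 < ori (p' a) (p' b) (p' c)) :
    Tri (vsp F x u z R) (some o1) (some o2) (some o3) p' := by
  obtain ⟨n1, n2⟩ := h.xu v
  have n3 := v.uz
  refine ⟨?_, ?_, hp, ?_, ?_, h.vsp_ex v⟩
  · rintro (_ | a) (_ | b) (_ | e) f <;> try exact f
    exact f.imp (fun f => ⟨h.cyc _ _ _ f.1, fun r => f.2 (by unfold Rt at *; tauto)⟩)
      fun f => by unfold Cy at *; tauto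
  · have k1 : ∀ a b e, Lr F x u z R a b → ¬vsp F x u z R (some a) (some b) (some e) := by
      rintro a b e (f | ⟨rfl, rfl⟩) (f' | f')
      · exact f'.2 (Or.inr (Or.inr ⟨h.uniq _ _ _ _ f'.1 (h.cyc _ _ _ f.1), f.2⟩))
      · rcases f' with ⟨rfl, rfl, -⟩ | ⟨-, rfl, -⟩ | ⟨rfl, -⟩
        exacts [v.nuz ⟨_, h.cyc _ _ _ f.1⟩, h.ne' (h.cyc2 f.1) rfl, h.ne' f.1 rfl]
      · exact v.nzu ⟨_, f'.1⟩
      · unfold Cy at f'; tauto
    have k2 : ∀ a b e e', F a b e → ¬Rt x R a b e → ¬Cy u z x a b e' := by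
      rintro a b e e' f r (⟨rfl, rfl, -⟩ | ⟨rfl, rfl, -⟩ | ⟨rfl, rfl, -⟩)
      exacts [v.nuz ⟨_, f⟩, r (Or.inr (Or.inl ⟨rfl, v.r3 _ (h.cyc _ _ _ f)⟩)),
        r (Or.inl ⟨rfl, v.r2 _ f⟩)]
    rintro (_ | a) (_ | b) (_ | e) (_ | e') f f' <;> try first | rfl | exact f.elim | exact f'.elim
    · rcases f with f | ⟨rfl, rfl⟩ <;> rcases f' with f' | ⟨e1, rfl⟩
      · rw [h.uniq _ _ _ _ f.1 f'.1]
      · subst e1; exact (v.r4 _ f.1 f.2).elim
      · exact (v.r4 _ f'.1 f'.2).elim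
      · rfl
    · rcases f with f | ⟨rfl, rfl⟩ <;> rcases f' with f' | ⟨rfl, e1⟩
      · rw [h.uniq _ _ _ _ (h.cyc2 f.1) (h.cyc2 f'.1)]
      · subst e1; exact (v.r1 _ f.1 f.2).elim
      · exact (v.r1 _ f'.1 f'.2).elim
      · rfl
    · exact (k1 _ _ _ f f').elim
    · exact (k1 _ _ _ f' f).elim
    · rcases f with f | f <;> rcases f' with f' | f'
      · rw [h.uniq _ _ _ _ f.1 f'.1]
      · exact (k2 _ _ _ _ f.1 f.2 f').elim
      · exact (k2 _ _ _ _ f'.1 f'.2 f).elim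
      · rcases f with ⟨rfl, rfl, rfl⟩ | ⟨rfl, rfl, rfl⟩ | ⟨rfl, rfl, rfl⟩ <;>
          rcases f' with ⟨e1, e2, rfl⟩ | ⟨e1, e2, rfl⟩ | ⟨e1, e2, rfl⟩ <;> tauto
  · have k : ∀ a b, (∃ e, vsp F x u z R (some a) (some b) e) →
        (∃ e, vsp F x u z R (some b) (some a) e) ∨
          Out (some o1) (some o2) (some o3) (some a) (some b) := fun a b f => by
      by_cases e1 : a = x
      · subst e1
        exact Or.inl ((h.dartC v).2 ((h.side v.symm b).1 ((h.dartB v).1 f)))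
      by_cases e2 : b = x
      · subst e2
        exact Or.inl ((h.dartB v).2 ((h.side v.symm a).2 ((h.dartC v).1 f)))
      rcases (h.dartA v e1 e2).1 f with ⟨e, f⟩ | f
      · exact (h.rev _ _ _ f).imp (fun f' => (h.dartA v e2 e1).2 (Or.inl f'))
          fun o => by simpa [Out] using o
      · exact Or.inl ((h.dartA v e2 e1).2 (Or.inr (by tauto)))
    rintro (_ | a) (_ | b) (_ | e) f <;> try exact f.elim
    · exact Or.inl (dartE.2 ((h.side v b).1 (dartD.1 ⟨_, f⟩)))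
    · exact Or.inl (dartD.2 ((h.side v a).2 (dartE.1 ⟨_, f⟩)))
    · exact k _ _ ⟨_, f⟩
    · exact k _ _ ⟨_, f⟩
  · rintro (_ | a) (_ | b) o <;> try simp [Out] at o
    obtain ⟨a1, a2⟩ := h.out a b o
    have xo := v.xo
    have e1 : a ≠ x := by rintro rfl; tauto
    have e2 : b ≠ x := by rintro rfl; tauto
    refine ⟨(h.dartA v e1 e2).2 (Or.inl a1), fun e => ?_⟩
    rcases (h.dartA v e2 e1).1 e with e | ⟨rfl, rfl⟩ | ⟨rfl, rfl⟩
    exacts [a2 e, v.nzu a1, v.nuz a1]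

end Tri

end Pool.Agent.P.MP_27dab6_co
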