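import Pool.Agent.P.MP_27dab6_co.KIns
import Pool.Agent.P.MP_27dab6_co.Coin

/-!
The circle packing theorem for a straight-line drawing, and the main theorem.
-/

set_option autoImplicit false

namespace Pool.Agent.P.MP_27dab6_co

open Finset

theorem frac_mem {a b : ℝ} (h : a * b < 0) : 0 < a / (a - b) ∧ a / (a - b) < 1 := by
  rcases mul_neg_iff.1 h with ⟨h1, h2⟩ | ⟨h1, h2⟩
  · exact ⟨div_pos h1 (by linarith), (div_lt_one (by linarith)).2 (by linarith)⟩
  · exact ⟨div_pos_of_neg_of_neg h1 (by linarith),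
      (div_lt_one_of_neg (by linarith)).2 (by linarith)⟩

theorem Cross.point {u v a b : ℂ} (h : Cross u v a b) : ∃ y, On u v y ∧ On a b y := by
  have n : ori u v a - ori u v b ≠ 0 := fun e => (mul_self_nonneg _).not_gt (sub_eq_zero.1 e ▸ h.1)
  refine ⟨_, ⟨_, (frac_mem h.2).1, (frac_mem h.2).2, ?_⟩,
    ⟨_, (frac_mem h.1).1, (frac_mem h.1).2, rfl⟩⟩
  have e : ori a b u - ori a b v = -(ori u v a - ori u v b) := by unfold ori; ring
  have k : a * (ori u v a - ori u v b : ℝ) + ori u v a * (b - a) =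
      u * (ori u v a - ori u v b : ℝ) - ori a b u * (v - u) := by
    apply Complex.ext <;> simp [ori] <;> ring
  have n' : ((ori u v a - ori u v b : ℝ) : ℂ) ≠ 0 := by exact_mod_cast n
  rw [e, Complex.ofReal_div, Complex.ofReal_div, Complex.ofReal_neg]
  field_simp
  linear_combination k

theorem koebe {V : Type} [Fintype V] (G : SimpleGraph V) (hG : ∀ u v w, G.Adj u v → ∃ z, G.Adj w z)
    (p : V → EuclideanSpace ℝ (Fin 2)) (hp : Function.Injective p)
    (h : ∀ a b x y : V, G.Adj a b → G.Adj x y → s(a, b) ≠ s(x, y) →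
      segment ℝ (p a) (p b) ∩ segment ℝ (p x) (p y) ⊆
        ({p a, p b} : Set (EuclideanSpace ℝ (Fin 2))) ∩ {p x, p y}) :
    ∃ (c : V → EuclideanSpace ℝ (Fin 2)) (r : V → ℝ), (∀ v, 0 < r v) ∧ ∀ u v : V, u ≠ v →
      r u + r v ≤ dist (c u) (c v) ∧ (G.Adj u v ↔ dist (c u) (c v) = r u + r v) := by
  let L := Complex.orthonormalBasisOneI.repr
  have hP : Function.Injective fun v => L.symm (p v) := L.symm.injective.comp hp
  have k1 : ∀ u v y, On (L.symm (p u)) (L.symm (p v)) y → L y ∈ segment ℝ (p u) (p v) := by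
    rintro u v y ⟨t, t0, t1, rfl⟩
    refine ⟨1 - t, t, by linarith, t0.le, by ring, ?_⟩
    rw [← Complex.real_smul, map_add, map_smul, map_sub, L.apply_symm_apply, L.apply_symm_apply]
    module
  have k2 : ∀ u v y, G.Adj u v → On (L.symm (p u)) (L.symm (p v)) y →
      L y ∉ ({p u, p v} : Set (EuclideanSpace ℝ (Fin 2))) := by
    rintro u v y e o (e' | e')
    · exact o.ne (hP.ne e.ne) (by rw [← e', L.symm_apply_apply])
    · exact o.symm.ne (hP.ne e.ne') (by rw [← show L y = p v from e', L.symm_apply_apply])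
  obtain ⟨q, r, a1, a2⟩ := koebe_draw G _ hP
    (fun u v w e o => k2 u v _ e o (by
      obtain ⟨z, e'⟩ := hG u v w e
      by_cases n : s(u, v) = s(w, z)
      · rcases Sym2.eq_iff.1 n with ⟨rfl, -⟩ | ⟨-, rfl⟩ <;> simp
      · exact (h u v w z e e' n ⟨k1 _ _ _ o, by simpa using left_mem_segment ℝ _ _⟩).1))
    fun u v a b e e' c => by
      obtain ⟨y, o, o'⟩ := c.point
      refine k2 u v y e o (h u v a b e e' (fun n => ?_) ⟨k1 _ _ _ o, k1 _ _ _ o'⟩).1
      rcases Sym2.eq_iff.1 n with ⟨rfl, -⟩ | ⟨rfl, -⟩ <;> simpa using c.1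
  refine ⟨fun v => L (q v), r, a1, fun u v n => ?_⟩
  rw [L.dist_map, dist_comm, dist_eq_norm]
  by_cases e : G.Adj u v
  · exact ⟨((a2 u v n).1 e).ge, iff_of_true e ((a2 u v n).1 e)⟩
  · exact ⟨((a2 u v n).2 e).le, iff_of_false e ((a2 u v n).2 e).ne'⟩

theorem planar_laman (V : Type) [Fintype V] [DecidableEq V] (G : SimpleGraph V)
    [DecidableRel G.Adj]
    (h0 : ∃ p : V → EuclideanSpace ℝ (Fin 2), Function.Injective p ∧
      ∀ a b x y : V, G.Adj a b → G.Adj x y → s(a, b) ≠ s(x, y) →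
        segment ℝ (p a) (p b) ∩ segment ℝ (p x) (p y) ⊆
          ({p a, p b} : Set (EuclideanSpace ℝ (Fin 2))) ∩ {p x, p y})
    (h1 : ((univ ×ˢ univ).filter (fun q : V × V => G.Adj q.1 q.2)).card + 6 = 4 * Fintype.card V)
    (h2 : ∀ S : Finset V, 2 ≤ S.card →
      ((S ×ˢ S).filter (fun q : V × V => G.Adj q.1 q.2)).card + 6 ≤ 4 * S.card) :
    ∃ (c : V → EuclideanSpace ℝ (Fin 2)) (r : V → ℝ), (∀ v, 0 < r v) ∧ AlgebraicIndependent ℚ r ∧
      ∀ u v : V, u ≠ v →
        r u + r v ≤ dist (c u) (c v) ∧ (G.Adj u v ↔ dist (c u) (c v) = r u + r v) := by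
  obtain ⟨p, hp, h⟩ := h0
  refine coin_laman V G (koebe G (fun u v w e => ?_) p hp h) h1 h2
  by_contra hn
  push Not at hn
  have k : ∀ a b, G.Adj a b → a ∈ univ.erase w := fun a b e' =>
    mem_erase.2 ⟨by rintro rfl; exact hn _ e', mem_univ _⟩
  have h3 := h2 (univ.erase w) (one_lt_card.2 ⟨u, k _ _ e, v, k _ _ e.symm, e.ne⟩)
  have h4 : ((univ ×ˢ univ).filter (fun q : V × V => G.Adj q.1 q.2)) ⊆
      ((univ.erase w ×ˢ univ.erase w).filter (fun q : V × V => G.Adj q.1 q.2)) := fun q hq =>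
    mem_filter.2 ⟨mem_product.2 ⟨k _ _ (mem_filter.1 hq).2, k _ _ (mem_filter.1 hq).2.symm⟩,
      (mem_filter.1 hq).2⟩
  have h5 := card_le_card h4
  have h6 := card_erase_add_one (mem_univ w)
  rw [card_univ] at h6
  omega

end Pool.Agent.P.MP_27dab6_co
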