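import Pool.Agent.P.MP_27dab6_co.Cfg

/-!
Levels of a configuration with respect to a valuation, and the budget of levels.
-/

set_option autoImplicit false

namespace Pool.Agent.P.MP_27dab6_co

open Finset Classical IsLocalRing

variable {V K : Type} [Field K]

section Ncl

variable {L L' : Type} {U : Finset V} {l : V → L} {l' : V → L'}

theorem ncl_factor (h : ∀ i ∈ U, ∀ j ∈ U, l i = l j → l' i = l' j) (hne : U.Nonempty) :
    ∃ g : L → L', ∀ i ∈ U, g (l i) = l' i := by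
  obtain ⟨i0, -⟩ := hne
  refine ⟨fun c => if h : ∃ i ∈ U, l i = c then l' h.choose else l' i0, fun i hi => ?_⟩
  have h1 : ∃ j ∈ U, l j = l i := ⟨i, hi, rfl⟩
  simp only [dif_pos h1]
  exact h _ h1.choose_spec.1 _ hi h1.choose_spec.2

theorem ncl_le_of (h : ∀ i ∈ U, ∀ j ∈ U, l i = l j → l' i = l' j) : ncl U l' ≤ ncl U l := by
  rcases U.eq_empty_or_nonempty with rfl | hne
  · simp [ncl]
  obtain ⟨g, hg⟩ := ncl_factor h hne
  unfold ncl
  rw [← image_congr (f := g ∘ l) fun i hi => hg i hi, ← image_image]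
  exact card_image_le

theorem ncl_lt_of (h : ∀ i ∈ U, ∀ j ∈ U, l i = l j → l' i = l' j) {i j : V} (hi : i ∈ U)
    (hj : j ∈ U) (e : l i ≠ l j) (e' : l' i = l' j) : ncl U l' < ncl U l := by
  obtain ⟨g, hg⟩ := ncl_factor h ⟨i, hi⟩
  refine lt_of_le_of_ne (ncl_le_of h) fun hc => e ?_
  unfold ncl at hc
  rw [← image_congr (f := g ∘ l) fun i hi => hg i hi, ← image_image, card_image_iff] at hc
  exact hc (mem_image_of_mem l hi) (mem_image_of_mem l hj) (by rw [hg i hi, hg j hj, e'])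

theorem ncl_le_card : ncl U l ≤ U.card := card_image_le

theorem ncl_pos (h : U.Nonempty) : 1 ≤ ncl U l := card_pos.2 (h.image l)

end Ncl

/-- small class at level `γ` -/
def clLt (O : ValuationSubring K) (f : V → K) (γ : O.ValueGroup) (i : V) : Set V :=
  {j | O.valuation (f i - f j) < γ}

/-- big class at level `γ` -/
def clLe (O : ValuationSubring K) (f : V → K) (γ : O.ValueGroup) (i : V) : Set V :=
  {j | O.valuation (f i - f j) ≤ γ}

section Cl

variable {O : ValuationSubring K} {f : V → K} {γ : O.ValueGroup}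

theorem val_tri_lt {i j k : V} (h1 : O.valuation (f i - f j) < γ)
    (h2 : O.valuation (f j - f k) < γ) : O.valuation (f i - f k) < γ := by
  rw [← sub_add_sub_cancel (f i) (f j) (f k)]
  exact O.valuation.map_add_lt h1 h2

theorem val_tri_le {i j k : V} (h1 : O.valuation (f i - f j) ≤ γ)
    (h2 : O.valuation (f j - f k) ≤ γ) : O.valuation (f i - f k) ≤ γ := by
  rw [← sub_add_sub_cancel (f i) (f j) (f k)]
  exact O.valuation.map_add_le h1 h2

theorem clLt_iff (hγ : γ ≠ 0) {i j : V} :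
    clLt O f γ i = clLt O f γ j ↔ O.valuation (f i - f j) < γ := by
  constructor
  · intro e
    have : j ∈ clLt O f γ j := by simpa [clLt] using zero_lt_iff.2 hγ
    rw [← e] at this
    exact this
  · intro h
    ext k
    exact ⟨fun h' => val_tri_lt (by rwa [O.valuation.map_sub_swap]) h', fun h' => val_tri_lt h h'⟩

theorem clLe_iff {i j : V} : clLe O f γ i = clLe O f γ j ↔ O.valuation (f i - f j) ≤ γ := by
  constructor
  · intro e
    have : j ∈ clLe O f γ j := by simp [clLe]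
    rw [← e] at this
    exact this
  · intro h
    ext k
    exact ⟨fun h' => val_tri_le (by rwa [O.valuation.map_sub_swap]) h', fun h' => val_tri_le h h'⟩

theorem telescope {U : Finset V} (Λ : Finset O.ValueGroup) : (∀ γ ∈ Λ, γ ≠ 0) →
    ∀ k, (∀ γ ∈ Λ, k ≤ ncl U (clLe O f γ)) → k ≤ U.card →
      ∑ γ ∈ Λ, ncl U (clLt O f γ) + k ≤ ∑ γ ∈ Λ, ncl U (clLe O f γ) + U.card := by
  induction Λ using Finset.induction_on_max with
  | empty => intro _ k _ hk; simpa using hk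
  | insert m s hm ih =>
    intro h0 k hk _
    have hms : m ∉ s := fun h => lt_irrefl _ (hm m h)
    have := ih (fun γ h => h0 γ (mem_insert_of_mem h)) (ncl U (clLt O f m))
      (fun γ h => ncl_le_of fun i _ j _ e =>
        (clLt_iff (h0 m (mem_insert_self _ _))).2 ((clLe_iff.1 e).trans_lt (hm γ h))) ncl_le_card
    have := hk m (mem_insert_self _ _)
    rw [sum_insert hms, sum_insert hms]
    omega

theorem telescope' {U : Finset V} (hU : U.Nonempty) (Λ : Finset O.ValueGroup)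
    (h0 : ∀ γ ∈ Λ, γ ≠ 0) :
    ∑ γ ∈ Λ, ncl U (clLt O f γ) + 1 ≤ ∑ γ ∈ Λ, ncl U (clLe O f γ) + U.card ∧
      (∑ γ ∈ Λ, ncl U (clLe O f γ) + U.card ≤ ∑ γ ∈ Λ, ncl U (clLt O f γ) + 1 →
        ∀ i ∈ U, ∀ j ∈ U, f i ≠ f j → O.valuation (f i - f j) ∈ Λ) := by
  refine ⟨telescope Λ h0 1 (fun _ _ => ncl_pos hU) (card_pos.2 hU), fun h i hi j hj e => ?_⟩
  by_contra hn
  have hγ : O.valuation (f i - f j) ≠ 0 := by simpa [sub_eq_zero] using e
  have h1 := telescope (f := f) (U := U) (insert (O.valuation (f i - f j)) Λ) (fun γ h => by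
    rcases mem_insert.1 h with rfl | h
    · exact hγ
    · exact h0 γ h) 1 (fun _ _ => ncl_pos hU) (card_pos.2 hU)
  have h2 : ncl U (clLe O f (O.valuation (f i - f j))) <
      ncl U (clLt O f (O.valuation (f i - f j))) :=
    ncl_lt_of (fun i _ j _ e => clLe_iff.2 ((clLt_iff hγ).1 e).le) hi hj
      (fun e => lt_irrefl _ ((clLt_iff hγ).1 e)) (clLe_iff.2 le_rfl)
  rw [sum_insert hn, sum_insert hn] at h1
  omega

end Cl

/-- `n` constraints respect the count at level `γ` -/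
def LeN (O : ValuationSubring K) (U : Finset V) (z w : V → K) (γ : O.ValueGroup) (n : ℕ) : Prop :=
  n + ncl U (clLe O z γ) + ncl U (clLe O w γ⁻¹) + 1 ≤ ncl U (clLt O z γ) + ncl U (clLt O w γ⁻¹)

/-- `n` constraints reach the count at level `γ` -/
def GeN (O : ValuationSubring K) (U : Finset V) (z w : V → K) (γ : O.ValueGroup) (n : ℕ) : Prop :=
  ncl U (clLt O z γ) + ncl U (clLt O w γ⁻¹) ≤ n + ncl U (clLe O z γ) + ncl U (clLe O w γ⁻¹) + 1

/-- the level of a pair -/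
noncomputable def lv (O : ValuationSubring K) (z : V → K) (e : Sym2 V) : O.ValueGroup :=
  O.valuation (z (fs e) - z (sn e))

theorem lv_mk (O : ValuationSubring K) (z : V → K) (i j : V) :
    lv O z s(i, j) = O.valuation (z i - z j) := by
  unfold lv
  rcases fs_sn i j with ⟨h1, h2⟩ | ⟨h1, h2⟩ <;> rw [h1, h2]
  exact O.valuation.map_sub_swap _ _

theorem budget {O : ValuationSubring K} {U : Finset V} (hU : U.Nonempty) {z w : V → K}
    (E : Finset (Sym2 V)) (M : Finset O.ValueGroup) (b : O.ValueGroup → ℕ)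
    (hne : ∀ γ ∈ M ∪ E.image (lv O z), γ ≠ 0)
    (hle : ∀ γ ∈ M ∪ E.image (lv O z), LeN O U z w γ ((E.filter (lv O z · = γ)).card + b γ))
    (hc : 2 * U.card ≤ E.card + ∑ γ ∈ M, b γ + M.card + 2) :
    (∀ γ ∈ M, GeN O U z w γ ((E.filter (lv O z · = γ)).card + b γ)) ∧
      (∀ i ∈ U, ∀ j ∈ U, z i ≠ z j → O.valuation (z i - z j) ∈ M) ∧
      ∀ i ∈ U, ∀ j ∈ U, w i ≠ w j → (O.valuation (w i - w j))⁻¹ ∈ M := by
  set Λ := M ∪ E.image (lv O z) with hΛ
  obtain ⟨z1, z2⟩ := telescope' (f := z) hU Λ hne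
  obtain ⟨w1, w2⟩ := telescope' (f := w) hU (Λ.image (·⁻¹)) fun γ h => by
    obtain ⟨γ', h', rfl⟩ := mem_image.1 h
    exact inv_ne_zero (hne γ' h')
  rw [sum_image fun _ _ _ _ e => inv_injective e, sum_image fun _ _ _ _ e => inv_injective e]
    at w1 w2
  have e1 : E.card = ∑ γ ∈ Λ, (E.filter (lv O z · = γ)).card :=
    card_eq_sum_card_fiberwise fun e he => mem_union_right _ (mem_image_of_mem _ he)
  have e2 : ∑ γ ∈ M, b γ ≤ ∑ γ ∈ Λ, b γ := sum_le_sum_of_subset subset_union_left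
  have e3 : M.card ≤ Λ.card := card_le_card subset_union_left
  have e4 := sum_le_sum hle
  have e5 : ∀ γ ∈ Λ, GeN O U z w γ ((E.filter (lv O z · = γ)).card + b γ) := fun γ hγ => by
    by_contra hn
    have := sum_lt_sum hle ⟨γ, hγ, not_le.1 hn⟩
    simp only [sum_add_distrib, ← card_eq_sum_ones] at this
    omega
  simp only [sum_add_distrib, ← card_eq_sum_ones] at e4
  have e6 : M = Λ := eq_of_subset_of_card_le subset_union_left (by omega)
  refine ⟨fun γ h => e5 γ (e6 ▸ h), fun i hi j hj e => e6 ▸ z2 (by omega) i hi j hj e,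
    fun i hi j hj e => ?_⟩
  obtain ⟨γ, h, e⟩ := mem_image.1 (w2 (by omega) i hi j hj e)
  rw [← e, inv_inv, e6]
  exact h

/-- a point of `U` in the class `C` -/
noncomputable def bas (U : Finset V) (C : Set V) (i : V) : V :=
  if h : ∃ j ∈ U, j ∈ C then h.choose else i

/-- normalised position inside the big class -/
noncomputable def pos (O₀ O : ValuationSubring K) (U : Finset V) (f : V → K)
    (γ : O₀.ValueGroup) (m : K) (i : V) : ResidueField O :=
  res O ((f i - f (bas U (clLe O₀ f γ i) i)) * m)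

/-- the classes for `O₀` are seen by `O` after multiplication by `m` -/
def Comp (O₀ O : ValuationSubring K) (U : Finset V) (f : V → K) (γ : O₀.ValueGroup) (m : K) :
    Prop :=
  ∀ i ∈ U, ∀ j ∈ U, (O₀.valuation (f i - f j) ≤ γ → (f i - f j) * m ∈ O) ∧
    (O₀.valuation (f i - f j) < γ → O.valuation ((f i - f j) * m) < 1)

theorem Comp.red {O₀ O : ValuationSubring K} {U : Finset V} {f : V → K} {γ : O₀.ValueGroup}
    {m : K} (h : Comp O₀ O U f γ m) {i j : V} (hi : i ∈ U) (hj : j ∈ U)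
    (e : O₀.valuation (f i - f j) ≤ γ) :
    Red O ((f i - f j) * m) (pos O₀ O U f γ m i - pos O₀ O U f γ m j) := by
  have e' := clLe_iff.2 e
  have h1 : ∃ k ∈ U, k ∈ clLe O₀ f γ j := ⟨j, hj, by simp [clLe]⟩
  obtain ⟨a, b⟩ := h1.choose_spec
  unfold pos bas
  rw [e', dif_pos h1, dif_pos h1]
  exact ((Red.of_mem ((h i hi _ a).1 (val_tri_le e b))).sub
    (Red.of_mem ((h j hj _ a).1 b))).congr (by ring) rfl

theorem Comp.self {O : ValuationSubring K} {U : Finset V} {f : V → K} {γ : O.ValueGroup} {m : K}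
    (hγ : γ ≠ 0) (hm : O.valuation m = γ⁻¹) : Comp O O U f γ m := fun i _ j _ => by
  have h0 := zero_lt_iff.2 hγ
  rw [← O.valuation_le_one_iff, map_mul, hm, mul_inv_le_iff₀ h0, mul_inv_lt_iff₀ h0, one_mul]
  exact ⟨id, id⟩

/-- data of a level: classes from `O₀`, positions from `O` -/
structure LD (U : Finset V) (O₀ O : ValuationSubring K) (z w : V → K) (γ : O₀.ValueGroup)
    (π : K) : Prop where
  ne : γ ≠ 0
  pne : π ≠ 0
  cz : Comp O₀ O U z γ π⁻¹
  cw : Comp O₀ O U w γ⁻¹ π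
  act : ∃ i ∈ U, ∃ j ∈ U,
    (O₀.valuation (z i - z j) ≤ γ ∧ O.valuation ((z i - z j) * π⁻¹) = 1) ∨
      (O₀.valuation (w i - w j) ≤ γ⁻¹ ∧ O.valuation ((w i - w j) * π) = 1)

namespace LD

variable {U : Finset V} {O₀ O : ValuationSubring K} {z w : V → K} {γ : O₀.ValueGroup} {π : K}

/-- the level -/
noncomputable def lev (h : LD U O₀ O z w γ π) : Lev (ResidueField O) V where
  U := U
  L := Set V
  lz := clLt O₀ z γ
  bz := clLe O₀ z γ
  lw := clLt O₀ w γ⁻¹
  bw := clLe O₀ w γ⁻¹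
  ζ := pos O₀ O U z γ π⁻¹
  ω := pos O₀ O U w γ⁻¹ π
  hz := fun _ _ _ _ e => clLe_iff.2 ((clLt_iff h.ne).1 e).le
  hw := fun _ _ _ _ e => clLe_iff.2 ((clLt_iff (inv_ne_zero h.ne)).1 e).le
  cz := fun i hi j hj e => by
    have e' := (clLt_iff h.ne).1 e
    exact sub_eq_zero.1 ((h.cz.red hi hj e'.le).unique (red_zero_iff.2 ((h.cz i hi j hj).2 e')))
  cw := fun i hi j hj e => by
    have e' := (clLt_iff (inv_ne_zero h.ne)).1 e
    exact sub_eq_zero.1 ((h.cw.red hi hj e'.le).unique (red_zero_iff.2 ((h.cw i hi j hj).2 e')))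
  act := by
    obtain ⟨i, hi, j, hj, ⟨a, b⟩ | ⟨a, b⟩⟩ := h.act
    · exact ⟨i, hi, j, hj, Or.inl ⟨clLe_iff.2 a, sub_ne_zero.1 ((h.cz.red hi hj a).ne_zero b)⟩⟩
    · exact ⟨i, hi, j, hj, Or.inr ⟨clLe_iff.2 a, sub_ne_zero.1 ((h.cw.red hi hj a).ne_zero b)⟩⟩

variable (h : LD U O₀ O z w γ π)

theorem lz_iff {i j : V} : h.lev.lz i = h.lev.lz j ↔ O₀.valuation (z i - z j) < γ :=
  clLt_iff h.ne

theorem lw_iff {i j : V} : h.lev.lw i = h.lev.lw j ↔ O₀.valuation (w i - w j) < γ⁻¹ :=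
  clLt_iff (inv_ne_zero h.ne)

theorem bz_iff {i j : V} : h.lev.bz i = h.lev.bz j ↔ O₀.valuation (z i - z j) ≤ γ := clLe_iff

theorem bw_iff {i j : V} : h.lev.bw i = h.lev.bw j ↔ O₀.valuation (w i - w j) ≤ γ⁻¹ := clLe_iff

theorem near {i j : V} (hi : i ∈ U) (hj : j ∈ U) (e1 : O₀.valuation (z i - z j) ≤ γ)
    (e2 : O₀.valuation (w i - w j) ≤ γ⁻¹) : h.lev.Near i j :=
  ⟨hi, hj, h.bz_iff.2 e1, h.bw_iff.2 e2⟩

theorem redz {i j : V} (hi : i ∈ U) (hj : j ∈ U) (e : O₀.valuation (z i - z j) ≤ γ) :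
    Red O ((z i - z j) * π⁻¹) (h.lev.ζ i - h.lev.ζ j) := h.cz.red hi hj e

theorem redw {i j : V} (hi : i ∈ U) (hj : j ∈ U) (e : O₀.valuation (w i - w j) ≤ γ⁻¹) :
    Red O ((w i - w j) * π) (h.lev.ω i - h.lev.ω j) := h.cw.red hi hj e

theorem prod {i j : V} (e : h.lev.Near i j) :
    Red O ((z i - z j) * (w i - w j)) ((h.lev.ζ i - h.lev.ζ j) * (h.lev.ω i - h.lev.ω j)) :=
  ((h.redz e.1 e.2.1 (h.bz_iff.1 e.2.2.1)).mul (h.redw e.1 e.2.1 (h.bw_iff.1 e.2.2.2))).congr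
    (by have := h.pne; field_simp) rfl

theorem le_iff {n : ℕ} : h.lev.Le n ↔ LeN O₀ U z w γ n := Iff.rfl

theorem ge_iff {n : ℕ} : h.lev.Ge n ↔ GeN O₀ U z w γ n := Iff.rfl

end LD

theorem LD.self {U : Finset V} {O : ValuationSubring K} {z w : V → K} {π : K} (hπ : π ≠ 0)
    (act : ∃ i ∈ U, ∃ j ∈ U, O.valuation (z i - z j) = O.valuation π ∨
      O.valuation (w i - w j) = (O.valuation π)⁻¹) : LD U O O z w (O.valuation π) π := by
  have h0 : O.valuation π ≠ 0 := by simpa using hπ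
  refine ⟨h0, hπ, Comp.self h0 (map_inv₀ _ _), Comp.self (inv_ne_zero h0) (inv_inv _).symm, ?_⟩
  obtain ⟨i, hi, j, hj, a | a⟩ := act
  · exact ⟨i, hi, j, hj, Or.inl ⟨a.le, by rw [map_mul, map_inv₀, a, mul_inv_cancel₀ h0]⟩⟩
  · exact ⟨i, hi, j, hj, Or.inr ⟨a.le, by rw [map_mul, a, inv_mul_cancel₀ h0]⟩⟩

theorem res_neg (O : ValuationSubring K) (x : K) : res O (-x) = -res O x := by
  by_cases h : x ∈ O
  · exact (Red.of_mem h).neg.2
  · have : -x ∉ O := fun h' => h (by simpa using O.neg_mem _ h')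
    simp [res, h, this]

/-- residue of a term of the equilibrium equation -/
noncomputable def rb (O : ValuationSubring K) (f : V → K) (m : K) (φ : V → ResidueField O)
    (e : Sym2 V) : ResidueField O :=
  res O ((f (fs e) - f (sn e)) * m) * (φ (fs e) - φ (sn e))

theorem rb_mk (O : ValuationSubring K) (f : V → K) (m : K) (φ : V → ResidueField O) (i j : V) :
    rb O f m φ s(i, j) = res O ((f i - f j) * m) * (φ i - φ j) := by
  unfold rb
  rcases fs_sn i j with ⟨h1, h2⟩ | ⟨h1, h2⟩ <;> rw [h1, h2]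
  rw [show (f j - f i) * m = -((f i - f j) * m) by ring, res_neg]
  ring

theorem lead {O : ValuationSubring K} {E : Finset (Sym2 V)} {ω : Sym2 V → K} {f : V → K}
    (hst : ∀ φ, ∑ e ∈ E, ω e * bt f φ e = 0) (hω : ∀ e ∈ E, ω e ∈ O) (m : K)
    (φ : V → ResidueField O) (hφ : ∀ e ∈ E, φ (fs e) = φ (sn e) ∨ (f (fs e) - f (sn e)) * m ∈ O) :
    ∑ e ∈ E, res O (ω e) * rb O f m φ e = 0 := by
  choose L hL using exists_lift (O := O)
  refine (Red.sum E (f := fun e => ω e * bt f (fun i => L (φ i)) e * m) fun e he => ?_).eq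
    Red.zero (by rw [← sum_mul, hst, zero_mul])
  rcases hφ e he with h | h
  · exact Red.zero.congr (by simp [bt, h]) (by simp [rb, h])
  · exact ((Red.of_mem (hω e he)).mul ((Red.of_mem h).mul ((hL _).sub (hL _)))).congr
      (by unfold bt; ring) rfl

theorem exists_norm (O : ValuationSubring K) {E : Finset (Sym2 V)} {ω : Sym2 V → K}
    (h : ∃ e ∈ E, ω e ≠ 0) :
    ∃ μ : K, μ ≠ 0 ∧ (∀ e ∈ E, μ * ω e ∈ O) ∧ ∃ e ∈ E, res O (μ * ω e) ≠ 0 := by
  obtain ⟨e0, he0, h0⟩ := h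
  obtain ⟨e, he, hm⟩ := exists_max_image E (fun e => O.valuation (ω e)) ⟨e0, he0⟩
  have h1 : O.valuation (ω e) ≠ 0 := fun e' => h0 (by
    have := hm e0 he0
    rw [e'] at this
    simpa using this)
  have h2 : ω e ≠ 0 := by simpa using h1
  refine ⟨(ω e)⁻¹, inv_ne_zero h2, fun f hf => ?_, e, he, ?_⟩
  · rw [← O.valuation_le_one_iff, map_mul, map_inv₀, inv_mul_le_iff₀ (zero_lt_iff.2 h1), mul_one]
    exact hm f hf
  · rw [inv_mul_cancel₀ h2, Red.one.2]
    exact one_ne_zero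

end Pool.Agent.P.MP_27dab6_co
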