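import Pool.Agent.P.MP_27dab6_co.Der

/-!
Linear algebra: class functions and dimension counts for contact structures.
-/

set_option autoImplicit false

namespace Pool.Agent.P.MP_27dab6_co

open Module Finset Classical

variable {κ : Type} [Field κ]

section LA

variable {X Y E : Type} [AddCommGroup X] [Module κ X] [AddCommGroup Y] [Module κ Y]
  [FiniteDimensional κ X] [Fintype E]

omit [FiniteDimensional κ X] in
theorem surj_of_free (R : X →ₗ[κ] (E → κ))
    (h : ∀ c : E → κ, (∀ x, ∑ e, c e * R x e = 0) → ∀ e, c e = 0) : Function.Surjective R := by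
  rw [← LinearMap.range_eq_top]
  by_contra hne
  obtain ⟨f, hf0, hf⟩ := Submodule.exists_le_ker_of_lt_top _ (lt_top_iff_ne_top.2 hne)
  apply hf0
  have h1 := h (fun e => f fun j => if e = j then 1 else 0) fun x => by
    have := LinearMap.pi_apply_eq_sum_univ f (R x)
    rw [LinearMap.mem_ker.1 (hf ⟨x, rfl⟩)] at this
    refine Eq.trans ?_ this.symm
    exact sum_congr rfl fun e _ => by rw [smul_eq_mul, mul_comm]
  ext y
  rw [LinearMap.comp_apply, LinearMap.pi_apply_eq_sum_univ]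
  simp [h1]

theorem count_of_surj (R : X →ₗ[κ] (E → κ)) (J : Y →ₗ[κ] X) (hJ : Function.Injective J)
    (hRJ : ∀ y, R (J y) = 0) (hR : Function.Surjective R) :
    Fintype.card E + finrank κ Y ≤ finrank κ X ∧
      (finrank κ X ≤ Fintype.card E + finrank κ Y → ∀ x, R x = 0 → ∃ y, J y = x) := by
  have h1 := LinearMap.finrank_range_add_finrank_ker R
  rw [LinearMap.range_eq_top.2 hR, finrank_top, finrank_fintype_fun_eq_card] at h1
  have h2 : LinearMap.range J ≤ LinearMap.ker R := by rintro _ ⟨y, rfl⟩; exact hRJ y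
  have h3 := LinearMap.finrank_range_of_inj hJ
  have h4 := Submodule.finrank_mono h2
  refine ⟨by omega, fun h x hx => ?_⟩
  have := Submodule.eq_of_le_of_finrank_le h2 (by omega)
  have hx' : x ∈ LinearMap.ker R := hx
  rw [← this] at hx'
  exact hx'

theorem surj_of_ker (R : X →ₗ[κ] (E → κ)) (J : Y →ₗ[κ] X) (hJ : Function.Injective J)
    (hk : ∀ x, R x = 0 → ∃ y, J y = x) (hc : Fintype.card E + finrank κ Y ≤ finrank κ X) :
    Function.Surjective R := by
  have h1 := LinearMap.finrank_range_add_finrank_ker R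
  have h2 : LinearMap.ker R ≤ LinearMap.range J := fun x hx => hk x hx
  have h3 := LinearMap.finrank_range_of_inj hJ
  have h4 := Submodule.finrank_mono h2
  rw [← LinearMap.range_eq_top]
  apply Submodule.eq_top_of_finrank_eq
  have h5 := Submodule.finrank_le (LinearMap.range R)
  rw [finrank_fintype_fun_eq_card] at h5 ⊢
  omega

end LA

/-- number of classes of the labelling `l` met by `U` -/
noncomputable def ncl {V L : Type} (U : Finset V) (l : V → L) : ℕ := (U.image l).card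

/-- `φ` is constant on the classes of `l` inside `U` -/
def ConstOn {V L A : Type} (U : Finset V) (l : V → L) (φ : V → A) : Prop :=
  ∀ i ∈ U, ∀ j ∈ U, l i = l j → φ i = φ j

/-- class functions supported on `U` -/
def CF (κ : Type) [Field κ] {V L : Type} (U : Finset V) (l : V → L) : Submodule κ (V → κ) where
  carrier := {φ | ConstOn U l φ ∧ ∀ i ∉ U, φ i = 0}
  add_mem' := by
    rintro a b ⟨ha, ha'⟩ ⟨hb, hb'⟩
    exact ⟨fun i hi j hj e => by simp [ha i hi j hj e, hb i hi j hj e],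
      fun i hi => by simp [ha' i hi, hb' i hi]⟩
  zero_mem' := ⟨fun _ _ _ _ _ => rfl, fun _ _ => rfl⟩
  smul_mem' := by
    rintro c a ⟨ha, ha'⟩
    exact ⟨fun i hi j hj e => by simp [ha i hi j hj e], fun i hi => by simp [ha' i hi]⟩

section CF

variable {V L : Type} (U : Finset V) (l : V → L)

/-- the class functions are the functions on the set of classes -/
noncomputable def cfMap : (↥(U.image l) → κ) →ₗ[κ] CF κ U l where
  toFun f := ⟨fun i => if h : i ∈ U then f ⟨l i, mem_image_of_mem l h⟩ else 0,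
    fun i hi j hj e => by simp [hi, hj, e], fun i hi => by simp [hi]⟩
  map_add' a b := by
    ext i
    by_cases h : i ∈ U <;> simp [h]
  map_smul' c a := by
    ext i
    by_cases h : i ∈ U <;> simp [h]

theorem cfMap_bij : Function.Bijective (cfMap (κ := κ) U l) := by
  constructor
  · intro a b h
    funext ⟨q, hq⟩
    obtain ⟨i, hi, rfl⟩ := mem_image.1 hq
    have := congrFun (congrArg Subtype.val h) i
    simpa [cfMap, hi] using this
  · rintro ⟨φ, h1, h2⟩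
    refine ⟨fun q => φ (mem_image.1 q.2).choose, ?_⟩
    ext i
    by_cases h : i ∈ U
    · simp only [cfMap, LinearMap.coe_mk, AddHom.coe_mk, h, dif_pos]
      have := (mem_image.1 (mem_image_of_mem l h)).choose_spec
      exact h1 _ this.1 _ h this.2
    · simp [cfMap, h, h2 i h]

instance : FiniteDimensional κ (CF κ U l) :=
  Module.Finite.of_surjective _ (cfMap_bij U l).2

theorem finrank_CF : finrank κ (CF κ U l) = ncl U l := by
  rw [← (LinearEquiv.ofBijective _ (cfMap_bij (κ := κ) U l)).finrank_eq,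
    finrank_fintype_fun_eq_card, Fintype.card_coe]
  rfl

variable {U l}

/-- restriction of a function to `U` as a class function -/
noncomputable def rs {φ : V → κ} (h : ConstOn U l φ) : CF κ U l :=
  ⟨fun i => if i ∈ U then φ i else 0, fun i hi j hj e => by simp [hi, hj, h i hi j hj e],
    fun i hi => by simp [hi]⟩

theorem rs_apply {φ : V → κ} (h : ConstOn U l φ) {i : V} (hi : i ∈ U) : (rs h).1 i = φ i :=
  if_pos hi

theorem exists_global {A : Type} [Nonempty A] {φ : V → A} (h : ConstOn U l φ) :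
    ∃ ψ : V → A, (∀ i j, l i = l j → ψ i = ψ j) ∧ ∀ i ∈ U, ψ i = φ i := by
  refine ⟨fun i => if h : ∃ j ∈ U, l j = l i then φ h.choose else Classical.arbitrary A,
    fun i j e => by simp only [e], fun i hi => ?_⟩
  have h1 : ∃ j ∈ U, l j = l i := ⟨i, hi, rfl⟩
  simp only [h1, dif_pos]
  exact h _ h1.choose_spec.1 _ hi h1.choose_spec.2

end CF

/-- Positions of the vertices of `U` at one level: small and big classes for both coordinates. -/
structure Lev (κ V : Type) [Field κ] where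
  U : Finset V
  L : Type
  lz : V → L
  bz : V → L
  lw : V → L
  bw : V → L
  ζ : V → κ
  ω : V → κ
  hz : ConstOn U lz bz
  hw : ConstOn U lw bw
  cz : ConstOn U lz ζ
  cw : ConstOn U lw ω
  act : ∃ i ∈ U, ∃ j ∈ U, (bz i = bz j ∧ ζ i ≠ ζ j) ∨ (bw i = bw j ∧ ω i ≠ ω j)

namespace Lev

variable {V : Type} (Λ : Lev κ V)

/-- `i`, `j` are vertices of the level in the same big classes -/
def Near (i j : V) : Prop := i ∈ Λ.U ∧ j ∈ Λ.U ∧ Λ.bz i = Λ.bz j ∧ Λ.bw i = Λ.bw j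

/-- the number of constraints `n` respects the dimension count -/
def Le (n : ℕ) : Prop :=
  n + ncl Λ.U Λ.bz + ncl Λ.U Λ.bw + 1 ≤ ncl Λ.U Λ.lz + ncl Λ.U Λ.lw

/-- the number of constraints `n` reaches the dimension count -/
def Ge (n : ℕ) : Prop :=
  ncl Λ.U Λ.lz + ncl Λ.U Λ.lw ≤ n + ncl Λ.U Λ.bz + ncl Λ.U Λ.bw + 1

/-- the motion is a rotation up to translations of the big classes -/
def Triv (δz δw : V → κ) : Prop :=
  ∃ θ : κ, ∀ i ∈ Λ.U, ∀ j ∈ Λ.U, (Λ.bz i = Λ.bz j → δz i - δz j = θ * (Λ.ζ i - Λ.ζ j)) ∧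
    (Λ.bw i = Λ.bw j → δw i - δw j = -θ * (Λ.ω i - Λ.ω j))

/-- linearised distance constraint of the pair `i`, `j` -/
def row (i j : V) (δz δw : V → κ) : κ :=
  (Λ.ω i - Λ.ω j) * (δz i - δz j) + (Λ.ζ i - Λ.ζ j) * (δw i - δw j)

/-- no stress on the bars `s f`, `t f` for `f ∈ Φ` -/
def SF {F : Type} (Φ : Finset F) (s t : F → V) : Prop :=
  ∀ c : F → κ,
    (∀ φ : V → κ, (∀ i j, Λ.lz i = Λ.lz j → φ i = φ j) →
      ∑ f ∈ Φ, c f * ((Λ.ω (s f) - Λ.ω (t f)) * (φ (s f) - φ (t f))) = 0) →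
    (∀ φ : V → κ, (∀ i j, Λ.lw i = Λ.lw j → φ i = φ j) →
      ∑ f ∈ Φ, c f * ((Λ.ζ (s f) - Λ.ζ (t f)) * (φ (s f) - φ (t f))) = 0) →
    ∀ f ∈ Φ, c f = 0

/-- the bars `s f`, `t f` for `f ∈ Φ` are rigid -/
def Rig {F : Type} (Φ : Finset F) (s t : F → V) : Prop :=
  ∀ δz δw : V → κ, ConstOn Λ.U Λ.lz δz → ConstOn Λ.U Λ.lw δw →
    (∀ f ∈ Φ, Λ.row (s f) (t f) δz δw = 0) → Λ.Triv δz δw

section Inc

variable {ι N F : Type} (I : Finset ι) (vx : ι → V) (nd : ι → N) (P P' : N → κ)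
  (Φ : Finset F) (s t : F → V)

/-- unknowns of the linearised contact structure -/
abbrev XS := CF κ Λ.U Λ.lz × CF κ Λ.U Λ.lw × CF κ I nd × CF κ I nd × CF κ I nd

/-- trivial motions -/
abbrev YS := CF κ Λ.U Λ.bz × CF κ Λ.U Λ.bw × κ

/-- linearised constraints -/
noncomputable def RR : Λ.XS I nd →ₗ[κ] (I ⊕ I ⊕ Φ → κ) where
  toFun x := Sum.elim
    (fun i => x.1.1 (vx i) - x.2.2.1.1 i - x.2.2.2.2.1 i * (Λ.ζ (vx i) - P (nd i)))
    (Sum.elim
      (fun i => x.2.1.1 (vx i) - x.2.2.2.1.1 i + x.2.2.2.2.1 i * (Λ.ω (vx i) - P' (nd i)))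
      fun f => Λ.row (s f) (t f) x.1.1 x.2.1.1)
  map_add' a b := by
    funext e
    rcases e with e | e | e <;> simp [row] <;> ring
  map_smul' c a := by
    funext e
    rcases e with e | e | e <;> simp [row] <;> ring

/-- the trivial motions as unknowns -/
noncomputable def JJ (hI : ∀ i ∈ I, ∀ j ∈ I, nd i = nd j → Λ.Near (vx i) (vx j)) :
    Λ.YS →ₗ[κ] Λ.XS I nd where
  toFun y :=
    (rs (φ := fun i => y.1.1 i + y.2.2 * Λ.ζ i) fun i hi j hj e => by
        simp only [y.1.2.1 i hi j hj (Λ.hz i hi j hj e), Λ.cz i hi j hj e],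
      rs (φ := fun i => y.2.1.1 i - y.2.2 * Λ.ω i) fun i hi j hj e => by
        simp only [y.2.1.2.1 i hi j hj (Λ.hw i hi j hj e), Λ.cw i hi j hj e],
      rs (φ := fun i => y.1.1 (vx i) + y.2.2 * P (nd i)) fun i hi j hj e => by
        obtain ⟨a, b, c, -⟩ := hI i hi j hj e
        simp only [y.1.2.1 _ a _ b c, e],
      rs (φ := fun i => y.2.1.1 (vx i) - y.2.2 * P' (nd i)) fun i hi j hj e => by
        obtain ⟨a, b, -, c⟩ := hI i hi j hj e
        simp only [y.2.1.2.1 _ a _ b c, e],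
      rs (φ := fun _ => y.2.2) fun _ _ _ _ _ => rfl)
  map_add' a b := by
    refine Prod.ext ?_ (Prod.ext ?_ (Prod.ext ?_ (Prod.ext ?_ ?_))) <;>
    · ext i
      simp only [rs, Prod.fst_add, Prod.snd_add, Submodule.coe_add, Pi.add_apply]
      split_ifs <;> ring
  map_smul' c a := by
    refine Prod.ext ?_ (Prod.ext ?_ (Prod.ext ?_ (Prod.ext ?_ ?_))) <;>
    · ext i
      simp only [rs, Prod.smul_fst, Prod.smul_snd, Submodule.coe_smul, Pi.smul_apply,
        smul_eq_mul, RingHom.id_apply]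
      split_ifs <;> ring

theorem JJ_inj (hI : ∀ i ∈ I, ∀ j ∈ I, nd i = nd j → Λ.Near (vx i) (vx j)) :
    Function.Injective (Λ.JJ I vx nd P P' hI) := by
  rw [injective_iff_map_eq_zero]
  intro y hy
  have h1 : ∀ i ∈ Λ.U, y.1.1 i + y.2.2 * Λ.ζ i = 0 := fun i hi => by
    have := congrFun (congrArg (fun x => x.1.1) hy) i
    simpa [JJ, rs, hi] using this
  have h2 : ∀ i ∈ Λ.U, y.2.1.1 i - y.2.2 * Λ.ω i = 0 := fun i hi => by
    have := congrFun (congrArg (fun x => x.2.1.1) hy) i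
    simpa [JJ, rs, hi] using this
  have h3 : y.2.2 = 0 := by
    obtain ⟨i, hi, j, hj, ⟨e, h⟩ | ⟨e, h⟩⟩ := Λ.act
    · have := y.1.2.1 i hi j hj e
      refine (mul_eq_zero.1 ?_).resolve_right (sub_ne_zero.2 h)
      linear_combination h1 i hi - h1 j hj - this
    · have := y.2.1.2.1 i hi j hj e
      refine (mul_eq_zero.1 ?_).resolve_right (sub_ne_zero.2 h)
      linear_combination h2 j hj - h2 i hi + this
  refine Prod.ext ?_ (Prod.ext ?_ h3)
  · ext i
    by_cases hi : i ∈ Λ.U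
    · simpa [h3] using h1 i hi
    · simpa using y.1.2.2 i hi
  · ext i
    by_cases hi : i ∈ Λ.U
    · simpa [h3] using h2 i hi
    · simpa using y.2.1.2.2 i hi

theorem RR_JJ (hI : ∀ i ∈ I, ∀ j ∈ I, nd i = nd j → Λ.Near (vx i) (vx j))
    (hΦ : ∀ f ∈ Φ, Λ.Near (s f) (t f)) (y : Λ.YS) :
    Λ.RR I vx nd P P' Φ s t (Λ.JJ I vx nd P P' hI y) = 0 := by
  funext e
  rcases e with ⟨e, he⟩ | ⟨e, he⟩ | ⟨e, he⟩
  · have := (hI e he e he rfl).1
    simp [RR, JJ, rs, this]; ring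
  · have := (hI e he e he rfl).1
    simp [RR, JJ, rs, this]; ring
  · obtain ⟨a, b, c, d⟩ := hΦ e he
    simp [RR, JJ, rs, row, a, b, y.1.2.1 _ a _ b c, y.2.1.2.1 _ a _ b d]; ring

theorem finrank_XS : finrank κ (Λ.XS I nd) = ncl Λ.U Λ.lz + ncl Λ.U Λ.lw + 3 * ncl I nd := by
  simp only [finrank_prod, finrank_CF]; ring

theorem finrank_YS : finrank κ Λ.YS = ncl Λ.U Λ.bz + ncl Λ.U Λ.bw + 1 := by
  simp only [finrank_prod, finrank_CF, finrank_self]; ring

/-- no stress on the contact structure -/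
def ISF : Prop :=
  ∀ (a b : ι → κ) (c : F → κ),
    (∀ n, ∑ i ∈ I with nd i = n, a i = 0) → (∀ n, ∑ i ∈ I with nd i = n, b i = 0) →
    (∀ n, ∑ i ∈ I with nd i = n,
      (a i * (Λ.ζ (vx i) - P (nd i)) - b i * (Λ.ω (vx i) - P' (nd i))) = 0) →
    (∀ φ : V → κ, (∀ i j, Λ.lz i = Λ.lz j → φ i = φ j) → ∑ i ∈ I, a i * φ (vx i) +
      ∑ f ∈ Φ, c f * ((Λ.ω (s f) - Λ.ω (t f)) * (φ (s f) - φ (t f))) = 0) →
    (∀ φ : V → κ, (∀ i j, Λ.lw i = Λ.lw j → φ i = φ j) → ∑ i ∈ I, b i * φ (vx i) +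
      ∑ f ∈ Φ, c f * ((Λ.ζ (s f) - Λ.ζ (t f)) * (φ (s f) - φ (t f))) = 0) →
    (∀ i ∈ I, a i = 0 ∧ b i = 0) ∧ ∀ f ∈ Φ, c f = 0

theorem RR_surj (hI : ∀ i ∈ I, vx i ∈ Λ.U) (hΦ : ∀ f ∈ Φ, Λ.Near (s f) (t f))
    (h : Λ.ISF I vx nd P P' Φ s t) : Function.Surjective (Λ.RR I vx nd P P' Φ s t) := by
  refine surj_of_free _ fun c hc => ?_
  let a : ι → κ := fun i => if h : i ∈ I then c (Sum.inl ⟨i, h⟩) else 0
  let b : ι → κ := fun i => if h : i ∈ I then c (Sum.inr (Sum.inl ⟨i, h⟩)) else 0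
  let c' : F → κ := fun f => if h : f ∈ Φ then c (Sum.inr (Sum.inr ⟨f, h⟩)) else 0
  have key : ∀ (φ ψ : V → κ) (p p' θ : ι → κ), ConstOn Λ.U Λ.lz φ → ConstOn Λ.U Λ.lw ψ →
      ConstOn I nd p → ConstOn I nd p' → ConstOn I nd θ →
      ∑ i ∈ I, a i * (φ (vx i) - p i - θ i * (Λ.ζ (vx i) - P (nd i))) +
      (∑ i ∈ I, b i * (ψ (vx i) - p' i + θ i * (Λ.ω (vx i) - P' (nd i))) +
      ∑ f ∈ Φ, c' f * Λ.row (s f) (t f) φ ψ) = 0 := by
    intro φ ψ p p' θ h1 h2 h3 h4 h5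
    refine Eq.trans ?_ (hc (rs h1, rs h2, rs h3, rs h4, rs h5))
    rw [Fintype.sum_sum_type, Fintype.sum_sum_type, ← sum_coe_sort I, ← sum_coe_sort I,
      ← sum_coe_sort Φ]
    congr 1
    · exact sum_congr rfl fun i _ => by simp [a, RR, rs, hI i i.2]
    congr 1
    · exact sum_congr rfl fun i _ => by simp [b, RR, rs, hI i i.2]
    · exact sum_congr rfl fun f _ => by simp [c', RR, rs, row, (hΦ f f.2).1, (hΦ f f.2).2.1]
  have ind : ∀ n, ConstOn I nd fun i => if nd i = n then (1 : κ) else 0 :=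
    fun n i _ j _ e => by simp [e]
  have z1 : ConstOn Λ.U Λ.lz (0 : V → κ) := fun _ _ _ _ _ => rfl
  have z2 : ConstOn Λ.U Λ.lw (0 : V → κ) := fun _ _ _ _ _ => rfl
  have z3 : ConstOn I nd (0 : ι → κ) := fun _ _ _ _ _ => rfl
  have := h a b c' (fun n => ?_) (fun n => ?_) (fun n => ?_) (fun φ hφ => ?_) (fun φ hφ => ?_)
  · rintro (⟨e, he⟩ | ⟨e, he⟩ | ⟨e, he⟩)
    · simpa [a, he] using (this.1 e he).1
    · simpa [b, he] using (this.1 e he).2
    · simpa [c', he] using this.2 e he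
  · have := key _ _ _ _ _ z1 z2 (ind n) z3 z3
    simpa [row, sum_filter] using this
  · have := key _ _ _ _ _ z1 z2 z3 (ind n) z3
    simpa [row, sum_filter] using this
  · have := key _ _ _ _ _ z1 z2 z3 z3 (ind n)
    rw [sum_filter, ← neg_eq_zero, ← sum_neg_distrib]
    refine Eq.trans ?_ this
    simp only [row, Pi.zero_apply, sub_self, mul_zero, add_zero,
      sum_const_zero, zero_sub, zero_add, ← sum_add_distrib]
    exact sum_congr rfl fun i hi => by split_ifs <;> ring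
  · have := key _ _ _ _ _ (fun i _ j _ e => hφ i j e) z2 z3 z3 z3
    simpa [row] using this
  · have := key _ _ _ _ _ z1 (fun i _ j _ e => hφ i j e) z3 z3 z3
    simpa [row] using this

theorem inc_count (hI : ∀ i ∈ I, ∀ j ∈ I, nd i = nd j → Λ.Near (vx i) (vx j))
    (hΦ : ∀ f ∈ Φ, Λ.Near (s f) (t f)) (h : Λ.ISF I vx nd P P' Φ s t) :
    2 * I.card + Φ.card + ncl Λ.U Λ.bz + ncl Λ.U Λ.bw + 1 ≤
      ncl Λ.U Λ.lz + ncl Λ.U Λ.lw + 3 * ncl I nd := by
  have := (count_of_surj _ _ (Λ.JJ_inj I vx nd P P' hI) (Λ.RR_JJ I vx nd P P' Φ s t hI hΦ)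
    (Λ.RR_surj I vx nd P P' Φ s t (fun i hi => (hI i hi i hi rfl).1) hΦ h)).1
  rw [finrank_XS, finrank_YS] at this
  simp only [Fintype.card_sum, Fintype.card_coe] at this
  omega

end Inc

section Bars

variable {F : Type} (Φ : Finset F) (s t : F → V)

theorem ncl_empty {A L : Type} (l : A → L) : ncl ∅ l = 0 := by simp [ncl]

theorem isf_of_sf (h : Λ.SF Φ s t) :
    Λ.ISF (∅ : Finset Empty) Empty.elim (id : Empty → Empty) Empty.elim Empty.elim Φ s t := by
  intro a b c _ _ _ h1 h2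
  exact ⟨by simp, h c (fun φ hφ => by simpa using h1 φ hφ) fun φ hφ => by simpa using h2 φ hφ⟩

theorem rig_of_sf (hΦ : ∀ f ∈ Φ, Λ.Near (s f) (t f)) (h : Λ.SF Φ s t) (hc : Λ.Ge Φ.card) :
    Λ.Rig Φ s t := by
  intro δz δw h1 h2 h3
  have hI : ∀ i ∈ (∅ : Finset Empty), ∀ j ∈ (∅ : Finset Empty), id i = id j →
      Λ.Near (Empty.elim i) (Empty.elim j) := fun i => i.elim
  have := (count_of_surj _ _ (Λ.JJ_inj ∅ _ _ Empty.elim Empty.elim hI)
    (Λ.RR_JJ ∅ _ _ _ _ Φ s t hI hΦ)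
    (Λ.RR_surj ∅ _ _ _ _ Φ s t (fun i => i.elim) hΦ (Λ.isf_of_sf Φ s t h))).2 (by
      rw [finrank_XS, finrank_YS, ncl_empty]
      simp only [Fintype.card_sum, Fintype.card_coe, card_empty]
      unfold Ge at hc
      omega) (rs h1, rs h2, 0, 0, 0) (by
      funext e
      rcases e with ⟨e, he⟩ | ⟨e, he⟩ | ⟨e, he⟩
      · exact e.elim
      · exact e.elim
      · have := h3 e he
        simpa [RR, row, rs, (hΦ e he).1, (hΦ e he).2.1] using this)
  obtain ⟨y, hy⟩ := this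
  have e1 : ∀ i ∈ Λ.U, y.1.1 i + y.2.2 * Λ.ζ i = δz i := fun i hi => by
    have := congrFun (congrArg (fun x => x.1.1) hy) i
    simpa [JJ, rs, hi] using this
  have e2 : ∀ i ∈ Λ.U, y.2.1.1 i - y.2.2 * Λ.ω i = δw i := fun i hi => by
    have := congrFun (congrArg (fun x => x.2.1.1) hy) i
    simpa [JJ, rs, hi] using this
  refine ⟨y.2.2, fun i hi j hj => ⟨fun e => ?_, fun e => ?_⟩⟩
  · linear_combination y.1.2.1 i hi j hj e - e1 i hi + e1 j hj
  · linear_combination y.2.1.2.1 i hi j hj e - e2 i hi + e2 j hj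

theorem surj_of_rig (h : Λ.Rig Φ s t) (hc : Λ.Le Φ.card)
    (c : F → κ) : ∃ δz δw : V → κ, ConstOn Λ.U Λ.lz δz ∧ ConstOn Λ.U Λ.lw δw ∧
      ∀ f ∈ Φ, Λ.row (s f) (t f) δz δw = c f := by
  have hI : ∀ i ∈ (∅ : Finset Empty), ∀ j ∈ (∅ : Finset Empty), id i = id j →
      Λ.Near (Empty.elim i) (Empty.elim j) := fun i => i.elim
  have := surj_of_ker (Λ.RR ∅ Empty.elim (id : Empty → Empty) Empty.elim Empty.elim Φ s t) _
    (Λ.JJ_inj ∅ _ _ Empty.elim Empty.elim hI) (fun x hx => ?_) (by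
      rw [finrank_XS, finrank_YS, ncl_empty]
      simp only [Fintype.card_sum, Fintype.card_coe, card_empty]
      unfold Le at hc
      omega)
  · obtain ⟨x, hx⟩ := this (Sum.elim (fun _ => 0) (Sum.elim (fun _ => 0) fun f => c f))
    exact ⟨x.1.1, x.2.1.1, x.1.2.1, x.2.1.2.1, fun f hf =>
      congrFun hx (Sum.inr (Sum.inr ⟨f, hf⟩))⟩
  · obtain ⟨θ, hθ⟩ := h x.1.1 x.2.1.1 x.1.2.1 x.2.1.2.1 fun f hf =>
      congrFun hx (Sum.inr (Sum.inr ⟨f, hf⟩))
    refine ⟨(rs (φ := fun i => x.1.1 i - θ * Λ.ζ i) fun i hi j hj e => ?_,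
      rs (φ := fun i => x.2.1.1 i + θ * Λ.ω i) fun i hi j hj e => ?_, θ), ?_⟩
    · linear_combination (hθ i hi j hj).1 e
    · linear_combination (hθ i hi j hj).2 e
    · refine Prod.ext ?_ (Prod.ext ?_ (Prod.ext ?_ (Prod.ext ?_ ?_)))
      · ext i
        by_cases hi : i ∈ Λ.U
        · simp [JJ, rs, hi]
        · simp [JJ, rs, hi, x.1.2.2 i hi]
      · ext i
        by_cases hi : i ∈ Λ.U
        · simp [JJ, rs, hi]
        · simp [JJ, rs, hi, x.2.1.2.2 i hi]
      all_goals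
        ext i
        exact i.elim

end Bars

end Lev

end Pool.Agent.P.MP_27dab6_co
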