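import Pool.Agent.P.MP_27dab6_co.Cfg

/-!
The easy steps of the induction: a vertex of degree two, and a vertex of degree three with a free
bar.
-/

set_option autoImplicit false

namespace Pool.Agent.P.MP_27dab6_co

open Finset Classical

variable {V K : Type} [Field K] [CharZero K]

section Conic

theorem quartic_zero {D : K → K} (hD : IsDer D) {u c0 c1 c2 c3 c4 : K} (hu : D u = 1)
    (d0 : D c0 = 0) (d1 : D c1 = 0) (d2 : D c2 = 0) (d3 : D c3 = 0) (d4 : D c4 = 0)
    (h : c0 + u * (c1 + u * (c2 + u * (c3 + u * c4))) = 0) :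
    c0 = 0 ∧ c1 = 0 ∧ c2 = 0 ∧ c3 = 0 ∧ c4 = 0 := by
  have step : ∀ a0 a1 a2 a3 a4 : K, D a0 = 0 → D a1 = 0 → D a2 = 0 → D a3 = 0 → D a4 = 0 →
      a0 + u * (a1 + u * (a2 + u * (a3 + u * a4))) = 0 →
      a1 + u * (2 * a2 + u * (3 * a3 + u * (4 * a4 + u * 0))) = 0 := by
    intro a0 a1 a2 a3 a4 e0 e1 e2 e3 e4 e
    have := congrArg D e
    simp only [hD.add, hD.mul, hD.zero, e0, e1, e2, e3, e4, hu] at this
    linear_combination this
  have n : ∀ (m : ℕ) (a : K), D a = 0 → D (m * a) = 0 := fun m a ha => by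
    rw [hD.mul, ha, hD.natCast]; ring
  have n2 : ∀ a : K, D a = 0 → D (2 * a) = 0 := fun a ha => by simpa using n 2 a ha
  have n3 : ∀ a : K, D a = 0 → D (3 * a) = 0 := fun a ha => by simpa using n 3 a ha
  have n4 : ∀ a : K, D a = 0 → D (4 * a) = 0 := fun a ha => by simpa using n 4 a ha
  have z := hD.zero
  have h1 := step _ _ _ _ _ d0 d1 d2 d3 d4 h
  have h2 := step _ _ _ _ _ d1 (n2 _ d2) (n3 _ d3) (n4 _ d4) z h1
  have h3 := step _ _ _ _ _ (n2 _ d2) (n2 _ (n3 _ d3)) (n3 _ (n4 _ d4)) (n4 _ z) z h2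
  have h4 := step _ _ _ _ _ (n2 _ (n3 _ d3)) (n2 _ (n3 _ (n4 _ d4))) (n3 _ (n4 _ z)) (n4 _ z) z h3
  have e4 : c4 = 0 := by linear_combination h4 / 24
  have e3 : c3 = 0 := by linear_combination h3 / 6 - 4 * u * e4
  have e2 : c2 = 0 := by linear_combination h2 / 2 - 3 * u * e3 - 6 * u ^ 2 * e4
  have e1 : c1 = 0 := by linear_combination h1 - 2 * u * e2 - 3 * u ^ 2 * e3 - 4 * u ^ 3 * e4
  exact ⟨by linear_combination h - u * e1 - u ^ 2 * e2 - u ^ 3 * e3 - u ^ 4 * e4, e1, e2, e3, e4⟩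

/-- the data of a triangle with velocities is constant up to a rotation -/
structure Cst (D : K → K) (p p' q q' u u' v v' : K) : Prop where
  der : IsDer D
  hp : D p = 0
  hp' : D p' = 0
  hq : D q = 0
  hq' : D q' = 0
  rot : ∃ θ, D u = θ * p ∧ D u' = -θ * p' ∧ D v = θ * q ∧ D v' = -θ * q'

omit [CharZero K] in
theorem Cst.coef {D : K → K} {p p' q q' u u' v v' : K} (h : Cst D p p' q q' u u' v v') :
    D (v' * p' - u' * q') = 0 ∧ D (-u * q' + u' * q + v * p' - v' * p) = 0 ∧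
      D (u * q - v * p) = 0 ∧ D ((p' * u + p * u') * q' - (q' * v + q * v') * p') = 0 ∧
      D (-(p' * u + p * u') * q + (q' * v + q * v') * p) = 0 := by
  obtain ⟨hD, a, b, c, d, θ, e, f, g, i⟩ := h
  simp only [hD.add, hD.sub, hD.mul, hD.neg, a, b, c, d, e, f, g, i]
  refine ⟨?_, ?_, ?_, ?_, ?_⟩ <;> ring

omit [CharZero K] in
theorem conic_eq {Z W p p' q q' u u' v v' ε ε' : K} (e1 : W * ε + Z * ε' = 0)
    (e2 : (W - p') * (ε - u) + (Z - p) * (ε' - u') = 0)
    (e3 : (W - q') * (ε - v) + (Z - q) * (ε' - v') = 0) :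
    (v' * p' - u' * q') * Z ^ 2 + (-u * q' + u' * q + v * p' - v' * p) * (Z * W) +
      (u * q - v * p) * W ^ 2 + ((p' * u + p * u') * q' - (q' * v + q * v') * p') * Z +
      (-(p' * u + p * u') * q + (q' * v + q * v') * p) * W = 0 := by
  linear_combination ((Z - p) * (W - q') - (W - p') * (Z - q)) * e1 + (Z * q' - W * q) * e2 -
    (Z * p' - W * p) * e3

omit [CharZero K] in
theorem conic_concl {p p' q q' u u' v v' : K} (hp : p ≠ 0) (hp' : p' ≠ 0) (hq : q ≠ 0)
    (hpq : p' ≠ q') (A : v' * p' - u' * q' = 0) (C : u * q - v * p = 0)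
    (E : -(p' * u + p * u') * q + (q' * v + q * v') * p = 0) :
    ∃ θ, u = θ * p ∧ u' = -θ * p' ∧ v = θ * q ∧ v' = -θ * q' := by
  have hα : p' * u + p * u' = 0 := by
    apply mul_left_cancel₀ (mul_ne_zero hq (sub_ne_zero.2 hpq))
    linear_combination (-p') * E + p * q * A - p' * q' * C
  refine ⟨u / p, by field_simp, ?_, ?_, ?_⟩
  · field_simp; linear_combination hα
  · field_simp; linear_combination -C
  · field_simp
    apply mul_left_cancel₀ hp'
    linear_combination p * A + q' * hα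

theorem conic_open {Z W A B C E F : K} {D1 D2 : K → K} (h1 : IsDer D1) (h2 : IsDer D2)
    (c1 : D1 A = 0 ∧ D1 B = 0 ∧ D1 C = 0 ∧ D1 E = 0 ∧ D1 F = 0)
    (c2 : D2 A = 0 ∧ D2 B = 0 ∧ D2 C = 0 ∧ D2 E = 0 ∧ D2 F = 0)
    (z1 : D1 Z = 1) (w1 : D1 W = 0) (z2 : D2 Z = 0) (w2 : D2 W = 1)
    (e : A * Z ^ 2 + B * (Z * W) + C * W ^ 2 + E * Z + F * W = 0) : A = 0 ∧ C = 0 ∧ F = 0 := by
  obtain ⟨a1, b1, f1, g1, i1⟩ := c1
  obtain ⟨a2, b2, f2, g2, i2⟩ := c2
  have e1 := congrArg D1 e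
  have e2 := congrArg D2 e
  simp only [h1.add, h1.mul, h1.sq, h1.zero, a1, b1, f1, g1, i1, z1, w1] at e1
  simp only [h2.add, h2.mul, h2.sq, h2.zero, a2, b2, f2, g2, i2, z2, w2] at e2
  have e1' : A * Z + A * Z + B * W + E = 0 := by linear_combination e1
  have e2' : B * Z + C * W + C * W + F = 0 := by linear_combination e2
  have e11 := congrArg D1 e1'
  have e21 := congrArg D1 e2'
  have e22 := congrArg D2 e2'
  simp only [h1.add, h1.mul, h1.zero, a1, b1, f1, g1, i1, z1, w1] at e11 e21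
  simp only [h2.add, h2.mul, h2.zero, b2, f2, i2, z2, w2] at e22
  have hC : C = 0 := by linear_combination e22 / 2
  exact ⟨by linear_combination e11 / 2, hC, by linear_combination e2' - Z * e21 - 2 * W * hC⟩

theorem conic_hyp {Z W A B C E F p p' l d : K} {D : K → K} (hD : IsDer D)
    (c : D A = 0 ∧ D B = 0 ∧ D C = 0 ∧ D E = 0 ∧ D F = 0) (hp : D p = 0) (hp' : D p' = 0)
    (hd : D d = 0) (hu : D (Z / l) = 1) (l0 : l ≠ 0) (d0 : d ≠ 0) (M0 : p * p' ≠ d ^ 2)
    (t1 : Z * W = l ^ 2) (t2 : (Z - p) * (W - p') = (l + d) ^ 2)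
    (e : A * Z ^ 2 + B * (Z * W) + C * W ^ 2 + E * Z + F * W = 0) : A = 0 ∧ C = 0 ∧ F = 0 := by
  obtain ⟨a1, b1, f1, g1, i1⟩ := c
  obtain ⟨u, rfl⟩ : ∃ u, Z = l * u := ⟨Z / l, by field_simp⟩
  rw [mul_div_cancel_left₀ _ l0] at hu
  have hW : u * W = l := mul_left_cancel₀ l0 (by linear_combination t1)
  have hM : l * (2 * d * u + p + p' * u ^ 2) = (p * p' - d ^ 2) * u := by
    linear_combination (-u) * t2 + (l * u - p) * hW
  obtain ⟨k0, k1, -, k3, k4⟩ := quartic_zero hD (c0 := (p * p' - d ^ 2) * C + F * p)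
    (c1 := 2 * d * F) (c2 := (p * p' - d ^ 2) * B + E * p + F * p') (c3 := 2 * d * E)
    (c4 := (p * p' - d ^ 2) * A + E * p') hu
    (by simp only [hD.add, hD.sub, hD.mul, hD.sq, hp, hp', hd, f1, i1]; ring)
    (by simp only [hD.mul, hD.two, hd, i1]; ring)
    (by simp only [hD.add, hD.sub, hD.mul, hD.sq, hp, hp', hd, b1, g1, i1]; ring)
    (by simp only [hD.mul, hD.two, hd, g1]; ring)
    (by simp only [hD.add, hD.sub, hD.mul, hD.sq, hp, hp', hd, a1, g1]; ring)
    (by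
      apply mul_left_cancel₀ (pow_ne_zero 2 l0)
      linear_combination (p * p' - d ^ 2) * u ^ 2 * e + l * (E * u ^ 2 + F) * hM -
        (p * p' - d ^ 2) * (B * l * u ^ 2 + C * (u * W + l) + F * u) * hW)
  have hF : F = 0 := by simpa [d0] using k1
  have hE : E = 0 := by simpa [d0] using k3
  have := sub_ne_zero.2 M0
  exact ⟨by simpa [hE, this] using k4, by simpa [hF, this] using k0, hF⟩

end Conic

variable {G B : SimpleGraph V} {z w r : V → K} {U : Finset V}

omit [CharZero K] in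
theorem Gen.move (hg : Gen G z w r U) {x : V} (hx : x ∈ U) (a b c : K)
    (h : ∀ j ∈ U, G.Adj x j → (w x - w j) * a + (z x - z j) * b = 2 * (r x + r j) * c) :
    ∃ D, IsDer D ∧ D (z x) = a ∧ D (w x) = b ∧ D (r x) = c ∧
      ∀ i ∈ U.erase x, D (z i) = 0 ∧ D (w i) = 0 ∧ D (r i) = 0 := by
  have key : ∀ j ∈ U, G.Adj x j →
      lin z w r (Pi.single x a) (Pi.single x b) (Pi.single x c) x j = 0 := fun j hj e => by
    have := h j hj e
    simp only [lin, row, Pi.single_eq_same, Pi.single_eq_of_ne e.ne']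
    linear_combination this
  obtain ⟨D, hD, h1⟩ := hg (Pi.single x a) (Pi.single x b) (Pi.single x c) fun i hi j hj e => by
    by_cases e1 : i = x
    · subst e1; exact key j hj e
    by_cases e2 : j = x
    · subst e2; rw [lin_symm]; exact key i hi e.symm
    simp [lin, row, e1, e2]
  refine ⟨D, hD, by simpa using (h1 x hx).1, by simpa using (h1 x hx).2.1,
    by simpa using (h1 x hx).2.2, fun i hi => ?_⟩
  simpa [(mem_erase.1 hi).1] using h1 i (mem_erase.1 hi).2

theorem Gen.noncol (h : Base G z w r) (hg : Gen G z w r U) {x a b : V} (hx : x ∈ U)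
    (ha : a ∈ U.erase x) (hb : b ∈ U.erase x) (hab : a ≠ b)
    (hc : ∀ j ∈ U, G.Adj x j → (w x - w a) * (z x - z j) = (w x - w j) * (z x - z a))
    (hcb : (w x - w a) * (z x - z b) = (w x - w b) * (z x - z a)) : False := by
  obtain ⟨D, hD, d1, d2, -, d4⟩ := hg.move hx (z x - z a) (-(w x - w a)) 0 fun j hj e => by
    linear_combination -hc j hj e
  have := congrArg D hcb
  simp only [hD.mul, hD.sub, d1, d2, d4 a ha, d4 b hb] at this
  have h1 := sub_ne_zero.2 (h.nz x a (mem_erase.1 ha).1.symm)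
  have h2 := sub_ne_zero.2 (h.nw a b hab)
  apply mul_ne_zero (two_ne_zero' K) (mul_ne_zero h1 h2)
  linear_combination -hcb - this

omit [CharZero K] in
theorem Triv.ext {δz δw : V → K} {x a b : V} (ht : Triv z w δz δw (U.erase x))
    (ha : a ∈ U.erase x) (hb : b ∈ U.erase x) (ra : row z w δz δw x a = 0)
    (rb : row z w δz δw x b = 0) (hd : (w x - w a) * (z x - z b) ≠ (w x - w b) * (z x - z a)) :
    Triv z w δz δw U := by
  obtain ⟨θ, hθ⟩ := ht
  obtain ⟨h1, h2⟩ := hθ a ha b hb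
  unfold row at ra rb
  have hd' := sub_ne_zero.2 hd
  have e1 : δz x - δz a = θ * (z x - z a) := by
    apply mul_left_cancel₀ hd'
    linear_combination (z x - z b) * ra - (z x - z a) * rb + (z x - z a) * (w x - w b) * h1 +
      (z x - z a) * (z x - z b) * h2
  have e2 : δw x - δw a = -θ * (w x - w a) := by
    apply mul_left_cancel₀ hd'
    linear_combination (w x - w a) * rb - (w x - w b) * ra - (w x - w a) * (w x - w b) * h1 -
      (w x - w a) * (z x - z b) * h2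
  have key : ∀ i ∈ U, δz i - δz a = θ * (z i - z a) ∧ δw i - δw a = -θ * (w i - w a) :=
    fun i hi => by
      by_cases e : i = x
      · rw [e]; exact ⟨e1, e2⟩
      · exact hθ i (mem_erase.2 ⟨e, hi⟩) a ha
  exact ⟨θ, fun i hi j hj => ⟨by linear_combination (key i hi).1 - (key j hj).1,
    by linear_combination (key i hi).2 - (key j hj).2⟩⟩

omit [CharZero K] in
theorem Triv.row {δz δw : V → K} (ht : Triv z w δz δw U) {i j : V} (hi : i ∈ U) (hj : j ∈ U) :
    row z w δz δw i j = 0 := by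
  obtain ⟨θ, hθ⟩ := ht
  unfold Pool.Agent.P.MP_27dab6_co.row
  rw [(hθ i hi j hj).1, (hθ i hi j hj).2]
  ring

/-- a motion that is trivial away from `x` is trivial, if `x` has two bars -/
theorem Gen.triv_of_erase (h : Base G z w r) (hg : Gen G z w r U) (hGB : G ≤ B) {x : V}
    (hx : x ∈ U) (h2 : 2 ≤ (nbr B U x).card) {δz δw : V → K}
    (hδ : ∀ j ∈ U, B.Adj x j → row z w δz δw x j = 0) (ht : Triv z w δz δw (U.erase x)) :
    Triv z w δz δw U := by
  obtain ⟨a, ha, b, hb, hab⟩ := one_lt_card.1 h2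
  have m : ∀ j ∈ U, B.Adj x j → j ∈ U.erase x := fun j hj e => mem_erase.2 ⟨e.ne', hj⟩
  obtain ⟨ha1, ha2⟩ := mem_nbr.1 ha
  obtain ⟨hb1, hb2⟩ := mem_nbr.1 hb
  by_contra hne
  have key : ∀ j ∈ U, B.Adj x j → (w x - w a) * (z x - z j) = (w x - w j) * (z x - z a) :=
    fun j hj e => by
      by_contra hd
      exact hne (ht.ext (m a ha1 ha2) (m j hj e) (hδ a ha1 ha2) (hδ j hj e) hd)
  exact hg.noncol h hx (m a ha1 ha2) (m b hb1 hb2) hab (fun j hj e => key j hj (hGB e))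
    (key b hb1 hb2)

/-- a vertex with three bars, one of them free -/
theorem Gen.free_bar (h : Base G z w r) (hg : Gen G z w r U) {x i j k : V} (hx : x ∈ U)
    (hi : i ∈ U.erase x) (hj : j ∈ U.erase x) (hk : k ∈ U.erase x) (hij : i ≠ j) (hik : i ≠ k)
    (hjk : j ≠ k) (hn : ∀ m ∈ U, G.Adj x m → m = i ∨ m = j) (hr : r i ≠ r j) {δz δw : V → K}
    (ri : row z w δz δw x i = 0) (rj : row z w δz δw x j = 0) (rk : row z w δz δw x k = 0)
    (hc : ∀ D, IsDer D → (∀ m ∈ U.erase x, D (z m) = 0 ∧ D (w m) = 0) →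
      Triv z w (fun m => D (δz m)) (fun m => D (δw m)) (U.erase x)) :
    Triv z w δz δw {i, j, k} := by
  have cst : ∀ D, IsDer D → (∀ m ∈ U.erase x, D (z m) = 0 ∧ D (w m) = 0 ∧ D (r m) = 0) →
      Cst D (z j - z i) (w j - w i) (z k - z i) (w k - w i) (δz j - δz i) (δw j - δw i)
        (δz k - δz i) (δw k - δw i) := fun D hD hm => by
    obtain ⟨θ, hθ⟩ := hc D hD fun m h => ⟨(hm m h).1, (hm m h).2.1⟩
    refine ⟨hD, ?_, ?_, ?_, ?_, θ, ?_, ?_, ?_, ?_⟩ <;> rw [hD.sub]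
    · simp [hm i hi, hm j hj]
    · simp [hm i hi, hm j hj]
    · simp [hm i hi, hm k hk]
    · simp [hm i hi, hm k hk]
    · exact (hθ j hj i hi).1
    · exact (hθ j hj i hi).2
    · exact (hθ k hk i hi).1
    · exact (hθ k hk i hi).2
  have e := conic_eq (Z := z x - z i) (W := w x - w i) (p := z j - z i) (p' := w j - w i)
    (q := z k - z i) (q' := w k - w i) (u := δz j - δz i) (u' := δw j - δw i) (v := δz k - δz i)
    (v' := δw k - δw i) (ε := δz x - δz i) (ε' := δw x - δw i) ri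
    (by unfold row at rj; linear_combination rj) (by unfold row at rk; linear_combination rk)
  have concl := conic_concl (q' := w k - w i) (u := δz j - δz i) (u' := δw j - δw i)
    (v := δz k - δz i) (v' := δw k - δw i) (sub_ne_zero.2 (h.nz j i hij.symm))
    (sub_ne_zero.2 (h.nw j i hij.symm)) (sub_ne_zero.2 (h.nz k i hik.symm))
    (fun e => h.nw j k hjk (by linear_combination e))
  suffices H : ∃ θ, δz j - δz i = θ * (z j - z i) ∧ δw j - δw i = -θ * (w j - w i) ∧
      δz k - δz i = θ * (z k - z i) ∧ δw k - δw i = -θ * (w k - w i) by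
    obtain ⟨θ, a1, a2, a3, a4⟩ := H
    have key : ∀ m ∈ ({i, j, k} : Finset V),
        δz m - δz i = θ * (z m - z i) ∧ δw m - δw i = -θ * (w m - w i) := fun m hm => by
      simp only [mem_insert, mem_singleton] at hm
      rcases hm with rfl | rfl | rfl
      · simp
      · exact ⟨a1, a2⟩
      · exact ⟨a3, a4⟩
    exact ⟨θ, fun m hm m' hm' => ⟨by linear_combination (key m hm).1 - (key m' hm').1,
      by linear_combination (key m hm).2 - (key m' hm').2⟩⟩
  by_cases hb : G.Adj x i ∧ G.Adj x j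
  · have t1 := h.tan x i hb.1
    have t2 := h.tan x j hb.2
    have l0 := h.ne2 x i
    have M0 := h.nint j i hij.symm
    have M1 := sub_ne_zero.2 M0
    have Z0 := sub_ne_zero.2 (h.nz x i hb.1.ne)
    obtain ⟨l, hl⟩ : ∃ l, l = r x + r i := ⟨_, rfl⟩
    obtain ⟨d, hd⟩ : ∃ d, d = r j - r i := ⟨_, rfl⟩
    obtain ⟨Z, hZ⟩ : ∃ Z, Z = z x - z i := ⟨_, rfl⟩
    obtain ⟨W, hW⟩ : ∃ W, W = w x - w i := ⟨_, rfl⟩
    obtain ⟨p, hp⟩ : ∃ p, p = z j - z i := ⟨_, rfl⟩
    obtain ⟨p', hp'⟩ : ∃ p', p' = w j - w i := ⟨_, rfl⟩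
    have t2' : (Z - p) * (W - p') = (l + d) ^ 2 := by
      rw [hZ, hW, hp, hp', hl, hd]; linear_combination t2
    obtain ⟨m, hm⟩ : ∃ m, (p * p' - d ^ 2) * Z * m = -l ^ 2 * (p' * Z - p * W) :=
      ⟨-l ^ 2 * (p' * Z - p * W) / ((p * p' - d ^ 2) * Z), by
        rw [← hp, ← hp', ← hd] at M1
        rw [← hZ] at Z0
        field_simp⟩
    rw [← hZ, ← hW, ← hl] at t1
    rw [← hp, ← hp', ← hd] at M0 M1
    rw [← hl] at l0
    rw [← hZ] at Z0
    obtain ⟨D, hD, d1, d2, d3, d4⟩ := hg.move hx (Z / l * m + l) (W / l * m - l * W / Z) m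
      fun n hn' e => by
        have k1 : W * (Z / l * m + l) + Z * (W / l * m - l * W / Z) = 2 * l * m := by
          field_simp
          linear_combination 2 * m * t1
        rcases hn n hn' e with rfl | rfl
        · rw [← hZ, ← hW, ← hl]; exact k1
        · have k2 : p' * (Z / l * m + l) + p * (W / l * m - l * W / Z) = -2 * d * m := by
            field_simp
            linear_combination hm - Z * m * t2' + Z * m * t1
          have : w x - w n = W - p' := by rw [hW, hp']; ring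
          rw [this]
          have : z x - z n = Z - p := by rw [hZ, hp]; ring
          rw [this]
          have : r x + r n = l + d := by rw [hl, hd]; ring
          rw [this]
          linear_combination k1 - k2
    have cs := cst D hD d4
    have cf := cs.coef
    rw [← hZ, ← hW] at e
    refine (fun H : _ ∧ _ ∧ _ => concl H.1 H.2.1 H.2.2) <| conic_hyp hD cf (p := p) (p' := p') (l := l) (d := d) (hp ▸ cs.hp) (hp' ▸ cs.hp')
      (by rw [hd, hD.sub, (d4 i hi).2.2, (d4 j hj).2.2, sub_self]) ?_ l0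
      (hd ▸ sub_ne_zero.2 hr.symm) M0 t1 t2' e
    have a1 : D Z = Z / l * m + l := by rw [hZ, hD.sub, d1, (d4 i hi).1, sub_zero, ← hZ]
    have a2 : D l = m := by rw [hl, hD.add, d3, (d4 i hi).2.2, add_zero]
    rw [hD.div, a1, a2]
    field_simp
    ring
  · obtain ⟨m, hm⟩ : ∃ m, ∀ n ∈ U, G.Adj x n → n = m := by
      by_cases h1 : G.Adj x i
      · exact ⟨i, fun n hn' e => (hn n hn' e).resolve_right fun e' => hb ⟨h1, e' ▸ e⟩⟩
      · exact ⟨j, fun n hn' e => (hn n hn' e).resolve_left fun e' => h1 (e' ▸ e)⟩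
    have l0 := h.ne2 x m
    obtain ⟨D1, hD1, a1, a2, -, a4⟩ := hg.move hx 1 0 ((w x - w m) / (2 * (r x + r m)))
      fun n hn' e => by rw [hm n hn' e]; field_simp; ring
    obtain ⟨D2, hD2, b1, b2, -, b4⟩ := hg.move hx 0 1 ((z x - z m) / (2 * (r x + r m)))
      fun n hn' e => by rw [hm n hn' e]; field_simp; ring
    exact (fun H : _ ∧ _ ∧ _ => concl H.1 H.2.1 H.2.2) <| conic_open hD1 hD2 (cst D1 hD1 a4).coef (cst D2 hD2 b4).coef
      (by rw [hD1.sub, a1, (a4 i hi).1, sub_zero]) (by rw [hD1.sub, a2, (a4 i hi).2.1, sub_zero])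
      (by rw [hD2.sub, b1, (b4 i hi).1, sub_zero]) (by rw [hD2.sub, b2, (b4 i hi).2.1, sub_zero]) e

end Pool.Agent.P.MP_27dab6_co
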