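import Pool.Agent.P.MP_27dab6_co.CaseD
import Pool.Agent.P.MP_27dab6_co.Small

/-!
The induction: a generic configuration of disks is rigid for every tight sparse graph with the
planar bound that contains its contacts.
-/

set_option autoImplicit false

namespace Pool.Agent.P.MP_27dab6_co

open Finset Classical

variable {V K : Type} [Field K] [CharZero K] {G : SimpleGraph V} {z w r : V → K}

omit [CharZero K] in
theorem rigid_two (h : Base G z w r) {B : SimpleGraph V} {U : Finset V} (h2 : U.card = 2)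
    (ht : Tight B U) : Rigid B z w U := fun δz δw hδ => by
  obtain ⟨e, he⟩ := card_pos.1 (show 0 < (eIn B U).card by unfold Tight at ht; omega)
  obtain ⟨m1, m2, m3⟩ := mem_eIn'.1 he
  have hU : U = {fs e, sn e} := (eq_of_subset_of_card_le
    (insert_subset m1 (singleton_subset_iff.2 m2)) (by rw [card_pair m3.ne, h2])).symm
  have z0 := sub_ne_zero.2 (h.nz _ _ m3.ne)
  have e1 := hδ _ m1 _ m2 m3
  obtain ⟨θ, hθ⟩ : ∃ θ, δz (fs e) - δz (sn e) = θ * (z (fs e) - z (sn e)) :=
    ⟨(δz (fs e) - δz (sn e)) / (z (fs e) - z (sn e)), by field_simp⟩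
  have e2 : δw (fs e) - δw (sn e) = -θ * (w (fs e) - w (sn e)) := by
    apply mul_left_cancel₀ z0
    unfold row at e1
    linear_combination e1 - (w (fs e) - w (sn e)) * hθ
  refine ⟨θ, fun i hi j hj => ?_⟩
  rw [hU] at hi hj
  simp only [mem_insert, mem_singleton] at hi hj
  rcases hi with rfl | rfl <;> rcases hj with rfl | rfl
  · simp
  · exact ⟨hθ, e2⟩
  · exact ⟨by linear_combination -hθ, by linear_combination -e2⟩
  · simp

theorem rigid_main (h : Base G z w r) (n : ℕ) : ∀ (U : Finset V) (B : SimpleGraph V),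
    U.card = n → Gen G z w r U → G ≤ B → Sparse B U → Tight B U → PM B U → Rigid B z w U := by
  induction n using Nat.strong_induction_on with
  | _ n ih =>
  intro U B hn hg hGB hs ht hp
  rcases ht.two_le.eq_or_lt with h2 | h2
  · exact rigid_two h h2.symm ht
  have lt : ∀ v ∈ U, (U.erase v).card < n := fun v hv => hn ▸ card_erase_lt_of_mem hv
  by_cases hd : ∃ x ∈ U, (nbr B U x).card < 3
  · obtain ⟨x, hx, h3⟩ := hd
    have h4 := two_le_deg hs ht h2 hx
    have := ih _ (lt x hx) _ B rfl (hg.erase h ((nbr_le hGB _ _).trans h3.le)) hGB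
      (hs.mono le_rfl (erase_subset _ _)) (by
        have := card_eIn_erase (B := B) hx
        have := card_erase_add_one hx
        unfold Tight at *
        omega) (hp.mono (erase_subset _ _))
    exact fun δz δw hδ => hg.triv_of_erase h hGB hx h4 (hδ x hx)
      (this δz δw fun i hi j hj => hδ i (mem_of_mem_erase hi) j (mem_of_mem_erase hj))
  push Not at hd
  have key : ∀ v ∈ U, (nbr B U v).card = 3 → ∃ a b c, a ≠ b ∧ a ≠ c ∧ b ≠ c ∧
      nbr B U v = {a, b, c} ∧ ¬B.Adj a b ∧ Gen G z w r (U.erase v) ∧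
      Tight (B ⊔ SimpleGraph.edge a b) (U.erase v) ∧
      Rigid (B ⊔ SimpleGraph.edge a b) z w (U.erase v) := fun v hv h3 => by
    obtain ⟨a, b, c, ab, ac, bc, e, hT⟩ := exists_admissible hs hv h3
    obtain ⟨a1, a2⟩ : a ∈ U ∧ B.Adj v a := by rw [← mem_nbr, e]; simp
    obtain ⟨b1, b2⟩ : b ∈ U ∧ B.Adj v b := by rw [← mem_nbr, e]; simp
    have ha : a ∈ U.erase v := mem_erase.2 ⟨a2.ne', a1⟩
    have hb : b ∈ U.erase v := mem_erase.2 ⟨b2.ne', b1⟩
    have nab : ¬B.Adj a b := fun e =>
      hT {a, b} (insert_subset ha (singleton_subset_iff.2 hb)) (by simp) (by simp) (tight_pair e)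
    have g := hg.erase h ((nbr_le hGB _ _).trans h3.le)
    have t : Tight (B ⊔ SimpleGraph.edge a b) (U.erase v) := by
      have := card_eIn_erase (B := B) hv
      have := card_erase_add_one hv
      unfold Tight at *
      rw [eIn_sup_edge ab, if_pos ⟨ha, hb⟩, card_insert_of_notMem fun e => nab (mem_eIn.1 e).2.2]
      omega
    exact ⟨a, b, c, ab, ac, bc, e, nab, g, t, ih _ (lt v hv) _ _ rfl g (hGB.trans le_sup_left)
      (sparse_sup_edge (hs.mono le_rfl (erase_subset _ _)) ab hT) t (hp.step hv a2 b2)⟩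
  by_contra hr
  obtain ⟨ω, st, e0, he0, h0⟩ := exists_stress h ht hr
  have nz : ∀ v ∈ U, (nbr B U v).card = 3 → ∃ j ∈ nbr B U v, ω s(v, j) ≠ 0 := fun v hv h3 => by
    by_contra hz
    push Not at hz
    obtain ⟨a, b, c, -, -, -, -, -, -, t, rg⟩ := key v hv h3
    have k : ∀ f : Sym2 V → K, ∑ e ∈ eIn B U, ω e * f e = ∑ e ∈ eIn B (U.erase v), ω e * f e :=
      fun f => by
        rw [sum_eIn_erase hv, sum_eq_zero (s := nbr B U v) fun j hj => by rw [hz j hj, zero_mul],
          add_zero]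
    have := rg.no_stress h le_sup_left t (ω := ω)
      ⟨fun φ => (k _).symm.trans (st.1 φ), fun φ => (k _).symm.trans (st.2 φ)⟩
    rw [eIn_erase hv] at he0
    rcases mem_union.1 he0 with e | e
    · exact h0 (this _ e)
    · obtain ⟨j, hj, rfl⟩ := mem_image.1 e
      exact h0 (hz j hj)
  obtain ⟨x, hx⟩ := card_pos.1 (lt_of_lt_of_le (by norm_num) (six_le ht hd))
  obtain ⟨hx, h3⟩ := mem_filter.1 hx
  obtain ⟨a, b, c, ab, ac, bc, e, nab, g, t, rg⟩ := key x hx h3
  have nb : ∀ j, j ∈ U ∧ B.Adj x j ↔ j = a ∨ j = b ∨ j = c := fun j => by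
    rw [← mem_nbr, e]; simp
  have er : ∀ j, j = a ∨ j = b ∨ j = c → j ∈ U.erase x := fun j hj =>
    mem_erase.2 ⟨((nb j).2 hj).2.ne', ((nb j).2 hj).1⟩
  have ha := er a (by simp)
  have hb := er b (by simp)
  have hc := er c (by simp)
  have rg' : ∀ δz δw : V → K,
      (∀ i ∈ U.erase x, ∀ j ∈ U.erase x, B.Adj i j → row z w δz δw i j = 0) →
      row z w δz δw a b = 0 → Triv z w δz δw (U.erase x) := fun δz δw h1 h2 =>
    rg δz δw fun i hi j hj e => by
      rcases e with e | e
      · exact h1 i hi j hj e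
      · rcases (SimpleGraph.edge_adj _ _ _ _).1 e with ⟨⟨rfl, rfl⟩ | ⟨rfl, rfl⟩, -⟩
        · exact h2
        · rw [row_symm]; exact h2
  obtain ⟨δz, δw, hδ, hab⟩ : ∃ δz δw : V → K,
      (∀ i ∈ U, ∀ j ∈ U, B.Adj i j → row z w δz δw i j = 0) ∧ row z w δz δw a b = 1 := by
    unfold Rigid at hr
    push Not at hr
    obtain ⟨δz, δw, hδ, hr⟩ := hr
    have h1 : row z w δz δw a b ≠ 0 := fun e => hr (hg.triv_of_erase h hGB hx (by omega) (hδ x hx)
      (rg' δz δw (fun i hi j hj => hδ i (mem_of_mem_erase hi) j (mem_of_mem_erase hj)) e))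
    have k : ∀ i j, row z w (fun i => δz i / row z w δz δw a b) (fun i => δw i / row z w δz δw a b)
        i j = row z w δz δw i j / row z w δz δw a b := fun i j => by
      generalize row z w δz δw a b = t
      unfold row; ring
    exact ⟨_, _, fun i hi j hj e => by rw [k, hδ i hi j hj e, zero_div], by rw [k, div_self h1]⟩
  have ind : Ind (U.erase x) (insert s(a, b) (fr G B (U.erase x))) r (bt z w) :=
    (rg.ind h g (hGB.trans le_sup_left) t).mono Subset.rfl fun f hf => by
      rcases mem_insert.1 hf with rfl | hf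
      · exact mem_sdiff.2 ⟨mem_eIn.2 ⟨ha, hb, Or.inr (by simp [SimpleGraph.edge_adj, ab])⟩,
          fun e => nab (hGB (mem_eIn.1 e).2.2)⟩
      · exact sdiff_subset_sdiff (eIn_mono le_sup_left Subset.rfl) Subset.rfl hf
  by_cases tan : G.Adj x a ∧ G.Adj x b ∧ G.Adj x c
  · refine Set3.elim ⟨h, hGB, hs, ht, hp, hd, hx, e, ab, ac, bc, tan.1, tan.2.1, tan.2.2,
      fun S hS hne a1 b1 tS => ?_, ind, st, nz⟩
    have := (ih _ (hn ▸ card_lt_card (hS.ssubset_of_ne hne)) S B rfl (hg.tight h hGB hs hS tS) hGB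
      (hs.mono le_rfl hS) tS (hp.mono hS) δz δw fun i hi j hj => hδ i (hS hi) j (hS hj)).row a1 b1
    exact one_ne_zero (hab.symm.trans this)
  · have rne : ∀ i ∈ U.erase x, ∀ j ∈ U.erase x, i ≠ j → r i ≠ r j := fun i hi j hj hij e => by
      obtain ⟨D, -, h1, -⟩ := ind (Pi.single i 1) 0
      have a1 := h1 i hi
      have a2 := h1 j hj
      rw [e, a2] at a1
      simp [hij.symm] at a1
    have hc' : ∀ D, IsDer D → (∀ m ∈ U.erase x, D (z m) = 0 ∧ D (w m) = 0) →
        Triv z w (fun m => D (δz m)) (fun m => D (δw m)) (U.erase x) := fun D hD hm => by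
      have k : ∀ i ∈ U.erase x, ∀ j ∈ U.erase x,
          row z w (fun m => D (δz m)) (fun m => D (δw m)) i j = D (row z w δz δw i j) :=
        fun i hi j hj => by
          simp only [row, hD.add, hD.mul, hD.sub, hm i hi, hm j hj]
          ring
      refine rg' _ _ (fun i hi j hj e => ?_) (by rw [k a ha b hb, hab, hD.one])
      rw [k i hi j hj, hδ i (mem_of_mem_erase hi) j (mem_of_mem_erase hj) e, hD.zero]
    have rw' : ∀ j, j = a ∨ j = b ∨ j = c → row z w δz δw x j = 0 := fun j hj =>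
      hδ x hx j ((nb j).2 hj).1 ((nb j).2 hj).2
    have fin : ∀ i j k, i ≠ j → i ≠ k → j ≠ k → ¬G.Adj x k →
        (∀ m, m = a ∨ m = b ∨ m = c ↔ m = i ∨ m = j ∨ m = k) → False :=
      fun i j k ij ik jk nk hm => by
        have mi := (hm i).2 (by simp)
        have mj := (hm j).2 (by simp)
        have mk := (hm k).2 (by simp)
        have := (hg.free_bar h hx (er i mi) (er j mj) (er k mk) ij ik jk (fun m m1 m2 => by
          rcases (hm m).1 ((nb m).1 ⟨m1, hGB m2⟩) with e | e | e
          exacts [Or.inl e, Or.inr e, (nk (e ▸ m2)).elim]) (rne i (er i mi) j (er j mj) ij)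
          (rw' i mi) (rw' j mj) (rw' k mk) hc').row (i := a) (j := b)
          (by simpa using (hm a).1 (by simp)) (by simpa using (hm b).1 (by simp))
        exact one_ne_zero (hab.symm.trans this)
    by_cases t1 : G.Adj x a
    · by_cases t2 : G.Adj x b
      · exact fin a b c ab ac bc (fun t3 => tan ⟨t1, t2, t3⟩) fun _ => Iff.rfl
      · exact fin a c b ac ab bc.symm t2 fun _ => by tauto
    · exact fin b c a bc ab.symm ac.symm t1 fun _ => by tauto

end Pool.Agent.P.MP_27dab6_co
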