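import Pool.Agent.P.MP_27dab6_co.Lin

/-!
Contact structures with independent radii carry no stress.
-/

set_option autoImplicit false

namespace Pool.Agent.P.MP_27dab6_co

open Finset Classical

variable {κ : Type} [Field κ]

theorem sum_node {ι N : Type} (I : Finset ι) (nd : ι → N) (g h : ι → κ)
    (hg : ∀ n, ∑ i ∈ I with nd i = n, g i = 0) (hh : ConstOn I nd h) :
    ∑ i ∈ I, g i * h i = 0 := by
  rw [← sum_fiberwise_of_maps_to (g := nd) (t := I.image nd) fun i hi => mem_image_of_mem _ hi]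
  refine sum_eq_zero fun n hn => ?_
  obtain ⟨j, hj, rfl⟩ := mem_image.1 hn
  rw [← zero_mul (h j), ← hg (nd j), sum_mul]
  refine sum_congr rfl fun i hi => ?_
  rw [mem_filter] at hi
  rw [hh i hi.1 j hj hi.2]

/-- `v` shares its class with another element of `S` -/
noncomputable def shr {V L : Type} (S : Finset V) (l : V → L) (v : V) : ℕ :=
  if ∃ u ∈ S, u ≠ v ∧ l u = l v then 1 else 0

theorem ncl_shr {V L : Type} (S : Finset V) (l : V → L) :
    2 * ncl S l + ∑ v ∈ S, shr S l v ≤ 2 * S.card := by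
  rw [card_eq_sum_card_fiberwise (f := l) (t := S.image l) fun i hi => mem_image_of_mem _ hi,
    ← sum_fiberwise_of_maps_to (g := l) (t := S.image l) fun i hi => mem_image_of_mem _ hi, ncl,
    card_eq_sum_ones, mul_sum, mul_sum, ← sum_add_distrib]
  refine sum_le_sum fun q hq => ?_
  obtain ⟨j, hj, rfl⟩ := mem_image.1 hq
  have h1 : 0 < (S.filter fun i => l i = l j).card := card_pos.2 ⟨j, by simp [hj]⟩
  by_cases h : (S.filter fun i => l i = l j).card = 1
  · have : ∑ v ∈ S with l v = l j, shr S l v = 0 := by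
      refine sum_eq_zero fun v hv => if_neg ?_
      rintro ⟨u, hu, hne, e⟩
      exact hne (card_le_one.1 h.le u (by simp [hu, e, (mem_filter.1 hv).2]) v hv)
    omega
  · have : ∑ v ∈ S with l v = l j, shr S l v ≤ (S.filter fun i => l i = l j).card := by
      rw [card_eq_sum_ones]
      exact sum_le_sum fun v _ => by unfold shr; split_ifs <;> omega
    omega

theorem ncl_erase {V L : Type} (S : Finset V) (l : V → L) {v : V} (hv : v ∈ S) :
    ncl (S.erase v) l + 1 ≤ ncl S l + shr S l v := by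
  unfold shr ncl
  split_ifs with h
  · have := card_le_card (image_subset_image (f := l) (erase_subset v S))
    omega
  · refine card_lt_card ⟨image_subset_image (erase_subset v S), fun h' => h ?_⟩
    obtain ⟨u, hu, e⟩ := mem_image.1 (h' (mem_image_of_mem l hv))
    exact ⟨u, (mem_erase.1 hu).2, (mem_erase.1 hu).1, e⟩

theorem ncl_const {V L : Type} {S : Finset V} (h : S.Nonempty) (q : L) :
    ncl S (fun _ => q) = 1 := by
  rw [ncl, image_const h, card_singleton]

theorem three_dirs {d1 d2 d3 f1 f2 f3 : κ} (h12 : d1 ≠ d2) (h13 : d1 ≠ d3)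
    (e0 : f1 + f2 + f3 = 0) (e1 : f1 * d1 + f2 * d2 + f3 * d3 = 0)
    (e2 : f1 * d1 ^ 2 + f2 * d2 ^ 2 + f3 * d3 ^ 2 = 0) : f1 = 0 := by
  have : f1 * ((d1 - d2) * (d1 - d3)) = 0 := by
    linear_combination e2 - (d2 + d3) * e1 + d2 * d3 * e0
  exact (mul_eq_zero.1 this).resolve_right (mul_ne_zero (sub_ne_zero.2 h12) (sub_ne_zero.2 h13))

theorem local_four [CharZero κ] {ι : Type} (K : Finset ι) (hK : K.Nonempty) (a b d : ι → κ)
    (w : ι → ℕ) (x y : ℕ) (hd : ∀ i ∈ K, d i ≠ 0) (hinj : ∀ i ∈ K, ∀ j ∈ K, d i = d j → i = j)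
    (hw : ∀ i ∈ K, w i = 2 ∨ (w i = 1 ∧ b i = a i * d i ^ 2))
    (hne : ∀ i ∈ K, a i ≠ 0 ∨ b i ≠ 0) (hx : x = 0 → ∑ i ∈ K, a i = 0)
    (hy : y = 0 → ∑ i ∈ K, b i = 0) (hl : ∑ i ∈ K, (a i * d i + b i / d i) = 0) :
    4 ≤ ∑ i ∈ K, w i + x + y := by
  by_contra hlt
  have hc : K.card ≤ ∑ i ∈ K, w i := by
    rw [card_eq_sum_ones]
    exact sum_le_sum fun i hi => by rcases hw i hi with h | h <;> omega
  have hpos := card_pos.2 hK
  have hcard : K.card = 1 ∨ K.card = 2 ∨ K.card = 3 := by omega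
  have two : (2 : κ) ≠ 0 := two_ne_zero
  have big : ∀ i ∈ K, ∀ j ∈ K, i ≠ j → b j = a j * d j ^ 2 → a i + a j = 0 → b i + b j = 0 →
      a i * d i + b i / d i + (a j * d j + b j / d j) = 0 → False := by
    intro i hi j hj hij h1 h2 h3 h4
    have di := hd i hi
    have dj := hd j hj
    have e1 : a i = -a j := by linear_combination h2
    have e2 : b i = -(a j * d j ^ 2) := by linear_combination h3 - h1
    rw [e1, e2, h1] at h4
    field_simp at h4
    have : a j * (d i - d j) ^ 2 = 0 := by linear_combination -h4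
    have : a j = 0 := (mul_eq_zero.1 this).resolve_right
      (pow_ne_zero _ (sub_ne_zero.2 fun e => hij (hinj i hi j hj e)))
    rcases hne j hj with h | h
    · exact h this
    · exact h (by rw [h1, this, zero_mul])
  rcases hcard with h | h | h
  · obtain ⟨i, rfl⟩ := card_eq_one.1 h
    simp only [sum_singleton, mem_singleton, forall_eq] at *
    rcases hw with hw | ⟨-, hw⟩
    · by_cases hx0 : x = 0
      · have := hx hx0
        rw [this, zero_mul, zero_add, div_eq_zero_iff] at hl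
        tauto
      · have := hy (by omega)
        rw [this, zero_div, add_zero, mul_eq_zero] at hl
        tauto
    · rw [hw] at hl hne
      field_simp at hl
      have : a i = 0 := by
        have : 2 * (a i * d i) = 0 := by linear_combination hl
        simpa [hd] using this
      simp [this] at hne
  · obtain ⟨i, j, hij, rfl⟩ := card_eq_two.1 h
    rw [sum_pair hij] at hlt hx hy hl
    have mi : i ∈ ({i, j} : Finset ι) := by simp
    have mj : j ∈ ({i, j} : Finset ι) := by simp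
    rcases hw i mi with wi | ⟨wi, bi⟩ <;> rcases hw j mj with wj | ⟨wj, bj⟩
    · omega
    · exact big i mi j mj hij bj (hx (by omega)) (hy (by omega)) hl
    · exact big j mj i mi hij.symm bi (by linear_combination hx (by omega))
        (by linear_combination hy (by omega)) (by linear_combination hl)
    · have di := hd i mi
      have dj := hd j mj
      have dij : d i - d j ≠ 0 := sub_ne_zero.2 fun e => hij (hinj i mi j mj e)
      rw [bi, bj] at hl
      field_simp at hl
      have e1 : a i * d i + a j * d j = 0 := by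
        apply mul_left_cancel₀ two
        linear_combination hl
      have : a i = 0 := by
        by_cases hx0 : x = 0
        · have : a i * (d i - d j) = 0 := by linear_combination e1 - d j * hx hx0
          exact (mul_eq_zero.1 this).resolve_right dij
        · have h2 := hy (by omega)
          rw [bi, bj] at h2
          have : a i * (d i * (d i - d j)) = 0 := by linear_combination h2 - d j * e1
          exact (mul_eq_zero.1 this).resolve_right (mul_ne_zero di dij)
      rcases hne i mi with h | h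
      · exact h this
      · exact h (by rw [bi, this, zero_mul])
  · obtain ⟨i, j, k, hij, hik, hjk, rfl⟩ := card_eq_three.1 h
    have mi : i ∈ ({i, j, k} : Finset ι) := by simp
    have mj : j ∈ ({i, j, k} : Finset ι) := by simp
    have mk : k ∈ ({i, j, k} : Finset ι) := by simp
    rw [sum_insert (by simp [hij, hik]), sum_pair hjk] at hlt hx hy hl
    rcases hw i mi with wi | ⟨wi, bi⟩
    · rcases hw j mj with wj | ⟨wj, -⟩ <;> rcases hw k mk with wk | ⟨wk, -⟩ <;> omega
    rcases hw j mj with wj | ⟨wj, bj⟩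
    · rcases hw k mk with wk | ⟨wk, -⟩ <;> omega
    rcases hw k mk with wk | ⟨wk, bk⟩
    · omega
    have di := hd i mi
    have dj := hd j mj
    have dk := hd k mk
    have h2 := hy (by omega)
    rw [bi, bj, bk] at hl h2
    field_simp at hl
    have : a i = 0 := three_dirs (f2 := a j) (f3 := a k) (fun e => hij (hinj i mi j mj e))
      (fun e => hik (hinj i mi k mk e)) (by linear_combination hx (by omega))
      (by apply mul_left_cancel₀ two; linear_combination hl) (by linear_combination h2)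
    rcases hne i mi with h | h
    · exact h this
    · exact h (by rw [bi, this, zero_mul])

namespace Lev

variable {V : Type} (Λ : Lev κ V) {ι N F : Type}

/-- geometry of a contact structure with radii `r` and contact directions `d` -/
structure Geo (r : V → κ) (I : Finset ι) (vx : ι → V) (nd : ι → N) (P P' : N → κ)
    (d : ι → κ) : Prop where
  hU : ∀ i ∈ I, vx i ∈ Λ.U
  hd : ∀ i ∈ I, d i ≠ 0
  hr : ∀ i ∈ I, r (vx i) ≠ 0
  hz : ∀ i ∈ I, Λ.ζ (vx i) - P (nd i) = r (vx i) * d i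
  hw : ∀ i ∈ I, Λ.ω (vx i) - P' (nd i) = r (vx i) / d i
  hq : ∀ i ∈ I, ∀ j ∈ I, nd i = nd j → d i ^ 2 = d j ^ 2
  hinj : ∀ i ∈ I, ∀ j ∈ I, vx i = vx j → d i = d j → i = j
  hnd : ∀ i ∈ I, ∀ j ∈ I, nd i = nd j → Λ.ζ (vx i) = Λ.ζ (vx j) → i = j

variable {Λ} {r : V → κ} {I : Finset ι} {vx : ι → V} {nd : ι → N} {P P' : N → κ} {d : ι → κ}

theorem Geo.mono (h : Λ.Geo r I vx nd P P' d) {J : Finset ι} (hJ : J ⊆ I) :
    Λ.Geo r J vx nd P P' d :=
  ⟨fun i hi => h.hU i (hJ hi), fun i hi => h.hd i (hJ hi), fun i hi => h.hr i (hJ hi),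
    fun i hi => h.hz i (hJ hi), fun i hi => h.hw i (hJ hi),
    fun i hi j hj => h.hq i (hJ hi) j (hJ hj), fun i hi j hj => h.hinj i (hJ hi) j (hJ hj),
    fun i hi j hj => h.hnd i (hJ hi) j (hJ hj)⟩

theorem Geo.load [CharZero κ] (h : Λ.Geo r I vx nd P P' d) {Φ : Finset F} {s t : F → V}
    (hΦ : ∀ f ∈ Φ, s f ∈ Λ.U ∧ t f ∈ Λ.U) {a b : ι → κ} {c : F → κ}
    (h1 : ∀ n, ∑ i ∈ I with nd i = n, a i = 0) (h2 : ∀ n, ∑ i ∈ I with nd i = n, b i = 0)
    (h3 : ∀ n, ∑ i ∈ I with nd i = n,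
      (a i * (Λ.ζ (vx i) - P (nd i)) - b i * (Λ.ω (vx i) - P' (nd i))) = 0)
    (h4 : ∀ φ : V → κ, (∀ i j, Λ.lz i = Λ.lz j → φ i = φ j) → ∑ i ∈ I, a i * φ (vx i) +
      ∑ f ∈ Φ, c f * ((Λ.ω (s f) - Λ.ω (t f)) * (φ (s f) - φ (t f))) = 0)
    (h5 : ∀ φ : V → κ, (∀ i j, Λ.lw i = Λ.lw j → φ i = φ j) → ∑ i ∈ I, b i * φ (vx i) +
      ∑ f ∈ Φ, c f * ((Λ.ζ (s f) - Λ.ζ (t f)) * (φ (s f) - φ (t f))) = 0)
    {D : κ → κ} (hD : IsDer D) :
    ∑ i ∈ I, (a i * d i + b i / d i) * D (r (vx i)) +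
      ∑ f ∈ Φ, c f * D ((Λ.ζ (s f) - Λ.ζ (t f)) * (Λ.ω (s f) - Λ.ω (t f))) = 0 := by
  obtain ⟨φ, hφ, eφ⟩ := exists_global (U := Λ.U) (l := Λ.lz) (φ := fun v => D (Λ.ζ v))
    fun i hi j hj e => by simp only [Λ.cz i hi j hj e]
  obtain ⟨ψ, hψ, eψ⟩ := exists_global (U := Λ.U) (l := Λ.lw) (φ := fun v => D (Λ.ω v))
    fun i hi j hj e => by simp only [Λ.cw i hi j hj e]
  have k1 := sum_node I nd a (fun i => D (P (nd i))) h1 fun i _ j _ e => by simp only [e]
  have k2 := sum_node I nd b (fun i => D (P' (nd i))) h2 fun i _ j _ e => by simp only [e]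
  have k3 := sum_node I nd _ (fun i => D (d i) / d i) h3 fun i hi j hj e => by
    have q := h.hq i hi j hj e
    have q' := congrArg D q
    rw [hD.sq, hD.sq] at q'
    have di := h.hd i hi
    have dj := h.hd j hj
    field_simp
    apply mul_left_cancel₀ (mul_ne_zero (two_ne_zero (α := κ)) di)
    linear_combination d j * q' - 2 * D (d j) * q
  have e1 : ∑ i ∈ I, (a i * d i + b i / d i) * D (r (vx i)) =
      ∑ i ∈ I, (a i * φ (vx i) + b i * ψ (vx i) - a i * D (P (nd i)) - b i * D (P' (nd i)) -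
        (a i * (Λ.ζ (vx i) - P (nd i)) - b i * (Λ.ω (vx i) - P' (nd i))) * (D (d i) / d i)) := by
    refine sum_congr rfl fun i hi => ?_
    have q1 := congrArg D (h.hz i hi)
    have q2 := congrArg D (h.hw i hi)
    rw [hD.sub, hD.mul] at q1
    rw [hD.sub, hD.div] at q2
    rw [eφ _ (h.hU i hi), eψ _ (h.hU i hi), h.hz i hi, h.hw i hi]
    have di := h.hd i hi
    rw [eq_add_of_sub_eq q1, eq_add_of_sub_eq q2]
    field_simp
    ring
  have e2 : ∑ f ∈ Φ, c f * D ((Λ.ζ (s f) - Λ.ζ (t f)) * (Λ.ω (s f) - Λ.ω (t f))) =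
      ∑ f ∈ Φ, (c f * ((Λ.ω (s f) - Λ.ω (t f)) * (φ (s f) - φ (t f))) +
        c f * ((Λ.ζ (s f) - Λ.ζ (t f)) * (ψ (s f) - ψ (t f)))) := by
    refine sum_congr rfl fun f hf => ?_
    rw [hD.mul, hD.sub, hD.sub, eφ _ (hΦ f hf).1, eφ _ (hΦ f hf).2, eψ _ (hΦ f hf).1,
      eψ _ (hΦ f hf).2]
    ring
  rw [e1, e2]
  simp only [sum_add_distrib, sum_sub_distrib]
  linear_combination h4 φ hφ + h5 ψ hψ - k1 - k2 - k3

theorem Geo.nd_inj (h : Λ.Geo r I vx nd P P' d) {i j : ι} (hi : i ∈ I) (hj : j ∈ I)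
    (e : nd i = nd j) (e' : vx i = vx j) : i = j := h.hnd i hi j hj e (by rw [e'])

theorem Geo.w_ne (h : Λ.Geo r I vx nd P P' d) {i j : ι} (hi : i ∈ I) (hj : j ∈ I)
    (e : nd i = nd j) (e' : Λ.ω (vx i) = Λ.ω (vx j)) : i = j := by
  refine h.hnd i hi j hj e ?_
  have a1 := h.hz i hi
  have a2 := h.hz j hj
  have a3 := h.hw i hi
  have a4 := h.hw j hj
  have q := h.hq i hi j hj e
  have di := h.hd i hi
  have dj := h.hd j hj
  rw [e] at a1 a3
  have : r (vx i) / d i = r (vx j) / d j := by rw [← a3, ← a4, e']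
  have e3 : r (vx i) * d i = r (vx i) / d i * d i ^ 2 := by field_simp
  have e4 : r (vx j) * d j = r (vx j) / d j * d j ^ 2 := by field_simp
  rw [this, q, ← e4] at e3
  linear_combination a1 - a2 + e3

theorem Geo.once [CharZero κ] (h : Λ.Geo r I vx nd P P' d) {i i' j j' : ι} (hi : i ∈ I)
    (hi' : i' ∈ I) (hj : j ∈ I) (hj' : j' ∈ I) (e1 : vx i = vx i') (e2 : vx j = vx j')
    (n1 : nd i = nd j) (n2 : nd i' = nd j') (hij : i ≠ j) : i = i' := by
  by_contra hne
  have hd : d i - d i' ≠ 0 := sub_ne_zero.2 fun e => hne (h.hinj i hi i' hi' e1 e)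
  have hz : Λ.ζ (vx i) ≠ Λ.ζ (vx j) := fun e => hij (h.hnd i hi j hj n1 e)
  have a1 := h.hz i hi
  have a2 := h.hz j hj
  have a3 := h.hw i hi
  have a4 := h.hw j hj
  have b1 := h.hz i' hi'
  have b2 := h.hz j' hj'
  have b3 := h.hw i' hi'
  have b4 := h.hw j' hj'
  rw [← e1, n2] at b1 b3
  rw [← e2] at b2 b4
  rw [n1] at a1 a3
  have di := h.hd i hi
  have di' := h.hd i' hi'
  have ru := h.hr i hi
  have rv := h.hr j hj
  have c1 : r (vx i) * d i - r (vx j) * d j = r (vx i) * d i' - r (vx j) * d j' := by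
    linear_combination b1 - b2 - a1 + a2
  have c2 : r (vx i) / d i - r (vx j) / d j = r (vx i) / d i' - r (vx j) / d j' := by
    linear_combination b3 - b4 - a3 + a4
  have c3 : r (vx i) * d i - r (vx j) * d j ≠ 0 := fun e => hz (by linear_combination a1 - a2 + e)
  have four : (4 : κ) ≠ 0 := by norm_num
  rcases sq_eq_sq_iff_eq_or_eq_neg.1 (h.hq j hj i hi n1.symm) with q | q <;>
    rcases sq_eq_sq_iff_eq_or_eq_neg.1 (h.hq j' hj' i' hi' n2.symm) with q' | q' <;>
    rw [q] at c1 c2 c3 <;> rw [q'] at c1 c2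
  · have : (r (vx i) - r (vx j)) * (d i - d i') = 0 := by linear_combination c1
    have := (mul_eq_zero.1 this).resolve_right hd
    exact c3 (by linear_combination d i * this)
  · field_simp at c2
    have : d i' * (4 * (r (vx i) * r (vx j))) = 0 := by
      linear_combination -(r (vx i) + r (vx j)) * c1 - (r (vx i) - r (vx j)) * c2
    simp [di', ru, rv] at this
  · field_simp at c2
    have : d i * (4 * (r (vx i) * r (vx j))) = 0 := by
      linear_combination (r (vx i) + r (vx j)) * c1 + (r (vx i) - r (vx j)) * c2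
    simp [di, ru, rv] at this
  · have : (r (vx i) + r (vx j)) * (d i - d i') = 0 := by linear_combination c1
    have := (mul_eq_zero.1 this).resolve_right hd
    exact c3 (by linear_combination d i * this)

theorem Geo.long (h : Λ.Geo r I vx nd P P' d) {a b : ι → κ}
    (h1 : ∀ n, ∑ i ∈ I with nd i = n, a i = 0) (h2 : ∀ n, ∑ i ∈ I with nd i = n, b i = 0)
    (h3 : ∀ n, ∑ i ∈ I with nd i = n,
      (a i * (Λ.ζ (vx i) - P (nd i)) - b i * (Λ.ω (vx i) - P' (nd i))) = 0)
    {i : ι} (hi : i ∈ I) (hm : (I.filter fun j => nd j = nd i).card = 2) :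
    b i = a i * d i ^ 2 := by
  obtain ⟨j, hj, hji⟩ := exists_mem_ne (by omega : 1 < (I.filter fun j => nd j = nd i).card) i
  have e : ({i, j} : Finset ι) = I.filter fun j => nd j = nd i := by
    refine eq_of_subset_of_card_le ?_ (by rw [hm, card_pair hji.symm])
    intro k hk
    rcases mem_insert.1 hk with rfl | hk
    · simp [hi]
    · rw [mem_singleton.1 hk]; exact hj
  have k1 := h1 (nd i)
  have k2 := h2 (nd i)
  have k3 := h3 (nd i)
  rw [← e, sum_pair hji.symm] at k1 k2 k3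
  obtain ⟨hj, ej⟩ := mem_filter.1 hj
  rw [h.hz i hi, h.hw i hi, h.hz j hj, h.hw j hj] at k3
  have a1 := h.hz i hi
  have a2 := h.hz j hj
  rw [ej] at a2
  have c3 : r (vx i) * d i - r (vx j) * d j ≠ 0 := fun e =>
    hji (h.hnd j hj i hi ej (by linear_combination a2 - a1 - e))
  have di := h.hd i hi
  have e1 : a j = -a i := by linear_combination k1
  have e2 : b j = -b i := by linear_combination k2
  rw [e1, e2] at k3
  apply mul_left_cancel₀ c3
  rcases sq_eq_sq_iff_eq_or_eq_neg.1 (h.hq j hj i hi ej) with q | q <;> rw [q] at k3 ⊢ <;>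
    field_simp at k3 <;> linear_combination -(d i) * k3

theorem Geo.free₀ [CharZero κ] {α β : V} (hs : Λ.lz α = Λ.lz β ∨ Λ.lw α = Λ.lw β)
    (s t : F → V) (n : ℕ) : ∀ J : Finset ι, J.card = n → Λ.Geo r J vx nd P P' d →
    (∀ ρ : V → κ, ρ α = ρ β → ∃ D, IsDer D ∧ ∀ i ∈ J, D (r (vx i)) = ρ (vx i)) →
    Λ.ISF J vx nd P P' ∅ s t := by
  induction n using Nat.strong_induction_on with
  | _ n ih =>
  intro J hJ h hder a b c h1 h2 h3 h4 h5
  refine ⟨?_, by simp⟩
  simp only [sum_empty, add_zero] at h4 h5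
  have sub : ∀ J' ⊆ J, J'.card < n → Λ.ISF J' vx nd P P' ∅ s t := fun J' hJ' hlt =>
    ih _ hlt J' rfl (h.mono hJ') fun ρ hρ => by
      obtain ⟨D, hD, e⟩ := hder ρ hρ
      exact ⟨D, hD, fun i hi => e i (hJ' hi)⟩
  by_cases hall : ∃ i ∈ J, a i = 0 ∧ b i = 0
  · let J₀ := J.filter fun i => ¬(a i = 0 ∧ b i = 0)
    have hlt : J₀.card < n := by
      obtain ⟨i, hi, hi'⟩ := hall
      exact hJ ▸ card_lt_card (filter_ssubset.2 ⟨i, hi, by simpa using hi'⟩)
    have tr : ∀ (g : ι → κ) (p : ι → Prop), (∀ i, a i = 0 → b i = 0 → g i = 0) →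
        ∑ i ∈ J₀ with p i, g i = ∑ i ∈ J with p i, g i := fun g p hg => by
      refine sum_subset (filter_subset_filter _ (filter_subset _ _)) fun i hi hi' => ?_
      by_contra hne
      exact hi' (mem_filter.2 ⟨mem_filter.2 ⟨(mem_filter.1 hi).1, fun e => hne (hg i e.1 e.2)⟩,
        (mem_filter.1 hi).2⟩)
    have tr' : ∀ g : ι → κ, (∀ i, a i = 0 → b i = 0 → g i = 0) →
        ∑ i ∈ J₀, g i = ∑ i ∈ J, g i := fun g hg => by simpa using tr g (fun _ => True) hg
    have := (sub J₀ (filter_subset _ _) hlt a b c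
      (fun n => by rw [tr _ _ fun i e _ => e]; exact h1 n)
      (fun n => by rw [tr _ _ fun i _ e => e]; exact h2 n)
      (fun n => by rw [tr _ _ fun i e e' => by simp [e, e']]; exact h3 n)
      (fun φ hφ => by rw [tr' _ fun i e _ => by simp [e]]; simpa using h4 φ hφ)
      (fun φ hφ => by rw [tr' _ fun i _ e => by simp [e]]; simpa using h5 φ hφ)).1
    intro i hi
    by_contra hne
    exact hne (this i (mem_filter.2 ⟨hi, hne⟩))
  have hne : ∀ i ∈ J, a i ≠ 0 ∨ b i ≠ 0 := fun i hi => by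
    by_contra h'
    push Not at h'
    exact hall ⟨i, hi, h'⟩
  intro i₀ hi₀
  exfalso
  let m : N → ℕ := fun n => (J.filter fun j => nd j = n).card
  have other : ∀ i ∈ J, ∃ j ∈ J, j ≠ i ∧ nd j = nd i := fun i hi => by
    by_contra hno
    push Not at hno
    have e : (J.filter fun j => nd j = nd i) = {i} := by
      ext j
      simp only [mem_filter, mem_singleton]
      exact ⟨fun hj => by by_contra h'; exact hno j hj.1 h' hj.2, fun e => by rw [e]; exact ⟨hi, rfl⟩⟩
    have k1 := h1 (nd i)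
    have k2 := h2 (nd i)
    rw [e, sum_singleton] at k1 k2
    exact (hne i hi).elim (· k1) (· k2)
  have hm : ∀ i ∈ J, 2 ≤ m (nd i) := fun i hi => by
    obtain ⟨j, hj, hji, e⟩ := other i hi
    exact one_lt_card.2 ⟨j, by simp [hj, e], i, by simp [hi], hji⟩
  let w : ι → ℕ := fun i => if m (nd i) = 2 then 1 else 2
  let S := J.image vx
  let Dg : V → ℕ := fun v => ∑ i ∈ J with vx i = v, w i
  let e : V → ℕ := fun v => Dg v + shr S Λ.lz v + shr S Λ.lw v
  have hw : ∀ i ∈ J, w i = 2 ∨ (w i = 1 ∧ b i = a i * d i ^ 2) := fun i hi => by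
    by_cases hm2 : m (nd i) = 2
    · exact Or.inr ⟨if_pos hm2, h.long h1 h2 h3 hi hm2⟩
    · exact Or.inl (if_neg hm2)
  have eqn : ∀ (l : V → Λ.L) (g : ι → κ), (∀ φ : V → κ, (∀ i j, l i = l j → φ i = φ j) →
      ∑ i ∈ J, g i * φ (vx i) = 0) → ∀ v, shr S l v = 0 → ∑ i ∈ J with vx i = v, g i = 0 := by
    intro l g hg v hv
    rw [← hg (fun u => if l u = l v then 1 else 0) fun i j e => by simp only [e], sum_filter]
    refine sum_congr rfl fun i hi => ?_
    by_cases e : vx i = v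
    · simp [e]
    · have : l (vx i) ≠ l v := fun e' => by
        rw [shr, if_pos ⟨vx i, mem_image_of_mem _ hi, e, e'⟩] at hv
        exact one_ne_zero hv
      simp [e, this]
  have load : ∀ ρ : V → κ, ρ α = ρ β →
      ∑ i ∈ J, (a i * d i + b i / d i) * ρ (vx i) = 0 := fun ρ hρ => by
    obtain ⟨D, hD, eD⟩ := hder ρ hρ
    have := h.load (Φ := (∅ : Finset F)) (s := s) (t := t) (c := c) (by simp) h1 h2 h3
      (by simpa using h4) (by simpa using h5) hD
    rw [sum_empty, add_zero] at this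
    rw [← this]
    exact sum_congr rfl fun i hi => by rw [eD i hi]
  have loc : ∀ v ∈ S, (∀ u ∈ S, u ≠ v → ¬((u = α ∨ u = β) ∧ (v = α ∨ v = β))) → 4 ≤ e v := by
    intro v hv hsp
    obtain ⟨i, hi, rfl⟩ := mem_image.1 hv
    refine local_four _ ⟨i, by simp [hi]⟩ a b d w _ _ (fun j hj => h.hd j (mem_filter.1 hj).1)
      (fun j hj k hk => h.hinj j (mem_filter.1 hj).1 k (mem_filter.1 hk).1
        ((mem_filter.1 hj).2.trans (mem_filter.1 hk).2.symm))
      (fun j hj => hw j (mem_filter.1 hj).1) (fun j hj => hne j (mem_filter.1 hj).1)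
      (eqn _ a h4 _) (eqn _ b h5 _) ?_
    rw [← load (fun u => if u = vx i ∨ ((u = α ∨ u = β) ∧ (vx i = α ∨ vx i = β)) then 1 else 0)
      (by by_cases e : vx i = α ∨ vx i = β
          · simp [e]
          · push Not at e; simp [e, e.1.symm, e.2.symm]), sum_filter]
    refine sum_congr rfl fun j hj => ?_
    by_cases e : vx j = vx i
    · simp [e]
    · have := hsp _ (mem_image_of_mem _ hj) e
      simp [e, this]
  have loc4 : ∀ v ∈ S, v ≠ α → v ≠ β → 4 ≤ e v := fun v hv h1 h2 =>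
    loc v hv fun u _ _ h => h.2.elim h1 h2
  have le1 : ∀ (l : V → Λ.L) v, shr S l v ≤ 1 := fun l v => by unfold shr; split_ifs <;> omega
  have loc3 : ∀ v ∈ S, 3 ≤ e v := by
    intro v hv
    by_cases hsp : ∀ u ∈ S, u ≠ v → ¬((u = α ∨ u = β) ∧ (v = α ∨ v = β))
    · exact (loc v hv hsp).trans' (by omega)
    push Not at hsp
    obtain ⟨u, hu, huv, hu', hv'⟩ := hsp
    have hsh : shr S Λ.lz v = 1 ∨ shr S Λ.lw v = 1 := by
      have : Λ.lz u = Λ.lz v ∨ Λ.lw u = Λ.lw v := by
        rcases hu' with rfl | rfl <;> rcases hv' with rfl | rfl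
        · exact (huv rfl).elim
        · exact hs
        · exact hs.imp Eq.symm Eq.symm
        · exact (huv rfl).elim
      exact this.imp (fun e => if_pos ⟨u, hu, huv, e⟩) fun e => if_pos ⟨u, hu, huv, e⟩
    obtain ⟨i, hi, rfl⟩ := mem_image.1 hv
    have mi : i ∈ J.filter fun j => vx j = vx i := by simp [hi]
    have w1 : ∀ j ∈ J, 1 ≤ w j := fun j hj => by rcases hw j hj with h | h <;> omega
    have hD1 : w i ≤ Dg (vx i) := single_le_sum (f := w) (fun _ _ => Nat.zero_le _) mi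
    by_contra hlt
    have l1 := le1 Λ.lz (vx i)
    have l2 := le1 Λ.lw (vx i)
    have wi := w1 i hi
    have hD : Dg (vx i) = 1 := by simp only [e] at hlt; omega
    have hc : (J.filter fun j => vx j = vx i).card ≤ 1 := by
      rw [← hD, card_eq_sum_ones]
      exact sum_le_sum fun j hj => w1 j (mem_filter.1 hj).1
    have es : (J.filter fun j => vx j = vx i) = {i} :=
      eq_singleton_iff_unique_mem.2 ⟨mi, fun j hj => card_le_one.1 hc j hj i mi⟩
    have hb : b i = a i * d i ^ 2 := ((hw i hi).resolve_left (by omega)).2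
    have : a i = 0 := by
      by_cases hx : shr S Λ.lz (vx i) = 0
      · have := eqn _ a h4 _ hx
        rwa [es, sum_singleton] at this
      · have := eqn _ b h5 (vx i) (by simp only [e] at hlt; omega)
        rw [es, sum_singleton, hb] at this
        exact (mul_eq_zero.1 this).resolve_right (pow_ne_zero _ (h.hd i hi))
    rcases hne i hi with h | h
    · exact h this
    · exact h (by rw [hb, this, zero_mul])
  obtain ⟨v, hv, hmin⟩ := exists_min_image S e ⟨_, mem_image_of_mem _ hi₀⟩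
  have hS2 : 2 ≤ S.card := by
    obtain ⟨j, hj, hji, e⟩ := other i₀ hi₀
    exact one_lt_card.2 ⟨_, mem_image_of_mem _ hj, _, mem_image_of_mem _ hi₀,
      fun e' => hji (h.nd_inj hj hi₀ e e')⟩
  have sumE : 2 * e v + 4 * S.card ≤ ∑ u ∈ S, e u + 8 := by
    by_cases h4 : 4 ≤ e v
    · have := card_nsmul_le_sum S e (e v) hmin
      rw [smul_eq_mul] at this
      nlinarith
    · have h3 := loc3 v hv
      have k1 : ∑ u ∈ S, 4 ≤ ∑ u ∈ S, (e u + if u = α ∨ u = β then 1 else 0) :=
        sum_le_sum fun u hu => by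
          split_ifs with hu'
          · have := loc3 u hu; omega
          · push Not at hu'; exact loc4 u hu hu'.1 hu'.2
      rw [sum_add_distrib, sum_const, smul_eq_mul, sum_boole] at k1
      have k2 : (S.filter fun u => u = α ∨ u = β).card ≤ 2 :=
        (card_le_card (t := {α, β}) fun u hu => by simpa using (mem_filter.1 hu).2).trans
          card_le_two
      simp only [Nat.cast_id] at k1
      omega
  have sumD : ∑ u ∈ S, Dg u + 6 * ncl J nd ≤ 4 * J.card := by
    have e0 : ∑ u ∈ S, Dg u = ∑ i ∈ J, w i :=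
      sum_fiberwise_of_maps_to (fun i hi => mem_image_of_mem _ hi) w
    rw [e0, card_eq_sum_card_fiberwise (f := nd) (t := J.image nd) fun i hi => mem_image_of_mem _ hi,
      ← sum_fiberwise_of_maps_to (g := nd) (t := J.image nd) fun i hi => mem_image_of_mem _ hi,
      ncl, card_eq_sum_ones, mul_sum, mul_sum, ← sum_add_distrib]
    refine sum_le_sum fun q hq => ?_
    obtain ⟨j, hj, rfl⟩ := mem_image.1 hq
    rw [sum_congr rfl (g := fun _ => w j) fun i hi => by simp only [w, (mem_filter.1 hi).2],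
      sum_const, smul_eq_mul]
    have := hm j hj
    simp only [w, m] at this ⊢
    split_ifs <;> omega
  have cz := ncl_shr S Λ.lz
  have cw := ncl_shr S Λ.lw
  have ez := ncl_erase S Λ.lz hv
  have ew := ncl_erase S Λ.lw hv
  have sume : ∑ u ∈ S, e u = ∑ u ∈ S, Dg u + ∑ u ∈ S, shr S Λ.lz u + ∑ u ∈ S, shr S Λ.lw u := by
    simp only [e, sum_add_distrib]
  have hSU : ∀ u ∈ S, u ∈ Λ.U := fun u hu => by
    obtain ⟨i, hi, rfl⟩ := mem_image.1 hu
    exact h.hU i hi
  by_cases act : ∃ i ∈ S.erase v, ∃ j ∈ S.erase v, Λ.ζ i ≠ Λ.ζ j ∨ Λ.ω i ≠ Λ.ω j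
  · let Λ' : Lev κ V :=
      { U := S.erase v, L := Λ.L, lz := Λ.lz, bz := fun _ => Λ.lz v, lw := Λ.lw,
        bw := fun _ => Λ.lz v, ζ := Λ.ζ, ω := Λ.ω
        hz := fun _ _ _ _ _ => rfl
        hw := fun _ _ _ _ _ => rfl
        cz := fun i hi j hj =>
          Λ.cz i (hSU i (mem_of_mem_erase hi)) j (hSU j (mem_of_mem_erase hj))
        cw := fun i hi j hj =>
          Λ.cw i (hSU i (mem_of_mem_erase hi)) j (hSU j (mem_of_mem_erase hj))
        act := by
          obtain ⟨i, hi, j, hj, hij⟩ := act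
          exact ⟨i, hi, j, hj, hij.imp (fun e => ⟨rfl, e⟩) fun e => ⟨rfl, e⟩⟩ }
    let A2 := J.filter fun i => vx i = v ∧ m (nd i) = 2
    let A3 := J.filter fun i => vx i = v ∧ m (nd i) ≠ 2
    let B := J.filter fun i => vx i ≠ v ∧ nd i ∈ A2.image nd
    let Jv := J.filter fun i => vx i ≠ v ∧ nd i ∉ A2.image nd
    have hlt : Jv.card < n := by
      obtain ⟨i, hi, e⟩ := mem_image.1 hv
      exact hJ ▸ card_lt_card (filter_ssubset.2 ⟨i, hi, by simp [e]⟩)
    have hne' : (S.erase v).Nonempty := by obtain ⟨i, hi, -⟩ := act; exact ⟨i, hi⟩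
    have cnt := Λ'.inc_count Jv vx nd P P' ∅ s t (fun i hi j hj _ =>
      ⟨mem_erase.2 ⟨(mem_filter.1 hi).2.1, mem_image_of_mem _ (mem_filter.1 hi).1⟩,
        mem_erase.2 ⟨(mem_filter.1 hj).2.1, mem_image_of_mem _ (mem_filter.1 hj).1⟩, rfl, rfl⟩)
      (by simp) (sub Jv (filter_subset _ _) hlt)
    simp only [Λ', ncl_const hne', card_empty] at cnt
    have c1 : J.card ≤ Jv.card + (B.card + (A2.card + A3.card)) := by
      refine (card_le_card (t := Jv ∪ (B ∪ (A2 ∪ A3))) fun i hi => ?_).trans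
        ((card_union_le _ _).trans (Nat.add_le_add_left ((card_union_le _ _).trans
          (Nat.add_le_add_left (card_union_le _ _) _)) _))
      by_cases h1 : vx i = v
      · by_cases h2 : m (nd i) = 2
        · exact mem_union_right _ (mem_union_right _ (mem_union_left _
            (mem_filter.2 ⟨hi, h1, h2⟩)))
        · exact mem_union_right _ (mem_union_right _ (mem_union_right _
            (mem_filter.2 ⟨hi, h1, h2⟩)))
      · by_cases h2 : nd i ∈ A2.image nd
        · exact mem_union_right _ (mem_union_left _ (mem_filter.2 ⟨hi, h1, h2⟩))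
        · exact mem_union_left _ (mem_filter.2 ⟨hi, h1, h2⟩)
    have c2 : (A2.image nd).card = A2.card := card_image_of_injOn fun i hi j hj e =>
      h.nd_inj (mem_filter.1 hi).1 (mem_filter.1 hj).1 e
        ((mem_filter.1 hi).2.1.trans (mem_filter.1 hj).2.1.symm)
    have c3 : B.card ≤ A2.card := by
      rw [← c2]
      refine card_le_card_of_injOn nd (fun i hi => (mem_filter.1 hi).2.2) fun i hi j hj e => ?_
      obtain ⟨hi, hiv, hi'⟩ := mem_filter.1 hi
      obtain ⟨hj, hjv, -⟩ := mem_filter.1 hj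
      obtain ⟨k, hk, ek⟩ := mem_image.1 hi'
      obtain ⟨hk, hkv, hk2⟩ := mem_filter.1 hk
      by_contra hij
      have : 2 < m (nd k) := two_lt_card_iff.2 ⟨i, j, k, by simp [hi, ek], by simp [hj, ek, e],
        by simp [hk], hij, fun e => hiv (e ▸ hkv), fun e => hjv (e ▸ hkv)⟩
      omega
    have c4 : ncl Jv nd + A2.card ≤ ncl J nd := by
      rw [← c2, ncl, ncl, ← card_union_of_disjoint]
      · exact card_le_card (union_subset (image_subset_image (filter_subset _ _))
          (image_subset_image (filter_subset _ _)))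
      · rw [disjoint_left]
        intro q hq hq'
        obtain ⟨i, hi, rfl⟩ := mem_image.1 hq
        exact (mem_filter.1 hi).2.2 hq'
    have c5 : Dg v = A2.card + 2 * A3.card := by
      simp only [Dg, w, sum_ite, sum_const, smul_eq_mul, filter_filter, A2, A3]
      ring
    have c6 : e v = Dg v + shr S Λ.lz v + shr S Λ.lw v := rfl
    omega
  · push Not at act
    have nv : ∀ i ∈ J, vx i ≠ v → vx i ∈ S.erase v := fun i hi e =>
      mem_erase.2 ⟨e, mem_image_of_mem _ hi⟩
    have F1 : ∀ i ∈ J, ∀ j ∈ J, nd i = nd j → vx i ≠ v → vx j ≠ v → i = j :=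
      fun i hi j hj e h1 h2 => h.hnd i hi j hj e (act _ (nv i hi h1) _ (nv j hj h2)).1
    have F2 : ∀ i ∈ J, vx i ≠ v → ∃ j ∈ J, j ≠ i ∧ nd j = nd i ∧ vx j = v := fun i hi h1 => by
      obtain ⟨j, hj, hji, e⟩ := other i hi
      exact ⟨j, hj, hji, e, by by_contra h2; exact hji (F1 j hj i hi e h2 h1)⟩
    have F3 : ∀ i ∈ J, m (nd i) = 2 := fun i hi => by
      refine le_antisymm (not_lt.1 fun hlt => ?_) (hm i hi)
      obtain ⟨i1, i2, i3, m1, m2, m3, n12, n13, n23⟩ := two_lt_card_iff.1 hlt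
      simp only [mem_filter] at m1 m2 m3
      have g : ∀ p ∈ J, ∀ q ∈ J, nd p = nd i → nd q = nd i → p ≠ q → (vx p = v ↔ vx q ≠ v) :=
        fun p hp q hq e1 e2 hpq => ⟨fun a b => hpq (h.nd_inj hp hq (e1.trans e2.symm)
          (a.trans b.symm)), fun a => by
            by_contra b; exact hpq (F1 p hp q hq (e1.trans e2.symm) b a)⟩
      have g1 := g _ m1.1 _ m2.1 m1.2 m2.2 n12
      have g2 := g _ m1.1 _ m3.1 m1.2 m3.2 n13
      have g3 := g _ m2.1 _ m3.1 m2.2 m3.2 n23
      by_cases q : vx i3 = v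
      · exact (g1.not.1 fun a => g2.1 a q) fun a => g3.1 a q
      · exact g1.1 (g2.2 q) (g3.2 q)
    have F4 : ∀ i ∈ J, ∀ i' ∈ J, vx i ≠ v → vx i = vx i' → i = i' := fun i hi i' hi' h1 e => by
      obtain ⟨j, hj, hji, n1, v1⟩ := F2 i hi h1
      obtain ⟨j', hj', -, n2, v2⟩ := F2 i' hi' (e ▸ h1)
      exact h.once hi hi' hj hj' e (v1.trans v2.symm) n1.symm n2.symm hji.symm
    have wone : ∀ i ∈ J, w i = 1 := fun i hi => if_pos (F3 i hi)
    have DgC : ∀ u, Dg u = (J.filter fun i => vx i = u).card := fun u => by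
      rw [card_eq_sum_ones]
      exact sum_congr rfl fun i hi => wone i (mem_filter.1 hi).1
    have F5 : ∀ i ∈ J, vx i ≠ v → vx i = α ∨ vx i = β := fun i hi h1 => by
      by_contra hno
      push Not at hno
      have k := loc4 _ (mem_image_of_mem _ hi) hno.1 hno.2
      have k1 : Dg (vx i) ≤ 1 := by
        rw [DgC]
        exact card_le_one.2 fun p hp q hq => F4 p (mem_filter.1 hp).1 q (mem_filter.1 hq).1
          ((mem_filter.1 hp).2 ▸ h1) ((mem_filter.1 hp).2.trans (mem_filter.1 hq).2.symm)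
      have l1 := le1 Λ.lz (vx i)
      have l2 := le1 Λ.lw (vx i)
      simp only [e] at k
      omega
    have F6 : Dg v ≤ 2 := by
      rw [DgC]
      calc (J.filter fun i => vx i = v).card
          = ((J.filter fun i => vx i = v).image nd).card :=
            (card_image_of_injOn fun i hi j hj e => h.nd_inj (mem_filter.1 hi).1
              (mem_filter.1 hj).1 e ((mem_filter.1 hi).2.trans (mem_filter.1 hj).2.symm)).symm
        _ ≤ ((J.filter fun i => vx i ≠ v).image nd).card := by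
            refine card_le_card fun q hq => ?_
            obtain ⟨i, hi, rfl⟩ := mem_image.1 hq
            obtain ⟨hi, hiv⟩ := mem_filter.1 hi
            obtain ⟨j, hj, hji, e⟩ := other i hi
            exact mem_image.2 ⟨j, mem_filter.2 ⟨hj, fun e' =>
              hji (h.nd_inj hj hi e (e'.trans hiv.symm))⟩, e⟩
        _ ≤ (J.filter fun i => vx i ≠ v).card := card_image_le
        _ ≤ ({α, β} : Finset V).card := card_le_card_of_injOn vx
            (fun i hi => by simpa using F5 i (mem_filter.1 hi).1 (mem_filter.1 hi).2)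
            fun i hi j hj e => F4 i (mem_filter.1 hi).1 j (mem_filter.1 hj).1
              (mem_filter.1 hi).2 e
        _ ≤ 2 := card_le_two
    have F7 : shr S Λ.lz v = 0 := if_neg (by
      rintro ⟨u, hu, huv, e⟩
      obtain ⟨i, hi, rfl⟩ := mem_image.1 hu
      obtain ⟨j, hj, hji, n1, v1⟩ := F2 i hi huv
      exact hji (h.hnd j hj i hi n1 (v1 ▸ (Λ.cz _ (hSU _ hu) _ (hSU _ hv) e).symm)))
    have F8 : shr S Λ.lw v = 0 := if_neg (by
      rintro ⟨u, hu, huv, e⟩
      obtain ⟨i, hi, rfl⟩ := mem_image.1 hu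
      obtain ⟨j, hj, hji, n1, v1⟩ := F2 i hi huv
      exact hji (h.w_ne hj hi n1 (v1 ▸ (Λ.cw _ (hSU _ hu) _ (hSU _ hv) e).symm)))
    have := loc3 v hv
    simp only [e] at this
    omega

theorem Geo.free [CharZero κ] (h : Λ.Geo r I vx nd P P' d) {α β : V}
    (hs : Λ.lz α = Λ.lz β ∨ Λ.lw α = Λ.lw β) {Φ : Finset F} {s t : F → V}
    (hΦ : ∀ f ∈ Φ, s f ∈ Λ.U ∧ t f ∈ Λ.U)
    (hder : ∀ (ρ : V → κ) (c : F → κ), ρ α = ρ β → ∃ D, IsDer D ∧
      (∀ i ∈ I, D (r (vx i)) = ρ (vx i)) ∧
      ∀ f ∈ Φ, D ((Λ.ζ (s f) - Λ.ζ (t f)) * (Λ.ω (s f) - Λ.ω (t f))) = c f) :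
    Λ.ISF I vx nd P P' Φ s t := by
  intro a b c h1 h2 h3 h4 h5
  have hc : ∀ f ∈ Φ, c f = 0 := fun f hf => by
    obtain ⟨D, hD, e1, e2⟩ := hder 0 (fun g => if g = f then 1 else 0) rfl
    have := h.load hΦ h1 h2 h3 h4 h5 hD
    rw [sum_eq_zero fun i hi => by rw [e1 i hi]; simp, zero_add,
      sum_congr rfl fun g hg => by rw [e2 g hg]] at this
    simpa [hf] using this
  refine ⟨(Geo.free₀ hs s t _ I rfl h (fun ρ hρ => ?_) a b c h1 h2 h3 (fun φ hφ => ?_)
    fun φ hφ => ?_).1, hc⟩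
  · obtain ⟨D, hD, e1, -⟩ := hder ρ 0 hρ
    exact ⟨D, hD, e1⟩
  · have := h4 φ hφ
    rw [sum_eq_zero (s := Φ) fun f hf => by rw [hc f hf, zero_mul]] at this
    simpa using this
  · have := h5 φ hφ
    rw [sum_eq_zero (s := Φ) fun f hf => by rw [hc f hf, zero_mul]] at this
    simpa using this

end Lev

end Pool.Agent.P.MP_27dab6_co
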