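import Pool.Agent.P.MP_27dab6_co.CaseC

/-!
A cycle of four tangent disks: rational parametrisation of its motion.
-/

set_option autoImplicit false

namespace Pool.Agent.P.MP_27dab6_co

open Finset Classical IsLocalRing

variable {V K : Type} [Field K]

/-- identities for a cycle of four tangent disks with parameter `σ` -/
structure Quad (l l' m m' Z W X X' σ : K) : Prop where
  hA : l' - l = m' - m
  i1 : Z * ((1 + σ) * (l + l' * σ) * m) = -(m' - m) * (σ * ((l + l') * m + l' * (m + m') * σ))
  i2 : W * ((m + m' * σ) * (l * m + l' * m' * σ)) =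
    -(m' - m) * (m * (l * (m + m') + m' * (l + l') * σ))
  i3 : X * ((1 + σ) * m) = σ * (l * m + l' * m' * σ)
  i4 : (X - Z) * (l * m + l' * m' * σ) = l' ^ 2 * ((m - Z) * σ * (1 + σ))
  i5 : (X' - W) * ((m - Z) * σ * (1 + σ)) = l * m + l' * m' * σ
  i6 : X' * (σ * (l * m + l' * m' * σ)) = l ^ 2 * ((1 + σ) * m)
  n1 : (1 + σ) * (l + l' * σ) * m ≠ 0
  n2 : (m + m' * σ) * (l * m + l' * m' * σ) ≠ 0

theorem quad_rel {l l' m m' sa sb ub : K} (hA : l' - l = m' - m) (h1 : sa ≠ 0) (h2 : sb ≠ 0)
    (h3 : ub ≠ 0) (E1 : l * sa - m = ub * (l' * sb - m'))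
    (E2 : l / sa - m = (l' / sb - m') / ub) :
    l * m * (sa - 1) ^ 2 * sb = l' * m' * (sb - 1) ^ 2 * sa := by
  obtain rfl : l' = l + m' - m := by linear_combination hA
  have E2' : (l - m * sa) * sb * ub = (l + m' - m - m' * sb) * sa := by
    field_simp at E2
    linear_combination E2
  linear_combination (-(l - m * sa) * sb) * E1 - ((l + m' - m) * sb - m') * E2'

theorem quad_of {l l' m m' sa sb ub σ : K} (hA : l' - l = m' - m) (l0 : l ≠ 0) (l0' : l' ≠ 0)
    (m0 : m ≠ 0) (m0' : m' ≠ 0) (h1 : sa ≠ 0) (h2 : sb ≠ 0) (h3 : ub ≠ 0)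
    (E1 : l * sa - m = ub * (l' * sb - m')) (E2 : l / sa - m = (l' / sb - m') / ub)
    (n0 : l * sa - m ≠ 0) (s1 : sa - 1 ≠ 0) (S : σ * (sa - 1) = sa * (sb - 1))
    (n4 : (m' - m) * (l + m') ≠ 0) :
    Quad l l' m m' (m - m' * ub) (m - m' / ub) (l * sa) (l / sa) σ := by
  have R := quad_rel hA h1 h2 h3 E1 E2
  have J3 : sa * (1 + σ) * (l * m) = σ * (l * m + l' * m' * σ) := by
    apply mul_left_cancel₀ (pow_ne_zero 2 s1)
    linear_combination sa * R +
      ((sa - 1) ^ 2 * l * m - l' * m' * (σ * (sa - 1) + sa * (sb - 1))) * S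
  have J4 : sb * (l * m + l' * m' * σ) = l' * m' * σ * (1 + σ) := by
    apply mul_left_cancel₀ (pow_ne_zero 2 s1)
    linear_combination R - l' * m' * (σ * (sa - 1) + sb - 1) * S
  have k1 : 1 + σ ≠ 0 := fun e => n4 (by
    obtain rfl : σ = -1 := by linear_combination e
    linear_combination -J3 - m' * hA)
  have k4 : l * m + l' * m' * σ ≠ 0 := fun e => by
    have : σ = 0 := by
      rw [e, mul_zero] at J4
      simpa [l0', m0', k1] using J4.symm
    rw [this] at e
    simp [l0, m0] at e
  obtain rfl : l' = l + m' - m := by linear_combination hA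
  have F1 : (l * sa - m) * m * (1 + σ) = ((l + m' - m) * σ - m) * (m' * σ + m) := by
    linear_combination J3
  have F0 := mul_ne_zero (mul_ne_zero n0 m0) k1
  rw [F1, mul_ne_zero_iff] at F0
  have F2 : ((l + m' - m) * sb - m') * (l * m + (l + m' - m) * m' * σ) =
      m' * ((l + m' - m) * σ - m) * ((l + m' - m) * σ + l) := by
    linear_combination (l + m' - m) * J4
  have U : ub * m * m' * (1 + σ) * (l + (l + m' - m) * σ) =
      (m + m' * σ) * (l * m + (l + m' - m) * m' * σ) := by
    apply mul_left_cancel₀ F0.1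
    linear_combination (-ub * m * (1 + σ)) * F2 -
      m * (1 + σ) * (l * m + (l + m' - m) * m' * σ) * E1 + (l * m + (l + m' - m) * m' * σ) * F1
  have k3 : (m + m' * σ) * (l * m + (l + m' - m) * m' * σ) ≠ 0 :=
    mul_ne_zero (by rw [add_comm]; exact F0.2) k4
  have k2 : l + (l + m' - m) * σ ≠ 0 := fun e => k3 (by rw [← U, e, mul_zero])
  refine ⟨hA, by linear_combination -U, ?_, by linear_combination J3,
    by linear_combination (l * m + (l + m' - m) * m' * σ) * E1 + (l + m' - m) * ub * J4, ?_, ?_,
    mul_ne_zero (mul_ne_zero k1 k2) m0, k3⟩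
  · have : m' / ub * ((m + m' * σ) * (l * m + (l + m' - m) * m' * σ)) =
        m * m' ^ 2 * (1 + σ) * (l + (l + m' - m) * σ) := by
      rw [← U]; field_simp
    linear_combination -this
  · have : l / sa - (m - m' / ub) = (l + m' - m) / (sb * ub) := by
      rw [show l / sa - (m - m' / ub) = l / sa - m + m' / ub by ring, E2]
      field_simp
      ring
    rw [this, sub_sub_cancel]
    field_simp
    linear_combination -J4
  · field_simp
    linear_combination -J3

/-- direction from `j` to `i` -/
def dirn (z r : V → K) (i j : V) : K := (z i - z j) / (r i + r j)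

/-- the parameter of the cycle `a x b y` -/
def sig (z r : V → K) (x a b y : V) : K :=
  dirn z r x a / dirn z r y a * (dirn z r x b / dirn z r y b - 1) /
    (dirn z r x a / dirn z r y a - 1)

theorem sig_scale (z r : V → K) (x a b y : V) {u : K} (hu : u ≠ 0) :
    sig (fun i => z i / u) r x a b y = sig z r x a b y := by
  have : ∀ i j, dirn (fun i => z i / u) r i j = dirn z r i j / u := fun i j => by
    unfold dirn; ring
  simp only [sig, this, div_div_div_cancel_right₀ hu]

section

variable {G : SimpleGraph V} {z w r : V → K} (h : Base G z w r)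

include h

theorem Base.dirn_ne {i j : V} (e : G.Adj i j) : dirn z r i j ≠ 0 :=
  div_ne_zero (sub_ne_zero.2 (h.nz i j e.ne)) (h.ne2 i j)

theorem Base.dirn_w {i j : V} (e : G.Adj i j) : dirn w r i j = (dirn z r i j)⁻¹ := by
  refine eq_inv_of_mul_eq_one_right ?_
  unfold dirn
  have := h.ne2 i j
  field_simp
  linear_combination h.tan i j e

theorem Base.z_eq (i j : V) : z i - z j = (r i + r j) * dirn z r i j := by
  unfold dirn
  have := h.ne2 i j
  field_simp

theorem Base.ratio_ne {x y a : V} (hxy : x ≠ y) (xa : G.Adj x a) (ya : G.Adj y a) :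
    dirn z r x a / dirn z r y a - 1 ≠ 0 := fun e => hxy (h.dir xa.symm ya.symm (by
  have e' : dirn z r x a = dirn z r y a := by
    rwa [sub_eq_zero, div_eq_one_iff_eq (h.dirn_ne ya)] at e
  unfold dirn at e'
  rw [add_comm (r a), add_comm (r a)]
  linear_combination -e'))

variable {x a b y : V} (hxy : x ≠ y) (xa : G.Adj x a) (xb : G.Adj x b) (ya : G.Adj y a)
  (yb : G.Adj y b)

include hxy xa xb ya yb

theorem Base.sig_swap2 : sig w r x b a y * sig z r x a b y = 1 := by
  have a1 := h.ratio_ne hxy xa ya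
  have a2 := h.ratio_ne hxy xb yb
  have a3 := h.swap.ratio_ne hxy xb yb
  simp only [sig, h.dirn_w, xa, xb, ya, yb, inv_div_inv, ← inv_div (dirn z r x _)] at a3 ⊢
  have b1 := div_ne_zero (h.dirn_ne xa) (h.dirn_ne ya)
  have b2 := div_ne_zero (h.dirn_ne xb) (h.dirn_ne yb)
  generalize dirn z r x a / dirn z r y a = sa at *
  generalize dirn z r x b / dirn z r y b = sb at *
  have a4 : 1 - sb ≠ 0 := fun e => a2 (by linear_combination -e)
  field_simp
  ring

theorem Base.sig_swap :
    sig w r x a b y * (sig z r x a b y * ((r x + r b) * (r y + r b))) =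
      (r x + r a) * (r y + r a) := by
  have a1 := h.ratio_ne hxy xa ya
  have c1 := h.dirn_ne xa
  have c2 := h.dirn_ne xb
  have c3 := h.dirn_ne ya
  have c4 := h.dirn_ne yb
  have R := quad_rel (l := r x + r a) (l' := r x + r b) (m := r y + r a) (m' := r y + r b)
    (sa := dirn z r x a / dirn z r y a) (sb := dirn z r x b / dirn z r y b)
    (ub := dirn z r y b / dirn z r y a) (by ring) (div_ne_zero c1 c3) (div_ne_zero c2 c4)
    (div_ne_zero c4 c3)
    (by
      field_simp
      linear_combination h.z_eq x b - h.z_eq x a + h.z_eq y a - h.z_eq y b)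
    (by
      have d1 := h.swap.z_eq x a
      have d2 := h.swap.z_eq x b
      have d3 := h.swap.z_eq y a
      have d4 := h.swap.z_eq y b
      simp only [h.dirn_w, xa, xb, ya, yb] at d1 d2 d3 d4
      have : (r x + r a) * (dirn z r x a)⁻¹ - (r y + r a) * (dirn z r y a)⁻¹ =
          (r x + r b) * (dirn z r x b)⁻¹ - (r y + r b) * (dirn z r y b)⁻¹ := by
        linear_combination d2 - d1 + d3 - d4
      field_simp
      field_simp at this
      linear_combination this)
  simp only [sig, h.dirn_w, xa, xb, ya, yb, inv_div_inv, ← inv_div (dirn z r x _)]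
  have b1 := div_ne_zero c1 c3
  have b2 := div_ne_zero c2 c4
  generalize dirn z r x a / dirn z r y a = sa at *
  generalize dirn z r x b / dirn z r y b = sb at *
  have a4 : 1 - sa ≠ 0 := fun e => a1 (by linear_combination -e)
  field_simp
  linear_combination R

theorem Base.quad (hr : r a ≠ r b) (hz : z y - z a = r y + r a) (hw : w y - w a = r y + r a) :
    Quad (r x + r a) (r x + r b) (r y + r a) (r y + r b) (z b - z a) (w b - w a) (z x - z a)
      (w x - w a) (sig z r x a b y) := by
  have c1 := h.dirn_ne xa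
  have c2 := h.dirn_ne xb
  have c4 := h.dirn_ne yb
  have u1 : dirn z r y a = 1 := by rw [dirn, hz, div_self (h.ne2 y a)]
  have a1 := h.ratio_ne hxy xa ya
  have d1 := h.swap.z_eq x a
  have d2 := h.swap.z_eq x b
  have d4 := h.swap.z_eq y b
  simp only [h.dirn_w, xa, xb, yb] at d1 d2 d4
  rw [u1, div_one] at a1
  have := quad_of (l := r x + r a) (l' := r x + r b) (m := r y + r a) (m' := r y + r b)
    (sa := dirn z r x a) (sb := dirn z r x b / dirn z r y b) (ub := dirn z r y b)
    (σ := sig z r x a b y) (by ring) (h.ne2 _ _) (h.ne2 _ _) (h.ne2 _ _) (h.ne2 _ _) c1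
    (div_ne_zero c2 c4) c4
    (by
      field_simp
      linear_combination h.z_eq x b - h.z_eq x a + hz - h.z_eq y b)
    (by
      have : (r x + r a) * (dirn z r x a)⁻¹ - (r y + r a) =
          (r x + r b) * (dirn z r x b)⁻¹ - (r y + r b) * (dirn z r y b)⁻¹ := by
        linear_combination d2 - d1 + hw - d4
      field_simp
      field_simp at this
      linear_combination this)
    (by rw [← h.z_eq, ← hz]; intro e; exact h.nz x y hxy (by linear_combination e)) a1
    (by rw [sig, u1, div_one, div_mul_cancel₀ _ a1])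
    (mul_ne_zero (fun e => hr (by linear_combination -e)) (by
      rw [← add_assoc]; exact h.ne4 _ _ _ _))
  convert this using 1
  · linear_combination hz - h.z_eq y b
  · rw [div_eq_mul_inv]; linear_combination hw - d4
  · exact h.z_eq x a
  · rw [div_eq_mul_inv]; exact d1

end

end Pool.Agent.P.MP_27dab6_co
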