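import Pool.Agent.P.MP_27dab6_co.Three

/-!
Rigidity of the three levels, and the ratio of the two lengths at `x` stays a unit.
-/

set_option autoImplicit false

namespace Pool.Agent.P.MP_27dab6_co

open Finset Classical IsLocalRing

variable {V K : Type} [Field K]

theorem lin_ne {κ : Type} [Field κ] {d : κ → κ} (hd : IsDer d) {p q s : κ} (hp : d p = 0)
    (hq : d q = 0) (hs : d s ≠ 0) (h : p ≠ 0 ∨ q ≠ 0) : p + q * s ≠ 0 := fun e => by
  have := congrArg d e
  rw [hd.add, hd.mul, hp, hq, hd.zero] at this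
  have hq0 : q = 0 := by simpa [hs] using this
  rw [hq0] at e
  simp [hq0] at h e
  exact h e

theorem M3.le {O : ValuationSubring K} {l γ : O.ValueGroup} (l0 : 0 < l) (l1 : l < 1)
    (h : M3 l γ) : l ≤ γ ∧ γ ≤ l⁻¹ := by
  have l2 := (one_lt_inv₀ l0).2 l1
  rcases h with rfl | rfl | rfl
  exacts [⟨le_rfl, (l1.trans l2).le⟩, ⟨l1.le, l2.le⟩, ⟨(l1.trans l2).le, le_rfl⟩]

/-- normalised difference of the first coordinates -/
noncomputable def qz (O : ValuationSubring K) (z w : V → K) (a b i j : V) : K :=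
  (z i - z j) * (nm O (z b - z a) (w b - w a) (O.valuation (z i - z j)))⁻¹

/-- normalised difference of the second coordinates -/
noncomputable def qw (O : ValuationSubring K) (z w : V → K) (a b i j : V) : K :=
  (w i - w j) * nm O (z b - z a) (w b - w a) (O.valuation (w i - w j))⁻¹

namespace T3

variable {B : SimpleGraph V} {U : Finset V} {z w : V → K} {x a b y : V}
  {O₀ O : ValuationSubring K} {l : O₀.ValueGroup} (T : T3 B U z w x a b y O₀ l)

include T

theorem val {γ : O₀.ValueGroup} (h : M3 l γ) :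
    O₀.valuation (nm O₀ (z b - z a) (w b - w a) γ) = γ := nm_val T.l0 T.l1 T.hZ T.hW h

theorem pos {γ : O₀.ValueGroup} (h : M3 l γ) : 0 < γ := T.l0.trans_le (h.le T.l0 T.l1).1

theorem nm_ne {γ : O₀.ValueGroup} (h : M3 l γ) : nm O₀ (z b - z a) (w b - w a) γ ≠ 0 := fun e =>
  (T.pos h).ne' (by rw [← T.val h, e, map_zero])

theorem qz_val {i j : V} (hi : i ∈ U.erase x) (hj : j ∈ U.erase x) (e : i ≠ j) :
    O₀.valuation (qz O₀ z w a b i j) = 1 := by
  rw [qz, map_mul, map_inv₀, T.val (T.lz i hi j hj e), mul_inv_cancel₀ (T.pos (T.lz i hi j hj e)).ne']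

theorem qw_val {i j : V} (hi : i ∈ U.erase x) (hj : j ∈ U.erase x) (e : i ≠ j) :
    O₀.valuation (qw O₀ z w a b i j) = 1 := by
  rw [qw, map_mul, T.val (T.lw i hi j hj e), mul_inv_cancel₀]
  simpa using (T.pos (T.lw i hi j hj e)).ne'

theorem qz_mem {i j : V} (hi : i ∈ U.erase x) (hj : j ∈ U.erase x) : qz O₀ z w a b i j ∈ O₀ := by
  by_cases e : i = j
  · simp [qz, e]
  · exact (O₀.valuation_le_one_iff _).1 (T.qz_val hi hj e).le

theorem qw_mem {i j : V} (hi : i ∈ U.erase x) (hj : j ∈ U.erase x) : qw O₀ z w a b i j ∈ O₀ := by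
  by_cases e : i = j
  · simp [qw, e]
  · exact (O₀.valuation_le_one_iff _).1 (T.qw_val hi hj e).le

end T3

namespace Set3

variable {G B : SimpleGraph V} {U : Finset V} {z w r : V → K} {x a b c : V} {ω : Sym2 V → K}
  (h : Set3 G B U z w r x a b c ω) {O₀ O : ValuationSubring K} {y : V} (hy : y ∈ U.erase x)
  (ya : G.Adj y a) (yb : G.Adj y b) (hz : z y - z a = r y + r a) {l : O₀.ValueGroup}
  (T : T3 B U z w x a b y O₀ l) (A₀ : At3 G B U z w r x a b O₀) (A : At3 G B U z w r x a b O)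
  (hZ : O.valuation (z b - z a) < 1) (hW : O.valuation (w b - w a) < 1)
  (h1 : ∀ i ∈ U.erase x, ∀ j ∈ U.erase x, qz O₀ z w a b i j ∈ O)
  (h2 : ∀ i ∈ U.erase x, ∀ j ∈ U.erase x, qw O₀ z w a b i j ∈ O)

include h hy hz T A₀ A hZ hW h1 h2

theorem ld3 {γ : O₀.ValueGroup} (hγ : M3 l γ) :
    LD (U.erase x) O₀ O z w γ (nm O₀ (z b - z a) (w b - w a) γ) := by
  have Z0 := sub_ne_zero.2 (h.base.nz b a h.ab.symm)
  have W0 := sub_ne_zero.2 (h.base.nw b a h.ab.symm)
  have key : ∀ q t p : K, q ∈ O → O.valuation t < 1 → p = q * t → O.valuation p < 1 :=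
    fun q t p hq ht e => by
      rw [e, map_mul]
      exact (mul_le_of_le_one_left zero_le ((O.valuation_le_one_iff _).2 hq)).trans_lt ht
  refine ⟨(T.pos hγ).ne', T.nm_ne hγ, fun i hi j hj => ?_, fun i hi j hj => ?_, ?_⟩
  · by_cases e : i = j
    · simp [e]
    have m := T.lz i hi j hj e
    have lt : O₀.valuation (z i - z j) < γ →
        O.valuation ((z i - z j) * (nm O₀ (z b - z a) (w b - w a) γ)⁻¹) < 1 := fun e' =>
      key _ _ _ (h1 i hi j hj) (nm_ratio T.l0 T.l1 hZ hW hγ m e') (by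
        have := T.nm_ne m
        unfold qz; field_simp)
    refine ⟨fun e' => ?_, lt⟩
    rcases e'.eq_or_lt with e' | e'
    · rw [← e']; exact h1 i hi j hj
    · exact (O.valuation_le_one_iff _).1 (lt e').le
  · by_cases e : i = j
    · simp [e]
    have m := T.lw i hi j hj e
    have lt : O₀.valuation (w i - w j) < γ⁻¹ →
        O.valuation ((w i - w j) * nm O₀ (z b - z a) (w b - w a) γ) < 1 := fun e' =>
      key _ _ _ (h2 i hi j hj) (nm_ratio T.l0 T.l1 hZ hW m hγ
        (lt_inv_of_lt_inv₀ (inv_pos.1 (T.pos m)) e')) (by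
        rw [qw, mul_assoc, mul_left_comm (nm _ _ _ _⁻¹), mul_inv_cancel₀ (T.nm_ne m), mul_one])
    refine ⟨fun e' => ?_, lt⟩
    rcases e'.eq_or_lt with e' | e'
    · have := h2 i hi j hj
      rwa [qw, e', inv_inv] at this
    · exact (O.valuation_le_one_iff _).1 (lt e').le
  · rcases hγ with rfl | rfl | rfl
    · exact ⟨b, h.hb, a, h.ha, Or.inl ⟨T.hZ.le, by rw [nm_lo T.l1, mul_inv_cancel₀ Z0, map_one]⟩⟩
    · refine ⟨y, hy, a, h.ha, Or.inl ⟨hz ▸ ((A₀.red hy).add (A₀.red h.ha)).le, ?_⟩⟩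
      rw [nm_one, hz, inv_one, mul_one]
      exact ((A.red hy).add (A.red h.ha)).val_eq_one (A.add_ne hy h.ha)
    · exact ⟨b, h.hb, a, h.ha, Or.inr ⟨by rw [T.hW, inv_inv],
        by rw [nm_hi T.l0 T.l1, mul_inv_cancel₀ W0, map_one]⟩⟩

omit hy hz A₀ A hZ hW h1 h2 in
theorem sep3 {γ : O₀.ValueGroup} :
    (O₀.valuation (z a - z b) = γ →
      O.valuation ((z a - z b) * (nm O₀ (z b - z a) (w b - w a) γ)⁻¹) = 1) ∧
    (O₀.valuation (w a - w b) = γ⁻¹ →
      O.valuation ((w a - w b) * nm O₀ (z b - z a) (w b - w a) γ) = 1) := by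
  have Z0 := sub_ne_zero.2 (h.base.nz b a h.ab.symm)
  have W0 := sub_ne_zero.2 (h.base.nw b a h.ab.symm)
  refine ⟨fun e => ?_, fun e => ?_⟩
  · rw [Valuation.map_sub_swap, T.hZ] at e
    rw [← e, nm_lo T.l1, ← neg_sub, neg_mul, Valuation.map_neg, mul_inv_cancel₀ Z0, map_one]
  · rw [Valuation.map_sub_swap, T.hW, ← inv_eq_iff_eq_inv] at e
    rw [← e, nm_hi T.l0 T.l1, ← neg_sub, neg_mul, Valuation.map_neg, mul_inv_cancel₀ W0, map_one]

theorem bars3' {γ : O₀.ValueGroup} (hγ : M3 l γ) :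
    (h.ld3 hy hz T A₀ A hZ hW h1 h2 hγ).lev.Bars (fun i => res O (r i)) a b
      ((e3 B U x b y O₀ z γ).filter fun e => G.Adj (fs e) (sn e))
      ((e3 B U x b y O₀ z γ).filter fun e => ¬G.Adj (fs e) (sn e))
      (fun e => gl O₀ z w a b γ (fs e)) (fun e => gl O₀ z w a b γ (sn e)) fun _ => 1 :=
  h.bars3 A₀ A _ (by rw [Valuation.map_sub_swap, T.hZ]; exact T.l1)
    (by rw [Valuation.map_sub_swap, T.hW]; exact T.l1) (h.sep3 T).1 (h.sep3 T).2

include ya yb

theorem rig3 {d : ResidueField O → ResidueField O} (hd : Kil G B U z w r x O d)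
    {γ : O₀.ValueGroup} (hγ : M3 l γ) {i j : V} (hi : i ∈ U.erase x) (hj : j ∈ U.erase x) :
    (O₀.valuation (z i - z j) ≤ γ →
      d (res O ((z i - z j) * (nm O₀ (z b - z a) (w b - w a) γ)⁻¹)) = 0) ∧
    (O₀.valuation (w i - w j) ≤ γ⁻¹ →
      d (res O ((w i - w j) * nm O₀ (z b - z a) (w b - w a) γ)) = 0) := by
  have := A.ch
  have Z0 := sub_ne_zero.2 (h.base.nz b a h.ab.symm)
  have W0 := sub_ne_zero.2 (h.base.nw b a h.ab.symm)
  have hB := h.bars3' hy hz T A₀ A hZ hW h1 h2 hγ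
  set L := h.ld3 hy hz T A₀ A hZ hW h1 h2 hγ with hL
  obtain ⟨θ, hθ⟩ := hB.rig' (h.node3 hy ya yb) (filter_split _) (T.ge γ hγ)
    (fun i => d (L.lev.ζ i)) (fun i => d (L.lev.ω i))
    (fun i hi j hj e => congrArg d (L.lev.cz i hi j hj e))
    (fun i hi j hj e => congrArg d (L.lev.cw i hi j hj e)) fun f hf => by
      refine (hd.1.prod L.lev.ζ L.lev.ω _ _).symm.trans ?_
      obtain ⟨m, e'⟩ := mem_filter.1 hf
      have m := mem_of_mem_erase m
      obtain ⟨m1, m2, -⟩ := mem_eIn'.1 m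
      obtain ⟨a1, a2, a3, -⟩ := h.gl_facts A L.ne m1
      obtain ⟨b1, b2, b3, -⟩ := h.gl_facts A L.ne m2
      by_cases e : G.Adj (fs f) (sn f)
      · rw [hB.hE f (mem_filter.2 ⟨hf, e⟩), hd.1.sq, one_mul, hd.1.add, hd.2.1 _ a1, hd.2.1 _ b1,
          add_zero, mul_zero]
      · rw [L.glue_z a1 m1 a2, L.glue_z b1 m2 b2, L.glue_w a1 m1 a3, L.glue_w b1 m2 b3,
          ← (L.prod (L.near m1 m2 e'.le (by rw [A₀.val_n h.base m, e']))).2]
        exact hd.2.2 f (mem_fr.2 ⟨m, e⟩)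
  have kz : ∀ i ∈ U.erase x, ∀ j ∈ U.erase x, O₀.valuation (z i - z j) ≤ γ → ∀ p,
      Red O ((z i - z j) * (nm O₀ (z b - z a) (w b - w a) γ)⁻¹) p → d p = θ * p :=
    fun i hi j hj e p hp => by
      rw [hp.unique (L.redz hi hj e), hd.1.sub]
      exact (hθ i hi j hj).1 (L.bz_iff.2 e)
  have kw : ∀ i ∈ U.erase x, ∀ j ∈ U.erase x, O₀.valuation (w i - w j) ≤ γ⁻¹ → ∀ p,
      Red O ((w i - w j) * nm O₀ (z b - z a) (w b - w a) γ) p → d p = -θ * p :=
    fun i hi j hj e p hp => by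
      rw [hp.unique (L.redw hi hj e), hd.1.sub]
      exact (hθ i hi j hj).2 (L.bw_iff.2 e)
  have θ0 : θ = 0 := by
    rcases hγ with rfl | rfl | rfl
    · have := kz b h.hb a h.ha T.hZ.le 1 (by rw [nm_lo T.l1, mul_inv_cancel₀ Z0]; exact Red.one)
      rw [hd.1.one, mul_one] at this
      exact this.symm
    · have := kz y hy a h.ha (hz ▸ ((A₀.red hy).add (A₀.red h.ha)).le) _ (by
        rw [nm_one, hz, inv_one, mul_one]; exact (A.red hy).add (A.red h.ha))
      rw [hd.1.add, hd.2.1 _ hy, hd.2.1 _ h.ha, add_zero] at this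
      exact (mul_eq_zero.1 this.symm).resolve_right (A.add_ne hy h.ha)
    · have := kw b h.hb a h.ha (by rw [T.hW, inv_inv]) 1
        (by rw [nm_hi T.l0 T.l1, mul_inv_cancel₀ W0]; exact Red.one)
      rw [hd.1.one, mul_one] at this
      exact neg_eq_zero.1 this.symm
  exact ⟨fun e => by simpa [θ0] using kz i hi j hj e _ (Red.of_mem (L.redz hi hj e).1),
    fun e => by simpa [θ0] using kw i hi j hj e _ (Red.of_mem (L.redw hi hj e).1)⟩

theorem rig3' {d : ResidueField O → ResidueField O} (hd : Kil G B U z w r x O d) {i j : V}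
    (hi : i ∈ U.erase x) (hj : j ∈ U.erase x) :
    d (res O (qz O₀ z w a b i j)) = 0 ∧ d (res O (qw O₀ z w a b i j)) = 0 := by
  by_cases e : i = j
  · simp [qz, qw, e, Red.zero.2, hd.1.zero]
  · exact ⟨(h.rig3 hy ya yb hz T A₀ A hZ hW h1 h2 hd (T.lz i hi j hj e) hi hj).1 le_rfl,
      (h.rig3 hy ya yb hz T A₀ A hZ hW h1 h2 hd (T.lw i hi j hj e) hi hj).2 (inv_inv _).ge⟩

end Set3

namespace Set3

variable {G B : SimpleGraph V} {U : Finset V} {z w r : V → K} {x a b c : V} {ω : Sym2 V → K}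
  (h : Set3 G B U z w r x a b c ω) {O : ValuationSubring K} {y : V} (hy : y ∈ U.erase x)
  (A : At3 G B U z w r x a b O) {σ : K}
  (hq : Quad (r x + r a) (r x + r b) (r y + r a) (r y + r b) (z b - z a) (w b - w a) (z x - z a)
    (w x - w a) σ)

include h hy A hq

theorem vals3 {p s : ResidueField O} (hρ : Red O ((r x + r b) / (r x + r a)) p) (hσ : Red O σ s)
    {d : ResidueField O → ResidueField O} (hd : IsDer d) (hp : d p = 0) (hs : d s ≠ 0) :
    O.valuation (z b - z a) = O.valuation (r b - r a) ∧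
      O.valuation (w b - w a) = O.valuation (r b - r a) := by
  have := A.ch
  have l0 := h.base.ne2 x a
  have m := (A.red hy).add (A.red h.ha)
  have m' := (A.red hy).add (A.red h.hb)
  rw [A.res_ab h.ha h.hb] at m'
  have m0 := A.add_ne hy h.ha
  generalize res O (r y) + res O (r a) = μ at m m' m0
  have s0 : s ≠ 0 := fun e => hs (by rw [e, hd.zero])
  have s1 := lin_ne hd hd.one hd.one hs (Or.inl one_ne_zero)
  have s2 := lin_ne hd hd.one hp hs (Or.inl one_ne_zero)
  have p1 : d (1 + p) = 0 := by rw [hd.add, hd.one, hp, add_zero]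
  have s3 := lin_ne hd p1 (q := 2 * p) (by rw [hd.mul, hd.two, hp]; ring) hs (by
    by_contra hn
    push Not at hn
    exact one_ne_zero' (ResidueField O) (by linear_combination hn.1 - hn.2 / 2))
  have s4 := lin_ne hd hd.two p1 hs (Or.inl two_ne_zero)
  refine ⟨val_eq_of ((((Red.one.add hσ).mul (Red.one.add (hρ.mul hσ))).mul m).val_eq_one ?_)
      ((hσ.mul (((Red.one.add hρ).mul m).add ((hρ.mul (m.add m')).mul hσ))).neg.val_eq_one ?_) ?_,
    val_eq_of (((m.add (m'.mul hσ)).mul (m.add ((hρ.mul m').mul hσ))).val_eq_one ?_)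
      ((m.mul ((m.add m').add ((m'.mul (Red.one.add hρ)).mul hσ))).neg.val_eq_one ?_) ?_⟩
  · exact mul_ne_zero (mul_ne_zero (by simpa using s1) s2) m0
  · exact fun e => mul_ne_zero s0 (mul_ne_zero m0 s3) (by linear_combination -e)
  · field_simp
    linear_combination hq.i1
  · exact fun e => mul_ne_zero (mul_ne_zero m0 s1) (mul_ne_zero m0 s2) (by linear_combination e)
  · exact fun e => mul_ne_zero m0 (mul_ne_zero m0 s4) (by linear_combination -e)
  · field_simp
    linear_combination hq.i2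

theorem small4 (hρ : (r x + r b) / (r x + r a) ∈ O) (hσ : O.valuation σ < 1) :
    O.valuation (z b - z a) < 1 ∧ O.valuation (w b - w a) < 1 := by
  have l0 := h.base.ne2 x a
  have m := (A.red hy).add (A.red h.ha)
  have m' := (A.red hy).add (A.red h.hb)
  have m0 := A.add_ne hy h.ha
  have s := red_zero_iff.2 hσ
  have t := red_zero_iff.2 A.hA
  have p := Red.of_mem hρ
  exact ⟨(Red.of_mul (((Red.one.add s).mul (Red.one.add (p.mul s))).mul m) (by simp [m0])
      (t.neg.mul (s.mul (((Red.one.add p).mul m).add ((p.mul (m.add m')).mul s))))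
      (by field_simp; linear_combination hq.i1)).lt (by simp),
    (Red.of_mul ((m.add (m'.mul s)).mul (m.add ((p.mul m').mul s))) (by simp [m0])
      (t.neg.mul (m.mul ((m.add m').add ((m'.mul (Red.one.add p)).mul s))))
      (by field_simp; linear_combination hq.i2)).lt (by simp)⟩

theorem x0₁ (ya : G.Adj y a) (yb : G.Adj y b) (hz : z y - z a = r y + r a) (hσ : σ ∈ O)
    {d : ResidueField O → ResidueField O} (hd : Kil G B U z w r x O d) (hs : d (res O σ) ≠ 0)
    (hρ : O.valuation ((r x + r b) / (r x + r a)) < 1) : False := by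
  have := A.ch
  have l0 := h.base.ne2 x a
  have W0 := sub_ne_zero.2 (h.base.nw b a h.ab.symm)
  have p := red_zero_iff.2 hρ
  have S := Red.of_mem hσ
  generalize res O σ = s at S hs
  obtain ⟨vZ, vW⟩ := h.vals3 hy A hq p S hd.1 hd.1.zero hs
  have T := h.tight3 hy ya yb A hz (vZ ▸ A.hA) (vW.trans vZ.symm)
  have vl : O.valuation (r x + r a) = O.valuation (z b - z a) :=
    (val_eq_of ((p.sub Red.one).val_eq_one (by simp)) (map_one _)
      (by field_simp; ring)).trans vZ.symm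
  generalize O.valuation (z b - z a) = l at T vl
  have hZ : O.valuation (z b - z a) < 1 := T.hZ ▸ T.l1
  have hW : O.valuation (w b - w a) < 1 := T.hW ▸ T.l1
  have m := (A.red hy).add (A.red h.ha)
  have m' := (A.red hy).add (A.red h.hb)
  have m0 := A.add_ne hy h.ha
  generalize res O (r y) + res O (r a) = μ at m m0
  have s0 : s ≠ 0 := fun e => hs (by rw [e, hd.1.zero])
  have s1 : 1 + s ≠ 0 := by simpa using lin_ne hd.1 hd.1.one hd.1.one hs (Or.inl one_ne_zero)
  have u1 := m.add ((p.mul m').mul S)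
  have u2 := ((m.sub (red_zero_iff.2 hZ)).mul S).mul (Red.one.add S)
  have k1 : O.valuation ((z x - z b) * (r x + r a)⁻¹) < 1 :=
    (Red.of_mul u1 (by simp [m0]) ((p.pow 2).mul u2)
      (by field_simp; linear_combination hq.i4)).lt (by simp)
  have k2 : Red O ((w x - w b) * (r x + r a)⁻¹) (s * (1 + s))⁻¹ :=
    (Red.of_mul u2 (by simp [m0, s0, s1]) u1 (by field_simp; linear_combination hq.i5)).congr rfl
      (by simp; field_simp)
  have k3 : Red O ((w x - w a) * (r x + r a)⁻¹) ((1 + s) / s) :=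
    (Red.of_mul (S.mul u1) (by simp [m0, s0]) ((Red.one.add S).mul m)
      (by field_simp; linear_combination hq.i6)).congr rfl (by simp; field_simp)
  have zxb : O.valuation (z x - z b) < l := by
    rwa [map_mul, map_inv₀, vl, mul_inv_lt_iff₀ T.l0, one_mul] at k1
  have wxb : O.valuation (w x - w b) ≤ l := by
    have := k2.le
    rwa [map_mul, map_inv₀, vl, mul_inv_le_iff₀ T.l0, one_mul] at this
  have lc : Red O (r x + r c) (res O (r c) - res O (r a)) :=
    (((red_zero_iff.2 (vl ▸ T.l1)).add (A.red h.hc)).sub (A.red h.ha)).congr (by ring) (by ring)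
  have c0 := A.sub_ne h.hc h.ha h.ac.symm h.ac.symm h.bc.symm
  have nc : Red O ((z x - z c) * (w x - w c)) ((res O (r c) - res O (r a)) ^ 2) :=
    (lc.pow 2).congr (h.base.tan x c h.tc).symm rfl
  have hγ := T.lz b h.hb c h.hc h.bc
  obtain ⟨γ, e0⟩ : ∃ γ, O.valuation (z b - z c) = γ := ⟨_, rfl⟩
  rw [e0] at hγ
  have zxb' := zxb.trans_le (hγ.le T.l0 T.l1).1
  have zxc : O.valuation (z x - z c) = γ := by
    rw [← sub_add_sub_cancel (z x) (z b) (z c), Valuation.map_add_eq_of_lt_right, e0]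
    rwa [e0]
  have wxc : O.valuation (w x - w c) = γ⁻¹ := by
    rw [← zxc]
    exact inv_of_mul (by rw [← map_mul]; exact nc.val_eq_one (pow_ne_zero _ c0))
  have q1 := fun i hi j hj => T.qz_mem (i := i) (j := j) hi hj
  have q2 := fun i hi j hj => T.qw_mem (i := i) (j := j) hi hj
  have π0 := T.nm_ne hγ
  have πv := T.val hγ
  have γ0 := T.pos hγ
  have P := Red.of_mem (mem_of_le (p := z x - z c) π0 (by rw [zxc, πv]))
  have Q := Red.of_mem (mem_of_le' (p := w x - w c) π0 (by rw [wxc, πv]))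
  have PQ := (P.mul Q).eq nc (by field_simp)
  have P' := (P.sub (red_zero_iff.2 (show O.valuation
      ((z x - z b) * (nm O (z b - z a) (w b - w a) γ)⁻¹) < 1 by
    rwa [map_mul, map_inv₀, πv, mul_inv_lt_iff₀ γ0, one_mul]))).congr
    (show _ = (z b - z c) * (nm O (z b - z a) (w b - w a) γ)⁻¹ by ring) (sub_zero _)
  rcases lt_or_ge l (O.valuation (w b - w c)) with e | e
  · have wbc : O.valuation (w b - w c) = γ⁻¹ := by
      rw [← wxc, ← sub_add_sub_cancel (w x) (w b) (w c), Valuation.map_add_eq_of_lt_right]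
      exact wxb.trans_lt e
    have Q' := (Q.sub (red_zero_iff.2 (show O.valuation
        ((w x - w b) * nm O (z b - z a) (w b - w a) γ) < 1 by
      rw [map_mul, πv, ← lt_mul_inv_iff₀ γ0, one_mul, ← wbc]
      exact wxb.trans_lt e))).congr
      (show _ = (w b - w c) * nm O (z b - z a) (w b - w a) γ by ring) (sub_zero _)
    have hB := h.bars3' hy hz T A A hZ hW q1 q2 hγ
    set L := h.ld3 hy hz T A A hZ hW q1 q2 hγ with hL
    obtain ⟨g1, g2, g3, g4⟩ := h.gl_facts A L.ne h.hb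
    refine hB.virt (h.node3 hy ya yb) (filter_split _) (T.ge γ hγ)
      (p := gl O z w a b γ b) (q := c) ⟨L.near g1 h.hc (val_tri_le g2.le e0.le)
        (val_tri_le g3.le wbc.le), fun e => ?_, fun e => e.2.elim h.ac.symm h.bc.symm, ?_,
        fun _ _ e => h.hab3 L (h.sep3 T).1 (h.sep3 T).2 ?_⟩
    · rcases gl_cases O z w a b γ with ⟨-, -, e'⟩ | ⟨-, e'⟩ <;> rw [e'] at e
      · exact h.ac (by simpa [glue] using e)
      · exact h.bc e
    · rw [L.glue_z g1 h.hb g2, L.glue_w g1 h.hb g3, (L.redz h.hb h.hc e0.le).unique P',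
        (L.redw h.hb h.hc wbc.le).unique Q', PQ, g4, A.res_ab h.ha h.hb]
      ring
    · rcases e with ⟨e, -, e' | e'⟩ | e' | e'
      exacts [⟨_, e'⟩, ⟨_, e'⟩, ⟨_, e'⟩, (h.bc e'.symm).elim]
  · have e1 : γ = l⁻¹ := le_antisymm (hγ.le T.l0 T.l1).2
      ((inv_le_comm₀ T.l0 γ0).2 (wxc ▸ val_tri_le wxb e))
    have e' : O.valuation (w b - w c) ≤ γ⁻¹ := by rwa [e1, inv_inv]
    obtain ⟨r1, r2⟩ := h.rig3 hy ya yb hz T A A hZ hW q1 q2 hd hγ h.hb h.hc
    have r1 := r1 e0.le
    have r2 := r2 e'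
    rw [P'.2] at r1
    have Q' := Red.of_mem (mem_of_le' (p := w b - w c) π0 (by rw [πv]; exact e'))
    have t := ((Q.sub Q').mul (k3.sub k2)).eq k2 (by rw [e1, nm_hi T.l0 T.l1]; field_simp; ring)
    have P0 := (mul_ne_zero_iff.1 (PQ ▸ pow_ne_zero 2 c0)).1
    have dq := congrArg d PQ
    rw [hd.1.mul, r1, hd.1.sq, hd.1.sub, hd.2.1 _ h.hc, hd.2.1 _ h.ha] at dq
    have dq : d (res O ((w x - w c) * nm O (z b - z a) (w b - w a) γ)) = 0 := by
      simpa [P0] using dq
    generalize res O ((w x - w c) * nm O (z b - z a) (w b - w a) γ) = t1 at t dq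
    generalize res O ((w b - w c) * nm O (z b - z a) (w b - w a) γ) = t2 at t r2
    have t' : (t1 - t2) * (s * (2 + s)) = 1 := by
      field_simp at t
      linear_combination t
    have := congrArg d t'
    simp only [hd.1.mul, hd.1.sub, hd.1.add, hd.1.two, hd.1.one, dq, r2] at this
    refine mul_ne_zero (left_ne_zero_of_mul_eq_one t')
      (mul_ne_zero (mul_ne_zero two_ne_zero s1) hs) ?_
    linear_combination this

end Set3

end Pool.Agent.P.MP_27dab6_co
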