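import Pool.Agent.P.MP_27dab6_co.Setup

/-!
Levels of a valuation that is trivial on the parameters.
-/

set_option autoImplicit false

namespace Pool.Agent.P.MP_27dab6_co

open Finset Classical IsLocalRing

variable {V K : Type} [Field K]

theorem three_le {S : Finset V} {i j k l : V} (hi : i ∈ S) (hj : j ∈ S) (hk : k ∈ S) (hl : l ∈ S)
    (hij : i ≠ j) (hkl : k ≠ l) (hne : s(i, j) ≠ s(k, l)) : 3 ≤ S.card := by
  by_cases h1 : k = i ∨ k = j
  · refine two_lt_card_iff.2 ⟨i, j, l, hi, hj, hl, hij, ?_, ?_⟩ <;> rintro rfl <;>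
      rcases h1 with rfl | rfl <;> simp at hne hkl
  · exact two_lt_card_iff.2 ⟨i, j, k, hi, hj, hk, hij, fun e => h1 (Or.inl e.symm),
      fun e => h1 (Or.inr e.symm)⟩

theorem map_fs_sn (g : V → V) (e : Sym2 V) : e.map g = s(g (fs e), g (sn e)) := by
  conv_lhs => rw [← mk_fs_sn e]
  rfl

theorem three_le' {F : Finset (Sym2 V)} {g : V → V} {S : Finset V} {col : V → Bool}
    (hinj : ∀ e ∈ F, ∀ e' ∈ F, e.map g = e'.map g → e = e')
    (hc : ∀ e ∈ F, g (fs e) ∈ S ∧ g (sn e) ∈ S ∧ col (g (fs e)) ≠ col (g (sn e)))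
    (h2 : 2 ≤ F.card) : 3 ≤ S.card := by
  obtain ⟨e, he, e', he', hne⟩ := one_lt_card.1 h2
  obtain ⟨a, b, c⟩ := hc e he
  obtain ⟨a', b', c'⟩ := hc e' he'
  exact three_le a b a' b' (fun h => c (by rw [h])) (fun h => c' (by rw [h])) fun h =>
    hne (hinj e he e' he' (by rwa [map_fs_sn, map_fs_sn]))

theorem nodeBd_of_ne {κ E : Type} [Field κ] [CharZero κ] {T : Finset E} {s t : E → V} {n k : ℕ}
    (H : ∀ F ⊆ T, ∀ (S : Finset V) (col : V → Bool),
      (∀ e ∈ F, s e ∈ S ∧ t e ∈ S ∧ col (s e) ≠ col (t e)) → n ≤ F.card →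
      F.card + k ≤ 2 * S.card) : NodeBd T s t (fun _ => (1 : κ)) n k := fun F hF S col hc =>
  H F hF S col fun e he => ⟨(hc e he).1, (hc e he).2.1, fun e' =>
    two_ne_zero' κ (by linear_combination (hc e he).2.2.1 e')⟩

theorem PM.nodeBd {κ : Type} [Field κ] [CharZero κ] {B : SimpleGraph V} {U : Finset V}
    (h : PM B U) {T : Finset (Sym2 V)} (hT : T ⊆ eIn B U) :
    NodeBd T fs sn (fun _ => (1 : κ)) 2 4 :=
  nodeBd_of_ne fun F hF S col hc h2 => h.plain (hF.trans hT) S col hc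
    (three_le' (g := id) (fun e _ e' _ h => by simpa using h) hc h2)

/-- the edges of the framework without `x` at level `γ` -/
noncomputable def eLv (B : SimpleGraph V) (U : Finset V) (x : V) (O : ValuationSubring K)
    (z : V → K) (γ : O.ValueGroup) : Finset (Sym2 V) :=
  (eIn B (U.erase x)).filter (lv O z · = γ)

theorem inv_of_mul {Γ : Type} [LinearOrderedCommGroupWithZero Γ] {p q : Γ} (h : p * q = 1) :
    q = p⁻¹ := eq_inv_of_mul_eq_one_right h

namespace Set3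

variable {G B : SimpleGraph V} {U : Finset V} {z w r : V → K} {x a b c : V} {ω : Sym2 V → K}
  (h : Set3 G B U z w r x a b c ω)

include h

theorem edge_cases {e : Sym2 V} (he : e ∈ eIn B U) :
    e ∈ eIn B (U.erase x) ∨ e = s(x, a) ∨ e = s(x, b) ∨ e = s(x, c) := by
  rw [eIn_erase h.hx, h.hn] at he
  simp only [mem_union, mem_image, mem_insert, mem_singleton] at he
  rcases he with he | ⟨j, rfl | rfl | rfl, rfl⟩ <;> simp [*]

theorem lead_gen {O : ValuationSubring K} (hω : ∀ e ∈ eIn B U, ω e ∈ O) {f : V → K}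
    (hst : ∀ φ, ∑ e ∈ eIn B U, ω e * bt f φ e = 0) (m : K) (p φ : V → ResidueField O)
    (t : ResidueField O) {A : Finset (Sym2 V)} (hA : A ⊆ eIn B (U.erase x))
    (h1 : ∀ e ∈ A, Red O ((f (fs e) - f (sn e)) * m) (p (fs e) - p (sn e)))
    (h2 : ∀ e ∈ eIn B (U.erase x), e ∉ A →
      φ (fs e) = φ (sn e) ∨ O.valuation ((f (fs e) - f (sn e)) * m) < 1)
    (ht : ∀ j, j = a ∨ j = b ∨ j = c → t = φ j ∨ (f x - f j) * m ∈ O) :
    ∑ e ∈ A, res O (ω e) * ((p (fs e) - p (sn e)) * (φ (fs e) - φ (sn e))) +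
      (res O (ω s(x, a)) * (res O ((f x - f a) * m) * (t - φ a)) +
        res O (ω s(x, b)) * (res O ((f x - f b) * m) * (t - φ b)) +
        res O (ω s(x, c)) * (res O ((f x - f c) * m) * (t - φ c))) = 0 := by
  have up : ∀ i ∈ U.erase x, Function.update φ x t i = φ i := fun i hi =>
    Function.update_of_ne (mem_erase.1 hi).1 _ _
  have kx : ∀ j ∈ U.erase x, j = a ∨ j = b ∨ j = c →
      Function.update φ x t (fs s(x, j)) = Function.update φ x t (sn s(x, j)) ∨
        (f (fs s(x, j)) - f (sn s(x, j))) * m ∈ O := fun j hj hj' => by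
    rcases fs_sn x j with ⟨e1, e2⟩ | ⟨e1, e2⟩ <;> rw [e1, e2, up j hj, Function.update_self]
    · exact ht j hj'
    · refine (ht j hj').imp Eq.symm fun e => ?_
      simpa [← neg_mul] using O.neg_mem _ e
  have := lead hst hω m (Function.update φ x t) fun e he => by
    rcases h.edge_cases he with he | rfl | rfl | rfl
    · obtain ⟨m1, m2, -⟩ := mem_eIn'.1 he
      rw [up _ m1, up _ m2]
      by_cases hA' : e ∈ A
      · exact Or.inr (h1 e hA').1
      · exact (h2 e he hA').imp id fun e => (red_zero_iff.2 e).1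
    · exact kx _ h.ha (Or.inl rfl)
    · exact kx _ h.hb (Or.inr (Or.inl rfl))
    · exact kx _ h.hc (Or.inr (Or.inr rfl))
  rw [h.split3, rb_mk, rb_mk, rb_mk, up _ h.ha, up _ h.hb, up _ h.hc, Function.update_self,
    ← sum_subset hA] at this
  · rw [← this]
    congr 1
    refine sum_congr rfl fun e he => ?_
    obtain ⟨m1, m2, -⟩ := mem_eIn'.1 (hA he)
    rw [rb, up _ m1, up _ m2, (h1 e he).2]
  · intro e he hA'
    obtain ⟨m1, m2, -⟩ := mem_eIn'.1 he
    rw [rb, up _ m1, up _ m2]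
    rcases h2 e he hA' with e' | e'
    · rw [e', sub_self, mul_zero, mul_zero]
    · rw [(red_zero_iff.2 e').2, zero_mul, mul_zero]

variable [CharZero K] {O : ValuationSubring K}
  (hk : (Subfield.closure (prm G B U z w r x)).toSubring ≤ O.toSubring)

include hk

theorem val_w {e : Sym2 V} (he : e ∈ eIn B (U.erase x)) :
    O.valuation (w (fs e) - w (sn e)) = (lv O z e)⁻¹ :=
  inv_of_mul (by rw [lv, ← map_mul]; exact (h.cn_n he).val hk (h.n_ne he))

theorem red_r {i : V} (hi : i ∈ U) : Red O (r i) (res O (r i)) := Red.of_mem ((h.cn_r hi).mem hk)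

theorem res_add_ne {i j : V} (hi : i ∈ U) (hj : j ∈ U) : res O (r i) + res O (r j) ≠ 0 :=
  ((h.red_r hk hi).add (h.red_r hk hj)).ne_zero
    (((h.cn_r hi).add (h.cn_r hj)).val hk (h.base.ne2 i j))

theorem res_sub_ne {i j : V} (hi : i ∈ U.erase x) (hj : j ∈ U.erase x) (hij : i ≠ j) :
    res O (r i) - res O (r j) ≠ 0 :=
  ((h.red_r hk (mem_of_mem_erase hi)).sub (h.red_r hk (mem_of_mem_erase hj))).ne_zero
    (((h.cn_r (mem_of_mem_erase hi)).sub (h.cn_r (mem_of_mem_erase hj))).val hk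
      (sub_ne_zero.2 (h.r_ne hi hj hij)))

theorem lev_bars {γ : O.ValueGroup} {π : K} (hL : LD (U.erase x) O O z w γ π) :
    hL.lev.Bars (fun i => res O (r i)) a a ((eLv B U x O z γ).filter fun e => G.Adj (fs e) (sn e))
      ((eLv B U x O z γ).filter fun e => ¬G.Adj (fs e) (sn e)) fs sn fun _ => 1 := by
  have h0 := zero_lt_iff.2 hL.ne
  have h0' := zero_lt_iff.2 (inv_ne_zero hL.ne)
  refine hL.bars h.base.tan id (fun i hi => ⟨hi, by simpa using h0, by simpa using h0', rfl⟩)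
    (fun i hi => (h.red_r hk (mem_of_mem_erase hi)).1) (fun e he => ?_)
    (fun e _ he => ⟨he.ne, fun e' => he.ne ((e'.1.elim id id).trans (e'.2.elim id id).symm)⟩)
    (Or.inl (by simpa using h0)) (fun e => (e rfl).elim) fun ρ c _ => ?_
  · obtain ⟨m, e'⟩ := mem_filter.1 he
    exact ⟨(mem_eIn'.1 m).1, (mem_eIn'.1 m).2.1, e'.le, by rw [h.val_w hk m, e']⟩
  · obtain ⟨D, a1, a2, a3⟩ := h.ind'.res hk ρ c
    exact ⟨D, a1, a2, fun f hf hf' => a3 f (mem_fr.2 ⟨(mem_filter.1 hf).1, hf'⟩)⟩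

omit hk [CharZero K] in
theorem lev_node {κ : Type} [Field κ] [CharZero κ] {γ : O.ValueGroup} :
    NodeBd ((eLv B U x O z γ).filter fun e => G.Adj (fs e) (sn e)) fs sn (fun _ => (1 : κ)) 2 4 :=
  h.pm.nodeBd (((filter_subset _ _).trans (filter_subset _ _)).trans
    (eIn_mono le_rfl (erase_subset _ _)))

theorem lev_le {γ : O.ValueGroup} {π : K} (hL : LD (U.erase x) O O z w γ π) :
    LeN O (U.erase x) z w γ (eLv B U x O z γ).card :=
  haveI := charZero_res hk
  (h.lev_bars hk hL).le' h.lev_node (filter_split _)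

omit hk [CharZero K] in
theorem lev_edge {e : Sym2 V} (he : e ∈ eIn B (U.erase x)) :
    LD (U.erase x) O O z w (lv O z e) (z (fs e) - z (sn e)) :=
  LD.self (sub_ne_zero.2 (h.base.nz _ _ (mem_eIn'.1 he).2.2.ne))
    ⟨_, (mem_eIn'.1 he).1, _, (mem_eIn'.1 he).2.1, Or.inl rfl⟩

theorem lead_w (hω : ∀ e ∈ eIn B U, ω e ∈ O) {π : K}
    (hL : LD (U.erase x) O O z w (O.valuation π) π) (φ : V → ResidueField O)
    (hφ : ∀ i j, hL.lev.lz i = hL.lev.lz j → φ i = φ j) (t : ResidueField O)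
    (ht : ∀ j, j = a ∨ j = b ∨ j = c → t = φ j ∨ (w x - w j) * π ∈ O) :
    ∑ e ∈ eLv B U x O z (O.valuation π),
        res O (ω e) * ((hL.lev.ω (fs e) - hL.lev.ω (sn e)) * (φ (fs e) - φ (sn e))) +
      (res O (ω s(x, a)) * (res O ((w x - w a) * π) * (t - φ a)) +
        res O (ω s(x, b)) * (res O ((w x - w b) * π) * (t - φ b)) +
        res O (ω s(x, c)) * (res O ((w x - w c) * π) * (t - φ c))) = 0 := by
  refine h.lead_gen hω h.st.1 π _ φ t (filter_subset _ _) (fun e he => ?_) (fun e he he' => ?_) ht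
  · obtain ⟨m, e'⟩ := mem_filter.1 he
    exact hL.redw (mem_eIn'.1 m).1 (mem_eIn'.1 m).2.1 (by rw [h.val_w hk m, e'])
  · rcases lt_or_gt_of_ne (fun e' => he' (mem_filter.2 ⟨he, e'⟩)) with e' | e'
    · exact Or.inl (hφ _ _ (hL.lz_iff.2 e'))
    · right
      rw [map_mul, h.val_w hk he, inv_mul_lt_iff₀ (zero_le.trans_lt e'), mul_one]
      exact e'

theorem lead_z (hω : ∀ e ∈ eIn B U, ω e ∈ O) {π : K}
    (hL : LD (U.erase x) O O z w (O.valuation π) π) (φ : V → ResidueField O)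
    (hφ : ∀ i j, hL.lev.lw i = hL.lev.lw j → φ i = φ j) (t : ResidueField O)
    (ht : ∀ j, j = a ∨ j = b ∨ j = c → t = φ j ∨ (z x - z j) * π⁻¹ ∈ O) :
    ∑ e ∈ eLv B U x O z (O.valuation π),
        res O (ω e) * ((hL.lev.ζ (fs e) - hL.lev.ζ (sn e)) * (φ (fs e) - φ (sn e))) +
      (res O (ω s(x, a)) * (res O ((z x - z a) * π⁻¹) * (t - φ a)) +
        res O (ω s(x, b)) * (res O ((z x - z b) * π⁻¹) * (t - φ b)) +
        res O (ω s(x, c)) * (res O ((z x - z c) * π⁻¹) * (t - φ c))) = 0 := by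
  have h0 := zero_lt_iff.2 hL.ne
  refine h.lead_gen hω h.st.2 π⁻¹ _ φ t (filter_subset _ _) (fun e he => ?_)
    (fun e he he' => ?_) ht
  · obtain ⟨m, e'⟩ := mem_filter.1 he
    exact hL.redz (mem_eIn'.1 m).1 (mem_eIn'.1 m).2.1 e'.le
  · rcases lt_or_gt_of_ne (fun e' => he' (mem_filter.2 ⟨he, e'⟩)) with e' | e'
    · right
      rw [map_mul, map_inv₀, mul_inv_lt_iff₀ h0, one_mul]
      exact e'
    · refine Or.inl (hφ _ _ (hL.lw_iff.2 ?_))
      rw [h.val_w hk he]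
      exact inv_strictAnti₀ h0 e'

end Set3

end Pool.Agent.P.MP_27dab6_co
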