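import Pool.Agent.P.MP_27dab6_co.Virt

/-!
The situation of a vertex of degree three with three tangent bars in a flexible framework.
-/

set_option autoImplicit false

namespace Pool.Agent.P.MP_27dab6_co

open Finset Classical IsLocalRing

variable {V K : Type} [Field K]

/-- `y` is killed by every derivation that kills `S` -/
def Cn (S : Set K) (y : K) : Prop := ∀ D, IsDer D → (∀ t ∈ S, D t = 0) → D y = 0

section Cn

variable {S : Set K} {y y' : K}

theorem Cn.of_mem (h : y ∈ S) : Cn S y := fun _ _ hS => hS y h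

theorem Cn.add (h : Cn S y) (h' : Cn S y') : Cn S (y + y') := fun D hD hS => by
  rw [hD.add, h D hD hS, h' D hD hS, add_zero]

theorem Cn.sub (h : Cn S y) (h' : Cn S y') : Cn S (y - y') := fun D hD hS => by
  rw [hD.sub, h D hD hS, h' D hD hS, sub_zero]

theorem Cn.mul (h : Cn S y) (h' : Cn S y') : Cn S (y * y') := fun D hD hS => by
  rw [hD.mul, h D hD hS, h' D hD hS]; ring

theorem Cn.div (h : Cn S y) (h' : Cn S y') : Cn S (y / y') := fun D hD hS => by
  rw [hD.div, h D hD hS, h' D hD hS]; ring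

theorem Cn.sq (h : Cn S y) : Cn S (y ^ 2) := by rw [pow_two]; exact h.mul h

theorem Cn.der (h : Cn S y) {D₁ : K → K} (h1 : IsDer D₁) (h2 : ∀ t ∈ S, D₁ t = 0 ∨ D₁ t = 1) :
    Cn S (D₁ y) := fun D hD hS => by
  have := h _ (hD.comm h1) fun t ht => by
    rcases h2 t ht with e | e <;> simp [e, hS t ht, hD.zero, hD.one, h1.zero]
  simpa [h D hD hS, h1.zero] using this

variable [CharZero K] {O : ValuationSubring K}

theorem Cn.mem (h : Cn S y) (hk : (Subfield.closure S).toSubring ≤ O.toSubring) : y ∈ O :=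
  mem_of_alg hk (alg_closure_of_killed h)

theorem Cn.val (h : Cn S y) (hk : (Subfield.closure S).toSubring ≤ O.toSubring) (h0 : y ≠ 0) :
    O.valuation y = 1 := val_of_alg hk (alg_closure_of_killed h) h0

theorem Cn.res_ne (h : Cn S y) (hk : (Subfield.closure S).toSubring ≤ O.toSubring) (h0 : y ≠ 0) :
    res O y ≠ 0 := (Red.of_mem (h.mem hk)).ne_zero (h.val hk h0)

theorem Cn.zero_of_lt (h : Cn S y) (hk : (Subfield.closure S).toSubring ≤ O.toSubring)
    (h0 : O.valuation y < 1) : y = 0 := by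
  by_contra hne
  exact h0.ne (h.val hk hne)

end Cn

/-- the free bars -/
noncomputable def fr (G B : SimpleGraph V) (U : Finset V) : Finset (Sym2 V) := eIn B U \ eIn G U

theorem mem_fr {G B : SimpleGraph V} {U : Finset V} {e : Sym2 V} :
    e ∈ fr G B U ↔ e ∈ eIn B U ∧ ¬G.Adj (fs e) (sn e) := by
  simp only [fr, mem_sdiff, mem_eIn']; tauto

theorem sum_single_bt {B : SimpleGraph V} {U : Finset V} {v : V} (hv : v ∈ U) (ω : Sym2 V → K)
    (f : V → K) : ∑ e ∈ eIn B U, ω e * bt f (Pi.single v 1) e =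
      ∑ j ∈ nbr B U v, ω s(v, j) * (f v - f j) := by
  rw [sum_eIn_erase hv, sum_eq_zero, zero_add]
  · exact sum_congr rfl fun j hj => by simp [bt_mk, (mem_nbr.1 hj).2.ne']
  · intro e he
    obtain ⟨a, b, -⟩ := mem_eIn'.1 he
    simp [bt, (mem_erase.1 a).1, (mem_erase.1 b).1]

theorem sum_sm {B : SimpleGraph V} {U : Finset V} (f : Sym2 V → K) (ρ : V → K) :
    ∑ e ∈ eIn B U, f e * sm ρ e = ∑ v ∈ U, (∑ j ∈ nbr B U v, f s(v, j)) * ρ v := by
  have h1 : ∀ v ∈ U, ∑ j ∈ nbr B U v, f s(v, j) = ∑ e ∈ eIn B U, f e * sm (Pi.single v 1) e :=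
    fun v hv => by
      rw [sum_eIn_erase hv, sum_eq_zero (s := eIn B (U.erase v)), zero_add]
      · exact sum_congr rfl fun j hj => by simp [sm_mk, (mem_nbr.1 hj).2.ne']
      · intro e he
        obtain ⟨a, b, -⟩ := mem_eIn'.1 he
        simp [sm, (mem_erase.1 a).1, (mem_erase.1 b).1]
  rw [sum_congr (s₁ := U) rfl fun v hv => by rw [h1 v hv, sum_mul], sum_comm]
  refine sum_congr rfl fun e he => ?_
  obtain ⟨a, b, -⟩ := mem_eIn'.1 he
  simp only [mul_assoc, ← mul_sum, sm, add_mul, sum_add_distrib, Pi.single_apply]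
  simp [a, b]

/-- the load of a stress at a vertex -/
noncomputable def lam (G : SimpleGraph V) (U : Finset V) (r : V → K) (ω : Sym2 V → K) (v : V) :
    K := ∑ j ∈ nbr G U v, ω s(v, j) * (r v + r j)

theorem Stress.load {G B : SimpleGraph V} {U : Finset V} {z w r : V → K} {ω : Sym2 V → K}
    (h : Stress B z w U ω) (hb : Base G z w r) (hGB : G ≤ B) {D : K → K} (hD : IsDer D) :
    ∑ f ∈ fr G B U, ω f * D (bt z w f) + 2 * ∑ v ∈ U, lam G U r ω v * D (r v) = 0 := by
  rw [← h.der hD, ← sum_sdiff (eIn_mono hGB Subset.rfl)]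
  congr 1
  have := sum_sm (B := G) (U := U) (fun e => ω e * sm r e) fun v => D (r v)
  simp only [sm_mk] at this
  unfold lam
  rw [← this, mul_sum]
  refine sum_congr rfl fun e he => ?_
  unfold bt sm
  rw [hb.tan _ _ (mem_eIn'.1 he).2.2, hD.sq, hD.add]
  ring

/-- a flexible tight framework with a vertex `x` of degree three whose bars are tangent -/
structure Set3 (G B : SimpleGraph V) (U : Finset V) (z w r : V → K) (x a b c : V)
    (ω : Sym2 V → K) : Prop where
  base : Base G z w r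
  le : G ≤ B
  sp : Sparse B U
  ti : Tight B U
  pm : PM B U
  deg : ∀ v ∈ U, 3 ≤ (nbr B U v).card
  hx : x ∈ U
  hn : nbr B U x = {a, b, c}
  ab : a ≠ b
  ac : a ≠ c
  bc : b ≠ c
  ta : G.Adj x a
  tb : G.Adj x b
  tc : G.Adj x c
  noT : ∀ S ⊆ U, S ≠ U → a ∈ S → b ∈ S → ¬Tight B S
  ind : Ind (U.erase x) (insert s(a, b) (fr G B (U.erase x))) r (bt z w)
  st : Stress B z w U ω
  nz : ∀ v ∈ U, (nbr B U v).card = 3 → ∃ j ∈ nbr B U v, ω s(v, j) ≠ 0

namespace Set3

variable {G B : SimpleGraph V} {U : Finset V} {z w r : V → K} {x a b c : V} {ω : Sym2 V → K}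
  (h : Set3 G B U z w r x a b c ω)

include h

theorem swap : Set3 G B U w z r x a b c ω :=
  { h with
    base := h.base.swap
    ind := by rw [show bt w z = bt z w from funext fun e => bt_comm _ _ e]; exact h.ind
    st := ⟨h.st.2, h.st.1⟩ }

theorem symm : Set3 G B U z w r x b a c ω :=
  { h with
    hn := by rw [h.hn, insert_comm]
    ab := h.ab.symm
    ac := h.bc
    bc := h.ac
    ta := h.tb
    tb := h.ta
    noT := fun S a b c d => h.noT S a b d c
    ind := by rw [Sym2.eq_swap]; exact h.ind }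

omit h in
theorem bt_scale {u : K} (hu : u ≠ 0) : bt (fun i => z i / u) (fun i => w i * u) = bt z w := by
  funext e; unfold bt; field_simp

theorem scale {u : K} (hu : u ≠ 0) : Set3 G B U (fun i => z i / u) (fun i => w i * u) r x a b c ω :=
  { h with
    base := h.base.scale hu
    ind := by rw [bt_scale hu]; exact h.ind
    st := ⟨fun φ => by
        have := congrArg (· * u) (h.st.1 φ)
        simp only [sum_mul, zero_mul] at this
        exact Eq.trans (sum_congr rfl fun e _ => by unfold bt; ring) this,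
      fun φ => by
        have := congrArg (· / u) (h.st.2 φ)
        simp only [sum_div, zero_div] at this
        exact Eq.trans (sum_congr rfl fun e _ => by unfold bt; ring) this⟩ }

theorem smul {μ : K} (hμ : μ ≠ 0) : Set3 G B U z w r x a b c fun e => μ * ω e :=
  { h with
    st := ⟨fun φ => by simp only [mul_assoc, ← mul_sum, h.st.1 φ, mul_zero],
      fun φ => by simp only [mul_assoc, ← mul_sum, h.st.2 φ, mul_zero]⟩
    nz := fun v hv h3 => by
      obtain ⟨j, hj, e⟩ := h.nz v hv h3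
      exact ⟨j, hj, mul_ne_zero hμ e⟩ }

theorem nbr_iff {j : V} : j ∈ U ∧ B.Adj x j ↔ j = a ∨ j = b ∨ j = c := by
  rw [← mem_nbr, h.hn]; simp

theorem ha : a ∈ U.erase x := mem_erase.2 ⟨h.ta.ne', (h.nbr_iff.2 (Or.inl rfl)).1⟩

theorem hb : b ∈ U.erase x := mem_erase.2 ⟨h.tb.ne', (h.nbr_iff.2 (Or.inr (Or.inl rfl))).1⟩

theorem hc : c ∈ U.erase x := mem_erase.2 ⟨h.tc.ne', (h.nbr_iff.2 (Or.inr (Or.inr rfl))).1⟩

theorem card_x : (nbr B U x).card = 3 := by
  rw [h.hn]; exact card_eq_three.2 ⟨a, b, c, h.ab, h.ac, h.bc, rfl⟩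

theorem nbrG : nbr G U x = {a, b, c} := by
  ext j
  rw [mem_nbr]
  simp only [mem_insert, mem_singleton]
  refine ⟨fun e => h.nbr_iff.1 ⟨e.1, h.le e.2⟩, ?_⟩
  rintro (rfl | rfl | rfl)
  · exact ⟨mem_of_mem_erase h.ha, h.ta⟩
  · exact ⟨mem_of_mem_erase h.hb, h.tb⟩
  · exact ⟨mem_of_mem_erase h.hc, h.tc⟩

theorem noT' {S : Finset V} (hS : S ⊆ U.erase x) (ha : a ∈ S) (hb : b ∈ S) : ¬Tight B S :=
  h.noT S (hS.trans (erase_subset _ _)) (fun e => notMem_erase x U (hS (e ▸ h.hx))) ha hb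

theorem nab : ¬B.Adj a b := fun e =>
  h.noT' (S := {a, b}) (insert_subset h.ha (singleton_subset_iff.2 h.hb)) (by simp) (by simp)
    (tight_pair e)

theorem card_e : (eIn B (U.erase x)).card + 4 = 2 * (U.erase x).card := by
  have h1 := card_eIn_erase (B := B) h.hx
  have h2 := h.ti
  have h3 := card_erase_add_one h.hx
  have := h.card_x
  unfold Tight at h2
  omega

theorem sp' : Sparse (B ⊔ SimpleGraph.edge a b) (U.erase x) :=
  sparse_sup_edge (h.sp.mono le_rfl (erase_subset _ _)) h.ab fun _ hS ha hb => h.noT' hS ha hb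

theorem not_common (h1 : B.Adj a c) (h2 : B.Adj b c) : False := by
  have hsub : ({x, a, b, c} : Finset V) ⊆ U := insert_subset h.hx
    ((insert_subset h.ha (insert_subset h.hb (singleton_subset_iff.2 h.hc))).trans
      (erase_subset _ _))
  have xa := h.ta.ne
  have xb := h.tb.ne
  have xc := h.tc.ne
  have ab := h.ab
  have ac := h.ac
  have bc := h.bc
  have c4 : ({x, a, b, c} : Finset V).card = 4 := by
    rw [card_insert_of_notMem (by simp [xa, xb, xc])]
    rw [card_eq_three.2 ⟨a, b, c, ab, ac, bc, rfl⟩]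
  refine h.noT _ hsub (fun e => ?_) (by simp) (by simp) ?_
  · have := h.deg a (mem_of_mem_erase h.ha)
    have h3 : nbr B U a ⊆ {x, c} := fun j hj => by
      obtain ⟨m, e'⟩ := mem_nbr.1 hj
      rw [← e] at m
      simp only [mem_insert, mem_singleton] at m ⊢
      rcases m with rfl | rfl | rfl | rfl
      · exact Or.inl rfl
      · exact (e'.ne rfl).elim
      · exact (h.nab e').elim
      · exact Or.inr rfl
    have := (card_le_card h3).trans card_le_two
    omega
  · have h5 := h.sp _ hsub (by omega)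
    have h6 : ({s(x, a), s(x, b), s(x, c), s(a, c), s(b, c)} : Finset (Sym2 V)) ⊆
        eIn B {x, a, b, c} := by
      intro e he
      simp only [mem_insert, mem_singleton] at he
      rcases he with rfl | rfl | rfl | rfl | rfl <;> rw [mem_eIn] <;>
        simp [h.le h.ta, h.le h.tb, h.le h.tc, h1, h2]
    have h7 := card_le_card h6
    rw [card_insert_of_notMem (by simp [xa, xb, xc, ab, ac]),
      card_insert_of_notMem (by simp [xa, xb, xc, bc]),
      card_insert_of_notMem (by simp [xa, xb, xc]), card_insert_of_notMem (by simp [ab, ac]),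
      card_singleton] at h7
    unfold Tight
    omega

theorem fr_eq : fr G B U = fr G B (U.erase x) := by
  ext e
  induction e using Sym2.ind with
  | _ i j =>
    simp only [fr, mem_sdiff, mem_eIn, mem_erase]
    have key : ∀ j ∈ U, B.Adj x j → G.Adj x j := fun j hj e => by
      rcases h.nbr_iff.1 ⟨hj, e⟩ with rfl | rfl | rfl
      exacts [h.ta, h.tb, h.tc]
    constructor
    · rintro ⟨⟨m1, m2, e⟩, e'⟩
      refine ⟨⟨⟨?_, m1⟩, ⟨?_, m2⟩, e⟩, fun e'' => e' ⟨m1, m2, e''.2.2⟩⟩
      · rintro rfl; exact e' ⟨m1, m2, key j m2 e⟩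
      · rintro rfl; exact e' ⟨m1, m2, (key i m1 e.symm).symm⟩
    · rintro ⟨⟨m1, m2, e⟩, e'⟩
      exact ⟨⟨m1.2, m2.2, e⟩, fun e'' => e' ⟨m1, m2, e''.2.2⟩⟩

theorem split3 {M : Type} [AddCommMonoid M] (f : Sym2 V → M) :
    ∑ e ∈ eIn B U, f e = ∑ e ∈ eIn B (U.erase x), f e + (f s(x, a) + f s(x, b) + f s(x, c)) := by
  rw [sum_eIn_erase h.hx, h.hn, sum_insert (by simp [h.ab, h.ac]), sum_pair h.bc, add_assoc]

theorem ab_notMem : s(a, b) ∉ fr G B (U.erase x) := fun e =>
  h.nab (mem_eIn.1 (mem_fr.1 e).1).2.2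

theorem ind' : Ind (U.erase x) (fr G B (U.erase x)) r (bt z w) :=
  h.ind.mono Subset.rfl (subset_insert _ _)

theorem r_ne {i j : V} (hi : i ∈ U.erase x) (hj : j ∈ U.erase x) (hij : i ≠ j) : r i ≠ r j :=
  fun e => by
    obtain ⟨D, -, h1, -⟩ := h.ind (Pi.single i 1) 0
    have a1 := h1 i hi
    have a2 := h1 j hj
    rw [e, a2] at a1
    simp [hij.symm] at a1

theorem n_ne {e : Sym2 V} (he : e ∈ eIn B (U.erase x)) : bt z w e ≠ 0 :=
  mul_ne_zero (sub_ne_zero.2 (h.base.nz _ _ (mem_eIn'.1 he).2.2.ne))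
    (sub_ne_zero.2 (h.base.nw _ _ (mem_eIn'.1 he).2.2.ne))

variable [CharZero K]

/-- a vertex of degree three with zero load and no stress on its free bars is impossible -/
theorem load_ne {v : V} (hv : v ∈ U) (h3 : (nbr B U v).card = 3) (h0 : lam G U r ω v = 0)
    (hf : ∀ j ∈ nbr B U v, ¬G.Adj v j → ω s(v, j) = 0) : False := by
  obtain ⟨j, hj, e⟩ := h.nz v hv h3
  have hG : ∀ j ∈ nbr B U v, ω s(v, j) ≠ 0 → G.Adj v j := fun j hj e => by
    by_contra hn
    exact e (hf j hj hn)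
  refine e (zero_around (nbr B U v) h3.le (fun j => ω s(v, j)) (fun j => z v - z j)
    (fun j => w v - w j) (fun j => r v + r j) (fun j hj e => h.base.tan v j (hG j hj e))
    (fun j _ _ => h.base.ne2 v j) (fun j hj j' hj' e e' => h.base.dir (hG j hj e) (hG j' hj' e'))
    (by rw [← sum_single_bt hv]; exact h.st.1 _) (by rw [← sum_single_bt hv]; exact h.st.2 _)
    ?_ j hj)
  rw [← h0]
  symm
  refine sum_subset (fun j hj => mem_nbr.2 ⟨(mem_nbr.1 hj).1, h.le (mem_nbr.1 hj).2⟩)
    fun j hj hj' => ?_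
  rw [hf j hj fun e => hj' (mem_nbr.2 ⟨(mem_nbr.1 hj).1, e⟩), zero_mul]

theorem lam_x : lam G U r ω x ≠ 0 := fun e =>
  h.load_ne h.hx h.card_x e fun j hj hn => by
    rw [h.hn, ← h.nbrG] at hj
    exact (hn (mem_nbr.1 hj).2).elim

omit [CharZero K] in
theorem load' {D : K → K} (hD : IsDer D) :
    ∑ f ∈ fr G B (U.erase x), ω f * D (bt z w f) +
      2 * (∑ v ∈ U.erase x, lam G U r ω v * D (r v) + lam G U r ω x * D (r x)) = 0 := by
  rw [sum_erase_add _ _ h.hx, ← h.fr_eq]
  exact h.st.load h.base h.le hD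

end Set3

/-- the parameters of the framework without `x` -/
def prm (G B : SimpleGraph V) (U : Finset V) (z w r : V → K) (x : V) : Set K :=
  pset (U.erase x) (fr G B (U.erase x)) r (bt z w)

namespace Set3

variable {G B : SimpleGraph V} {U : Finset V} {z w r : V → K} {x a b c : V} {ω : Sym2 V → K}
  (h : Set3 G B U z w r x a b c ω) [CharZero K]

include h

theorem cn_x : Cn (prm G B U z w r x) (r x) := fun D hD hS => by
  have := h.load' hD
  rw [sum_eq_zero fun f hf => by rw [hS _ (n_mem_pset hf), mul_zero],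
    sum_eq_zero fun v hv => by rw [hS _ (r_mem_pset hv), mul_zero]] at this
  simpa [h.lam_x] using this

theorem cn_r {i : V} (hi : i ∈ U) : Cn (prm G B U z w r x) (r i) := by
  by_cases e : i = x
  · rw [e]; exact h.cn_x
  · exact Cn.of_mem (r_mem_pset (mem_erase.2 ⟨e, hi⟩))

theorem cn_n {e : Sym2 V} (he : e ∈ eIn B (U.erase x)) : Cn (prm G B U z w r x) (bt z w e) := by
  by_cases hG : G.Adj (fs e) (sn e)
  · obtain ⟨m1, m2, -⟩ := mem_eIn'.1 he
    unfold bt
    rw [h.base.tan _ _ hG]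
    exact ((h.cn_r (mem_of_mem_erase m1)).add (h.cn_r (mem_of_mem_erase m2))).sq
  · exact Cn.of_mem (n_mem_pset (mem_fr.2 ⟨he, hG⟩))

theorem cn_lam {v : V} (hv : v ∈ U.erase x) :
    Cn (prm G B U z w r x) (lam G U r ω v / lam G U r ω x) := by
  obtain ⟨D, hD, h1, h2⟩ := h.ind' (Pi.single v (-1)) 0
  have := h.load' hD
  rw [sum_eq_zero fun f hf => by rw [h2 f hf, Pi.zero_apply, mul_zero],
    sum_eq_single_of_mem v hv fun j hj e => by rw [h1 j hj, Pi.single_eq_of_ne e, mul_zero],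
    h1 v hv, Pi.single_eq_same] at this
  have e : lam G U r ω v / lam G U r ω x = -(-1 * D (r x)) := by
    have h0 := h.lam_x
    field_simp
    linear_combination -this / 2
  rw [e]
  intro D' hD' hS
  rw [hD'.neg, h.cn_x.der (hD.smul (-1)) ?_ D' hD' hS, neg_zero]
  rintro _ (⟨i, hi, rfl⟩ | ⟨e, he, rfl⟩)
  · rw [h1 i hi]
    by_cases e : i = v <;> simp [e]
  · simp [h2 e he]

theorem cn_om {f : Sym2 V} (hf : f ∈ fr G B (U.erase x)) :
    Cn (prm G B U z w r x) (ω f / lam G U r ω x) := by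
  obtain ⟨D, hD, h1, h2⟩ := h.ind' 0 (Pi.single f 1)
  have := h.load' hD
  rw [sum_eq_zero (s := U.erase x) fun v hv => by rw [h1 v hv, Pi.zero_apply, mul_zero],
    sum_eq_single_of_mem f hf fun j hj e => by rw [h2 j hj, Pi.single_eq_of_ne e, mul_zero],
    h2 f hf, Pi.single_eq_same] at this
  have e : ω f / lam G U r ω x = -(D (r x) + D (r x)) := by
    have h0 := h.lam_x
    field_simp
    linear_combination this
  have k : Cn (prm G B U z w r x) (D (r x)) := h.cn_x.der hD (by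
    rintro _ (⟨i, hi, rfl⟩ | ⟨e, he, rfl⟩)
    · simp [h1 i hi]
    · rw [h2 e he]
      by_cases e' : e = f <;> simp [e'])
  rw [e]
  intro D' hD' hS
  rw [hD'.neg, (k.add k) D' hD' hS, neg_zero]

omit [CharZero K] in
/-- the derivation along the flex -/
theorem exists_flex : ∃ D, IsDer D ∧ (∀ t ∈ prm G B U z w r x, D t = 0) ∧
    D ((z a - z b) * (w a - w b)) = 1 := by
  obtain ⟨D, hD, h1, h2⟩ := h.ind 0 (Pi.single s(a, b) 1)
  refine ⟨D, hD, kill_pset h1 fun e he => ?_, ?_⟩
  · have : e ≠ s(a, b) := fun e' => h.ab_notMem (e' ▸ he)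
    rw [h2 e (mem_insert_of_mem he), Pi.single_eq_of_ne this]
  · rw [← bt_mk, h2 _ (mem_insert_self _ _), Pi.single_eq_same]

end Set3

end Pool.Agent.P.MP_27dab6_co
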