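import Pool.Agent.P.MP_27dab6_co.Final

/-!
The place where the radii of `a` and `b` become equal: three tight levels.
-/

set_option autoImplicit false

namespace Pool.Agent.P.MP_27dab6_co

open Finset Classical IsLocalRing

variable {V K : Type} [Field K]

/-- a place where the radii of `a` and `b` agree and the other parameters stay independent -/
structure At3 (G B : SimpleGraph V) (U : Finset V) (z w r : V → K) (x a b : V)
    (O : ValuationSubring K) : Prop where
  ch : CharZero (ResidueField O)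
  rO : ∀ i ∈ U.erase x, r i ∈ O
  nO : ∀ f ∈ fr G B (U.erase x), bt z w f ∈ O
  hA : O.valuation (r b - r a) < 1
  der : ∀ (ρ : V → ResidueField O) (c : Sym2 V → ResidueField O), ρ a = ρ b →
    ∃ D, IsDer D ∧ (∀ i ∈ U.erase x, D (res O (r i)) = ρ i) ∧
      ∀ f ∈ fr G B (U.erase x), D (res O (bt z w f)) = c f

/-- `d` kills the residues of the parameters -/
def Kil (G B : SimpleGraph V) (U : Finset V) (z w r : V → K) (x : V) (O : ValuationSubring K)
    (d : ResidueField O → ResidueField O) : Prop :=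
  IsDer d ∧ (∀ i ∈ U.erase x, d (res O (r i)) = 0) ∧
    ∀ f ∈ fr G B (U.erase x), d (res O (bt z w f)) = 0

/-- identification of `a` and `b` at the levels where they coincide -/
noncomputable def gl (O : ValuationSubring K) (z w : V → K) (a b : V) (γ : O.ValueGroup) : V → V :=
  if O.valuation (z a - z b) < γ ∧ O.valuation (w a - w b) < γ⁻¹ then glue a b else id

/-- the edges at level `γ` without `b y` -/
noncomputable def e3 (B : SimpleGraph V) (U : Finset V) (x b y : V) (O : ValuationSubring K)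
    (z : V → K) (γ : O.ValueGroup) : Finset (Sym2 V) :=
  ((eIn B (U.erase x)).erase s(b, y)).filter (lv O z · = γ)

/-- the normalising element of a level -/
noncomputable def nm (O : ValuationSubring K) (Z W : K) (γ : O.ValueGroup) : K :=
  if γ < 1 then Z else if γ = 1 then 1 else W⁻¹

/-- `γ` is one of the three levels -/
def M3 {O : ValuationSubring K} (l γ : O.ValueGroup) : Prop := γ = l ∨ γ = 1 ∨ γ = l⁻¹

section Nm

variable {O₀ O : ValuationSubring K} {Z W : K} {l : O₀.ValueGroup} (l0 : 0 < l) (l1 : l < 1)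

include l0 l1

omit l0 in
theorem nm_lo : nm O₀ Z W l = Z := if_pos l1

omit l0 l1 in
theorem nm_one : nm O₀ Z W 1 = 1 := by simp [nm]

theorem nm_hi : nm O₀ Z W l⁻¹ = W⁻¹ := by
  have := (one_lt_inv₀ l0).2 l1
  rw [nm, if_neg this.not_gt, if_neg this.ne']

theorem nm_val (hZ : O₀.valuation Z = l) (hW : O₀.valuation W = l) {γ : O₀.ValueGroup}
    (h : M3 l γ) : O₀.valuation (nm O₀ Z W γ) = γ := by
  rcases h with rfl | rfl | rfl
  · rw [nm_lo l1, hZ]
  · rw [nm_one, map_one]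
  · rw [nm_hi l0 l1, map_inv₀, hW]

theorem nm_ratio (hZ : O.valuation Z < 1) (hW : O.valuation W < 1) {γ γ' : O₀.ValueGroup}
    (h : M3 l γ) (h' : M3 l γ') (e : γ' < γ) :
    O.valuation (nm O₀ Z W γ' * (nm O₀ Z W γ)⁻¹) < 1 := by
  have l2 := (one_lt_inv₀ l0).2 l1
  rcases h with rfl | rfl | rfl <;> rcases h' with rfl | rfl | rfl
  · exact (e.ne rfl).elim
  · exact (e.not_gt l1).elim
  · exact (e.not_gt (l1.trans l2)).elim
  · simpa [nm_lo l1, nm_one] using hZ
  · exact (e.ne rfl).elim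
  · exact (e.not_gt l2).elim
  · rw [nm_lo l1, nm_hi l0 l1, inv_inv, map_mul]
    exact (mul_le_of_le_one_left zero_le hZ.le).trans_lt hW
  · simpa [nm_hi l0 l1, nm_one] using hW
  · exact (e.ne rfl).elim

end Nm

namespace At3

variable {G B : SimpleGraph V} {U : Finset V} {z w r : V → K} {x a b : V}
  {O : ValuationSubring K} (A : At3 G B U z w r x a b O)

include A

theorem swap : At3 G B U w z r x a b O :=
  ⟨A.ch, A.rO, fun f hf => by rw [bt_comm]; exact A.nO f hf, A.hA, fun ρ c e => by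
    simpa only [bt_comm w z] using A.der ρ c e⟩

theorem symm : At3 G B U z w r x b a O :=
  ⟨A.ch, A.rO, A.nO, by rw [Valuation.map_sub_swap]; exact A.hA, fun ρ c e => A.der ρ c e.symm⟩

theorem scale {u : K} (hu : u ≠ 0) : At3 G B U (fun i => z i / u) (fun i => w i * u) r x a b O :=
  ⟨A.ch, A.rO, by rw [Set3.bt_scale hu]; exact A.nO, A.hA, by rw [Set3.bt_scale hu]; exact A.der⟩

theorem red {i : V} (hi : i ∈ U.erase x) : Red O (r i) (res O (r i)) := Red.of_mem (A.rO i hi)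

theorem res_ab (ha : a ∈ U.erase x) (hb : b ∈ U.erase x) : res O (r b) = res O (r a) :=
  sub_eq_zero.1 (((A.red hb).sub (A.red ha)).unique (red_zero_iff.2 A.hA))

theorem add_ne {i j : V} (hi : i ∈ U.erase x) (hj : j ∈ U.erase x) :
    res O (r i) + res O (r j) ≠ 0 := fun e => by
  have := A.ch
  obtain ⟨D, hD, h1, -⟩ := A.der (fun _ => 1) 0 rfl
  have := congrArg D e
  rw [hD.add, h1 i hi, h1 j hj, hD.zero] at this
  exact two_ne_zero' _ (one_add_one_eq_two.symm.trans this)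

theorem sub_ne {i j : V} (hi : i ∈ U.erase x) (hj : j ∈ U.erase x) (hij : i ≠ j) (ha : i ≠ a)
    (hb : i ≠ b) : res O (r i) - res O (r j) ≠ 0 := fun e => by
  obtain ⟨D, hD, h1, -⟩ := A.der (Pi.single i 1) 0 (by simp [ha.symm, hb.symm])
  have := congrArg D e
  rw [hD.sub, h1 i hi, h1 j hj, hD.zero] at this
  simp [hij.symm] at this

theorem val_n (hb : Base G z w r) {e : Sym2 V} (he : e ∈ eIn B (U.erase x)) :
    O.valuation (w (fs e) - w (sn e)) = (lv O z e)⁻¹ := by
  refine inv_of_mul ?_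
  rw [lv, ← map_mul]
  obtain ⟨m1, m2, -⟩ := mem_eIn'.1 he
  by_cases hG : G.Adj (fs e) (sn e)
  · rw [hb.tan _ _ hG]
    exact (((A.red m1).add (A.red m2)).pow 2).val_eq_one (pow_ne_zero _ (A.add_ne m1 m2))
  · have hf := mem_fr.2 ⟨he, hG⟩
    refine (Red.of_mem (A.nO e hf)).val_eq_one fun e0 => ?_
    obtain ⟨D, hD, -, h1⟩ := A.der 0 (fun _ => 1) rfl
    have := h1 e hf
    rw [e0, hD.zero] at this
    exact zero_ne_one this

end At3

theorem Kil.swap {G B : SimpleGraph V} {U : Finset V} {z w r : V → K} {x : V}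
    {O : ValuationSubring K} {d : ResidueField O → ResidueField O} (h : Kil G B U z w r x O d) :
    Kil G B U w z r x O d := ⟨h.1, h.2.1, fun f hf => by rw [bt_comm]; exact h.2.2 f hf⟩

theorem Kil.scale {G B : SimpleGraph V} {U : Finset V} {z w r : V → K} {x : V}
    {O : ValuationSubring K} {d : ResidueField O → ResidueField O} (h : Kil G B U z w r x O d)
    {u : K} (hu : u ≠ 0) : Kil G B U (fun i => z i / u) (fun i => w i * u) r x O d :=
  ⟨h.1, h.2.1, by rw [Set3.bt_scale hu]; exact h.2.2⟩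

theorem gl_cases (O : ValuationSubring K) (z w : V → K) (a b : V) (γ : O.ValueGroup) :
    (O.valuation (z a - z b) < γ ∧ O.valuation (w a - w b) < γ⁻¹ ∧ gl O z w a b γ = glue a b) ∨
      (¬(O.valuation (z a - z b) < γ ∧ O.valuation (w a - w b) < γ⁻¹) ∧ gl O z w a b γ = id) := by
  unfold gl
  split_ifs with h
  · exact Or.inl ⟨h.1, h.2, rfl⟩
  · exact Or.inr ⟨h, rfl⟩

theorem gl_ne (O : ValuationSubring K) (z w : V → K) {a b : V} (γ : O.ValueGroup) {i : V}
    (h : i ≠ b) : gl O z w a b γ i = i := by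
  rcases gl_cases O z w a b γ with ⟨-, -, e⟩ | ⟨-, e⟩ <;> simp [e, glue, h]

/-- the three tight levels -/
structure T3 (B : SimpleGraph V) (U : Finset V) (z w : V → K) (x a b y : V)
    (O : ValuationSubring K) (l : O.ValueGroup) : Prop where
  l0 : 0 < l
  l1 : l < 1
  hZ : O.valuation (z b - z a) = l
  hW : O.valuation (w b - w a) = l
  ge : ∀ γ, M3 l γ → GeN O (U.erase x) z w γ (e3 B U x b y O z γ).card
  lz : ∀ i ∈ U.erase x, ∀ j ∈ U.erase x, i ≠ j → M3 l (O.valuation (z i - z j))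
  lw : ∀ i ∈ U.erase x, ∀ j ∈ U.erase x, i ≠ j → M3 l (O.valuation (w i - w j))⁻¹

namespace Set3

variable {G B : SimpleGraph V} {U : Finset V} {z w r : V → K} {x a b c : V} {ω : Sym2 V → K}
  (h : Set3 G B U z w r x a b c ω) {O₀ O : ValuationSubring K}

include h

theorem gl_facts (A : At3 G B U z w r x a b O) {γ : O₀.ValueGroup} (h0 : γ ≠ 0) {i : V}
    (hi : i ∈ U.erase x) : gl O₀ z w a b γ i ∈ U.erase x ∧
      O₀.valuation (z (gl O₀ z w a b γ i) - z i) < γ ∧
      O₀.valuation (w (gl O₀ z w a b γ i) - w i) < γ⁻¹ ∧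
      res O (r (gl O₀ z w a b γ i)) = res O (r i) := by
  have h1 := zero_lt_iff.2 h0
  have h2 := zero_lt_iff.2 (inv_ne_zero h0)
  by_cases e : gl O₀ z w a b γ i = i
  · rw [e]; exact ⟨hi, by simpa using h1, by simpa using h2, rfl⟩
  · obtain rfl : i = b := by
      by_contra hne
      exact e (gl_ne _ _ _ _ hne)
    rcases gl_cases O₀ z w a i γ with ⟨e1, e2, e3⟩ | ⟨-, e3⟩
    · rw [e3, glue, if_pos rfl]
      exact ⟨h.ha, e1, e2, (A.res_ab h.ha hi).symm⟩
    · exact (e (by rw [e3]; rfl)).elim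

theorem hab3 {γ : O₀.ValueGroup} {π : K} (hL : LD (U.erase x) O₀ O z w γ π)
    (s1 : O₀.valuation (z a - z b) = γ → O.valuation ((z a - z b) * π⁻¹) = 1)
    (s2 : O₀.valuation (w a - w b) = γ⁻¹ → O.valuation ((w a - w b) * π) = 1)
    (e : ∃ i, gl O₀ z w a b γ i = b) (hn : hL.lev.Near a b) (e1 : hL.lev.ζ a = hL.lev.ζ b)
    (e2 : hL.lev.ω a = hL.lev.ω b) : False := by
  obtain ⟨i, e⟩ := e
  rcases gl_cases O₀ z w a b γ with ⟨-, -, e3⟩ | ⟨e3, -⟩
  · exact glue_ne h.ab i (e3 ▸ e)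
  · have n1 := hL.bz_iff.1 hn.2.2.1
    have n2 := hL.bw_iff.1 hn.2.2.2
    refine e3 ⟨n1.lt_of_ne fun e => ?_, n2.lt_of_ne fun e => ?_⟩
    · exact (hL.redz h.ha h.hb n1).ne_zero (s1 e) (sub_eq_zero.2 e1)
    · exact (hL.redw h.ha h.hb n2).ne_zero (s2 e) (sub_eq_zero.2 e2)

theorem bars3 (A₀ : At3 G B U z w r x a b O₀) (A : At3 G B U z w r x a b O) {y : V}
    {γ : O₀.ValueGroup} {π : K} (hL : LD (U.erase x) O₀ O z w γ π)
    (hZ : O₀.valuation (z a - z b) < 1) (hW : O₀.valuation (w a - w b) < 1)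
    (s1 : O₀.valuation (z a - z b) = γ → O.valuation ((z a - z b) * π⁻¹) = 1)
    (s2 : O₀.valuation (w a - w b) = γ⁻¹ → O.valuation ((w a - w b) * π) = 1) :
    hL.lev.Bars (fun i => res O (r i)) a b
      ((e3 B U x b y O₀ z γ).filter fun e => G.Adj (fs e) (sn e))
      ((e3 B U x b y O₀ z γ).filter fun e => ¬G.Adj (fs e) (sn e))
      (fun e => gl O₀ z w a b γ (fs e)) (fun e => gl O₀ z w a b γ (sn e)) fun _ => 1 := by
  refine hL.bars h.base.tan _ (fun i hi => h.gl_facts A hL.ne hi) A.rO (fun e he => ?_)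
    (fun e _ he => ?_) ?_ (fun _ => h.hab3 hL s1 s2) fun ρ c e => ?_
  · obtain ⟨m, e'⟩ := mem_filter.1 he
    have m := mem_of_mem_erase m
    exact ⟨(mem_eIn'.1 m).1, (mem_eIn'.1 m).2.1, e'.le, by rw [A₀.val_n h.base m, e']⟩
  · have key : ∀ i, gl O₀ z w a b γ i = a ∨ gl O₀ z w a b γ i = b → i = a ∨ i = b := fun i hi => by
      by_cases e : i = b
      · exact Or.inr e
      · rwa [gl_ne _ _ _ _ e] at hi
    have n : ¬((fs e = a ∨ fs e = b) ∧ (sn e = a ∨ sn e = b)) := by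
      rintro ⟨e1 | e1, e2 | e2⟩ <;> rw [e1, e2] at he
      exacts [he.ne rfl, h.nab (h.le he), h.nab (h.le he.symm), he.ne rfl]
    refine ⟨fun e' => ?_, fun e' => n ⟨key _ e'.1, key _ e'.2⟩⟩
    rcases gl_cases O₀ z w a b γ with ⟨-, -, e3⟩ | ⟨-, e3⟩ <;> rw [e3] at e'
    · unfold glue at e'
      split_ifs at e' with e1 e2 e2
      exacts [n ⟨Or.inr e1, Or.inr e2⟩, n ⟨Or.inr e1, Or.inl e'.symm⟩, n ⟨Or.inl e', Or.inr e2⟩,
        he.ne e']
    · exact he.ne e'
  · rcases le_or_gt γ 1 with e | e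
    · exact Or.inr (hW.trans_le ((one_le_inv₀ (zero_lt_iff.2 hL.ne)).2 e))
    · exact Or.inl (hZ.trans e)
  · obtain ⟨D, a1, a2, a3⟩ := A.der ρ c e
    exact ⟨D, a1, a2, fun f hf hf' =>
      a3 f (mem_fr.2 ⟨mem_of_mem_erase (mem_filter.1 hf).1, hf'⟩)⟩

variable {y : V} (hy : y ∈ U.erase x) (ya : G.Adj y a) (yb : G.Adj y b)

include hy ya yb

theorem node3 {κ : Type} [Field κ] [CharZero κ] {γ : O₀.ValueGroup} :
    NodeBd ((e3 B U x b y O₀ z γ).filter fun e => G.Adj (fs e) (sn e))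
      (fun e => gl O₀ z w a b γ (fs e)) (fun e => gl O₀ z w a b γ (sn e))
      (fun _ => (1 : κ)) 2 4 := by
  have sub : ∀ e ∈ (e3 B U x b y O₀ z γ).filter fun e => G.Adj (fs e) (sn e),
      e ≠ s(b, y) ∧ e ∈ eIn B (U.erase x) := fun e he =>
    mem_erase.1 (mem_filter.1 (mem_filter.1 he).1).1
  rcases gl_cases O₀ z w a b γ with ⟨-, -, e⟩ | ⟨-, e⟩ <;> rw [e]
  · refine nodeBd_of_ne fun F hF S col hc h2 => ?_
    have hinj : ∀ e ∈ F, ∀ e' ∈ F, e.map (glue a b) = e'.map (glue a b) → e = e' :=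
      glue_inj (fun e => h.nab (mem_eIn.1 (sub _ (hF e)).2).2.2)
        (fun e he => not_diag (sub e (hF he)).2) fun j h1 h2 => by
          obtain ⟨-, m, e1⟩ := mem_eIn.1 (sub _ (hF h1)).2
          have e2 := (mem_eIn.1 (sub _ (hF h2)).2).2.2
          refine (sub _ (hF h2)).1 ?_
          rw [common_unique h.sp h.ti h.pm h.deg h.hx h.hn h.ab h.ac h.bc h.noT
            (mem_of_mem_erase m) (mem_of_mem_erase hy) (mem_erase.1 m).1 (mem_erase.1 hy).1
            (fun e => h.not_common (e ▸ e1) (e ▸ e2))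
            (fun e => h.not_common (e ▸ (h.le ya).symm) (e ▸ (h.le yb).symm)) e1 e2 (h.le ya).symm
            (h.le yb).symm]
    exact h.pm.glued h.hx (mem_of_mem_erase h.ha) (mem_of_mem_erase h.hb) (h.le h.ta) (h.le h.tb)
      (fun e he => (sub e (hF he)).2) hinj S col hc (three_le' hinj hc h2)
  · exact h.pm.nodeBd fun e he => eIn_mono le_rfl (erase_subset _ _) (sub e he).2

theorem tight3 (A : At3 G B U z w r x a b O) (hz : z y - z a = r y + r a)
    (hZ : O.valuation (z b - z a) < 1) (hW : O.valuation (w b - w a) = O.valuation (z b - z a)) :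
    T3 B U z w x a b y O (O.valuation (z b - z a)) := by
  have := A.ch
  obtain ⟨l, hl⟩ : ∃ l, O.valuation (z b - z a) = l := ⟨_, rfl⟩
  have Z0 := sub_ne_zero.2 (h.base.nz b a h.ab.symm)
  have W0 := sub_ne_zero.2 (h.base.nw b a h.ab.symm)
  have l0 : 0 < l := zero_lt_iff.2 (by simpa [← hl] using Z0)
  rw [hl] at hZ hW ⊢
  have l2 := (one_lt_inv₀ l0).2 hZ
  have le : ∀ π : K, LD (U.erase x) O O z w (O.valuation π) π →
      LeN O (U.erase x) z w (O.valuation π) (e3 B U x b y O z (O.valuation π)).card := fun π hL =>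
    (h.bars3 A A hL (by rw [Valuation.map_sub_swap, hl]; exact hZ)
      (by rw [Valuation.map_sub_swap, hW]; exact hZ)
      (fun e => by rw [map_mul, map_inv₀, e, mul_inv_cancel₀ hL.ne])
      (fun e => by rw [map_mul, e, inv_mul_cancel₀ hL.ne])).le' (h.node3 hy ya yb) (filter_split _)
  obtain ⟨ge, lz, lw⟩ := budget (O := O) (z := z) (w := w) ⟨a, h.ha⟩
    ((eIn B (U.erase x)).erase s(b, y)) {l, 1, l⁻¹} (fun _ => 0)
    (fun γ hγ => by
      simp only [mem_union, mem_insert, mem_singleton, mem_image] at hγ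
      rcases hγ with (rfl | rfl | rfl) | ⟨e, he, rfl⟩
      exacts [l0.ne', one_ne_zero, inv_ne_zero l0.ne', (h.lev_edge (mem_of_mem_erase he)).ne])
    (fun γ hγ => by
      simp only [mem_union, mem_insert, mem_singleton, mem_image] at hγ
      rcases hγ with (e | e | e) | ⟨e, he, rfl⟩
      · rw [e, ← hl]
        exact le _ (LD.self Z0 ⟨b, h.hb, a, h.ha, Or.inl rfl⟩)
      · rw [e, ← map_one O.valuation]
        exact le _ (LD.self one_ne_zero ⟨y, hy, a, h.ha, Or.inl (by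
          rw [hz, map_one]
          exact ((A.red hy).add (A.red h.ha)).val_eq_one (A.add_ne hy h.ha))⟩)
      · rw [e, ← hW, ← map_inv₀]
        exact le _ (LD.self (inv_ne_zero W0) ⟨b, h.hb, a, h.ha, Or.inr (by simp)⟩)
      · exact le _ (h.lev_edge (mem_of_mem_erase he)))
    (by
      have := h.card_e
      have := card_erase_add_one (mem_eIn.2 ⟨h.hb, hy, (h.le yb).symm⟩)
      rw [card_eq_three.2 ⟨l, 1, l⁻¹, hZ.ne, (hZ.trans l2).ne, l2.ne, rfl⟩]
      omega)
  exact ⟨l0, hZ, hl, hW, fun γ hγ => ge γ (by simpa [M3] using hγ),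
    fun i hi j hj e => by simpa [M3] using lz i hi j hj (h.base.nz i j e),
    fun i hi j hj e => by
      simpa only [M3, mem_insert, mem_singleton] using lw i hi j hj (h.base.nw i j e)⟩

end Set3

end Pool.Agent.P.MP_27dab6_co
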