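import Pool.Agent.P.MP_27dab6_co.Level

/-!
Adding one internal tangency to a family of external tangent bars.
-/

set_option autoImplicit false

namespace Pool.Agent.P.MP_27dab6_co

open Finset Classical IsLocalRing

variable {κ : Type} [Field κ] [CharZero κ]

namespace Lev

variable {V E : Type} {Λ : Lev κ V} {r : V → κ} {α β : V} {T Φ A : Finset E} {s t : E → V}
  {η : E → κ}

omit [Field κ] [CharZero κ] in
theorem union_eq (hA : ∀ e, e ∈ A ↔ e ∈ T ∨ e ∈ Φ) : T ∪ Φ = A := by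
  ext e; rw [mem_union, hA]

theorem Bars.le' (h : Λ.Bars r α β T Φ s t η) (H : NodeBd T s t η 2 4)
    (hA : ∀ e, e ∈ A ↔ e ∈ T ∨ e ∈ Φ) : Λ.Le A.card :=
  union_eq hA ▸ h.le (h.nodeBd_of H)

theorem Bars.sf' (h : Λ.Bars r α β T Φ s t η) (H : NodeBd T s t η 2 4)
    (hA : ∀ e, e ∈ A ↔ e ∈ T ∨ e ∈ Φ) (hge : Λ.Ge A.card) : Λ.SF A s t :=
  union_eq hA ▸ h.sf H (by rwa [union_eq hA])

theorem Bars.rig' (h : Λ.Bars r α β T Φ s t η) (H : NodeBd T s t η 2 4)
    (hA : ∀ e, e ∈ A ↔ e ∈ T ∨ e ∈ Φ) (hge : Λ.Ge A.card) : Λ.Rig A s t :=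
  union_eq hA ▸ h.rig H (by rwa [union_eq hA])

variable (Λ r α β T s t) in
/-- `p` and `q` are internally tangent -/
structure Int (p q : V) : Prop where
  near : Λ.Near p q
  ne : p ≠ q
  sp : ¬((p = α ∨ p = β) ∧ (q = α ∨ q = β))
  tan : (Λ.ζ p - Λ.ζ q) * (Λ.ω p - Λ.ω q) = (r p - r q) ^ 2
  hab : α ≠ β → ((∃ e ∈ T, s e = α ∨ t e = α) ∨ p = α ∨ q = α) →
    ((∃ e ∈ T, s e = β ∨ t e = β) ∨ p = β ∨ q = β) → Λ.Near α β → Λ.ζ α = Λ.ζ β →
      Λ.ω α = Λ.ω β → False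

variable {p q : V}

omit [CharZero κ] in
theorem Bars.ext (h : Λ.Bars r α β T Φ s t fun _ => 1) (hi : Λ.Int r α β T s t p q) :
    Λ.Bars r α β (insertNone T) (Φ.map Function.Embedding.some) (fun o => o.elim p s)
      (fun o => o.elim q t) fun o => o.elim (-1) fun _ => 1 where
  hN := by
    rintro (_ | e) he
    · exact hi.near
    · exact h.hN e (by simpa using he)
  hη := by
    rintro (_ | e) _
    · exact Or.inr rfl
    · exact Or.inl rfl
  hst := by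
    rintro (_ | e) he
    · exact ⟨hi.ne, hi.sp⟩
    · exact h.hst e (by simpa using he)
  hE := by
    rintro (_ | e) he
    · simp only [Option.elim_none]; rw [hi.tan]; ring
    · exact h.hE e (by simpa using he)
  hs := h.hs
  hab := fun hne h1 h2 => hi.hab hne
    (by
      obtain ⟨_ | e, he, h1⟩ := h1
      · exact Or.inr h1
      · exact Or.inl ⟨e, by simpa using he, h1⟩)
    (by
      obtain ⟨_ | e, he, h2⟩ := h2
      · exact Or.inr h2
      · exact Or.inl ⟨e, by simpa using he, h2⟩)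
  hder := fun ρ c e => by
    obtain ⟨D, a, b, d⟩ := h.hder ρ (fun e => c (some e)) e
    refine ⟨D, a, b, fun f hf => ?_⟩
    obtain ⟨f', hf', rfl⟩ := mem_map.1 hf
    exact d f' hf'
  hdis := by
    rw [disjoint_right]
    intro f hf hf'
    obtain ⟨f', hf'', rfl⟩ := mem_map.1 hf
    exact disjoint_right.1 h.hdis hf'' (by simpa using hf')

omit [Field κ] [CharZero κ] in
theorem ext_mem (hA : ∀ e, e ∈ A ↔ e ∈ T ∨ e ∈ Φ) (o : Option E) :
    o ∈ insertNone A ↔ o ∈ insertNone T ∨ o ∈ Φ.map Function.Embedding.some := by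
  rcases o with _ | e <;> simp [hA]

theorem ext_nodeBd {n k : ℕ}
    (H0 : ∀ F ⊆ T, ∀ (S : Finset V) (col : V → Bool),
      (∀ e ∈ F, s e ∈ S ∧ t e ∈ S ∧ col (s e) ≠ col (t e)) → n ≤ F.card → F.card + k ≤ 2 * S.card)
    (H1 : ∀ F ⊆ T, ∀ (S : Finset V) (col : V → Bool),
      (∀ e ∈ F, s e ∈ S ∧ t e ∈ S ∧ col (s e) ≠ col (t e)) → p ∈ S → q ∈ S → col p = col q →
      n ≤ F.card + 1 → F.card + 1 + k ≤ 2 * S.card) :
    NodeBd (insertNone T) (fun o => o.elim p s) (fun o => o.elim q t)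
      (fun o => o.elim (-1 : κ) fun _ => 1) n k := by
  intro F hF S col hc hn
  have h1 : eraseNone F ⊆ T := fun e he => by simpa using hF (mem_eraseNone.1 he)
  have h2 : ∀ e ∈ eraseNone F, s e ∈ S ∧ t e ∈ S ∧ col (s e) ≠ col (t e) := fun e he => by
    obtain ⟨a, b, c⟩ := hc _ (mem_eraseNone.1 he)
    refine ⟨a, b, fun e' => ?_⟩
    have : (1 : κ) = -1 := c.1 e'
    exact two_ne_zero' κ (by linear_combination this)
  by_cases h0 : none ∈ F
  · have e := card_eraseNone_of_mem h0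
    have := card_pos.2 ⟨_, h0⟩
    obtain ⟨a, b, c⟩ := hc _ h0
    have := H1 _ h1 S col h2 a b (c.2 rfl) (by omega)
    omega
  · have e := card_eraseNone_of_not_mem h0
    have := H0 _ h1 S col h2 (by omega)
    omega

theorem nodeBd_ne {n k : ℕ} (H : NodeBd T s t (fun _ => (1 : κ)) n k) :
    ∀ F ⊆ T, ∀ (S : Finset V) (col : V → Bool),
      (∀ e ∈ F, s e ∈ S ∧ t e ∈ S ∧ col (s e) ≠ col (t e)) → n ≤ F.card →
      F.card + k ≤ 2 * S.card := fun F hF S col hc =>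
  H F hF S col fun e he => ⟨(hc e he).1, (hc e he).2.1, fun e' => ((hc e he).2.2 e').elim,
    fun e' => (two_ne_zero' κ (by linear_combination e')).elim⟩

/-- a tight family of bars leaves no room for an internal tangency -/
theorem Bars.virt (h : Λ.Bars r α β T Φ s t fun _ => 1) (H : NodeBd T s t (fun _ => (1 : κ)) 2 4)
    (hA : ∀ e, e ∈ A ↔ e ∈ T ∨ e ∈ Φ) (hge : Λ.Ge A.card) (hi : Λ.Int r α β T s t p q) :
    False := by
  have := (h.ext hi).le (ext_nodeBd (nodeBd_ne (h.nodeBd_of H)) fun F hF S col hc hp hq e _ => by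
    have h2 : 2 ≤ S.card := one_lt_card.2 ⟨p, hp, q, hq, hi.ne⟩
    rcases Nat.lt_or_ge F.card 2 with h1 | h1
    · rcases F.eq_empty_or_nonempty with rfl | ⟨f, hf⟩
      · simp only [card_empty]; omega
      · obtain ⟨a, b, c⟩ := hc f hf
        have : 2 < S.card := by
          by_cases e1 : col (s f) = col p
          · exact two_lt_card_iff.2 ⟨p, q, t f, hp, hq, b, hi.ne, fun e' => c (by rw [e1, e']),
              fun e' => c (by rw [e1, e, e'])⟩
          · exact two_lt_card_iff.2 ⟨p, q, s f, hp, hq, a, hi.ne, fun e' => e1 (by rw [e']),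
              fun e' => e1 (by rw [e, e'])⟩
        omega
    · have := nodeBd_ne H F hF S col hc h1
      omega)
  rw [union_eq (ext_mem hA), card_insertNone] at this
  unfold Le at this
  unfold Ge at hge
  omega

section Ext

variable (h : Λ.Bars r α β T Φ s t fun _ => 1) (hi : Λ.Int r α β T s t p q)
  (H : NodeBd (insertNone T) (fun o => o.elim p s) (fun o => o.elim q t)
    (fun o => o.elim (-1 : κ) fun _ => 1) 2 4) (hA : ∀ e, e ∈ A ↔ e ∈ T ∨ e ∈ Φ)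

include h hi H hA

theorem Bars.ext_le : Λ.Le (A.card + 1) := by
  have := (h.ext hi).le' H (ext_mem hA)
  rwa [card_insertNone] at this

theorem Bars.ext_sf (hge : Λ.Ge (A.card + 1)) (c0 : κ) (c : E → κ)
    (h1 : ∀ φ : V → κ, (∀ i j, Λ.lz i = Λ.lz j → φ i = φ j) →
      c0 * ((Λ.ω p - Λ.ω q) * (φ p - φ q)) +
        ∑ f ∈ A, c f * ((Λ.ω (s f) - Λ.ω (t f)) * (φ (s f) - φ (t f))) = 0)
    (h2 : ∀ φ : V → κ, (∀ i j, Λ.lw i = Λ.lw j → φ i = φ j) →
      c0 * ((Λ.ζ p - Λ.ζ q) * (φ p - φ q)) +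
        ∑ f ∈ A, c f * ((Λ.ζ (s f) - Λ.ζ (t f)) * (φ (s f) - φ (t f))) = 0) :
    c0 = 0 ∧ ∀ f ∈ A, c f = 0 := by
  have := (h.ext hi).sf' H (ext_mem hA) (by rwa [card_insertNone]) (fun o => o.elim c0 c)
    (fun φ hφ => by rw [sum_insertNone]; exact h1 φ hφ)
    (fun φ hφ => by rw [sum_insertNone]; exact h2 φ hφ)
  exact ⟨this none none_mem_insertNone, fun f hf => this (some f) (some_mem_insertNone.2 hf)⟩

theorem Bars.ext_rig (hge : Λ.Ge (A.card + 1)) (δz δw : V → κ) (h1 : ConstOn Λ.U Λ.lz δz)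
    (h2 : ConstOn Λ.U Λ.lw δw) (h3 : Λ.row p q δz δw = 0)
    (h4 : ∀ f ∈ A, Λ.row (s f) (t f) δz δw = 0) : Λ.Triv δz δw :=
  (h.ext hi).rig' H (ext_mem hA) (by rwa [card_insertNone]) δz δw h1 h2 (by
    rintro (_ | f) hf
    · exact h3
    · exact h4 f (some_mem_insertNone.1 hf))

theorem Bars.ext_dir (hge : Λ.Ge (A.card + 1)) {e e' : E} (he : e ∈ T) (he' : e' ∈ T)
    {v j j' : V} (h1 : (s e = v ∧ t e = j) ∨ (t e = v ∧ s e = j))
    (h2 : (s e' = v ∧ t e' = j') ∨ (t e' = v ∧ s e' = j'))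
    (hd : (Λ.ζ v - Λ.ζ j) / (r v + r j) = (Λ.ζ v - Λ.ζ j') / (r v + r j')) : e' = e :=
  Option.some.inj ((h.ext hi).dir_ne H (by rwa [union_eq (ext_mem hA), card_insertNone])
    (some_mem_insertNone.2 he) (some_mem_insertNone.2 he') rfl rfl h1 h2 hd)

end Ext

end Lev

section Gen

variable {V K : Type} [Field K] {U : Finset V} {O₀ O : ValuationSubring K} {z w r : V → K}
  {γ : O₀.ValueGroup} {π : K} {G : SimpleGraph V}

theorem LD.glue_z (h : LD U O₀ O z w γ π) {i j : V} (hi : i ∈ U) (hj : j ∈ U)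
    (e : O₀.valuation (z i - z j) < γ) : h.lev.ζ i = h.lev.ζ j :=
  h.lev.cz i hi j hj (h.lz_iff.2 e)

theorem LD.glue_w (h : LD U O₀ O z w γ π) {i j : V} (hi : i ∈ U) (hj : j ∈ U)
    (e : O₀.valuation (w i - w j) < γ⁻¹) : h.lev.ω i = h.lev.ω j :=
  h.lev.cw i hi j hj (h.lw_iff.2 e)

theorem LD.bars (h : LD U O₀ O z w γ π)
    (htan : ∀ i j, G.Adj i j → (z i - z j) * (w i - w j) = (r i + r j) ^ 2) (g : V → V)
    (hg : ∀ i ∈ U, g i ∈ U ∧ O₀.valuation (z (g i) - z i) < γ ∧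
      O₀.valuation (w (g i) - w i) < γ⁻¹ ∧ res O (r (g i)) = res O (r i))
    (hr : ∀ i ∈ U, r i ∈ O) {A : Finset (Sym2 V)}
    (hA : ∀ e ∈ A, fs e ∈ U ∧ sn e ∈ U ∧ O₀.valuation (z (fs e) - z (sn e)) ≤ γ ∧
      O₀.valuation (w (fs e) - w (sn e)) ≤ γ⁻¹) {α β : V}
    (hst : ∀ e ∈ A, G.Adj (fs e) (sn e) → g (fs e) ≠ g (sn e) ∧
      ¬((g (fs e) = α ∨ g (fs e) = β) ∧ (g (sn e) = α ∨ g (sn e) = β)))
    (hs : O₀.valuation (z α - z β) < γ ∨ O₀.valuation (w α - w β) < γ⁻¹)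
    (hab : α ≠ β → (∃ i, g i = β) → h.lev.Near α β → h.lev.ζ α = h.lev.ζ β →
      h.lev.ω α = h.lev.ω β → False)
    (hder : ∀ (ρ : V → ResidueField O) (c : Sym2 V → ResidueField O), ρ α = ρ β →
      ∃ D, IsDer D ∧ (∀ i ∈ U, D (res O (r i)) = ρ i) ∧
        ∀ f ∈ A, ¬G.Adj (fs f) (sn f) → D (res O (bt z w f)) = c f) :
    h.lev.Bars (fun i => res O (r i)) α β (A.filter fun e => G.Adj (fs e) (sn e))
      (A.filter fun e => ¬G.Adj (fs e) (sn e)) (fun e => g (fs e)) (fun e => g (sn e))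
      fun _ => 1 := by
  have key : ∀ e ∈ A, (h.lev.ζ (g (fs e)) - h.lev.ζ (g (sn e))) *
      (h.lev.ω (g (fs e)) - h.lev.ω (g (sn e))) = res O (bt z w e) := fun e he => by
    obtain ⟨a, b, c, d⟩ := hA e he
    rw [h.glue_z (hg _ a).1 a (hg _ a).2.1, h.glue_z (hg _ b).1 b (hg _ b).2.1,
      h.glue_w (hg _ a).1 a (hg _ a).2.2.1, h.glue_w (hg _ b).1 b (hg _ b).2.2.1]
    exact (h.prod (h.near a b c d)).2.symm
  refine ⟨fun e he => ?_, fun _ _ => Or.inl rfl,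
    fun e he => hst e (mem_filter.1 he).1 (mem_filter.1 he).2, fun e he => ?_,
    hs.imp h.lz_iff.2 h.lw_iff.2, fun hne _ h2 => hab hne ?_, fun ρ c e => ?_,
    disjoint_filter_filter_not _ _ _⟩
  · have he' : e ∈ A := by
      simp only [mem_union, mem_filter] at he
      tauto
    obtain ⟨a, b, c, d⟩ := hA e he'
    refine h.near (hg _ a).1 (hg _ b).1 (val_tri_le (hg _ a).2.1.le (val_tri_le c ?_))
      (val_tri_le (hg _ a).2.2.1.le (val_tri_le d ?_))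
    · rw [Valuation.map_sub_swap]; exact (hg _ b).2.1.le
    · rw [Valuation.map_sub_swap]; exact (hg _ b).2.2.1.le
  · obtain ⟨he1, he2⟩ := mem_filter.1 he
    obtain ⟨a, b, -⟩ := hA e he1
    rw [key e he1, (hg _ a).2.2.2, (hg _ b).2.2.2, one_mul]
    exact ((((Red.of_mem (hr _ a)).add (Red.of_mem (hr _ b))).pow 2).congr
      (htan _ _ he2).symm rfl).2
  · obtain ⟨e, -, h2 | h2⟩ := h2
    · exact ⟨_, h2⟩
    · exact ⟨_, h2⟩
  · obtain ⟨D, a, b, d⟩ := hder ρ c e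
    refine ⟨D, a, b, fun f hf => ?_⟩
    rw [key f (mem_filter.1 hf).1]
    exact d f (mem_filter.1 hf).1 (mem_filter.1 hf).2

theorem filter_split {A : Finset (Sym2 V)} (p : Sym2 V → Prop) (e : Sym2 V) :
    e ∈ A ↔ e ∈ A.filter p ∨ e ∈ A.filter fun e => ¬p e := by
  simp only [mem_filter]; tauto

end Gen

end Pool.Agent.P.MP_27dab6_co
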